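import Pool.Agent.Lib.MP_958bd4_lc.SpecC

section
/-!
# MP_958bd4_lc: module AMBSD
-/
set_option autoImplicit false

universe u

namespace Pool.Agent.Lib.MP958bd4

open Polynomial IsLocalRing

namespace AMBSDM

/-- common denominator of finitely many polynomials -/
theorem exists_den {B F : Type u} [CommRing B] [IsDomain B] [Field F] [Algebra B F]
    [IsFractionRing B F] {ι : Type} [Fintype ι] (f : ι → F[X]) :
    ∃ d : B, d ≠ 0 ∧ ∃ G : ι → B[X], ∀ i, (G i).map (algebraMap B F) =
      C (algebraMap B F d) * f i := by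
  classical
  have h : ∀ i, ∃ d : B, d ≠ 0 ∧ ∃ G : B[X], G.map (algebraMap B F) =
      C (algebraMap B F d) * f i := by
    intro i
    obtain ⟨b, hb, he⟩ := IsLocalization.integerNormalization_spec (nonZeroDivisors B) (f i)
    refine ⟨b, nonZeroDivisors.ne_zero hb, _, he.trans ?_⟩
    ext n
    rw [coeff_smul, coeff_C_mul, Algebra.smul_def]
  choose d hd G hG using h
  refine ⟨∏ i, d i, Finset.prod_ne_zero_iff.2 fun i _ => hd i,
    fun i => C (∏ j ∈ Finset.univ.erase i, d j) * G i, fun i => ?_⟩
  rw [Polynomial.map_mul, hG, Polynomial.map_C, ← mul_assoc, ← C_mul, ← map_mul, mul_comm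
    (∏ j ∈ _, d j), Finset.mul_prod_erase _ _ (Finset.mem_univ i)]

/-- the reciprocal polynomial -/
noncomputable def psi {B : Type u} [CommRing B] (s : ℕ) (k : Fin (s + 1) → B) : B[X] :=
  X ^ (s + 2) + (X ^ (s + 1) + ∑ j : Fin (s + 1), C (k j) * X ^ (s - j.val))

theorem sum_deg {B : Type u} [CommRing B] (s : ℕ) (k : Fin (s + 1) → B) :
    (∑ j : Fin (s + 1), C (k j) * X ^ (s - j.val) : B[X]).degree ≤ (s : ℕ) := by
  refine (degree_sum_le _ _).trans (Finset.sup_le fun j _ => ?_)
  refine (degree_C_mul_X_pow_le _ _).trans ?_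
  exact_mod_cast Nat.sub_le _ _

theorem low_deg {B : Type u} [CommRing B] (s : ℕ) (k : Fin (s + 1) → B) :
    (X ^ (s + 1) + ∑ j : Fin (s + 1), C (k j) * X ^ (s - j.val) : B[X]).degree <
      ((s + 2 : ℕ) : WithBot ℕ) := by
  refine (degree_add_le _ _).trans_lt (max_lt ?_ ?_)
  · refine (degree_X_pow_le _).trans_lt ?_
    exact_mod_cast Nat.lt_succ_self _
  · refine (sum_deg s k).trans_lt ?_
    exact_mod_cast (by omega : s < s + 2)

theorem psi_monic {B : Type u} [CommRing B] (s : ℕ) (k : Fin (s + 1) → B) : (psi s k).Monic :=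
  monic_X_pow_add (low_deg s k)

theorem psi_natDegree {B : Type u} [CommRing B] [Nontrivial B] (s : ℕ) (k : Fin (s + 1) → B) :
    (psi s k).natDegree = s + 2 :=
  natDegree_eq_of_degree_eq_some ((degree_add_eq_left_of_degree_lt
    (by rw [degree_X_pow]; exact low_deg s k)).trans (degree_X_pow _))

theorem psi_eval {B : Type u} [CommRing B] (s : ℕ) (k : Fin (s + 1) → B) (z : B) :
    (psi s k).eval z = z ^ (s + 2) + (z ^ (s + 1) + ∑ j : Fin (s + 1), k j * z ^ (s - j.val)) := by
  simp [psi, eval_finsetSum]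

/-- the identity `cf₀ ψ(Z) = Z ^ r P(θ / Z)` -/
theorem ident {F : Type u} [Field F] (s : ℕ) (c : Fin (s + 3) → F) (k : Fin (s + 1) → F)
    (θ Z : F) (h1 : c 1 ≠ 0) (hθ : θ = c 0 / c 1)
    (hk : ∀ j : Fin (s + 1), k j = c j.succ.succ * θ ^ (j.val + 1) / c 1) (hZ : Z ≠ 0) :
    c 0 * (psi s k).eval Z = Z ^ (s + 2) * ∑ j : Fin (s + 3), c j * (θ / Z) ^ (j : ℕ) := by
  have hc0 : c 0 = θ * c 1 := by rw [hθ]; field_simp
  rw [psi_eval, Fin.sum_univ_succ (n := s + 2), Fin.sum_univ_succ (n := s + 1)]
  simp only [Fin.val_zero, pow_zero, mul_one, Fin.val_succ]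
  rw [mul_add, mul_add, mul_add, mul_add, Finset.mul_sum, Finset.mul_sum]
  congr 1
  · ring
  congr 1
  · rw [hc0]
    have : (Fin.succ 0 : Fin (s + 3)) = 1 := rfl
    rw [this, zero_add, pow_one, pow_succ Z (s + 1)]
    field_simp
  · refine Finset.sum_congr rfl fun j _ => ?_
    rw [hk, hc0]
    have hj : s + 2 = (s - j.val) + (j.val + 1 + 1) := by have := j.2; omega
    have hz : Z ^ (s + 2) = Z ^ (s - j.val) * Z ^ (j.val + 1 + 1) := by rw [← pow_add, ← hj]
    rw [div_pow]
    field_simp
    rw [hz]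
    ring

theorem isUnit_of_sub_mem {B : Type u} [CommRing B] [IsLocalRing B] {a b : B}
    (ha : IsUnit a) (h : b - a ∈ maximalIdeal B) : IsUnit b := by
  by_contra hb
  have : b ∈ maximalIdeal B := (mem_maximalIdeal _).2 hb
  have h2 := Ideal.sub_mem _ this h
  rw [sub_sub_cancel] at h2
  exact (mem_maximalIdeal _).1 h2 ha

theorem psi_deriv {B : Type u} [CommRing B] (s : ℕ) (k : Fin (s + 1) → B) (z : B) :
    (psi s k).derivative.eval z = ((s + 2 : ℕ) : B) * z ^ (s + 1) + (((s + 1 : ℕ) : B) * z ^ s +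
      ∑ j : Fin (s + 1), k j * (((s - j.val : ℕ) : B) * z ^ (s - j.val - 1))) := by
  simp [psi, eval_finsetSum, derivative_X_pow]
  ring

theorem psi_map {B F : Type u} [CommRing B] [CommRing F] (φ : B →+* F) (s : ℕ)
    (k : Fin (s + 1) → B) : (psi s k).map φ = psi s (fun j => φ (k j)) := by
  simp [psi, Polynomial.map_sum]

end AMBSDM

open AMBSDM in
theorem specAMBSD : SpecAMBSD.{u} := by
  intro r B F _ _ _ _ _ _ hnf hr hL cf hcf0 hcf1 c₁ hc₁
  classical
  obtain ⟨s, rfl⟩ : ∃ s, r = s + 2 := ⟨r - 2, by omega⟩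
  have hinj : Function.Injective (algebraMap B F) := IsFractionRing.injective B F
  set φ := algebraMap B F with hφ
  obtain ⟨d, hd, G, hG⟩ := exists_den (B := B) (F := F)
    (fun j : Fin (s + 2 + 1) => (cf j).comp (X + 1))
  have hφd : φ d ≠ 0 := fun h => hd (hinj (by rw [h, map_zero]))
  have hGv : ∀ (j : Fin (s + 2 + 1)) (y : B),
      φ ((G j).eval y) = φ d * (cf j).eval (1 + φ y) := by
    intro j y
    rw [← eval₂_at_apply, ← eval_map, hG, eval_mul, eval_C, eval_comp, eval_add, eval_X, eval_one,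
      add_comm (φ y)]
  obtain ⟨p, q, hq, hpq⟩ := IsFractionRing.div_surjective (A := B) c₁
  have hq0 : φ q ≠ 0 := fun h => nonZeroDivisors.ne_zero hq (hinj (by rw [h, map_zero]))
  have hp0 : p ≠ 0 := by
    rintro rfl
    rw [map_zero, zero_div] at hpq
    exact hc₁ hpq.symm
  have hm : maximalIdeal B ≠ ⊥ := fun h => hnf (isField_iff_maximalIdeal_eq.2 h)
  obtain ⟨m0, hm0, hm0'⟩ := Submodule.exists_mem_ne_zero_of_ne_bot hm
  set ε := (G 1).eval 0 with hε
  have hφε : φ ε ≠ 0 := by
    rw [hε, hGv, map_zero, add_zero]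
    exact mul_ne_zero hφd hcf1
  have hε0 : ε ≠ 0 := fun h => hφε (by rw [h, map_zero])
  have hG0 : (G 0).eval 0 = 0 := hinj (by rw [hGv, map_zero, add_zero, hcf0, mul_zero])
  set c3 := ε * p * m0 with hc3
  have hc3m : c3 ∈ maximalIdeal B := Ideal.mul_mem_left _ _ hm0
  refine ⟨φ (ε * c3), fun h => ?_, fun b w hw hcw hρ => ?_⟩
  · have : ε * c3 = 0 := hinj (by rw [h, map_zero])
    exact (mul_ne_zero hε0 (mul_ne_zero (mul_ne_zero hε0 hp0) hm0')) this
  obtain ⟨ρ, hρi, hρ0⟩ := hρ
  set y := ε * c3 * b with hy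
  have hw' : w = 1 + φ y := by rw [hw, hy, map_mul φ (ε * c3) b]
  obtain ⟨β0', hβ0'⟩ := Polynomial.sub_dvd_eval_sub y 0 (G 0)
  obtain ⟨β1', hβ1'⟩ := Polynomial.sub_dvd_eval_sub y 0 (G 1)
  rw [hG0, sub_zero, sub_zero] at hβ0'
  rw [← hε, sub_zero] at hβ1'
  set A : Fin (s + 2 + 1) → B := fun j => (G j).eval y with hA
  set β0 := b * β0' with hβ0
  set u := 1 + c3 * b * β1' with hu
  have hA0 : A 0 = ε * c3 * β0 := by
    show (G 0).eval y = _
    rw [hβ0', hy, hβ0]; ring
  have hA1 : A 1 = ε * u := by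
    show (G 1).eval y = _
    rw [sub_eq_iff_eq_add.1 hβ1', hy, hu]; ring
  have huu : IsUnit u := isUnit_of_sub_mem isUnit_one (by
    rw [hu, add_sub_cancel_left, mul_assoc]; exact Ideal.mul_mem_right _ _ hc3m)
  obtain ⟨v', hv'⟩ := huu.exists_right_inv
  have hcfA : ∀ j, (cf j).eval w = φ (A j) / φ d := by
    intro j
    rw [eq_div_iff hφd, hA]
    simp only
    rw [hGv, hw', mul_comm]
  set θB := c3 * β0 * v' with hθB
  have hθA : A 0 = θB * A 1 := by
    rw [hA0, hA1, hθB]
    linear_combination (-ε * c3 * β0) * hv'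
  have hφA1 : φ (A 1) ≠ 0 := by
    intro h
    have h1 : A 1 = 0 := hinj (by rw [h, map_zero])
    rw [hA1] at h1
    exact mul_ne_zero hε0 huu.ne_zero h1
  let κ : Fin (s + 1) → B := fun j =>
    A j.succ.succ * θB ^ j.val * (p * m0 * β0 * v') * v'
  have hκA : ∀ j, κ j * A 1 = A j.succ.succ * θB ^ (j.val + 1) := by
    intro j
    show A j.succ.succ * θB ^ j.val * (p * m0 * β0 * v') * v' * A 1 = _
    rw [pow_succ, hA1, hθB, hc3]
    linear_combination (A j.succ.succ * (ε * p * m0 * β0 * v') ^ j.val * (p * m0 * β0 * v') * ε) * hv'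
  have hκm : ∀ j, κ j ∈ maximalIdeal B := by
    intro j
    show A j.succ.succ * θB ^ j.val * (p * m0 * β0 * v') * v' ∈ _
    have : A j.succ.succ * θB ^ j.val * (p * m0 * β0 * v') * v' =
        (A j.succ.succ * θB ^ j.val * p * β0 * v' * v') * m0 := by ring
    rw [this]
    exact Ideal.mul_mem_left _ _ hm0
  -- the values in `F`
  set c : Fin (s + 3) → F := fun j => (cf j).eval w with hc
  have hc1 : c 1 ≠ 0 := by
    show (cf 1).eval w ≠ 0
    rw [hcfA]; exact div_ne_zero hφA1 hφd
  have hθF : φ θB = c 0 / c 1 := by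
    show φ θB = (cf 0).eval w / (cf 1).eval w
    rw [hcfA, hcfA, hθA, map_mul φ θB (A 1)]
    field_simp
  have hκF : ∀ j : Fin (s + 1), φ (κ j) = c j.succ.succ * φ θB ^ (j.val + 1) / c 1 := by
    intro j
    rw [eq_div_iff hc1]
    show φ (κ j) * (cf 1).eval w = (cf j.succ.succ).eval w * _
    rw [hcfA, hcfA]
    have := congrArg φ (hκA j)
    rw [map_mul φ (κ j) (A 1), map_mul φ (A j.succ.succ) _, map_pow φ θB] at this
    rw [mul_div_assoc', this]
    ring
  have hPw : ∀ x, Pw cf w x = ∑ j : Fin (s + 3), c j * x ^ (j : ℕ) := by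
    intro x
    simp only [Pw, coe_aeval_eq_eval, hc]
  have hc0 : c 0 ≠ 0 := hcw
  have hθ0 : φ θB ≠ 0 := by rw [hθF]; exact div_ne_zero hc0 hc1
  have key : ∀ Z : F, Z ≠ 0 → c 0 * ((psi s κ).map φ).eval Z = Z ^ (s + 2) * Pw cf w (φ θB / Z) := by
    intro Z hZ
    rw [psi_map, ident s c _ (φ θB) Z hc1 hθF hκF hZ, hPw]
  have hρne : ∀ i, ρ i ≠ 0 := by
    intro i h
    have := hρ0 i
    rw [h, hPw, Fin.sum_univ_succ] at this
    simp at this
    exact hc0 this
  have hroots : ∀ i, ((psi s κ).map φ).eval (φ θB / ρ i) = 0 := by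
    intro i
    have h1 := key (φ θB / ρ i) (div_ne_zero hθ0 (hρne i))
    rw [div_div_cancel₀ hθ0, hρ0, mul_zero] at h1
    exact (mul_eq_zero.1 h1).resolve_left hc0
  have hψm : ((psi s κ).map φ).Monic := (psi_monic s κ).map φ
  have hψd : ((psi s κ).map φ).natDegree = s + 2 := by
    rw [(psi_monic s κ).natDegree_map, psi_natDegree]
  have hsplit : ((psi s κ).map φ).Splits := by
    rw [splits_iff_card_roots]
    refine le_antisymm (card_roots' _) ?_
    rw [hψd]
    have hinj2 : Function.Injective fun i : Fin (s + 2) => φ θB / ρ i := by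
      intro i j hij
      have hij' : φ θB / ρ i = φ θB / ρ j := hij
      rw [div_eq_div_iff (hρne i) (hρne j)] at hij'
      exact (hρi (mul_left_cancel₀ hθ0 hij')).symm
    calc s + 2 = (Finset.univ.image fun i : Fin (s + 2) => φ θB / ρ i).card := by
          rw [Finset.card_image_of_injective _ hinj2]; simp
      _ ≤ ((psi s κ).map φ).roots.toFinset.card := by
          refine Finset.card_le_card fun x hx => ?_
          obtain ⟨i, -, rfl⟩ := Finset.mem_image.1 hx
          rw [Multiset.mem_toFinset, mem_roots hψm.ne_zero]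
          exact hroots i
      _ ≤ _ := Multiset.toFinset_card_le _
  have hsummem : ∀ f : Fin (s + 1) → B, ∑ j, κ j * f j ∈ maximalIdeal B := fun f =>
    Ideal.sum_mem _ fun j _ => Ideal.mul_mem_right _ _ (hκm j)
  have hev : (psi s κ).eval (-1) ∈ maximalIdeal B := by
    rw [psi_eval]
    have : (-1 : B) ^ (s + 2) + ((-1) ^ (s + 1) + ∑ j : Fin (s + 1), κ j * (-1) ^ (s - j.val)) =
        ∑ j : Fin (s + 1), κ j * (-1) ^ (s - j.val) := by
      rw [pow_succ (-1 : B) (s + 1)]; ring
    rw [this]
    exact hsummem _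
  have hder : IsUnit ((psi s κ).derivative.eval (-1)) := by
    refine isUnit_of_sub_mem (a := (-1 : B) ^ (s + 1)) (isUnit_one.neg.pow _) ?_
    rw [psi_deriv]
    have : ((s + 2 : ℕ) : B) * (-1) ^ (s + 1) + (((s + 1 : ℕ) : B) * (-1) ^ s +
        ∑ j : Fin (s + 1), κ j * (((s - j.val : ℕ) : B) * (-1) ^ (s - j.val - 1))) -
        (-1) ^ (s + 1) =
        ∑ j : Fin (s + 1), κ j * (((s - j.val : ℕ) : B) * (-1) ^ (s - j.val - 1)) := by
      rw [pow_succ (-1 : B) s]; push_cast; ring
    rw [this]
    exact hsummem _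
  obtain ⟨Z0, hZ0, hZm⟩ := hL (psi s κ) (psi_monic s κ) (psi_natDegree s κ).le hsplit (-1) hev hder
  have hZu : IsUnit Z0 := isUnit_of_sub_mem isUnit_one.neg hZm
  obtain ⟨z, hz⟩ := hZu.exists_right_inv
  have hφZ : φ Z0 * φ z = 1 := by rw [← map_mul, hz, map_one]
  have hφZ0 : φ Z0 ≠ 0 := left_ne_zero_of_mul_eq_one hφZ
  refine ⟨ε * q * m0 * β0 * v' * z, ?_⟩
  have e1 : c₁ * φ (ε * q * m0 * β0 * v' * z) = φ θB / φ Z0 := by
    have hpq' : c₁ * φ q = φ p := by
      rw [← hpq, hφ]; exact div_mul_cancel₀ _ hq0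
    rw [eq_div_iff hφZ0, hθB, hc3]
    simp only [map_mul]
    linear_combination (φ ε * φ m0 * φ β0 * φ v' * φ z * φ Z0) * hpq' +
      (φ ε * φ p * φ m0 * φ β0 * φ v') * hφZ
  rw [e1]
  have h1 := key (φ Z0) hφZ0
  have h2 : ((psi s κ).map φ).eval (φ Z0) = 0 := by
    rw [eval_map, eval₂_at_apply, hZ0, map_zero]
  rw [h2, mul_zero] at h1
  exact (mul_eq_zero.1 h1.symm).resolve_left (pow_ne_zero _ hφZ0)

end Pool.Agent.Lib.MP958bd4
end

section
/-!
# MP_958bd4_lc: module AMLIN (helper62)
-/
set_option autoImplicit false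

universe u

namespace Pool.Agent.Lib.MP958bd4

open Polynomial

theorem specAMLIN : SpecAMLIN.{u} := by
  intro F _ _ r ι κ _ _ e l hl
  classical
  let Φ := dotProductEquiv F (Fin r)
  let p : Submodule F (Fin r → F) := ⨅ i, LinearMap.ker (Φ (e i))
  have key : ∀ j, ∃ x ∈ p, Φ (l j) x ≠ 0 := by
    intro j
    by_contra hcon
    push Not at hcon
    have h1 : (⨅ i, LinearMap.ker (Φ (e i))) ≤ LinearMap.ker (Φ (l j)) := fun x hx =>
      LinearMap.mem_ker.2 (hcon x hx)
    have h2 := mem_span_of_iInf_ker_le_ker h1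
    apply hl j
    have h3 : Submodule.span F (Set.range fun i => Φ (e i)) =
        (Submodule.span F (Set.range e)).map (Φ : (Fin r → F) →ₗ[F] _) := by
      rw [Submodule.map_span, ← Set.range_comp]
      rfl
    rw [h3] at h2
    obtain ⟨y, hy, hy'⟩ := h2
    have : y = l j := Φ.injective hy'
    rwa [this] at hy
  obtain ⟨c, hc, hc'⟩ := Module.Dual.exists_forall_mem_ne_zero_of_forall_exists p
    (fun j => Φ (l j)) key
  refine ⟨c, fun i => ?_, fun j => ?_⟩
  · have := (Submodule.mem_iInf _).1 hc i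
    simpa [Φ, dotProduct] using this
  · have := hc' j
    simpa [Φ, dotProduct] using this

end Pool.Agent.Lib.MP958bd4
end

section
/-!
# MP_958bd4_lc: module AMCOE (helper62)
-/
set_option autoImplicit false

universe u

namespace Pool.Agent.Lib.MP958bd4

open Polynomial

namespace AMCOEM

variable {m r : ℕ} {F : Type u} [Field F]

/-- The points determine functions of small weight. -/
lemma key [CharZero F] (h1 : SpecAMEIG.{u}) (h2 : SpecAMDEG.{u}) (h3 : SpecAMNZ.{u})
    (D : CData m r F) (hr : 2 ^ m * (m + 2) + 1 ≤ r) (g q : Finset (Fin m) → F[X])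
    (hg : ∀ I, (g I).natDegree ≤ 1)
    (hq : ∀ I, q I = 0 ∨ 2 * (q I).natDegree + 4 + I.card ≤ m + 2)
    (h : ∀ i, ∑ I : Finset (Fin m), (g I).eval (D.x i) * ∏ k ∈ I, D.U i k =
      D.x i ^ 2 * ∑ I : Finset (Fin m), (q I).eval (D.x i) * ∏ k ∈ I, D.U i k) :
    ∀ I, g I = 0 := by
  classical
  set f : Finset (Fin m) → F[X] := fun I => g I - X ^ 2 * q I with hf
  have hcard : ∀ I : Finset (Fin m), I.card ≤ m := fun I => by
    simpa using Finset.card_le_univ I
  have hdeg : ∀ I, f I = 0 ∨ 2 * (f I).natDegree + I.card ≤ m + 2 := by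
    intro I
    right
    have := hcard I
    rcases hq I with h0 | h0
    · have h4 : f I = g I := by simp [hf, h0]
      rw [h4]
      have := hg I
      omega
    · have h5 : (f I).natDegree ≤ max (g I).natDegree (X ^ 2 * q I).natDegree :=
        natDegree_sub_le _ _
      have h6 : (X ^ 2 * q I).natDegree ≤ 2 + (q I).natDegree := by
        refine natDegree_mul_le.trans ?_
        simp
      have := hg I
      rcases le_max_iff.1 h5 with h7 | h7 <;> omega
  have hzero : f = 0 := by
    by_contra hne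
    have hdet := h3 m F D.b two_ne_zero D.hb D.hb0 f hne
    apply hdet
    have hroot : ∀ i, ((MM D.b f).det).eval (D.x i) = 0 := by
      intro i
      refine h1 m F D.b f (D.x i) (D.U i) (D.hU i) ?_
      have := h i
      simp only [hf, eval_sub, eval_mul, eval_pow, eval_X, sub_mul, Finset.sum_sub_distrib]
      rw [this, Finset.mul_sum, sub_eq_zero]
      refine Finset.sum_congr rfl fun I _ => ?_
      ring
    have hdd := h2 m F D.b f (m + 2) hdeg
    refine eq_zero_of_natDegree_lt_card_of_eval_eq_zero (MM D.b f).det (f := D.x) D.hx hroot ?_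
    rw [Fintype.card_fin]
    omega
  intro I
  have hI : g I = X ^ 2 * q I := by
    have := congrFun hzero I
    simpa [hf, sub_eq_zero] using this
  by_contra hne
  have hqne : q I ≠ 0 := by
    rintro h0
    apply hne
    rw [hI, h0, mul_zero]
  have h8 : (g I).natDegree = 2 + (q I).natDegree := by
    rw [hI, natDegree_mul (pow_ne_zero _ X_ne_zero) hqne]
    simp
  have := hg I
  omega

/-- The constraint functionals. -/
noncomputable def ef (D : CData m r F) (p : Σ I : Finset (Fin m), Fin ((I.card + 1) / 2 - 1))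
    (i : Fin r) : F :=
  (∏ k ∈ p.1ᶜ, D.U i k) * D.x i ^ (p.2 : ℕ)

/-- A functional given by `g` in the span of the constraints vanishes. -/
lemma key2 [CharZero F] (h1 : SpecAMEIG.{u}) (h2 : SpecAMDEG.{u}) (h3 : SpecAMNZ.{u})
    (D : CData m r F) (hr : 2 ^ m * (m + 2) + 1 ≤ r) (g : Finset (Fin m) → F[X])
    (hg : ∀ I, (g I).natDegree ≤ 1) (l : Fin r → F)
    (hl : ∀ i, D.x i ^ 2 * l i = ∑ I : Finset (Fin m), (g I).eval (D.x i) * ∏ k ∈ I, D.U i k)
    (hs : l ∈ Submodule.span F (Set.range (ef D))) : ∀ I, g I = 0 := by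
  classical
  obtain ⟨μ, hμ⟩ := (Submodule.mem_span_range_iff_exists_fun F).1 hs
  set Q : Finset (Fin m) → F[X] := fun J => ∑ t : Fin ((J.card + 1) / 2 - 1),
    C (μ ⟨J, t⟩) * X ^ (t : ℕ) with hQ
  refine key h1 h2 h3 D hr g (fun I => Q Iᶜ) hg ?_ ?_
  · intro I
    by_cases hz : (Iᶜ.card + 1) / 2 - 1 = 0
    · left
      have : IsEmpty (Fin ((Iᶜ.card + 1) / 2 - 1)) := by
        rw [hz]; infer_instance
      simp [hQ]
    · right
      have h5 : (Q Iᶜ).natDegree ≤ (Iᶜ.card + 1) / 2 - 2 := by
        refine natDegree_sum_le_of_forall_le _ _ fun t _ => ?_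
        refine (natDegree_C_mul_X_pow_le _ _).trans ?_
        have := t.2
        omega
      have h6 : Iᶜ.card + I.card = m := by
        rw [Finset.card_compl, Fintype.card_fin]
        have : I.card ≤ m := by simpa using Finset.card_le_univ I
        omega
      omega
  · intro i
    rw [← hl i]
    congr 1
    have h7 := congrFun hμ i
    rw [← h7, Finset.sum_apply, Fintype.sum_sigma]
    refine Fintype.sum_equiv (Function.Involutive.toPerm (compl : Finset (Fin m) → _)
      compl_involutive) _ _ fun I => ?_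
    simp only [Function.Involutive.coe_toPerm]
    rw [compl_compl]
    simp only [hQ]
    rw [eval_finsetSum, Finset.sum_mul]
    refine Finset.sum_congr rfl fun t _ => ?_
    simp only [Pi.smul_apply, smul_eq_mul, ef, eval_mul, eval_C, eval_pow, eval_X]
    ring

/-- The factorization of `H` at a point where all `x - x i` are units. -/
lemma H_eq (D : CData m r F) {S : Type u} [CommRing S] [Algebra F S] (c : Fin r → F) (c' : F)
    (x : S) (u : Fin m → S) (y : Fin r → S)
    (hy : ∀ i, (x - algebraMap F S (D.x i)) * y i = 1) :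
    D.H c c' x u = D.E0 x * (∑ i, algebraMap F S (c i) *
      ((∏ k, (u k + algebraMap F S (D.U i k))) * y i) + algebraMap F S c') := by
  classical
  have h1 : ∀ i, ∏ j ∈ Finset.univ.erase i, (x - algebraMap F S (D.x j)) = D.E0 x * y i := by
    intro i
    rw [CData.E0, ← Finset.mul_prod_erase Finset.univ _ (Finset.mem_univ i), mul_assoc,
      mul_comm _ (y i), ← mul_assoc, hy, one_mul]
  rw [CData.H, mul_add, Finset.mul_sum, mul_comm (D.E0 x) (algebraMap F S c')]
  congr 1
  refine Finset.sum_congr rfl fun i _ => ?_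
  rw [h1]
  ring

lemma E0_ne (D : CData m r F) : D.E0 (0 : F) ≠ 0 := by
  rw [CData.E0]
  refine Finset.prod_ne_zero_iff.2 fun i _ => ?_
  simpa using D.hx0 i

/-- The functional of a sign vector. -/
noncomputable def l1 (D : CData m r F) (d : Fin m → Bool) (i : Fin r) : F :=
  (∏ k, (1 + D.U i k) - ∏ k, (sgn (d k) + D.U i k)) * (D.x i)⁻¹

/-- The inverse of `ε - x i`. -/
noncomputable def yi (D : CData m r F) (i : Fin r) : DualNumber F :=
  TrivSqZeroExt.inl (-(D.x i)⁻¹) + TrivSqZeroExt.inr (-((D.x i)⁻¹ ^ 2))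

/-- The functional of the tangent vector. -/
noncomputable def l2 (D : CData m r F) (i : Fin r) : F :=
  ((∏ k, ((1 + (D.b k / 2) • DualNumber.eps) + algebraMap F (DualNumber F) (D.U i k))) *
    yi D i).snd

lemma yi_spec (D : CData m r F) (i : Fin r) :
    ((DualNumber.eps : DualNumber F) - algebraMap F (DualNumber F) (D.x i)) * yi D i = 1 := by
  have h0 := D.hx0 i
  ext
  · simp [yi, TrivSqZeroExt.algebraMap_eq_inl]
    field_simp
  · simp [yi, TrivSqZeroExt.algebraMap_eq_inl]
    field_simp
    ring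

lemma l1_notMem [CharZero F] (h1 : SpecAMEIG.{u}) (h2 : SpecAMDEG.{u}) (h3 : SpecAMNZ.{u})
    (D : CData m r F) (hr : 2 ^ m * (m + 2) + 1 ≤ r) (d : Fin m → Bool) (hd : ∃ k, d k = false) :
    l1 D d ∉ Submodule.span F (Set.range (ef D)) := by
  classical
  intro hs
  obtain ⟨k, hk⟩ := hd
  have := key2 h1 h2 h3 D hr (fun I => C (1 - ∏ k ∈ Iᶜ, (sgn (d k) : F)) * X)
    (fun I => (natDegree_C_mul_le _ _).trans natDegree_X_le) (l1 D d) ?_ hs ({k}ᶜ)
  · have h4 : (1 - ∏ k ∈ (({k} : Finset (Fin m))ᶜ)ᶜ, (sgn (d k) : F)) = 2 := by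
      rw [compl_compl, Finset.prod_singleton, hk]
      simp only [sgn]
      norm_num
    rw [h4, mul_eq_zero] at this
    rcases this with h | h
    · exact two_ne_zero (C_eq_zero.1 h)
    · exact X_ne_zero h
  · intro i
    have h0 := D.hx0 i
    have e1 : ∏ k, (1 + D.U i k) = ∑ I : Finset (Fin m), ∏ k ∈ I, D.U i k := by
      simp_rw [add_comm (1 : F)]
      rw [Fintype.prod_add]
      simp
    have e2 : ∏ k, (sgn (d k) + D.U i k) = ∑ I : Finset (Fin m), (∏ k ∈ I, D.U i k) *
        ∏ k ∈ Iᶜ, (sgn (d k) : F) := by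
      simp_rw [add_comm (sgn (_) : F)]
      rw [Fintype.prod_add]
    have e3 : D.x i ^ 2 * l1 D d i = D.x i * (∏ k, (1 + D.U i k) - ∏ k, (sgn (d k) + D.U i k)) := by
      rw [l1]
      field_simp
    rw [e3, e1, e2, ← Finset.sum_sub_distrib, Finset.mul_sum]
    refine Finset.sum_congr rfl fun I _ => ?_
    simp only [eval_mul, eval_C, eval_X]
    ring

lemma l2_notMem [CharZero F] (h1 : SpecAMEIG.{u}) (h2 : SpecAMDEG.{u}) (h3 : SpecAMNZ.{u})
    (D : CData m r F) (hr : 2 ^ m * (m + 2) + 1 ≤ r) :
    l2 D ∉ Submodule.span F (Set.range (ef D)) := by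
  classical
  intro hs
  set β : Finset (Fin m) → F := fun J =>
    (∏ k ∈ J, (1 + (D.b k / 2) • DualNumber.eps : DualNumber F)).snd with hβ
  have hfst : ∀ J : Finset (Fin m),
      (∏ k ∈ J, (1 + (D.b k / 2) • DualNumber.eps : DualNumber F)).fst = 1 := by
    intro J
    have : (TrivSqZeroExt.fstHom F F F) (∏ k ∈ J, (1 + (D.b k / 2) • DualNumber.eps : DualNumber F)) =
        1 := by
      rw [map_prod]
      refine Finset.prod_eq_one fun k _ => ?_
      simp
    exact this
  have := key2 h1 h2 h3 D hr (fun I => -(C (β Iᶜ) * X + C 1)) ?_ (l2 D) ?_ hs ∅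
  · have h5 := congrArg (eval 0) this
    simp at h5
  · intro I
    rw [natDegree_neg]
    exact natDegree_linear_le
  · intro i
    have h0 := D.hx0 i
    have e1 : ∏ k, ((1 + (D.b k / 2) • DualNumber.eps) + algebraMap F (DualNumber F) (D.U i k)) =
        ∑ I : Finset (Fin m), algebraMap F (DualNumber F) (∏ k ∈ I, D.U i k) *
          ∏ k ∈ Iᶜ, (1 + (D.b k / 2) • DualNumber.eps : DualNumber F) := by
      simp_rw [add_comm (_ : DualNumber F) (algebraMap F (DualNumber F) _)]
      rw [Fintype.prod_add]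
      simp_rw [map_prod]
    rw [l2, e1, Finset.sum_mul, TrivSqZeroExt.snd_sum, Finset.mul_sum]
    refine Finset.sum_congr rfl fun I _ => ?_
    rw [mul_assoc, TrivSqZeroExt.snd_mul, TrivSqZeroExt.snd_mul, TrivSqZeroExt.fst_mul, hfst]
    simp only [yi, TrivSqZeroExt.algebraMap_eq_inl, TrivSqZeroExt.fst_inl,
      TrivSqZeroExt.snd_inl, TrivSqZeroExt.fst_add, TrivSqZeroExt.snd_add, TrivSqZeroExt.fst_inr,
      TrivSqZeroExt.snd_inr, eval_neg, eval_add, eval_mul, eval_C, eval_X, smul_eq_mul,
      MulOpposite.smul_eq_mul_unop, MulOpposite.unop_op]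
    change D.x i ^ 2 * (_ * (_ + β Iᶜ * _) + _) = _
    field_simp
    ring

end AMCOEM

open AMCOEM in
theorem specAMCOE (h1 : SpecAMEIG.{u}) (h2 : SpecAMDEG.{u}) (h3 : SpecAMNZ.{u}) :
    SpecAMCOE.{u} := by
  classical
  intro m r F _ _ D hr
  obtain ⟨c, hc, hl⟩ := specAMLIN F r (Σ I : Finset (Fin m), Fin ((I.card + 1) / 2 - 1))
    (Option {d : Fin m → Bool // ∃ k, d k = false}) (ef D)
    (fun o => match o with
      | none => l2 D
      | some d => l1 D d.1) (by
        rintro (_ | d)
        · exact l2_notMem h1 h2 h3 D hr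
        · exact l1_notMem h1 h2 h3 D hr d.1 d.2)
  have hl2 : ∑ t, l2 D t * c t ≠ 0 := hl none
  have hl1 : ∀ d : Fin m → Bool, (∃ k, d k = false) → ∑ t, l1 D d t * c t ≠ 0 := fun d hd =>
    hl (some ⟨d, hd⟩)
  set c' : F := 1 + ∑ i, c i * (∏ k, (1 + D.U i k)) * (D.x i)⁻¹ with hc'
  have hH : ∀ u : Fin m → F, D.H c c' (0 : F) u = D.E0 (0 : F) *
      (1 + ∑ i, c i * ((∏ k, (1 + D.U i k) - ∏ k, (u k + D.U i k)) * (D.x i)⁻¹)) := by
    intro u
    rw [H_eq D c c' (0 : F) u (fun i => -(D.x i)⁻¹) (fun i => by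
      have := D.hx0 i
      simp [this])]
    congr 1
    rw [hc', Algebra.algebraMap_self, RingHom.id_apply, add_left_comm, ← Finset.sum_add_distrib]
    congr 1
    refine Finset.sum_congr rfl fun i _ => ?_
    simp only [RingHom.id_apply]
    ring
  refine ⟨c, c', ?_, ?_, ?_, ?_⟩
  · intro I l hlI
    have := hc ⟨I, ⟨l, hlI⟩⟩
    rw [← this]
    refine Finset.sum_congr rfl fun i _ => ?_
    simp only [ef]
    ring
  · rw [hH]
    simp
  · intro d hd
    rw [hH]
    intro h
    have h5 := mul_left_cancel₀ (E0_ne D) (h.trans (mul_one _).symm)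
    apply hl1 d hd
    rw [add_eq_left] at h5
    rw [← h5]
    refine Finset.sum_congr rfl fun i _ => ?_
    rw [l1]
    ring
  · rw [H_eq D c c' _ _ (yi D) (yi_spec D)]
    intro h
    have hunit : IsUnit (D.E0 (DualNumber.eps : DualNumber F)) := by
      rw [CData.E0, IsUnit.prod_univ_iff]
      exact fun i => IsUnit.of_mul_eq_one _ (yi_spec D i)
    have h5 := hunit.mul_left_cancel (h.trans (mul_one _).symm)
    have h6 := congrArg TrivSqZeroExt.snd h5
    apply hl2
    simp only [TrivSqZeroExt.snd_add, TrivSqZeroExt.snd_sum, TrivSqZeroExt.algebraMap_eq_inl,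
      TrivSqZeroExt.snd_inl, TrivSqZeroExt.snd_one, TrivSqZeroExt.inl_mul_eq_smul,
      TrivSqZeroExt.snd_smul, add_zero] at h6
    rw [← h6]
    refine Finset.sum_congr rfl fun i _ => ?_
    rw [l2, smul_eq_mul, mul_comm, TrivSqZeroExt.algebraMap_eq_inl]

end Pool.Agent.Lib.MP958bd4
end

section
/-!
# MP_958bd4_lc: module AMCON (the constraints bound the degrees)
-/
set_option autoImplicit false

universe u

namespace Pool.Agent.Lib.MP958bd4

open Polynomial

namespace AMCONM

variable {r : ℕ} {F : Type u} [Field F]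

/-- the polynomials `∏_{j ≠ i} (X - x j)` -/
noncomputable def EP (x : Fin r → F) (i : Fin r) : F[X] :=
  ∏ j ∈ Finset.univ.erase i, (X - C (x j))

/-- `E₀` as a polynomial -/
noncomputable def E0P (x : Fin r → F) : F[X] := ∏ j, (X - C (x j))

theorem E0P_eq (x : Fin r → F) (i : Fin r) : (X - C (x i)) * EP x i = E0P x :=
  Finset.mul_prod_erase Finset.univ (fun j => X - C (x j)) (Finset.mem_univ i)

theorem natDegree_E0P (x : Fin r → F) : (E0P x).natDegree = r := by
  unfold E0P
  rw [natDegree_prod_of_monic _ _ (fun j _ => monic_X_sub_C (x j))]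
  simp

theorem natDegree_EP (x : Fin r → F) (i : Fin r) : (EP x i).natDegree = r - 1 := by
  unfold EP
  rw [natDegree_prod_of_monic _ _ (fun j _ => monic_X_sub_C (x j))]
  simp [Finset.card_erase_of_mem]

theorem moment (x : Fin r → F) (g : Fin r → F) (L : ℕ)
    (h : ∀ l < L, ∑ i, g i * x i ^ l = 0) :
    X ^ L * ∑ i, C (g i) * EP x i = ∑ i, C (g i * x i ^ L) * EP x i := by
  induction L with
  | zero => simp
  | succ L ih =>
    have h1 := ih (fun l hl => h l (by omega))
    rw [pow_succ', mul_assoc, h1, Finset.mul_sum]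
    have h2 : ∀ i, X * (C (g i * x i ^ L) * EP x i) =
        C (g i * x i ^ L) * E0P x + C (g i * x i ^ (L + 1)) * EP x i := by
      intro i
      rw [← E0P_eq x i, pow_succ, ← mul_assoc (g i), C_mul (a := g i * x i ^ L)]
      ring
    simp only [h2]
    rw [Finset.sum_add_distrib, ← Finset.sum_mul, ← map_sum, h L (by omega)]
    simp

theorem natDegree_le (x : Fin r → F) (g : Fin r → F) (L : ℕ)
    (h : ∀ l < L, ∑ i, g i * x i ^ l = 0) :
    (∑ i, C (g i) * EP x i) = 0 ∨ (∑ i, C (g i) * EP x i).natDegree + L ≤ r - 1 := by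
  by_cases h0 : (∑ i, C (g i) * EP x i) = 0
  · exact Or.inl h0
  · right
    have h1 : (X ^ L * ∑ i, C (g i) * EP x i).natDegree =
        (∑ i, C (g i) * EP x i).natDegree + L := natDegree_X_pow_mul L h0
    rw [← h1, moment x g L h]
    apply natDegree_sum_le_of_forall_le
    intro i _
    rw [← natDegree_EP x i]
    exact natDegree_C_mul_le _ _

end AMCONM

open AMCONM in
/-- AMCON. -/
theorem specAMCON : SpecAMCON.{u} := by
  classical
  intro m r F _ D c c' hc
  constructor
  · intro I
    have hHI : HI D c c' I = (∑ i, C (c i * ∏ k ∈ Iᶜ, D.U i k) * EP D.x i) +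
        if I = ∅ then C c' * E0P D.x else 0 := rfl
    by_cases hI : I = ∅
    · right
      rw [hHI, if_pos hI, hI]
      simp only [Finset.card_empty, add_zero]
      apply Nat.mul_le_mul_left
      refine le_trans (natDegree_add_le _ _) (max_le ?_ ?_)
      · apply natDegree_sum_le_of_forall_le
        intro i _
        refine le_trans (natDegree_C_mul_le _ _) ?_
        rw [natDegree_EP]
        omega
      · refine le_trans (natDegree_C_mul_le _ _) ?_
        rw [natDegree_E0P]
    · rw [hHI, if_neg hI, add_zero]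
      have hcard : 0 < I.card := Finset.card_pos.2 (Finset.nonempty_iff_ne_empty.2 hI)
      rcases natDegree_le D.x (fun i => c i * ∏ k ∈ Iᶜ, D.U i k) ((I.card + 1) / 2 - 1)
        (fun l hl => hc I l hl) with h | h
      · exact Or.inl h
      · by_cases hr : r = 0
        · left
          subst hr
          simp
        · right
          omega
  · intro S _ _ x u
    unfold CData.H CData.E0
    have h1 : ∀ i, algebraMap F S (c i) * (∏ k, (u k + algebraMap F S (D.U i k))) *
        (∏ j ∈ Finset.univ.erase i, (x - algebraMap F S (D.x j))) =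
        ∑ I : Finset (Fin m), aeval x (C (c i * ∏ k ∈ Iᶜ, D.U i k) * EP D.x i) *
          ∏ k ∈ I, u k := by
      intro i
      rw [Fintype.prod_add, Finset.mul_sum, Finset.sum_mul]
      apply Finset.sum_congr rfl
      intro I _
      simp only [EP, map_mul, map_prod, aeval_C, map_sub, aeval_X]
      ring
    simp only [h1]
    rw [Finset.sum_comm]
    have h2 : algebraMap F S c' * ∏ i, (x - algebraMap F S (D.x i)) =
        ∑ I : Finset (Fin m), aeval x (if I = ∅ then C c' * E0P D.x else 0) * ∏ k ∈ I, u k := by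
      rw [Finset.sum_eq_single ∅]
      · simp [E0P, map_prod]
      · intro I _ hI
        rw [if_neg hI]
        simp
      · intro h
        exact absurd (Finset.mem_univ _) h
    rw [h2, ← Finset.sum_add_distrib]
    apply Finset.sum_congr rfl
    intro I _
    have hHI : HI D c c' I = (∑ i, C (c i * ∏ k ∈ Iᶜ, D.U i k) * EP D.x i) +
        if I = ∅ then C c' * E0P D.x else 0 := rfl
    rw [hHI, map_add, map_sum, add_mul, Finset.sum_mul]

end Pool.Agent.Lib.MP958bd4
end

section
/-!
# MP_958bd4_lc: module AMDEG (degree of the determinant)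
-/
set_option autoImplicit false

universe u

namespace Pool.Agent.Lib.MP958bd4

open Polynomial

namespace AMDEGM

variable {m : ℕ}

theorem card_ident (J K : Finset (Fin m)) :
    2 * (K \ J).card + J.card = (symmDiff J K).card + K.card := by
  classical
  have h1 : (J \ K).card + (J ∩ K).card = J.card := Finset.card_sdiff_add_card_inter J K
  have h2 : (K \ J).card + (K ∩ J).card = K.card := Finset.card_sdiff_add_card_inter K J
  have h3 : (symmDiff J K).card = (J \ K).card + (K \ J).card := by
    rw [← Finset.card_union_of_disjoint]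
    · rfl
    · rw [Finset.disjoint_left]
      intro k
      simp only [Finset.mem_sdiff]
      tauto
  rw [Finset.inter_comm] at h2
  omega

theorem natDegree_lin {R : Type u} [CommRing R] (c : R) : (1 + C c * X).natDegree ≤ 1 := by
  refine le_trans (natDegree_add_le _ _) ?_
  rw [natDegree_one]
  exact max_le (Nat.zero_le _) (le_trans (natDegree_C_mul_le c X) natDegree_X_le)

/-- the degree of an entry -/
theorem entry {R : Type u} [CommRing R] (b : Fin m → R) (f : Finset (Fin m) → R[X]) (d : ℕ)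
    (hf : ∀ I, f I = 0 ∨ 2 * (f I).natDegree + I.card ≤ d) (J K : Finset (Fin m)) :
    MM b f J K = 0 ∨ 2 * (MM b f J K).natDegree + J.card ≤ d + K.card := by
  rcases hf (symmDiff J K) with h | h
  · left
    simp only [MM, Matrix.of_apply, h, zero_mul]
  · right
    have h1 : (MM b f J K).natDegree ≤ (f (symmDiff J K)).natDegree + (K \ J).card := by
      simp only [MM, Matrix.of_apply]
      refine le_trans natDegree_mul_le (Nat.add_le_add_left ?_ _)
      refine le_trans (natDegree_prod_le _ _) ?_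
      refine le_trans (Finset.sum_le_sum (fun k _ => natDegree_lin (b k))) ?_
      simp
    have h2 := card_ident J K
    omega

end AMDEGM

open AMDEGM in
/-- AMDEG. -/
theorem specAMDEG : SpecAMDEG.{u} := by
  classical
  intro m R _ b f d hf
  rw [Matrix.det_apply]
  have key : ∀ σ : Equiv.Perm (Finset (Fin m)),
      2 * (Equiv.Perm.sign σ • ∏ K, MM b f (σ K) K).natDegree ≤ 2 ^ m * d := by
    intro σ
    have h0 : (Equiv.Perm.sign σ • ∏ K, MM b f (σ K) K).natDegree ≤
        (∏ K, MM b f (σ K) K).natDegree := by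
      rcases Int.units_eq_one_or (Equiv.Perm.sign σ) with h | h
      · rw [h, one_smul]
      · rw [h, Units.neg_smul, one_smul, natDegree_neg]
    refine le_trans (Nat.mul_le_mul_left 2 h0) ?_
    by_cases hz : ∃ K, MM b f (σ K) K = 0
    · obtain ⟨K, hK⟩ := hz
      have hP : ∏ K, MM b f (σ K) K = 0 := Finset.prod_eq_zero (Finset.mem_univ K) hK
      rw [hP]
      simp
    · push Not at hz
      have h1 : (∏ K, MM b f (σ K) K).natDegree ≤ ∑ K, (MM b f (σ K) K).natDegree :=
        natDegree_prod_le _ _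
      have h2 : ∑ K, (2 * (MM b f (σ K) K).natDegree + (σ K).card) ≤
          ∑ K : Finset (Fin m), (d + K.card) := by
        apply Finset.sum_le_sum
        intro K _
        exact (entry b f d hf (σ K) K).resolve_left (hz K)
      have h3 : ∑ K : Finset (Fin m), (σ K).card = ∑ K : Finset (Fin m), K.card :=
        Equiv.sum_comp σ (fun K => K.card)
      rw [Finset.sum_add_distrib, Finset.sum_add_distrib, h3, ← Finset.mul_sum] at h2
      have h4 : ∑ _K : Finset (Fin m), d = 2 ^ m * d := by
        rw [Finset.sum_const, Finset.card_univ, Fintype.card_finset, Fintype.card_fin,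
          smul_eq_mul]
      omega
  have h5 : (∑ σ : Equiv.Perm (Finset (Fin m)),
      Equiv.Perm.sign σ • ∏ K, MM b f (σ K) K).natDegree ≤ 2 ^ m * d / 2 := by
    apply natDegree_sum_le_of_forall_le
    intro σ _
    have := key σ
    omega
  omega

end Pool.Agent.Lib.MP958bd4
end

section
/-!
# MP_958bd4_lc: module AMDET (the determinant is the product of the values at the conjugate points)
-/
set_option autoImplicit false

universe u

namespace Pool.Agent.Lib.MP958bd4

open Polynomial

namespace AMDETM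

variable {m : ℕ}

/-- the product identity behind the multiplication table -/
theorem prod_ident {S : Type u} [CommRing S] (u : Fin m → S) (J K : Finset (Fin m)) :
    (∏ k ∈ J, u k) * ∏ k ∈ K \ J, u k ^ 2 = (∏ k ∈ symmDiff J K, u k) * ∏ k ∈ K, u k := by
  classical
  have h1 : ∏ k ∈ J, u k = (∏ k ∈ J \ K, u k) * ∏ k ∈ J ∩ K, u k := by
    rw [← Finset.prod_union]
    · congr 1
      ext k
      simp only [Finset.mem_union, Finset.mem_sdiff, Finset.mem_inter]
      tauto
    · rw [Finset.disjoint_left]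
      intro k
      simp only [Finset.mem_sdiff, Finset.mem_inter]
      tauto
  have h2 : ∏ k ∈ K, u k = (∏ k ∈ K \ J, u k) * ∏ k ∈ J ∩ K, u k := by
    rw [← Finset.prod_union]
    · congr 1
      ext k
      simp only [Finset.mem_union, Finset.mem_sdiff, Finset.mem_inter]
      tauto
    · rw [Finset.disjoint_left]
      intro k
      simp only [Finset.mem_sdiff, Finset.mem_inter]
      tauto
  have h3 : ∏ k ∈ symmDiff J K, u k = (∏ k ∈ J \ K, u k) * ∏ k ∈ K \ J, u k := by
    rw [← Finset.prod_union]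
    · rfl
    · rw [Finset.disjoint_left]
      intro k
      simp only [Finset.mem_sdiff]
      tauto
  rw [h1, h2, h3, Finset.prod_pow]
  ring

/-- the value of `f` at the point `(x; u)` -/
noncomputable def val {R S : Type u} [CommRing R] [CommRing S] [Algebra R S]
    (f : Finset (Fin m) → R[X]) (x : S) (u : Fin m → S) : S :=
  ∑ I : Finset (Fin m), aeval x (f I) * ∏ k ∈ I, u k

/-- the row vector `(∏_{k ∈ J} u k)_J` is an eigenvector -/
theorem vecMul_eq {R S : Type u} [CommRing R] [CommRing S] [Algebra R S]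
    (b : Fin m → R) (f : Finset (Fin m) → R[X]) (x : S) (u : Fin m → S)
    (hu : ∀ k, u k ^ 2 = 1 + algebraMap R S (b k) * x) (K : Finset (Fin m)) :
    ∑ J : Finset (Fin m), (∏ k ∈ J, u k) * aeval x (MM b f J K) =
      val f x u * ∏ k ∈ K, u k := by
  classical
  unfold val
  rw [Finset.sum_mul]
  refine Fintype.sum_bijective (fun J => symmDiff J K) ?_ _ _ ?_
  · apply Function.Involutive.bijective
    intro J
    exact symmDiff_symmDiff_cancel_right K J
  · intro J
    have h : aeval x (MM b f J K) = aeval x (f (symmDiff J K)) * ∏ k ∈ K \ J, u k ^ 2 := by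
      simp only [MM, Matrix.of_apply, map_mul, map_prod, map_add, map_one, aeval_C, aeval_X, hu]
    rw [h]
    have := prod_ident u J K
    linear_combination aeval x (f (symmDiff J K)) * this

theorem sgn_mul_self {S : Type u} [CommRing S] (d : Bool) : (sgn d : S) * sgn d = 1 := by
  cases d <;> simp [sgn]

theorem sgn_mul_ne {S : Type u} [CommRing S] {d d' : Bool} (h : d ≠ d') :
    (sgn d : S) * sgn d' = -1 := by
  cases d <;> cases d' <;> simp_all [sgn]

/-- the matrix of the characters -/
noncomputable def EE {S : Type u} [CommRing S] (u : Fin m → S) :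
    Matrix (Fin m → Bool) (Finset (Fin m)) S :=
  Matrix.of fun d J => ∏ k ∈ J, (sgn (d k) * u k)

/-- its inverse (up to the factor `2 ^ m`) -/
noncomputable def EI {S : Type u} [CommRing S] (h : S) (v : Fin m → S) :
    Matrix (Finset (Fin m)) (Fin m → Bool) S :=
  Matrix.of fun J d => h ^ m * ∏ k ∈ J, (sgn (d k) * v k)

theorem EE_mul_EI {S : Type u} [CommRing S] (u v : Fin m → S) (h : S) (hh : h * 2 = 1)
    (huv : ∀ k, u k * v k = 1) : EE u * EI h v = 1 := by
  ext d d'
  rw [Matrix.mul_apply]
  have h1 : ∀ J : Finset (Fin m), EE u d J * EI h v J d' =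
      h ^ m * ∏ k ∈ J, ((sgn (d k) : S) * sgn (d' k)) := by
    intro J
    simp only [EE, EI, Matrix.of_apply]
    rw [mul_left_comm, ← Finset.prod_mul_distrib]
    congr 1
    apply Finset.prod_congr rfl
    intro k _
    linear_combination (sgn (d k) : S) * sgn (d' k) * huv k
  simp only [h1]
  rw [← Finset.mul_sum]
  have h3 : ∑ J : Finset (Fin m), ∏ k ∈ J, ((sgn (d k) : S) * sgn (d' k)) =
      ∏ k : Fin m, (1 + (sgn (d k) : S) * sgn (d' k)) := by
    rw [Finset.prod_one_add, Finset.powerset_univ]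
  rw [h3]
  by_cases hd : d = d'
  · subst hd
    rw [Matrix.one_apply_eq]
    simp only [sgn_mul_self]
    rw [Finset.prod_const, Finset.card_univ, Fintype.card_fin, ← mul_pow]
    have : h * (1 + 1) = 1 := by linear_combination hh
    rw [this, one_pow]
  · rw [Matrix.one_apply_ne hd]
    have : ∃ k, d k ≠ d' k := by
      by_contra hcon
      push Not at hcon
      exact hd (funext hcon)
    obtain ⟨k, hk⟩ := this
    rw [Finset.prod_eq_zero (Finset.mem_univ k), mul_zero]
    rw [sgn_mul_ne hk]
    ring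

theorem EI_mul_EE {S : Type u} [CommRing S] (u v : Fin m → S) (h : S) (hh : h * 2 = 1)
    (huv : ∀ k, u k * v k = 1) : EI h v * EE u = 1 := by
  have e : (Fin m → Bool) ≃ Finset (Fin m) := Fintype.equivOfCardEq (by simp)
  exact (Matrix.mul_eq_one_comm_of_equiv e).1 (EE_mul_EI u v h hh huv)

/-- the diagonal matrix of the values -/
noncomputable def DD {R S : Type u} [CommRing R] [CommRing S] [Algebra R S]
    (f : Finset (Fin m) → R[X]) (x : S) (u : Fin m → S) :
    Matrix (Fin m → Bool) (Fin m → Bool) S :=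
  Matrix.diagonal fun d => val f x (fun k => sgn (d k) * u k)

/-- the matrix over `S` -/
noncomputable def MS {R S : Type u} [CommRing R] [CommRing S] [Algebra R S]
    (b : Fin m → R) (f : Finset (Fin m) → R[X]) (x : S) :
    Matrix (Finset (Fin m)) (Finset (Fin m)) S :=
  (aeval x : R[X] →ₐ[R] S).mapMatrix (MM b f)

theorem rel {R S : Type u} [CommRing R] [CommRing S] [Algebra R S]
    (b : Fin m → R) (f : Finset (Fin m) → R[X]) (x : S) (u : Fin m → S)
    (hu : ∀ k, u k ^ 2 = 1 + algebraMap R S (b k) * x) :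
    EE u * MS b f x = DD f x u * EE u := by
  ext d K
  unfold DD
  rw [Matrix.mul_apply, Matrix.diagonal_mul]
  have hu' : ∀ k, (sgn (d k) * u k) ^ 2 = 1 + algebraMap R S (b k) * x := by
    intro k
    rw [mul_pow, hu k, sq, sgn_mul_self, one_mul]
  exact vecMul_eq b f x (fun k => sgn (d k) * u k) hu' K

end AMDETM

open AMDETM in
/-- AMDET. -/
theorem specAMDET : SpecAMDET.{u} := by
  intro m R S _ _ _ b f x u hu hunit h2
  obtain ⟨h, hh⟩ := h2.exists_right_inv
  have hh' : h * 2 = 1 := by rw [mul_comm]; exact hh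
  choose v hv using fun k => (hunit k).exists_right_inv
  have hdet : aeval x (MM b f).det = (MS b f x).det :=
    AlgHom.map_det (aeval x : R[X] →ₐ[R] S) (MM b f)
  rw [hdet, ← Matrix.det_conj_of_mul_eq_one (EE_mul_EI u v h hh' hv) (EI_mul_EE u v h hh' hv),
    rel b f x u hu, Matrix.mul_assoc, EE_mul_EI u v h hh' hv, Matrix.mul_one]
  unfold DD
  rw [Matrix.det_diagonal]
  rfl

end Pool.Agent.Lib.MP958bd4
end

section
/-!
# MP_958bd4_lc: module AMDIV (divisibility of the determinant)
-/
set_option autoImplicit false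

universe u

namespace Pool.Agent.Lib.MP958bd4

open Polynomial

namespace AMDIVM

/-- a matrix of rank one modulo `π` -/
theorem dvd_det {n : Type} [Fintype n] [DecidableEq n] {R : Type u} [CommRing R]
    (A : Matrix n n R) (π : R) (v : n → R) (k : n) (h : ∀ i j, i ≠ k → π ∣ A i j - v i * A k j) :
    π ^ (Fintype.card n - 1) ∣ A.det := by
  classical
  have hex : ∀ i j, ∃ q, i ≠ k → A i j - v i * A k j = π * q := by
    intro i j
    by_cases hi : i = k
    · exact ⟨0, fun h' => absurd hi h'⟩
    · obtain ⟨q, hq⟩ := h i j hi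
      exact ⟨q, fun _ => hq⟩
  choose q hq using hex
  let c : n → R := fun i => if i = k then 1 else π
  let B' : Matrix n n R := Matrix.of fun i j => if i = k then A k j else q i j
  have h1 : A.det = (Matrix.of fun i j => c i * B' i j).det := by
    apply Matrix.det_eq_of_forall_row_eq_smul_add_const (fun i => if i = k then 0 else v i) k
    · simp
    · intro i j
      by_cases hi : i = k
      · subst hi
        simp [c, B']
      · simp only [Matrix.of_apply, c, B', if_neg hi, if_true, one_mul]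
        linear_combination hq i j hi
  rw [h1, Matrix.det_mul_column]
  apply Dvd.dvd.mul_right
  have h2 : ∏ i, c i = π ^ (Fintype.card n - 1) := by
    rw [← Finset.mul_prod_erase Finset.univ c (Finset.mem_univ k)]
    have h3 : ∏ x ∈ Finset.univ.erase k, c x = ∏ x ∈ Finset.univ.erase k, π := by
      apply Finset.prod_congr rfl
      intro x hx
      exact if_neg (Finset.mem_erase.1 hx).1
    rw [h3, Finset.prod_const, Finset.card_erase_of_mem (Finset.mem_univ k), Finset.card_univ]
    simp [c]
  rw [h2]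

theorem prod_ident2 {m : ℕ} {S : Type u} [CommRing S] (u : Fin m → S) (J K : Finset (Fin m)) :
    (∏ k ∈ (symmDiff J K)ᶜ, u k) * ∏ k ∈ K \ J, u k ^ 2 = (∏ k ∈ Jᶜ, u k) * ∏ k ∈ K, u k := by
  classical
  have h1 : ∏ k ∈ (symmDiff J K)ᶜ, u k = (∏ k ∈ J ∩ K, u k) * ∏ k ∈ Jᶜ ∩ Kᶜ, u k := by
    rw [← Finset.prod_union]
    · congr 1
      ext k
      simp only [Finset.mem_union, Finset.mem_inter, Finset.mem_compl, Finset.mem_symmDiff]
      tauto
    · rw [Finset.disjoint_left]
      intro k
      simp only [Finset.mem_inter, Finset.mem_compl]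
      tauto
  have h2 : ∏ k ∈ K, u k = (∏ k ∈ J ∩ K, u k) * ∏ k ∈ K \ J, u k := by
    rw [← Finset.prod_union]
    · congr 1
      ext k
      simp only [Finset.mem_union, Finset.mem_sdiff, Finset.mem_inter]
      tauto
    · rw [Finset.disjoint_left]
      intro k
      simp only [Finset.mem_sdiff, Finset.mem_inter]
      tauto
  have h3 : ∏ k ∈ Jᶜ, u k = (∏ k ∈ K \ J, u k) * ∏ k ∈ Jᶜ ∩ Kᶜ, u k := by
    rw [← Finset.prod_union]
    · congr 1
      ext k
      simp only [Finset.mem_union, Finset.mem_sdiff, Finset.mem_inter, Finset.mem_compl]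
      tauto
    · rw [Finset.disjoint_left]
      intro k
      simp only [Finset.mem_inter, Finset.mem_compl, Finset.mem_sdiff]
      tauto
  rw [h1, h2, h3, Finset.prod_pow]
  ring

variable {m r : ℕ} {F : Type u} [Field F]

theorem prod_zero (x : Fin r → F) (i : Fin r) (s : Finset (Fin r)) (hi : i ∈ s) :
    ∏ j ∈ s, (x i - x j) = 0 :=
  Finset.prod_eq_zero hi (sub_self _)

theorem eval_HI (D : CData m r F) (c : Fin r → F) (c' : F) (I : Finset (Fin m)) (i : Fin r) :
    (HI D c c' I).eval (D.x i) =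
      (c i * ∏ k ∈ Iᶜ, D.U i k) * ∏ j ∈ Finset.univ.erase i, (D.x i - D.x j) := by
  classical
  unfold HI
  rw [eval_add, eval_finsetSum]
  have h2 : eval (D.x i) (if I = ∅ then C c' * ∏ j, (X - C (D.x j)) else 0) = 0 := by
    split_ifs
    · rw [eval_mul, eval_prod]
      simp only [eval_sub, eval_X, eval_C]
      rw [prod_zero D.x i Finset.univ (Finset.mem_univ i), mul_zero]
    · simp
  rw [h2, add_zero, Finset.sum_eq_single i]
  · simp only [eval_mul, eval_C, eval_prod, eval_sub, eval_X]
  · intro j _ hj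
    simp only [eval_mul, eval_C, eval_prod, eval_sub, eval_X]
    rw [prod_zero D.x i (Finset.univ.erase j) (Finset.mem_erase.2 ⟨hj.symm, Finset.mem_univ i⟩),
      mul_zero]
  · intro h
    exact absurd (Finset.mem_univ i) h

end AMDIVM

open AMDIVM in
/-- AMDIV. -/
theorem specAMDIV : SpecAMDIV.{u} := by
  classical
  intro m r F _ D c c'
  rw [← Finset.prod_pow]
  apply Finset.prod_dvd_of_coprime
  · intro i _ j _ hij
    apply IsCoprime.pow
    apply isCoprime_X_sub_C_of_isUnit_sub
    rw [← C_sub]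
    apply IsUnit.map
    exact isUnit_iff_ne_zero.2 (sub_ne_zero.2 fun h => hij (D.hx h))
  · intro i _
    have hcard : 2 ^ m - 1 = Fintype.card (Finset (Fin m)) - 1 := by
      rw [Fintype.card_finset, Fintype.card_fin]
    rw [hcard]
    apply dvd_det _ _ (fun J => C (C (∏ k ∈ Jᶜ, D.U i k))) Finset.univ
    intro J K _
    rw [dvd_iff_isRoot, IsRoot.def]
    have key : ∀ J : Finset (Fin m), eval (C (D.x i)) (MM (R := F[X]) (fun k => C (D.b k))
        (fun I => (if I = ∅ then ∏ i, (X - C (C (D.x i))) else 0) -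
          C X * (HI D c c' I).map C) J K) =
        -X * C (c i * ∏ j ∈ Finset.univ.erase i, (D.x i - D.x j)) *
          C ((∏ k ∈ Jᶜ, D.U i k) * ∏ k ∈ K, D.U i k) := by
      intro J
      simp only [MM, Matrix.of_apply]
      rw [eval_mul, eval_sub]
      have h1 : eval (C (D.x i)) (if symmDiff J K = ∅ then
          ∏ i, (X - C (C (D.x i))) else (0 : F[X][X])) = 0 := by
        split_ifs
        · rw [eval_prod]
          simp only [eval_sub, eval_X, eval_C]
          exact Finset.prod_eq_zero (Finset.mem_univ i) (sub_self _)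
        · simp
      have h2 : eval (C (D.x i)) (C X * (HI D c c' (symmDiff J K)).map C) =
          X * C ((HI D c c' (symmDiff J K)).eval (D.x i)) := by
        rw [eval_mul, eval_C, eval_map, eval₂_at_apply]
      have h3 : eval (C (D.x i)) (∏ k ∈ K \ J, (1 + C (C (D.b k)) * X)) =
          C (∏ k ∈ K \ J, D.U i k ^ 2) := by
        rw [eval_prod, map_prod]
        apply Finset.prod_congr rfl
        intro k _
        simp only [eval_add, eval_one, eval_mul, eval_C, eval_X]
        rw [D.hU i k, C_add, C_1, C_mul]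
      rw [h1, h2, h3, eval_HI, ← prod_ident2]
      simp only [C_mul]
      ring
    rw [eval_sub, eval_mul, eval_C, key J, key Finset.univ]
    simp only [Finset.compl_univ, Finset.prod_empty, one_mul, C_mul]
    ring

end Pool.Agent.Lib.MP958bd4
end

section
/-!
# MP_958bd4_lc: module AMEIG
-/
set_option autoImplicit false

universe u

namespace Pool.Agent.Lib.MP958bd4

open Polynomial

open AMDETM in
/-- AMEIG. -/
theorem specAMEIG : SpecAMEIG.{u} := by
  classical
  intro m F _ b f x u hu h0
  have hdet : ((MM b f).det).eval x = ((MM b f).map (aeval x)).det := by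
    rw [← coe_aeval_eq_eval]
    exact AlgHom.map_det (aeval x : F[X] →ₐ[F] F) (MM b f)
  rw [hdet, ← Matrix.exists_vecMul_eq_zero_iff]
  refine ⟨fun J => ∏ k ∈ J, u k, ?_, ?_⟩
  · intro h
    have := congrFun h ∅
    simp at this
  · ext K
    have hval : val f x u = 0 := by
      unfold val
      rw [← h0]
      apply Finset.sum_congr rfl
      intro I _
      rw [coe_aeval_eq_eval]
    have h := vecMul_eq b f x u (by simpa using hu) K
    rw [hval, zero_mul] at h
    simpa [Matrix.vecMul, dotProduct] using h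

end Pool.Agent.Lib.MP958bd4
end

section
/-!
# MP_958bd4_lc: module AMNZ (the determinant does not vanish)

The products of the square roots `u k` of `1 + b k * X` are linearly independent over the rational
functions (an elementary case of Kummer theory).
-/
set_option autoImplicit false

universe u

namespace Pool.Agent.Lib.MP958bd4

open Polynomial

namespace AMNZM

/-! ## Kummer theory for square roots -/

section Kummer

variable {Ω : Type u} [Field Ω]

/-- the field `K + K v` -/
def adj (K : Subfield Ω) (v : Ω) (hv : v ^ 2 ∈ K) (hvK : v ∉ K) : Subfield Ω where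
  carrier := {z | ∃ p ∈ K, ∃ q ∈ K, z = p + q * v}
  mul_mem' := by
    rintro _ _ ⟨p, hp, q, hq, rfl⟩ ⟨p', hp', q', hq', rfl⟩
    refine ⟨p * p' + q * q' * v ^ 2, ?_, p * q' + q * p', ?_, by ring⟩
    · exact K.add_mem (K.mul_mem hp hp') (K.mul_mem (K.mul_mem hq hq') hv)
    · exact K.add_mem (K.mul_mem hp hq') (K.mul_mem hq hp')
  one_mem' := ⟨1, K.one_mem, 0, K.zero_mem, by ring⟩
  add_mem' := by
    rintro _ _ ⟨p, hp, q, hq, rfl⟩ ⟨p', hp', q', hq', rfl⟩
    exact ⟨p + p', K.add_mem hp hp', q + q', K.add_mem hq hq', by ring⟩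
  zero_mem' := ⟨0, K.zero_mem, 0, K.zero_mem, by ring⟩
  neg_mem' := by
    rintro _ ⟨p, hp, q, hq, rfl⟩
    exact ⟨-p, K.neg_mem hp, -q, K.neg_mem hq, by ring⟩
  inv_mem' := by
    rintro _ ⟨p, hp, q, hq, rfl⟩
    by_cases hz : p + q * v = 0
    · rw [hz, inv_zero]
      exact ⟨0, K.zero_mem, 0, K.zero_mem, by ring⟩
    · have hq0 : q ≠ 0 → p - q * v ≠ 0 := by
        intro hq0 h
        apply hvK
        have : v = p / q := by
          field_simp
          linear_combination -h
        rw [this]
        exact K.div_mem hp hq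
      have hne : p - q * v ≠ 0 := by
        by_cases hq1 : q = 0
        · subst hq1
          intro h
          apply hz
          linear_combination h
        · exact hq0 hq1
      have hN : p ^ 2 - q ^ 2 * v ^ 2 ≠ 0 := by
        have : p ^ 2 - q ^ 2 * v ^ 2 = (p + q * v) * (p - q * v) := by ring
        rw [this]
        exact mul_ne_zero hz hne
      have hNK : p ^ 2 - q ^ 2 * v ^ 2 ∈ K :=
        K.sub_mem (K.pow_mem hp 2) (K.mul_mem (K.pow_mem hq 2) hv)
      refine ⟨p / (p ^ 2 - q ^ 2 * v ^ 2), K.div_mem hp hNK, -q / (p ^ 2 - q ^ 2 * v ^ 2),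
        K.div_mem (K.neg_mem hq) hNK, ?_⟩
      field_simp
      ring

theorem mem_adj {K : Subfield Ω} {v : Ω} {hv : v ^ 2 ∈ K} {hvK : v ∉ K} {z : Ω} :
    z ∈ adj K v hv hvK ↔ ∃ p ∈ K, ∃ q ∈ K, z = p + q * v := Iff.rfl

theorem le_adj {K : Subfield Ω} {v : Ω} {hv : v ^ 2 ∈ K} {hvK : v ∉ K} {z : Ω} (hz : z ∈ K) :
    z ∈ adj K v hv hvK := ⟨z, hz, 0, K.zero_mem, by ring⟩

theorem kummer (h2 : (2 : Ω) ≠ 0) {ι : Type} [DecidableEq ι] (u : ι → Ω) (s : Finset ι) :
    ∀ (K : Subfield Ω), (∀ k ∈ s, u k ^ 2 ∈ K) →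
      (∀ I ⊆ s, I.Nonempty → ∏ k ∈ I, u k ∉ K) →
      ∀ f : Finset ι → Ω, (∀ I, f I ∈ K) → (∑ I ∈ s.powerset, f I * ∏ k ∈ I, u k) = 0 →
        ∀ I ⊆ s, f I = 0 := by
  induction s using Finset.induction_on with
  | empty =>
    intro K _ _ f _ hsum I hI
    rw [Finset.subset_empty] at hI
    subst hI
    simpa using hsum
  | insert a s ha ih =>
    intro K hsq hne f hf hsum I hI
    have hv : u a ^ 2 ∈ K := hsq a (Finset.mem_insert_self a s)
    have hvK : u a ∉ K := by
      have := hne {a} (by simp) (by simp)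
      simpa using this
    have hsum2 : ∑ t ∈ s.powerset, (f t + f (insert a t) * u a) * ∏ k ∈ t, u k = 0 := by
      rw [Finset.sum_powerset_insert ha] at hsum
      rw [← hsum, ← Finset.sum_add_distrib]
      apply Finset.sum_congr rfl
      intro t ht
      have hat : a ∉ t := fun h => ha (Finset.mem_powerset.1 ht h)
      rw [Finset.prod_insert hat]
      ring
    have key := ih (adj K (u a) hv hvK) (fun k hk => le_adj (hsq k (Finset.mem_insert_of_mem hk)))
      (by
        intro J hJ hJne hmem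
        obtain ⟨p, hp, q, hq, hpq⟩ := hmem
        have hsqJ : ∏ k ∈ J, u k ^ 2 ∈ K :=
          K.prod_mem fun k hk => hsq k (Finset.mem_insert_of_mem (hJ hk))
        rw [Finset.prod_pow, hpq] at hsqJ
        by_cases hq0 : q = 0
        · apply hne J (hJ.trans (Finset.subset_insert a s)) hJne
          rw [hpq, hq0, zero_mul, add_zero]
          exact hp
        by_cases hp0 : p = 0
        · apply hne (insert a J) (Finset.insert_subset_insert a hJ) (by simp)
          have haJ : a ∉ J := fun h => ha (hJ h)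
          rw [Finset.prod_insert haJ, hpq, hp0]
          have : u a * (0 + q * u a) = q * u a ^ 2 := by ring
          rw [this]
          exact K.mul_mem hq hv
        · apply hvK
          have h3 : (p + q * u a) ^ 2 - p ^ 2 - q ^ 2 * u a ^ 2 ∈ K :=
            K.sub_mem (K.sub_mem hsqJ (K.pow_mem hp 2)) (K.mul_mem (K.pow_mem hq 2) hv)
          have h4 : u a = ((p + q * u a) ^ 2 - p ^ 2 - q ^ 2 * u a ^ 2) / (2 * (p * q)) := by
            field_simp
            ring
          rw [h4]
          refine K.div_mem h3 (K.mul_mem ?_ (K.mul_mem hp hq))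
          have : (2 : Ω) = 1 + 1 := by norm_num
          rw [this]
          exact K.add_mem K.one_mem K.one_mem)
      (fun t => f t + f (insert a t) * u a) (fun t => ⟨f t, hf t, f (insert a t), hf _, rfl⟩)
      hsum2
    have both : ∀ t ⊆ s, f t = 0 ∧ f (insert a t) = 0 := by
      intro t ht
      have h : f t + f (insert a t) * u a = 0 := key t ht
      have h5 : f (insert a t) = 0 := by
        by_contra h6
        apply hvK
        have : u a = -f t / f (insert a t) := by
          field_simp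
          linear_combination h
        rw [this]
        exact K.div_mem (K.neg_mem (hf t)) (hf _)
      rw [h5, zero_mul, add_zero] at h
      exact ⟨h, h5⟩
    by_cases haI : a ∈ I
    · have h7 := (both (I.erase a) (by
        intro k hk
        have hk' := Finset.mem_erase.1 hk
        exact (Finset.mem_insert.1 (hI hk'.2)).resolve_left hk'.1)).2
      rwa [Finset.insert_erase haI] at h7
    · exact (both I (by
        intro k hk
        rcases Finset.mem_insert.1 (hI hk) with h | h
        · exact absurd (h ▸ hk) haI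
        · exact h)).1

end Kummer

/-! ## The products are not rational -/

variable {m : ℕ} {F : Type u} [Field F]

theorem no_square (b : Fin m → F) (hb : Function.Injective b) (hb0 : ∀ k, b k ≠ 0)
    (I : Finset (Fin m)) (hI : I.Nonempty) (P Q : F[X]) (hQ : Q ≠ 0)
    (h : Q ^ 2 * ∏ k ∈ I, (1 + C (b k) * X) = P ^ 2) : False := by
  classical
  obtain ⟨k0, hk0⟩ := hI
  set x0 : F := -(b k0)⁻¹ with hx0
  have hlin : (1 + C (b k0) * X : F[X]) = C (b k0) * (X - C x0) := by
    rw [mul_sub, ← C_mul, hx0, mul_neg, mul_inv_cancel₀ (hb0 k0)]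
    simp
    ring
  rw [← Finset.mul_prod_erase I _ hk0, hlin] at h
  set R : F[X] := ∏ k ∈ I.erase k0, (1 + C (b k) * X) with hR
  have hRev : R.eval x0 ≠ 0 := by
    rw [hR, eval_prod]
    rw [Finset.prod_ne_zero_iff]
    intro k hk
    simp only [eval_add, eval_one, eval_mul, eval_C, eval_X, hx0]
    intro h0
    have hne := (Finset.mem_erase.1 hk).1
    apply hne
    apply hb
    have := hb0 k0
    field_simp at h0
    linear_combination -h0
  have hR0 : R ≠ 0 := by
    intro h0
    rw [h0] at hRev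
    simp at hRev
  have hmR : rootMultiplicity x0 R = 0 := rootMultiplicity_eq_zero hRev
  have hC : (C (b k0) : F[X]) ≠ 0 := C_ne_zero.2 (hb0 k0)
  have hX : (X - C x0 : F[X]) ≠ 0 := X_sub_C_ne_zero x0
  have hQ2 : Q ^ 2 ≠ 0 := pow_ne_zero 2 hQ
  have hleft : Q ^ 2 * (C (b k0) * (X - C x0) * R) ≠ 0 :=
    mul_ne_zero hQ2 (mul_ne_zero (mul_ne_zero hC hX) hR0)
  have hP : P ≠ 0 := by
    intro h0
    rw [h0] at h
    apply hleft
    rw [h]
    ring
  have e1 : rootMultiplicity x0 (Q ^ 2 * (C (b k0) * (X - C x0) * R)) =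
      2 * rootMultiplicity x0 Q + 1 := by
    rw [rootMultiplicity_mul hleft, rootMultiplicity_mul (mul_ne_zero (mul_ne_zero hC hX) hR0),
      rootMultiplicity_mul (mul_ne_zero hC hX), hmR, rootMultiplicity_C,
      rootMultiplicity_X_sub_C_self, pow_two, rootMultiplicity_mul (mul_ne_zero hQ hQ)]
    omega
  have e2 : rootMultiplicity x0 (P ^ 2) = 2 * rootMultiplicity x0 P := by
    rw [pow_two, rootMultiplicity_mul (mul_ne_zero hP hP)]
    omega
  rw [h, e2] at e1
  omega

theorem indep (h2 : (2 : F) ≠ 0) (b : Fin m → F) (hb : Function.Injective b)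
    (hb0 : ∀ k, b k ≠ 0) (L Ω : Type u) [Field L] [Field Ω] [Algebra F[X] L] [IsFractionRing F[X] L]
    [Algebra L Ω] [Algebra F[X] Ω] [IsScalarTower F[X] L Ω] (u : Fin m → Ω)
    (hu : ∀ k, u k ^ 2 = algebraMap F[X] Ω (1 + C (b k) * X)) (f : Finset (Fin m) → F[X])
    (h0 : ∑ I : Finset (Fin m), algebraMap F[X] Ω (f I) * ∏ k ∈ I, u k = 0) (I : Finset (Fin m)) :
    f I = 0 := by
  classical
  have hinj : Function.Injective (algebraMap F[X] Ω) := by
    rw [IsScalarTower.algebraMap_eq F[X] L Ω]
    exact (algebraMap L Ω).injective.comp (IsFractionRing.injective F[X] L)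
  have h2' : (2 : Ω) ≠ 0 := by
    have h3 : (2 : F[X]) ≠ 0 := by
      have : (2 : F[X]) = C 2 := (map_ofNat C 2).symm
      rw [this]
      exact C_ne_zero.2 h2
    have h4 : (2 : Ω) = algebraMap F[X] Ω 2 := (map_ofNat (algebraMap F[X] Ω) 2).symm
    rw [h4]
    intro h5
    exact h3 (hinj (by rw [h5, map_zero]))
  have hmemK : ∀ p : F[X], algebraMap F[X] Ω p ∈ (algebraMap L Ω).fieldRange := by
    intro p
    exact ⟨algebraMap F[X] L p, (IsScalarTower.algebraMap_apply F[X] L Ω p).symm⟩
  have key := kummer h2' u Finset.univ (algebraMap L Ω).fieldRange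
    (fun k _ => by rw [hu k]; exact hmemK _)
    (by
      rintro J - hJ ⟨y, hy⟩
      obtain ⟨P, Q, hQ, rfl⟩ := IsFractionRing.div_surjective (A := F[X]) y
      have hQ0 : Q ≠ 0 := nonZeroDivisors.ne_zero hQ
      apply no_square b hb hb0 J hJ P Q hQ0
      apply hinj
      have h3 : algebraMap F[X] Ω Q ≠ 0 := by
        intro h4
        exact hQ0 (hinj (by rw [h4, map_zero]))
      have h5 : ∏ k ∈ J, u k = algebraMap F[X] Ω P / algebraMap F[X] Ω Q := by
        rw [← hy, map_div₀, ← IsScalarTower.algebraMap_apply, ← IsScalarTower.algebraMap_apply]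
      have h6 : ∏ k ∈ J, u k ^ 2 = (algebraMap F[X] Ω P / algebraMap F[X] Ω Q) ^ 2 := by
        rw [Finset.prod_pow, h5]
      simp only [hu] at h6
      rw [map_mul, map_prod, h6, map_pow, map_pow]
      field_simp)
    (fun J => algebraMap F[X] Ω (f J)) (fun J => hmemK _)
    (by rw [Finset.powerset_univ]; exact h0) I (Finset.subset_univ I)
  exact hinj (by rw [key, map_zero])

end AMNZM

open AMNZM in
/-- AMNZ. -/
theorem specAMNZ : SpecAMNZ.{u} := by
  classical
  intro m F _ b h2 hb hb0 f hf hdet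
  apply hf
  funext I
  let L := FractionRing F[X]
  let Ω := AlgebraicClosure L
  -- square roots
  have hex : ∀ k, ∃ z : Ω, z ^ 2 = algebraMap F[X] Ω (1 + C (b k) * X) := fun k =>
    IsAlgClosed.exists_pow_nat_eq _ (by norm_num)
  choose v hv using hex
  have hinj : Function.Injective (algebraMap F[X] Ω) := by
    rw [IsScalarTower.algebraMap_eq F[X] L Ω]
    exact (algebraMap L Ω).injective.comp (IsFractionRing.injective F[X] L)
  have hmap : ∀ p : F[X], aeval (algebraMap F[X] Ω X) p = algebraMap F[X] Ω p := by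
    intro p
    rw [aeval_algebraMap_apply, aeval_X_left, AlgHom.id_apply]
  have h2' : (2 : Ω) ≠ 0 := by
    have h3 : (2 : F[X]) ≠ 0 := by
      have : (2 : F[X]) = C 2 := (map_ofNat C 2).symm
      rw [this]
      exact C_ne_zero.2 h2
    have h4 : (2 : Ω) = algebraMap F[X] Ω 2 := (map_ofNat (algebraMap F[X] Ω) 2).symm
    rw [h4]
    intro h5
    exact h3 (hinj (by rw [h5, map_zero]))
  have hlin : ∀ k, algebraMap F[X] Ω (1 + C (b k) * X) =
      1 + algebraMap F Ω (b k) * algebraMap F[X] Ω X := by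
    intro k
    rw [map_add, map_one, map_mul]
    congr 2
  have hlin0 : ∀ k, algebraMap F[X] Ω (1 + C (b k) * X) ≠ 0 := by
    intro k h4
    have h5 : (1 + C (b k) * X : F[X]) = 0 := hinj (by rw [h4, map_zero])
    have h6 := congrArg (fun p : F[X] => p.eval 0) h5
    simp at h6
  have hv0 : ∀ k, v k ≠ 0 := by
    intro k h4
    apply hlin0 k
    rw [← hv k, h4]
    ring
  have hD := specAMDET m F Ω b f (algebraMap F[X] Ω X) v
    (fun k => by rw [hv k, hlin k]) (fun k => isUnit_iff_ne_zero.2 (hv0 k))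
    (isUnit_iff_ne_zero.2 h2')
  rw [hdet, map_zero] at hD
  obtain ⟨d, -, hd⟩ := Finset.prod_eq_zero_iff.1 hD.symm
  simp only [hmap] at hd
  exact indep h2 b hb hb0 L Ω (fun k => sgn (d k) * v k)
    (fun k => by rw [mul_pow, hv k, pow_two, AMDETM.sgn_mul_self, one_mul]) f hd I

end Pool.Agent.Lib.MP958bd4
end

section
/-!
# MP_958bd4_lc: module AMPOL (the polynomial `P_w`)
-/
set_option autoImplicit false

universe u

namespace Pool.Agent.Lib.MP958bd4

open Polynomial

namespace AMPOLM

open AMCONM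

variable {m r : ℕ} {F : Type u} [Field F]

/-- the coefficients of `E₀ - w H` -/
noncomputable def ff (D : CData m r F) (c : Fin r → F) (c' : F) (I : Finset (Fin m)) : F[X][X] :=
  (if I = ∅ then ∏ i, (X - C (C (D.x i))) else 0) - C X * (HI D c c' I).map C

/-- the polynomial `E₀` over `F[w]` -/
noncomputable def EE0 (D : CData m r F) : F[X][X] := ∏ i, (X - C (C (D.x i)))

theorem monic_EE0 (D : CData m r F) : (EE0 D).Monic :=
  monic_prod_of_monic _ _ fun i _ => monic_X_sub_C (C (D.x i))

theorem natDegree_EE0 (D : CData m r F) : (EE0 D).natDegree = r := by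
  unfold EE0
  rw [natDegree_prod_of_monic _ _ (fun j _ => monic_X_sub_C (C (D.x j)))]
  simp

theorem monic_E0P (x : Fin r → F) : (E0P x).Monic :=
  monic_prod_of_monic _ _ fun i _ => monic_X_sub_C (x i)

theorem deg_ff (D : CData m r F) (c : Fin r → F) (c' : F) (hc : D.Constr c)
    (I : Finset (Fin m)) : ff D c c' I = 0 ∨ 2 * (ff D c c' I).natDegree + I.card ≤ 2 * r := by
  classical
  have h1 := (specAMCON m r F D c c' hc).1 I
  have h2 : (C X * (HI D c c' I).map C : F[X][X]).natDegree ≤ (HI D c c' I).natDegree :=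
    le_trans (natDegree_C_mul_le _ _) natDegree_map_le
  by_cases hI : I = ∅
  · right
    subst hI
    simp only [Finset.card_empty, add_zero] at h1 ⊢
    apply Nat.mul_le_mul_left
    unfold ff
    rw [if_pos rfl]
    refine le_trans (natDegree_sub_le _ _) (max_le (natDegree_EE0 D).le ?_)
    refine le_trans h2 ?_
    rcases h1 with h1 | h1
    · rw [h1, natDegree_zero]
      exact Nat.zero_le r
    · omega
  · unfold ff
    rw [if_neg hI, zero_sub, natDegree_neg, neg_eq_zero]
    rcases h1 with h1 | h1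
    · left
      rw [h1]
      simp
    · right
      omega

theorem det_zero (D : CData m r F) (c : Fin r → F) (c' : F) :
    ((MM (R := F[X]) (fun k => C (D.b k)) (ff D c c')).det).map (evalRingHom (0 : F)) =
      E0P D.x ^ (2 ^ m) := by
  classical
  rw [← coe_mapRingHom, RingHom.map_det]
  have h : (mapRingHom (evalRingHom (0 : F))).mapMatrix
      (MM (R := F[X]) (fun k => C (D.b k)) (ff D c c')) =
      Matrix.diagonal (fun _ : Finset (Fin m) => E0P D.x) := by
    ext1 J K
    have hff : ∀ I : Finset (Fin m), (ff D c c' I).map (evalRingHom (0 : F)) =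
        if I = ∅ then E0P D.x else 0 := by
      intro I
      unfold ff
      rw [Polynomial.map_sub, Polynomial.map_mul, map_C]
      have h0 : evalRingHom (0 : F) X = 0 := by simp
      rw [h0, C_0, zero_mul, sub_zero]
      split_ifs
      · unfold E0P
        rw [Polynomial.map_prod]
        simp
      · simp
    have h1 : (mapRingHom (evalRingHom (0 : F))).mapMatrix
      (MM (R := F[X]) (fun k => C (D.b k)) (ff D c c')) J K =
      (ff D c c' (symmDiff J K)).map (evalRingHom (0 : F)) *
        (∏ k ∈ K \ J, (1 + C (C (D.b k)) * X : F[X][X])).map (evalRingHom (0 : F)) := by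
      rw [← Polynomial.map_mul]
      rfl
    rw [h1, hff]
    by_cases hJK : J = K
    · subst hJK
      rw [Matrix.diagonal_apply_eq]
      simp
    · rw [Matrix.diagonal_apply_ne _ hJK, if_neg, zero_mul]
      rw [← Finset.bot_eq_empty, symmDiff_eq_bot]
      exact hJK
  rw [h, Matrix.det_diagonal, Finset.prod_const, Finset.card_univ, Fintype.card_finset,
    Fintype.card_fin]

end AMPOLM

open AMPOLM AMCONM in
/-- AMPOL. -/
theorem specAMPOL : SpecAMPOL.{u} := by
  classical
  intro m r F _ _ D c c' hc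
  set M := MM (R := F[X]) (fun k => C (D.b k)) (ff D c c') with hM
  obtain ⟨P, hP⟩ := specAMDIV m r F D c c'
  have hP' : M.det = EE0 D ^ (2 ^ m - 1) * P := hP
  have hpow : 2 ^ m = (2 ^ m - 1) + 1 := by
    have : 0 < 2 ^ m := by positivity
    omega
  have hEm : (EE0 D ^ (2 ^ m - 1)).Monic := (monic_EE0 D).pow _
  have hdeg : P.natDegree ≤ r := by
    by_cases hP0 : P = 0
    · rw [hP0, natDegree_zero]; exact Nat.zero_le r
    · have h1 := specAMDEG m F[X] (fun k => C (D.b k)) (ff D c c') (2 * r) (deg_ff D c c' hc)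
      rw [← hM, hP', hEm.natDegree_mul' hP0, (monic_EE0 D).natDegree_pow, natDegree_EE0] at h1
      have h2 : 2 ^ m * (2 * r) = 2 * ((2 ^ m - 1) * r) + 2 * r := by
        conv_lhs => rw [hpow]
        ring
      omega
  have hP0 : P.map (evalRingHom (0 : F)) = E0P D.x := by
    have h1 := det_zero D c c'
    rw [← hM, hP', Polynomial.map_mul, Polynomial.map_pow] at h1
    have h2 : (EE0 D).map (evalRingHom (0 : F)) = E0P D.x := by
      unfold EE0 E0P
      rw [Polynomial.map_prod]
      simp
    rw [h2] at h1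
    have h3 : E0P D.x ^ (2 ^ m) = E0P D.x ^ (2 ^ m - 1) * E0P D.x := by
      conv_lhs => rw [hpow, pow_succ]
    rw [h3] at h1
    exact mul_left_cancel₀ (pow_ne_zero _ (monic_E0P D.x).ne_zero) h1
  refine ⟨fun j => P.coeff j, ?_, ?_, ?_⟩
  · intro x
    have h1 : D.E0 x = (P.map (evalRingHom (0 : F))).eval x := by
      rw [hP0]
      unfold CData.E0 E0P
      rw [eval_prod]
      simp
    rw [h1, eval_eq_sum_range' (n := r + 1)
      (lt_of_le_of_lt natDegree_map_le (Nat.lt_succ_of_le hdeg))]
    unfold Pw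
    rw [Finset.sum_range]
    apply Finset.sum_congr rfl
    intro j _
    rw [coeff_map, coe_aeval_eq_eval]
    rfl
  · have h1 : ((E0P D.x).coeff r) = 1 := by
      have h2 := (monic_E0P D.x).coeff_natDegree
      rwa [natDegree_E0P] at h2
    rw [← hP0, coeff_map] at h1
    exact h1
  · intro S _ _ w x u hu hunit
    letI : Algebra F[X] S := ((algebraMap F S).comp (evalRingHom w)).toAlgebra
    have hmap : ∀ p : F[X], algebraMap F[X] S p = algebraMap F S (p.eval w) := fun p => rfl
    have h2 : IsUnit (2 : S) := by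
      have h3 : (2 : S) = algebraMap F S 2 := (map_ofNat (algebraMap F S) 2).symm
      rw [h3]
      exact IsUnit.map _ (isUnit_iff_ne_zero.2 (by norm_num))
    have hdet := specAMDET m F[X] S (fun k => C (D.b k)) (ff D c c') x u
      (fun k => by rw [hmap, eval_C]; exact hu k) hunit h2
    have hE : aeval x (EE0 D) = D.E0 x := by
      unfold EE0 CData.E0
      rw [map_prod]
      apply Finset.prod_congr rfl
      intro i _
      rw [map_sub, aeval_X, aeval_C, hmap, eval_C]
    have hPx : aeval x P = Pw (fun j : Fin (r + 1) => P.coeff j) (algebraMap F S w) x := by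
      rw [aeval_eq_sum_range' (n := r + 1) (Nat.lt_succ_of_le hdeg)]
      unfold Pw
      rw [Finset.sum_range]
      apply Finset.sum_congr rfl
      intro j _
      rw [aeval_algebraMap_apply_eq_algebraMap_eval, Algebra.smul_def, hmap]
    rw [← hM, hP', map_mul, map_pow, hE, hPx] at hdet
    rw [hdet]
    apply Finset.prod_congr rfl
    intro d _
    rw [(specAMCON m r F D c c' hc).2 S x (fun k => sgn (d k) * u k)]
    have h4 : ∀ I : Finset (Fin m), aeval x (ff D c c' I) =
        (if I = ∅ then D.E0 x else 0) - algebraMap F S w * aeval x (HI D c c' I) := by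
      intro I
      unfold ff
      rw [map_sub, map_mul, aeval_C, hmap, eval_X]
      congr 1
      · split_ifs
        · exact hE
        · simp
      · congr 1
        rw [aeval_def, eval₂_map, aeval_def]
        congr 1
        ext a
        simp [hmap]
    simp only [h4, sub_mul]
    rw [Finset.sum_sub_distrib]
    congr 1
    · rw [Finset.sum_eq_single ∅]
      · simp
      · intro I _ hI
        rw [if_neg hI, zero_mul]
      · intro h
        exact absurd (Finset.mem_univ _) h
    · rw [Finset.mul_sum]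
      apply Finset.sum_congr rfl
      intro I _
      ring

end Pool.Agent.Lib.MP958bd4
end
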