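import Pool.Agent.Lib.MP_958bd4_lc.Defs

/-!
# MP_958bd4_lc: Specs, topologies (section 2 of the text)
-/

set_option autoImplicit false

universe u

namespace Pool.Agent.Lib.MP958bd4

open Polynomial Topology Filter

/-- [RTOP] the topology of a local domain on its fraction field. -/
def SpecRTOP : Prop := ∀ (B F : Type u) [CommRing B] [IsDomain B] [IsLocalRing B] [Field F]
  [Algebra B F] [IsFractionRing B F], ¬ IsField B → ∃ t : TopologicalSpace F, IsRingTop B F t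

/-- [HTOP] for henselian local domains it satisfies the implicit function theorem. -/
def SpecHTOP : Prop := ∀ (B F : Type u) [CommRing B] [IsDomain B] [HenselianLocalRing B] [Field F]
  [Algebra B F] [IsFractionRing B F] (t : TopologicalSpace F), ¬ IsField B → IsRingTop B F t →
  @THens F _ t

/-- [VTOP] valuation rings give V-topologies. -/
def SpecVTOP : Prop := ∀ (F : Type u) [Field F] (O : ValuationSubring F)
  (t : TopologicalSpace F), IsRingTop O F t → @IsV F _ t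

/-- [RCI] intermediate value theorem for polynomials over a real closed field; the order is
`x ≤ y` iff `y - x` is a square. -/
def SpecRCI : Prop := ∀ (F : Type u) [Field F], IsRealClosed F →
  ∃ (_ : LinearOrder F), IsStrictOrderedRing F ∧ (∀ x : F, 0 ≤ x ↔ IsSquare x) ∧
    ∀ (f : F[X]) (a b : F), a ≤ b → 0 < f.eval a → f.eval b < 0 → ∃ c, a ≤ c ∧ c ≤ b ∧ f.eval c = 0

/-- [RCF] the order topology of a real closed field. -/
def SpecRCF : Prop := ∀ (F : Type u) [Field F], IsRealClosed F →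
  ∃ t : TopologicalSpace F, @TopField F _ t ∧ @THens F _ t ∧ @IsV F _ t ∧
    {y : F | ∃ z : F, z ≠ 0 ∧ z ^ 2 = 1 - 4 * y ^ 2} ∈ @nhds F t 0 ∧
    {y : F | ∃ z : F, z ≠ 0 ∧ z ^ 2 = 1 - 4 * y ^ 2}ᶜ ∈ @nhds F t 1

/-- [SCT] -/
def SpecSCT : Prop := ShelahConjecture.{u} → ∀ (F : Type u) [Field F] (S : DefSys F), S.IsRing →
  Infinite F → ¬ IsSepClosed F → ∃ t : TopologicalSpace F, @TopField F _ t ∧ @THens F _ t ∧
    @IsV F _ t ∧ ∃ U : Set F, S.Def₁ U ∧ U ∈ @nhds F t 0 ∧ Uᶜ ∈ @nhds F t 1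

/-- [TAY] uniform existence of roots (Newton / Taylor). `W` depends on `n` and `V` only. -/
def SpecTAY : Prop := ∀ (F : Type u) [Field F] [TopologicalSpace F] [TopField F], THens F →
  ∀ (n : ℕ) (V : Set F), V ∈ 𝓝 (-1 : F) → ∃ W ∈ 𝓝 (0 : F), ∀ (g : F[X]) (b : F),
    g.natDegree ≤ n → g.derivative.eval b ≠ 0 →
    (∀ k, 2 ≤ k → k ≤ n → (hasseDeriv k g).eval b * g.eval b ^ (k - 1) *
      (g.derivative.eval b)⁻¹ ^ k ∈ W) →
    ∃ z ∈ V, g.eval (b + g.eval b * (g.derivative.eval b)⁻¹ * z) = 0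

/-- [PERS] persistence of simple roots, with the derivative. Polynomials of degree `≤ n` are given
by their coefficients. -/
def SpecPERS : Prop := ∀ (F : Type u) [Field F] [TopologicalSpace F] [TopField F], THens F →
  ∀ (n : ℕ) (p : Fin (n + 1) → F) (α : F), (∑ i : Fin (n + 1), p i * α ^ (i : ℕ)) = 0 →
    (∑ i : Fin (n + 1), (i : ℕ) * p i * α ^ ((i : ℕ) - 1)) ≠ 0 → ∀ V ∈ 𝓝 α,
    ∃ O ∈ 𝓝 p, ∀ q ∈ O, ∃ β ∈ V, (∑ i : Fin (n + 1), q i * β ^ (i : ℕ)) = 0 ∧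
      (∑ i : Fin (n + 1), (i : ℕ) * q i * β ^ ((i : ℕ) - 1)) ≠ 0

/-- [SQR] square roots. -/
def SpecSQR : Prop := ∀ (F : Type u) [Field F] [TopologicalSpace F] [TopField F], THens F →
  (2 : F) ≠ 0 → ∀ (U : F), U ≠ 0 → ∀ V ∈ 𝓝 (0 : F), ∃ W ∈ 𝓝 (0 : F), ∀ d : F, d - U ^ 2 ∈ W →
    ∃ u : F, u ^ 2 = d ∧ u - U ∈ V ∧ u ≠ 0

/-- [BND] bounded sets. -/
def SpecBND : Prop := ∀ (F : Type u) [Field F] [TopologicalSpace F] [TopField F],
  (∀ K K' : Set F, K ⊆ K' → Bdd K' → Bdd K) ∧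
  (∀ K K' : Set F, Bdd K → Bdd K' → Bdd (K ∪ K')) ∧
  (∀ K : Set F, K.Finite → Bdd K) ∧
  (∀ K K' : Set F, Bdd K → Bdd K' → Bdd {z | ∃ x ∈ K, ∃ y ∈ K', z = x + y}) ∧
  (∀ K K' : Set F, Bdd K → Bdd K' → Bdd {z | ∃ x ∈ K, ∃ y ∈ K', z = x * y}) ∧
  (∀ (K : Set F) (n : ℕ), Bdd K → Bdd {z | ∃ p : F[X], p.natDegree ≤ n ∧ (∀ i, p.coeff i ∈ K) ∧
    ∃ x ∈ K, z = p.eval x}) ∧
  (∀ K : Set F, Bdd K → ∀ V ∈ 𝓝 (0 : F), ∃ W ∈ 𝓝 (0 : F), ∀ x ∈ K, ∀ w ∈ W, x * w ∈ V)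

/-- [ROPEN] having no root is an open condition (irreducible separable polynomials,
V-topologies). A monic polynomial `X ^ D + ∑ a i X ^ i` is given by `a : Fin D → F`. -/
def SpecROPEN : Prop := ∀ (F : Type u) [Field F] [TopologicalSpace F] [TopField F], THens F →
  IsV F → ∀ f : F[X], f.Monic → Irreducible f → f.Separable → 2 ≤ f.natDegree →
    ∃ O : Set (Fin f.natDegree → F), IsOpen O ∧ O.Nonempty ∧
      ∀ a ∈ O, ∀ r : F, r ^ f.natDegree + ∑ i : Fin f.natDegree, a i * r ^ (i : ℕ) ≠ 0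

/-- [SOPEN] having a simple root is an open condition. -/
def SpecSOPEN : Prop := ∀ (F : Type u) [Field F] [TopologicalSpace F] [TopField F], THens F →
  ∀ D : ℕ, 2 ≤ D → ∃ O : Set (Fin D → F), IsOpen O ∧ O.Nonempty ∧ ∀ a ∈ O, ∃ r : F,
    r ^ D + ∑ i : Fin D, a i * r ^ (i : ℕ) = 0 ∧
    (D : F) * r ^ (D - 1) + ∑ i : Fin D, ((i : ℕ) : F) * a i * r ^ ((i : ℕ) - 1) ≠ 0

/-- [DENS] unbounded local rings are dense. -/
def SpecDENS : Prop := ∀ (B F : Type u) [CommRing B] [IsDomain B] [IsLocalRing B] [Field F]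
  [Algebra B F] [IsFractionRing B F] [TopologicalSpace F] [TopField F], IsV F →
  ¬ Bdd (Set.range (algebraMap B F)) → IndepSet (Set.range (algebraMap B F))

/-- [IND2] primes sharing no nonzero prime are independent. -/
def SpecIND2 : Prop := ∀ (A F : Type u) [CommRing A] [IsDomain A] [Field F] [Algebra A F]
  [IsFractionRing A F] (p₁ p₂ : Ideal A), p₁.IsPrime → p₂.IsPrime → ¬ p₁ ≤ p₂ → ¬ p₂ ≤ p₁ →
  (∀ P : Ideal A, P.IsPrime → P ≤ p₁ → P ≤ p₂ → P = ⊥) → ∀ a b y : F, a ≠ 0 → b ≠ 0 →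
  ∃ u ∈ locSet (algebraMap A F) p₁, ∃ v ∈ locSet (algebraMap A F) p₂, y = a * u + b * v

end Pool.Agent.Lib.MP958bd4
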