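import Pool.Agent.Lib.MP_958bd4_lc.SpecC
import Pool.Agent.Lib.MP_958bd4_lc.SpecT

section
/-!
# MP_958bd4_lc, module AMBR: the branch of the solution
-/
set_option autoImplicit false

universe u

namespace Pool.Agent.Lib.MP958bd4

open Polynomial Topology Filter

namespace AMBRM

variable {m r : ℕ} {F : Type u} [Field F]

/-- `H / E₀` in the coordinates near `(x i; δ U i)`, `δ k₀ = -1` -/
noncomputable def Phi (D : CData m r F) (c : Fin r → F) (c' : F) (i : Fin r) (k₀ : Fin m) (ρ : F)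
    (u : Fin m → F) : F :=
  c i * (D.b k₀ * (u k₀ - D.U i k₀)⁻¹ * ∏ k ∈ Finset.univ.erase k₀, (u k + D.U i k)) +
    ∑ i' ∈ Finset.univ.erase i, c i' * (∏ k, (u k + D.U i' k)) * (ρ - D.x i')⁻¹ + c'

theorem H_eq (D : CData m r F) (c : Fin r → F) (c' : F) (i : Fin r) (k₀ : Fin m) (ρ : F)
    (u : Fin m → F) (hρ : ∀ j, ρ ≠ D.x j) (hu : ∀ k, u k ^ 2 = 1 + D.b k * ρ)
    (hk : u k₀ ≠ D.U i k₀) : D.H c c' ρ u = D.E0 ρ * Phi D c c' i k₀ ρ u := by
  have hE : ∀ j, D.E0 ρ = (ρ - D.x j) * ∏ j' ∈ Finset.univ.erase j, (ρ - D.x j') := by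
    intro j
    unfold CData.E0
    rw [Finset.mul_prod_erase Finset.univ (fun j' => ρ - D.x j') (Finset.mem_univ j)]
    rfl
  have hterm : ∀ j, (∏ j' ∈ Finset.univ.erase j, (ρ - D.x j')) = D.E0 ρ * (ρ - D.x j)⁻¹ := by
    intro j
    rw [hE j, mul_comm (ρ - D.x j), mul_assoc, mul_inv_cancel₀ (sub_ne_zero.2 (hρ j)), mul_one]
  have hk' : u k₀ - D.U i k₀ ≠ 0 := sub_ne_zero.2 hk
  have hfac : (u k₀ + D.U i k₀) * (ρ - D.x i)⁻¹ = D.b k₀ * (u k₀ - D.U i k₀)⁻¹ := by
    rw [← div_eq_mul_inv, ← div_eq_mul_inv, div_eq_div_iff (sub_ne_zero.2 (hρ i)) hk']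
    have h1 := hu k₀
    have h2 := D.hU i k₀
    linear_combination h1 - h2
  have hi : c i * (∏ k, (u k + D.U i k)) * (∏ j' ∈ Finset.univ.erase i, (ρ - D.x j')) =
      D.E0 ρ * (c i * (D.b k₀ * (u k₀ - D.U i k₀)⁻¹ *
        ∏ k ∈ Finset.univ.erase k₀, (u k + D.U i k))) := by
    rw [hterm i, ← hfac, ← Finset.mul_prod_erase Finset.univ (fun k => u k + D.U i k)
      (Finset.mem_univ k₀)]
    ring
  have hH : D.H c c' ρ u = ∑ i', c i' * (∏ k, (u k + D.U i' k)) *
      (∏ j' ∈ Finset.univ.erase i', (ρ - D.x j')) + c' * D.E0 ρ := rfl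
  rw [hH, ← Finset.add_sum_erase Finset.univ _ (Finset.mem_univ i), hi]
  unfold Phi
  have hsum : ∑ i' ∈ Finset.univ.erase i, c i' * (∏ k, (u k + D.U i' k)) *
      (∏ j' ∈ Finset.univ.erase i', (ρ - D.x j')) =
      D.E0 ρ * ∑ i' ∈ Finset.univ.erase i, c i' * (∏ k, (u k + D.U i' k)) * (ρ - D.x i')⁻¹ := by
    rw [Finset.mul_sum]
    refine Finset.sum_congr rfl fun i' _ => ?_
    rw [hterm i']
    ring
  rw [hsum]
  ring

theorem tendsto_Phi [TopologicalSpace F] [TopField F] {X : Type u} {L : Filter X}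
    (D : CData m r F) (c : Fin r → F) (c' : F) (i : Fin r) (k₀ : Fin m) (ρ : X → F)
    (u : X → Fin m → F) (a : Fin m → F) (hρ : Tendsto ρ L (𝓝 (D.x i)))
    (hu : ∀ k, Tendsto (fun z => u z k) L (𝓝 (a k))) (hk : a k₀ ≠ D.U i k₀) :
    Tendsto (fun z => Phi D c c' i k₀ (ρ z) (u z)) L (𝓝 (Phi D c c' i k₀ (D.x i) a)) := by
  unfold Phi
  refine Tendsto.add (Tendsto.add ?_ ?_) tendsto_const_nhds
  · refine tendsto_const_nhds.mul (Tendsto.mul (tendsto_const_nhds.mul ?_) ?_)
    · exact ((hu k₀).sub tendsto_const_nhds).inv₀ (sub_ne_zero.2 hk)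
    · exact tendsto_finsetProd _ fun k _ => (hu k).add tendsto_const_nhds
  · refine tendsto_finsetSum _ fun i' hi' => ?_
    refine Tendsto.mul (tendsto_const_nhds.mul ?_) ?_
    · exact tendsto_finsetProd _ fun k _ => (hu k).add tendsto_const_nhds
    · refine (hρ.sub tendsto_const_nhds).inv₀ (sub_ne_zero.2 fun h => ?_)
      exact (Finset.ne_of_mem_erase hi') (D.hx h).symm

/-- the conditions -/
def Cond (D : CData m r F) (c : Fin r → F) (c' : F) : Set (F × F × (Fin m → F)) :=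
  {p | (∀ j, p.1 ≠ D.x j) ∧ (∀ k, p.2.2 k ^ 2 = 1 + D.b k * p.1) ∧
    D.E0 p.1 = p.2.1 * D.H c c' p.1 p.2.2}

theorem key [CharZero F] [TopologicalSpace F] [TopField F] (hSQR : SpecSQR.{u}) (hT : THens F)
    (D : CData m r F) (c : Fin r → F) (c' : F) (i : Fin r) (k₀ : Fin m) :
    Tendsto (fun p : F × F × (Fin m → F) => p.2.2 k₀ - D.U i k₀)
      ((𝓝 (D.x i) ×ˢ (𝓝 0 ×ˢ ⊤)) ⊓ 𝓟 (Cond D c c')) (𝓝 0) := by
  rw [tendsto_iff_ultrafilter]
  intro G hG
  have h2 : (2 : F) ≠ 0 := two_ne_zero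
  have hG1 : (G : Filter (F × F × (Fin m → F))) ≤ 𝓝 (D.x i) ×ˢ (𝓝 0 ×ˢ ⊤) := hG.trans inf_le_left
  have hG2 : ∀ᶠ p in (G : Filter (F × F × (Fin m → F))), p ∈ Cond D c c' :=
    (le_principal_iff.1 (hG.trans inf_le_right))
  have hρ : Tendsto (fun p : F × F × (Fin m → F) => p.1) G (𝓝 (D.x i)) :=
    (tendsto_fst).mono_left hG1
  have hw : Tendsto (fun p : F × F × (Fin m → F) => p.2.1) G (𝓝 0) :=
    (tendsto_fst.comp tendsto_snd).mono_left hG1
  -- both signs
  have hsign : ∀ k, Tendsto (fun p : F × F × (Fin m → F) => p.2.2 k - D.U i k) G (𝓝 0) ∨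
      Tendsto (fun p : F × F × (Fin m → F) => - p.2.2 k - D.U i k) G (𝓝 0) := by
    intro k
    have hdich : ∀ V ∈ 𝓝 (0 : F), (∀ᶠ p in (G : Filter (F × F × (Fin m → F))),
        p.2.2 k - D.U i k ∈ V) ∨ ∀ᶠ p in (G : Filter (F × F × (Fin m → F))),
        - p.2.2 k - D.U i k ∈ V := by
      intro V hV
      obtain ⟨W, hW, hW'⟩ := hSQR F hT h2 (D.U i k) (D.hU0 i k) V hV
      have h3 : ∀ᶠ p in (G : Filter (F × F × (Fin m → F))), D.b k * (p.1 - D.x i) ∈ W := by
        have h4 : Tendsto (fun p : F × F × (Fin m → F) => D.b k * (p.1 - D.x i)) G (𝓝 0) := by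
          have := (hρ.sub (tendsto_const_nhds (x := D.x i))).const_mul (D.b k)
          rwa [sub_self, mul_zero] at this
        exact h4 hW
      rw [← Ultrafilter.eventually_or]
      filter_upwards [h3, hG2] with p h4 h5
      obtain ⟨u, hu1, hu2, _⟩ := hW' (1 + D.b k * p.1) (by
        rw [D.hU i k]
        have : 1 + D.b k * p.1 - (1 + D.b k * D.x i) = D.b k * (p.1 - D.x i) := by ring
        rw [this]
        exact h4)
      have h6 : p.2.2 k ^ 2 = u ^ 2 := by rw [hu1, h5.2.1 k]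
      rcases sq_eq_sq_iff_eq_or_eq_neg.1 h6 with h7 | h7
      · left
        rw [h7]
        exact hu2
      · right
        rw [h7, neg_neg]
        exact hu2
    by_contra hcon
    push Not at hcon
    obtain ⟨hc1, hc2⟩ := hcon
    rw [tendsto_def] at hc1 hc2
    push Not at hc1 hc2
    obtain ⟨V1, hV1, hV1'⟩ := hc1
    obtain ⟨V2, hV2, hV2'⟩ := hc2
    rcases hdich (V1 ∩ V2) (inter_mem hV1 hV2) with h3 | h3
    · exact hV1' (h3.mono fun p hp => hp.1)
    · exact hV2' (h3.mono fun p hp => hp.2)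
  by_contra hcon
  -- the limit point
  have hlim : ∀ k, ∃ a : F, Tendsto (fun p : F × F × (Fin m → F) => p.2.2 k) G (𝓝 a) ∧
      (k = k₀ → a = - D.U i k₀) := by
    intro k
    rcases hsign k with h3 | h3
    · refine ⟨D.U i k, ?_, ?_⟩
      · have := h3.add (tendsto_const_nhds (x := D.U i k))
        simpa using this
      · intro hk
        subst hk
        exact absurd h3 hcon
    · refine ⟨- D.U i k, ?_, ?_⟩
      · have := (h3.add (tendsto_const_nhds (x := D.U i k))).neg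
        simpa using this
      · intro hk
        rw [hk]
  choose a ha1 ha2 using hlim
  have hak : a k₀ ≠ D.U i k₀ := by
    rw [ha2 k₀ rfl]
    intro h3
    have h4 : (2 : F) * D.U i k₀ = 0 := by
      rw [two_mul]
      nth_rewrite 1 [← h3]
      ring
    exact (mul_ne_zero h2 (D.hU0 i k₀)) h4
  have hPhi := tendsto_Phi D c c' i k₀ (fun p : F × F × (Fin m → F) => p.1)
    (fun p => p.2.2) a hρ ha1 hak
  have hprod := hw.mul hPhi
  rw [zero_mul] at hprod
  have hne : ∀ᶠ p in (G : Filter (F × F × (Fin m → F))), p.2.2 k₀ ≠ D.U i k₀ :=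
    (ha1 k₀) (isOpen_ne.mem_nhds hak)
  have hone : ∀ᶠ p in (G : Filter (F × F × (Fin m → F))),
      (1 : F) = p.2.1 * Phi D c c' i k₀ p.1 p.2.2 := by
    filter_upwards [hne, hG2] with p h3 h4
    obtain ⟨h5, h6, h7⟩ := h4
    rw [H_eq D c c' i k₀ p.1 p.2.2 h5 h6 h3] at h7
    have h8 : D.E0 p.1 ≠ 0 := by
      unfold CData.E0
      exact Finset.prod_ne_zero_iff.2 fun j _ => sub_ne_zero.2 (h5 j)
    have h9 : D.E0 p.1 * 1 = D.E0 p.1 * (p.2.1 * Phi D c c' i k₀ p.1 p.2.2) := by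
      rw [mul_one]
      nth_rewrite 1 [h7]
      ring
    exact mul_left_cancel₀ h8 h9
  have h10 : Tendsto (fun _ : F × F × (Fin m → F) => (1 : F)) G (𝓝 0) :=
    hprod.congr' (hone.mono fun p hp => hp.symm)
  exact one_ne_zero (tendsto_nhds_unique tendsto_const_nhds h10)

end AMBRM

open AMBRM in
theorem specAMBR (hSQR : SpecSQR.{u}) : SpecAMBR.{u} := by
  intro m r F _ _ _ _ hT D c c' V hV
  have h1 : ∀ i k, ∃ A ∈ 𝓝 (0 : F), ∀ (ρ w : F) (u : Fin m → F), ρ - D.x i ∈ A → w ∈ A →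
      (ρ, w, u) ∈ Cond D c c' → u k - D.U i k ∈ V := by
    intro i k
    have h2 := key hSQR hT D c c' i k hV
    rw [mem_map, mem_inf_principal] at h2
    obtain ⟨A1, hA1, B, hB, hAB⟩ := mem_prod_iff.1 h2
    obtain ⟨A2, hA2, A3, hA3, hAB2⟩ := mem_prod_iff.1 hB
    rw [mem_top] at hA3
    have hA1' : {y : F | y + D.x i ∈ A1} ∈ 𝓝 (0 : F) := by
      have hc : ContinuousAt (fun y : F => y + D.x i) 0 := by fun_prop
      refine hc ?_
      simp only [zero_add]
      exact hA1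
    refine ⟨_, inter_mem hA1' hA2, ?_⟩
    intro ρ w u hρ hw hcond
    have h3 : (ρ, w, u) ∈ A1 ×ˢ B := by
      refine ⟨?_, hAB2 ⟨hw.2, by rw [hA3]; trivial⟩⟩
      have := hρ.1
      simpa using this
    exact hAB h3 hcond
  choose A hA hA' using h1
  refine ⟨⋂ i, ⋂ k, A i k, ?_, ?_⟩
  · rw [Filter.iInter_mem]
    intro i
    rw [Filter.iInter_mem]
    exact hA i
  · intro i ρ w u hρ hne hw hu hE k
    exact hA' i k ρ w u (Set.mem_iInter.1 (Set.mem_iInter.1 hρ i) k)
      (Set.mem_iInter.1 (Set.mem_iInter.1 hw i) k) ⟨hne, hu, hE⟩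

end Pool.Agent.Lib.MP958bd4
end

section
/-!
# MP_958bd4_lc: module AMCT (helper62)
-/
set_option autoImplicit false

universe u

namespace Pool.Agent.Lib.MP958bd4

open Polynomial Topology Filter

namespace AMCTM

/-- A continuous function not vanishing at `0` does not vanish near `0`. -/
lemma nbhd {m : ℕ} {F : Type u} [Field F] [TopologicalSpace F] [T2Space F]
    (g : F → F → (Fin m → F) → F)
    (hg : Continuous fun p : F × F × (Fin m → F) => g p.1 p.2.1 p.2.2) (h0 : g 0 0 0 ≠ 0) :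
    ∃ U ∈ 𝓝 (0 : F), ∀ x ∈ U, ∀ w ∈ U, ∀ v : Fin m → F, (∀ k, v k ∈ U) → g x w v ≠ 0 := by
  have h1 : {p : F × F × (Fin m → F) | g p.1 p.2.1 p.2.2 ≠ 0} ∈
      𝓝 ((0, 0, 0) : F × F × (Fin m → F)) :=
    (isOpen_ne.preimage hg).mem_nhds h0
  rw [nhds_prod_eq, nhds_prod_eq, mem_prod_iff] at h1
  obtain ⟨U1, hU1, V1, hV1, hs⟩ := h1
  obtain ⟨U2, hU2, V2, hV2, hs2⟩ := mem_prod_iff.1 hV1
  rw [nhds_pi, mem_pi'] at hV2
  obtain ⟨I, t, ht, hs3⟩ := hV2
  refine ⟨U1 ∩ (U2 ∩ ⋂ k, t k), inter_mem hU1 (inter_mem hU2 (iInter_mem.2 ht)), ?_⟩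
  intro x hx w hw v hv
  have h4 : (x, w, v) ∈ U1 ×ˢ V1 := by
    refine ⟨hx.1, hs2 ⟨hw.2.1, hs3 ?_⟩⟩
    intro k _
    exact Set.mem_iInter.1 (hv k).2.2 k
  exact hs h4

lemma cont_E0 {m r : ℕ} {F : Type u} [Field F] [TopologicalSpace F] [IsTopologicalRing F]
    (D : CData m r F) {X : Type*} [TopologicalSpace X] {f : X → F} (hf : Continuous f) :
    Continuous fun p => D.E0 (f p) := by
  unfold CData.E0
  exact continuous_finset_prod _ fun i _ => hf.sub continuous_const

lemma cont_H {m r : ℕ} {F : Type u} [Field F] [TopologicalSpace F] [IsTopologicalRing F]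
    (D : CData m r F) (c : Fin r → F) (c' : F) {X : Type*} [TopologicalSpace X] {f : X → F}
    {u : X → Fin m → F} (hf : Continuous f) (hu : ∀ k, Continuous fun p => u p k) :
    Continuous fun p => D.H c c' (f p) (u p) := by
  unfold CData.H
  refine Continuous.add ?_ (continuous_const.mul (cont_E0 D hf))
  refine continuous_finset_sum _ fun i _ => ?_
  refine (continuous_const.mul ?_).mul ?_
  · exact continuous_finset_prod _ fun k _ => (hu k).add continuous_const
  · exact continuous_finset_prod _ fun j _ => hf.sub continuous_const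

end AMCTM

open AMCTM in
theorem specAMCT (hR : SpecRTOP.{u}) : SpecAMCT.{u} := by
  classical
  intro m r B F _ _ _ _ _ _ _ hB D c c' hd
  obtain ⟨t, ht, hn⟩ := hR B F hB
  letI := t
  haveI := ht
  -- the neighbourhoods for the signs
  have key : ∀ d : Fin m → Bool, ∃ U ∈ 𝓝 (0 : F), (∃ k, d k = false) →
      ∀ x ∈ U, ∀ w ∈ U, ∀ v : Fin m → F, (∀ k, v k ∈ U) →
        D.E0 x - (1 + w) * D.H c c' x (fun k => sgn (d k) * (1 + v k)) ≠ 0 := by
    intro d
    by_cases hk : ∃ k, d k = false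
    · obtain ⟨U, hU, h⟩ := nbhd (fun x w (v : Fin m → F) =>
        D.E0 x - (1 + w) * D.H c c' x (fun k => sgn (d k) * (1 + v k)))
        (by
          refine (cont_E0 D continuous_fst).sub ((continuous_const.add
            (continuous_fst.comp continuous_snd)).mul (cont_H D c c' continuous_fst fun k => ?_))
          exact continuous_const.mul (continuous_const.add
            ((continuous_apply k).comp (continuous_snd.comp continuous_snd))))
        (by
          have := hd d hk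
          simp only [Pi.zero_apply, add_zero, mul_one, one_mul]
          exact sub_ne_zero.2 this.symm)
      exact ⟨U, hU, fun _ => h⟩
    · exact ⟨Set.univ, univ_mem, fun h => absurd h hk⟩
  choose U hU hU' using key
  have h2 : {y : F | (∀ i, y ≠ D.x i) ∧ 1 + y ≠ 0} ∈ 𝓝 (0 : F) := by
    have h3 : ∀ i, {y : F | y ≠ D.x i} ∈ 𝓝 (0 : F) := fun i =>
      isOpen_ne.mem_nhds (D.hx0 i).symm
    have h4 : {y : F | 1 + y ≠ 0} ∈ 𝓝 (0 : F) := by
      have : IsOpen {y : F | 1 + y ≠ 0} :=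
        isOpen_ne.preimage (continuous_const.add continuous_id)
      exact this.mem_nhds (by simp)
    filter_upwards [iInter_mem.2 h3, h4] with y hy hy'
    exact ⟨fun i => Set.mem_iInter.1 hy i, hy'⟩
  have h5 : {y : F | (∀ i, y ≠ D.x i) ∧ 1 + y ≠ 0} ∩ ⋂ d, U d ∈ 𝓝 (0 : F) :=
    inter_mem h2 (iInter_mem.2 hU)
  obtain ⟨c₁, hc₁, hc⟩ := (hn _).1 h5
  have hcU : ∀ (d : Fin m → Bool) (b : B), c₁ * algebraMap B F b ∈ U d := fun d b =>
    Set.mem_iInter.1 (hc b).2 d
  have h0 : ∀ d : Fin m → Bool, (0 : F) ∈ U d := fun d => mem_of_mem_nhds (hU d)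
  refine ⟨c₁, hc₁, fun b => (hc b).1, ?_, ?_⟩
  · intro b b' v d hk h
    exact hU' d hk _ (hcU d b) _ (hcU d b') (fun k => c₁ * algebraMap B F (v k))
      (fun k => hcU d (v k)) (sub_eq_zero.2 h)
  · intro b d hk h
    refine hU' d hk 0 (h0 d) _ (hcU d b) 0 (fun k => h0 d) (sub_eq_zero.2 ?_)
    simpa using h

end Pool.Agent.Lib.MP958bd4
end

section
/-!
# MP_958bd4_lc, module AMPTS: points close to a sign vector
-/
set_option autoImplicit false

universe u

namespace Pool.Agent.Lib.MP958bd4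

open Polynomial Topology Filter

namespace AMPTSM

theorem sgn_sq {S : Type u} [CommRing S] (d : Bool) : (sgn d : S) ^ 2 = 1 := by
  cases d <;> simp [sgn]

theorem sgn_ne {S : Type u} [Field S] (d : Bool) : (sgn d : S) ≠ 0 := by
  cases d <;> simp [sgn]

end AMPTSM

open AMPTSM in
theorem specAMPTS (hSQR : SpecSQR.{u}) : SpecAMPTS.{u} := by
  intro m r F _ _ _ _ hT b hb hb0 d V hV
  have h2 : (2 : F) ≠ 0 := two_ne_zero
  have h := fun k : Fin m => hSQR F hT h2 (sgn (d k)) (sgn_ne (d k)) V hV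
  choose W hW hW' using h
  have hnd : (𝓝[≠] (0 : F)).NeBot := TopField.nd
  have hS : (V ∩ ⋂ k, {x : F | b k * x ∈ W k}) ∈ 𝓝 (0 : F) := by
    refine inter_mem hV ?_
    rw [Filter.iInter_mem]
    intro k
    have hc : ContinuousAt (fun x : F => b k * x) 0 := by fun_prop
    have h3 : W k ∈ 𝓝 (b k * 0) := by
      rw [mul_zero]
      exact hW k
    exact hc h3
  have hinf := infinite_of_mem_nhds (0 : F) hS
  have hinf' : ((V ∩ ⋂ k, {x : F | b k * x ∈ W k}) \ {0}).Infinite :=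
    hinf.sdiff (Set.finite_singleton 0)
  set e := hinf'.natEmbedding with he
  have hmem : ∀ i : Fin r, ((e i : F) ∈ V ∧ ∀ k, b k * (e i : F) ∈ W k) ∧ (e i : F) ≠ 0 := by
    intro i
    obtain ⟨⟨h1, h3⟩, h4⟩ := (e i).2
    exact ⟨⟨h1, fun k => Set.mem_iInter.1 h3 k⟩, h4⟩
  have hu : ∀ (i : Fin r) (k : Fin m), ∃ u : F, u ^ 2 = 1 + b k * (e i : F) ∧
      u - sgn (d k) ∈ V ∧ u ≠ 0 := by
    intro i k
    refine hW' k _ ?_
    rw [sgn_sq, add_sub_cancel_left]
    exact (hmem i).1.2 k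
  choose U hU1 hU2 hU3 using hu
  refine ⟨⟨b, fun i => (e i : F), U, hb, hb0, ?_, fun i => (hmem i).2, hU1, hU3⟩, rfl,
    fun i => (hmem i).1.1, hU2⟩
  intro i j hij
  have := e.injective (Subtype.ext hij)
  exact Fin.ext this

end Pool.Agent.Lib.MP958bd4
end

section
/-!
# MP_958bd4_lc, module AMSIG: roots of `P_w` for small `w`
-/
set_option autoImplicit false

universe u

namespace Pool.Agent.Lib.MP958bd4

open Polynomial Topology Filter

namespace AMSIGM

/-- the polynomial with given coefficients -/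
noncomputable def pp {F : Type u} [Field F] {n : ℕ} (q : Fin (n + 1) → F) : F[X] :=
  ∑ j : Fin (n + 1), C (q j) * X ^ (j : ℕ)

theorem eval_pp {F : Type u} [Field F] {n : ℕ} (q : Fin (n + 1) → F) (x : F) :
    (pp q).eval x = ∑ j : Fin (n + 1), q j * x ^ (j : ℕ) := by
  unfold pp
  rw [eval_finsetSum]
  simp

theorem eval_derivative_pp {F : Type u} [Field F] {n : ℕ} (q : Fin (n + 1) → F) (x : F) :
    (pp q).derivative.eval x = ∑ j : Fin (n + 1), (j : ℕ) * q j * x ^ ((j : ℕ) - 1) := by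
  unfold pp
  rw [derivative_sum, eval_finsetSum]
  refine Finset.sum_congr rfl fun j _ => ?_
  rw [derivative_C_mul_X_pow]
  simp [mul_comm]

theorem natDegree_pp {F : Type u} [Field F] {n : ℕ} (q : Fin (n + 1) → F) :
    (pp q).natDegree ≤ n := by
  unfold pp
  refine natDegree_sum_le_of_forall_le _ _ fun j _ => ?_
  exact (natDegree_C_mul_X_pow_le _ _).trans (Nat.lt_succ_iff.1 j.2)

theorem coeff_pp {F : Type u} [Field F] {n : ℕ} (q : Fin (n + 1) → F) :
    (pp q).coeff n = q (Fin.last n) := by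
  unfold pp
  rw [finsetSum_coeff, Finset.sum_eq_single (Fin.last n)]
  · simp
  · intro j _ hj
    rw [coeff_C_mul, coeff_X_pow, if_neg, mul_zero]
    intro h
    exact hj (Fin.ext (by simpa using h.symm))
  · intro h
    exact absurd (Finset.mem_univ _) h

theorem Pw_eq {F : Type u} [Field F] {r : ℕ} (cf : Fin (r + 1) → F[X]) (w x : F) :
    Pw cf w x = (pp fun j => (cf j).eval w).eval x := by
  rw [eval_pp]
  unfold Pw
  refine Finset.sum_congr rfl fun j _ => ?_
  rw [coe_aeval_eq_eval]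

theorem infinite_top (F : Type u) [Field F] [TopologicalSpace F] [TopField F] : Infinite F := by
  have hnd : (𝓝[≠] (0 : F)).NeBot := TopField.nd
  have := infinite_of_mem_nhds (0 : F) (univ_mem : (Set.univ : Set F) ∈ 𝓝 0)
  exact Set.infinite_univ_iff.1 this

end AMSIGM

open AMSIGM in
theorem specAMSIG (hPERS : SpecPERS.{u}) : SpecAMSIG.{u} := by
  intro m r F _ _ _ hT D cf h0 hlead V hV
  have hinf := infinite_top F
  set p : Fin (r + 1) → F := fun j => (cf j).eval 0 with hp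
  have hE : pp p = ∏ i, (X - C (D.x i)) := by
    refine Polynomial.funext fun x => ?_
    rw [← Pw_eq, h0 x, eval_prod]
    unfold CData.E0
    simp
  have hroot : ∀ i, (pp p).eval (D.x i) = 0 := by
    intro i
    rw [hE, eval_prod]
    exact Finset.prod_eq_zero (Finset.mem_univ i) (by simp)
  have hsep : (pp p).Separable := by
    rw [hE]
    exact separable_prod_X_sub_C_iff.2 D.hx
  have hder : ∀ i, (pp p).derivative.eval (D.x i) ≠ 0 := by
    intro i
    have := hsep.eval₂_derivative_ne_zero (RingHom.id F) (x := D.x i) (by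
      rw [eval₂_id]
      exact hroot i)
    rwa [eval₂_id] at this
  obtain ⟨s, hs1, hs2⟩ := Pairwise.exists_mem_filter_of_disjoint
    (l := fun i => 𝓝 (D.x i)) (fun i j hij => disjoint_nhds_nhds.2 fun h => hij (D.hx h))
  have hVi : ∀ i, s i ∩ {y | y - D.x i ∈ V} ∈ 𝓝 (D.x i) := by
    intro i
    refine inter_mem (hs1 i) ?_
    have hc : ContinuousAt (fun y : F => y - D.x i) (D.x i) := by fun_prop
    refine hc ?_
    simp only [sub_self]
    exact hV
  have hO := fun i => hPERS F hT r p (D.x i) (by rw [← eval_pp]; exact hroot i)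
    (by rw [← eval_derivative_pp]; exact hder i) _ (hVi i)
  choose O hO1 hO2 using hO
  have hcont : Tendsto (fun w : F => fun j => (cf j).eval w) (𝓝 0) (𝓝 p) := by
    rw [tendsto_pi_nhds]
    intro j
    exact ((cf j).continuous.tendsto 0)
  have hW : {w : F | (fun j => (cf j).eval w) ∈ ⋂ i, O i} ∈ 𝓝 (0 : F) := by
    refine hcont ?_
    rw [Filter.iInter_mem]
    exact hO1
  have hW2 : {w : F | (cf (Fin.last r)).eval w ≠ 0} ∈ 𝓝 (0 : F) := by
    have h1 : Tendsto (fun w : F => (cf (Fin.last r)).eval w) (𝓝 0) (𝓝 1) := by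
      rw [← hlead]
      exact (cf (Fin.last r)).continuous.tendsto 0
    exact h1 (isOpen_ne.mem_nhds one_ne_zero)
  refine ⟨_, inter_mem hW hW2, ?_⟩
  rintro w ⟨hw1, hw2⟩
  have hβ := fun i => hO2 i _ (Set.mem_iInter.1 hw1 i)
  choose ρ hρ1 hρ2 _ using hβ
  have hinj : Function.Injective ρ := by
    intro i j hij
    by_contra hne
    exact Set.disjoint_left.1 (hs2 hne) (hρ1 i).1 (by rw [hij]; exact (hρ1 j).1)
  set q : Fin (r + 1) → F := fun j => (cf j).eval w with hq
  have hne : pp q ≠ 0 := by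
    intro h
    have h1 := coeff_pp q
    rw [h, coeff_zero] at h1
    exact hw2 h1.symm
  have hρr : ∀ i, (pp q).eval (ρ i) = 0 := by
    intro i
    rw [eval_pp]
    exact hρ2 i
  refine ⟨ρ, hinj, fun i => (hρ1 i).2, fun x => ?_⟩
  rw [Pw_eq]
  constructor
  · intro hx
    classical
    have hsub : Finset.univ.image ρ ⊆ (pp q).roots.toFinset := by
      intro y hy
      obtain ⟨i, _, rfl⟩ := Finset.mem_image.1 hy
      rw [Multiset.mem_toFinset, mem_roots hne]
      exact hρr i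
    have hcard : (pp q).roots.toFinset.card ≤ (Finset.univ.image ρ).card := by
      rw [Finset.card_image_of_injective _ hinj, Finset.card_univ, Fintype.card_fin]
      exact (Multiset.toFinset_card_le _).trans ((card_roots' _).trans (natDegree_pp q))
    have heq := Finset.eq_of_subset_of_card_le hsub hcard
    have hmem : x ∈ (pp q).roots.toFinset := by
      rw [Multiset.mem_toFinset, mem_roots hne]
      exact hx
    rw [← heq] at hmem
    obtain ⟨i, _, hi⟩ := Finset.mem_image.1 hmem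
    exact ⟨i, hi.symm⟩
  · rintro ⟨i, rfl⟩
    exact hρr i

end Pool.Agent.Lib.MP958bd4
end
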