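import Mathlib

/-!
# Definitions: independent topologies, V-topologies, topologies of subrings, points of varieties
-/

namespace Pool.Agent.Lib.MP_958bd4_lc

open Topology

/-- Two topologies are independent if every nonempty open set of the first meets every
nonempty open set of the second. -/
def Independent {X : Type*} (t₁ t₂ : TopologicalSpace X) : Prop :=
  ∀ U V : Set X, IsOpen[t₁] U → IsOpen[t₂] V → U.Nonempty → V.Nonempty → (U ∩ V).Nonempty

/-- A V-topology on a field: a nondiscrete Hausdorff field topology such that for every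
neighbourhood `U` of `0` there is a neighbourhood `V` of `0` with: `x * y ∈ V` implies
`x ∈ U` or `y ∈ U`. -/
structure IsVTopology {K : Type*} [Field K] (t : TopologicalSpace K) : Prop where
  field : @IsTopologicalDivisionRing K _ t
  t2 : @T2Space K t
  nondiscrete : ¬ @DiscreteTopology K t
  vprop : ∀ U ∈ @nhds K t 0, ∃ V ∈ @nhds K t 0, ∀ x y : K, x * y ∈ V → x ∈ U ∨ y ∈ U

/-- The topology generated by the sets `x + a R`, for `x` in `K` and nonzero `a` in `K`. -/
@[reducible] def ringTopology {K : Type*} [Field K] (R : Subring K) : TopologicalSpace K :=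
  TopologicalSpace.generateFrom {U | ∃ x a : K, a ≠ 0 ∧ U = {y | ∃ r ∈ R, y = x + a * r}}

/-- The set of `K`-points of the affine variety `s = 0`, `s ∈ S`, in affine `m`-space. -/
def Points {K : Type*} [Field K] {m : ℕ} (S : Finset (MvPolynomial (Fin m) K)) :
    Set (Fin m → K) :=
  {P | ∀ s ∈ S, MvPolynomial.eval P s = 0}

/-- The topology induced on the `K`-points of an affine variety by a topology on `K`. -/
@[reducible] def pointsTopology {K : Type*} [Field K] {m : ℕ} (t : TopologicalSpace K)
    (S : Finset (MvPolynomial (Fin m) K)) : TopologicalSpace (Points S) :=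
  TopologicalSpace.induced Subtype.val (@Pi.topologicalSpace (Fin m) (fun _ => K) (fun _ => t))

/-- Every point of the variety with coordinates in `K(t)` is constant. -/
def NoRationalCurve {K : Type*} [Field K] {m : ℕ} (S : Finset (MvPolynomial (Fin m) K)) :
    Prop :=
  ∀ f : Fin m → RatFunc K, (∀ s ∈ S, MvPolynomial.aeval f s = 0) →
    ∀ i, ∃ c : K, f i = RatFunc.C c

/-- The affine Fermat curve `x ^ n + y ^ n = 1`. -/
noncomputable def fermat (K : Type*) [Field K] (n : ℕ) : Finset (MvPolynomial (Fin 2) K) :=
  {MvPolynomial.X 0 ^ n + MvPolynomial.X 1 ^ n - 1}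

end Pool.Agent.Lib.MP_958bd4_lc
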