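import Pool.Agent.Lib.MP_958bd4_lc.Statement

/-!
# MP_958bd4_lc: working definitions
-/

set_option autoImplicit false

universe u

namespace Pool.Agent.Lib.MP958bd4

open Polynomial Topology Filter

/-! ### Model theory -/

/-- The relation `R` shatters `n` points. -/
def Shatters {X Y : Type u} (R : X → Y → Prop) (n : ℕ) : Prop :=
  ∃ (a : Fin n → X) (b : Set (Fin n) → Y), ∀ i s, R (a i) (b s) ↔ i ∈ s

/-- NIP, finite form: every formula shatters only boundedly many points of `M`. -/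
def NIPf (L : FirstOrder.Language.{0, 0}) (M : Type u) [L.Structure M] : Prop :=
  ∀ (α β : Type) [Finite α] [Finite β] (φ : L.Formula (α ⊕ β)), ∃ n : ℕ,
    ¬ Shatters (fun (x : α → M) (y : β → M) => φ.Realize (Sum.elim x y)) n

/-- The ring `R` is NIP (finite form). -/
def NIPRing (R : Type u) [CommRing R] : Prop :=
  letI := FirstOrder.Ring.compatibleRingOfRing R
  NIPf FirstOrder.Language.ring R

/-- Externally definable sets. -/
def ExtDef (L : FirstOrder.Language.{0, 0}) (M : Type u) [L.Structure M] {α : Type}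
    (Y : Set (α → M)) : Prop :=
  ∃ (β : Type) (_ : Finite β) (φ : L.Formula (α ⊕ β)), ∀ Y0 : Set (α → M), Y0.Finite →
    ∃ d : β → M, ∀ y ∈ Y0, y ∈ Y ↔ φ.Realize (Sum.elim y d)

/-- A NIP system on `M`: collections of subsets of the `M^α` (`α` a finite type), closed under the
first order operations, and shattering only boundedly many points. (Nothing is required for
infinite `α`.) -/
structure DefSys (M : Type u) where
  Def : ∀ {α : Type}, Set (α → M) → Prop
  compl : ∀ {α : Type} [Finite α] {s : Set (α → M)}, Def s → Def sᶜ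
  inter : ∀ {α : Type} [Finite α] {s t : Set (α → M)}, Def s → Def t → Def (s ∩ t)
  comap : ∀ {α β : Type} [Finite α] [Finite β] (f : α → β) {s : Set (α → M)}, Def s →
    Def {x : β → M | x ∘ f ∈ s}
  proj : ∀ {α β : Type} [Finite α] [Finite β] {s : Set (α ⊕ β → M)}, Def s →
    Def {x : α → M | ∃ y : β → M, Sum.elim x y ∈ s}
  diag : Def {x : Fin 2 → M | x 0 = x 1}
  sing : ∀ c : M, Def {x : Fin 1 → M | x 0 = c}
  nip : ∀ {α β : Type} [Finite α] [Finite β] {s : Set (α ⊕ β → M)}, Def s →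
    ∃ n, ¬ Shatters (fun (x : α → M) (y : β → M) => Sum.elim x y ∈ s) n

/-- The subset `X` of `M` is in the system. -/
def DefSys.Def₁ {M : Type u} (S : DefSys M) (X : Set M) : Prop := S.Def {x : Fin 1 → M | x 0 ∈ X}

/-- The graphs of `+` and `*` are in the system. -/
structure DefSys.IsRing {R : Type u} [CommRing R] (S : DefSys R) : Prop where
  add : S.Def {x : Fin 3 → R | x 0 + x 1 = x 2}
  mul : S.Def {x : Fin 3 → R | x 0 * x 1 = x 2}

/-- Every element of the field `F` is a quotient of elements of the image of `φ`. -/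
def IsFrac {A F : Type u} [CommRing A] [Field F] (φ : A →+* F) : Prop :=
  ∀ y : F, ∃ a s : A, φ s ≠ 0 ∧ y * φ s = φ a

/-- For every residue field `F` of `C` there is a NIP system on `F` containing the ring
operations and the image of `C`. -/
def NipLoc (C : Type u) [CommRing C] : Prop :=
  ∀ (F : Type u) [Field F] (φ : C →+* F), IsFrac φ →
    ∃ S : DefSys F, S.IsRing ∧ S.Def₁ (Set.range φ)

/-! ### Commutative algebra -/

/-- Uniform comparability. -/
def UC (N : ℕ) (C : Type u) [CommRing C] : Prop := ∀ a b : C, b ∣ a ^ N ∨ a ∣ b ^ N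

/-- Countable saturation for congruences of polynomials. -/
def CSat (C : Type u) [CommRing C] : Prop :=
  ∀ (G : C[X]) (σ x : C), (∀ k : ℕ, ∃ d, σ * x ^ k ∣ G.eval d) → ∃ d, ∀ k : ℕ, σ * x ^ k ∣ G.eval d

/-- `g` has modulo `P` a root `b / s` in the local ring of `C` at `Q`, congruent to `a` modulo
`Q`. -/
def RootMod {C : Type u} [CommRing C] (g : C[X]) (a : C) (P Q : Ideal C) : Prop :=
  ∃ b s : C, s ∉ Q ∧ b - s * a ∈ Q ∧ (g.scaleRoots s).eval b ∈ P

/-- `a` is a simple root of `g` modulo `Q`. -/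
def SimpleAt {C : Type u} [CommRing C] (g : C[X]) (a : C) (Q : Ideal C) : Prop :=
  g.eval a ∈ Q ∧ g.derivative.eval a ∉ Q

/-- The local ring `{φ a / φ s : s ∉ Q}` inside `F`, as a set. -/
def locSet {C F : Type u} [CommRing C] [Field F] (φ : C →+* F) (Q : Ideal C) : Set F :=
  {y | ∃ a s : C, s ∉ Q ∧ y * φ s = φ a}

/-- Its maximal ideal, as a set. -/
def locMax {C F : Type u} [CommRing C] [Field F] (φ : C →+* F) (Q : Ideal C) : Set F :=
  {y | ∃ a s : C, a ∈ Q ∧ s ∉ Q ∧ y * φ s = φ a}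

/-- Lifting of simple roots of monic polynomials over `B` of degree at most `n` which split over
`F`. -/
def LiftSplit (n : ℕ) (B F : Type u) [CommRing B] [IsLocalRing B] [Field F] [Algebra B F] : Prop :=
  ∀ g : B[X], g.Monic → g.natDegree ≤ n → (g.map (algebraMap B F)).Splits →
    ∀ a : B, g.eval a ∈ IsLocalRing.maximalIdeal B → IsUnit (g.derivative.eval a) →
      ∃ b : B, g.IsRoot b ∧ b - a ∈ IsLocalRing.maximalIdeal B

/-- The same for the local ring of `C` at `Q` modulo the kernel of `φ`, for polynomials over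
`C`. -/
def LS (n : ℕ) {C F : Type u} [CommRing C] [Field F] (φ : C →+* F) (Q : Ideal C) : Prop :=
  ∀ g : C[X], g.Monic → g.natDegree ≤ n → (g.map φ).Splits →
    ∀ a : C, SimpleAt g a Q → RootMod g a (RingHom.ker φ) Q

/-! ### Topologies -/

/-- Hausdorff nondiscrete field topologies. -/
class TopField (F : Type u) [Field F] [TopologicalSpace F] : Prop extends
    IsTopologicalRing F, ContinuousInv₀ F, T2Space F where
  nd : (𝓝[≠] (0 : F)).NeBot

/-- Simple roots persist: every polynomial `1 + z + e₂ z ^ 2 + ...` with small `eᵢ` has a root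
close to `-1`. -/
def THens (F : Type u) [Field F] [TopologicalSpace F] : Prop :=
  ∀ n : ℕ, ∀ V ∈ 𝓝 (-1 : F), ∃ W ∈ 𝓝 (0 : F), ∀ e : Fin n → F, (∀ i, e i ∈ W) →
    ∃ z ∈ V, 1 + z + ∑ i : Fin n, e i * z ^ (i.val + 2) = 0

/-- Bounded subsets. -/
def Bdd {F : Type u} [Field F] [TopologicalSpace F] (K : Set F) : Prop :=
  ∀ V ∈ 𝓝 (0 : F), ∃ c : F, c ≠ 0 ∧ ∀ x ∈ K, c * x ∈ V

/-- V-topologies. -/
def IsV (F : Type u) [Field F] [TopologicalSpace F] : Prop :=
  ∀ V ∈ 𝓝 (0 : F), Bdd {x : F | x⁻¹ ∉ V}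

/-- All cosets of all `c E`, `c ≠ 0`, meet all nonempty open sets. -/
def IndepSet {F : Type u} [Field F] [TopologicalSpace F] (E : Set F) : Prop :=
  ∀ y c : F, c ≠ 0 → ∀ V : Set F, IsOpen V → V.Nonempty → ∃ b ∈ E, y + c * b ∈ V

/-- `t` is the field topology on `F` with the basis of neighbourhoods `c B` of zero. -/
def IsRingTop (B F : Type u) [CommRing B] [Field F] [Algebra B F] (t : TopologicalSpace F) : Prop :=
  @TopField F _ t ∧ ∀ s : Set F, s ∈ @nhds F t 0 ↔ ∃ c : F, c ≠ 0 ∧ ∀ b : B, c * algebraMap B F b ∈ s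

/-- The prime `P` is good for the degree `D`. -/
def GoodPrime (D : ℕ) {C : Type u} [CommRing C] (P : Ideal C) : Prop :=
  ∃ (_ : P.IsPrime) (t : TopologicalSpace P.ResidueField), @TopField _ _ t ∧ @THens _ _ t ∧
    @IsV _ _ t ∧ @IndepSet _ _ t (Set.range (algebraMap C P.ResidueField)) ∧
    ∃ f : P.ResidueField[X], f.Monic ∧ Irreducible f ∧ f.Separable ∧ f.natDegree = D

/-- The rank of incomparability at `q`. -/
def Wr (l : ℕ) {A : Type u} [CommRing A] (q : Ideal A) : Prop :=
  ∀ n : ℕ, ∃ z : Fin l → A, (∀ i, z i ∈ q) ∧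
    ∀ i, ∀ s ∉ q, ¬ z i ∣ s * (∏ j ∈ Finset.univ.erase i, z j) ^ n

/-! ### The explicit curve -/

/-- Points `(x i; U i k)` on the curve `u k ^ 2 = 1 + b k * x`. -/
structure CData (m r : ℕ) (F : Type u) [Field F] where
  b : Fin m → F
  x : Fin r → F
  U : Fin r → Fin m → F
  hb : Function.Injective b
  hb0 : ∀ k, b k ≠ 0
  hx : Function.Injective x
  hx0 : ∀ i, x i ≠ 0
  hU : ∀ i k, U i k ^ 2 = 1 + b k * x i
  hU0 : ∀ i k, U i k ≠ 0

namespace CData

variable {m r : ℕ} {F : Type u} [Field F] (D : CData m r F) {S : Type u} [CommRing S] [Algebra F S]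

/-- `E₀ = ∏ (x - x i)` -/
noncomputable def E0 (x : S) : S := ∏ i, (x - algebraMap F S (D.x i))

/-- `H(x; u) = ∑ c i * ∏ (u k + U i k) * ∏_{j ≠ i} (x - x j) + c' E₀` -/
noncomputable def H (c : Fin r → F) (c' : F) (x : S) (u : Fin m → S) : S :=
  ∑ i, algebraMap F S (c i) * (∏ k, (u k + algebraMap F S (D.U i k))) *
    (∏ j ∈ Finset.univ.erase i, (x - algebraMap F S (D.x j))) + algebraMap F S c' * D.E0 x

/-- The constraints which bound the degree of `H`. -/
def Constr (c : Fin r → F) : Prop :=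
  ∀ (I : Finset (Fin m)) (l : ℕ), l < (I.card + 1) / 2 - 1 →
    ∑ i, c i * (∏ k ∈ Iᶜ, D.U i k) * D.x i ^ l = 0

end CData

/-- The sign attached to a truth value. -/
def sgn {S : Type u} [CommRing S] (d : Bool) : S := if d then 1 else -1

/-- `P_w(x) = ∑ cf j (w) x ^ j` -/
noncomputable def Pw {r : ℕ} {F : Type u} [Field F] (cf : Fin (r + 1) → F[X]) {S : Type u} [CommRing S]
    [Algebra F S] (w x : S) : S := ∑ j : Fin (r + 1), aeval w (cf j) * x ^ (j : ℕ)

end Pool.Agent.Lib.MP958bd4
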