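import Pool.Agent.Lib.MP_958bd4_lc.Tower
import Pool.Agent.Lib.MP_958bd4_lc.CurveDefs

/-!
# Points of varieties without rational curves
-/

namespace Pool.Agent.Lib.MP_958bd4_lc

open Polynomial

variable {K : Type*} [Field K]

theorem nzd_le {M : Subfield K} {w : K} (hw : Transcendental M w) :
    nonZeroDivisors M[X] ≤ (nonZeroDivisors K).comap (aeval w : M[X] →ₐ[M] K).toRingHom := by
  intro q hq
  rw [Submonoid.mem_comap]
  exact mem_nonZeroDivisors_of_ne_zero (aeval_ne_zero hw (nonZeroDivisors.ne_zero hq))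

/-- Evaluation of rational functions over `M` at `w`. -/
noncomputable def evalRat {M : Subfield K} {w : K} (hw : Transcendental M w) :
    RatFunc M →+* K :=
  RatFunc.liftRingHom (aeval w : M[X] →ₐ[M] K).toRingHom (nzd_le hw)

theorem nzd_le' (M : Subfield K) :
    nonZeroDivisors M[X] ≤ (nonZeroDivisors (RatFunc K)).comap
      ((algebraMap K[X] (RatFunc K)).comp (Polynomial.mapRingHom (algebraMap M K))) := by
  intro q hq
  rw [Submonoid.mem_comap]
  apply mem_nonZeroDivisors_of_ne_zero
  intro h
  have h1 : Polynomial.map (algebraMap M K) q = 0 :=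
    RatFunc.algebraMap_injective K (by simpa using h)
  rw [Polynomial.map_eq_zero] at h1
  exact nonZeroDivisors.ne_zero hq h1

/-- Base change of rational functions from `M` to `K`. -/
noncomputable def mapRat (M : Subfield K) : RatFunc M →+* RatFunc K :=
  RatFunc.liftRingHom
    ((algebraMap K[X] (RatFunc K)).comp (Polynomial.mapRingHom (algebraMap M K))) (nzd_le' M)

theorem evalRat_div {M : Subfield K} {w : K} (hw : Transcendental M w) (p q : M[X]) :
    evalRat hw (algebraMap _ _ p / algebraMap _ _ q) = aeval w p / aeval w q :=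
  RatFunc.liftRingHom_apply_div _ _ _ _

theorem mapRat_div {M : Subfield K} (p q : M[X]) :
    mapRat M (algebraMap _ _ p / algebraMap _ _ q) =
      algebraMap _ _ (p.map (algebraMap M K)) / algebraMap _ _ (q.map (algebraMap M K)) :=
  RatFunc.liftRingHom_apply_div _ _ _ _

theorem evalRat_C {M : Subfield K} {w : K} (hw : Transcendental M w) (c : M) :
    evalRat hw (RatFunc.C c) = c := by
  rw [evalRat, RatFunc.liftRingHom_C]
  simp only [AlgHom.toRingHom_eq_coe, RingHom.coe_coe, aeval_C]
  rfl

theorem mapRat_C {M : Subfield K} (c : M) :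
    mapRat M (RatFunc.C c) = RatFunc.C (c : K) := by
  rw [mapRat, RatFunc.liftRingHom_C]
  simp only [RingHom.coe_comp, Function.comp_apply, coe_mapRingHom, map_C, RatFunc.algebraMap_C]
  rfl

theorem stepRing_mono {M : Subfield K} {R R' : Subring K} {w : K} (h : R ≤ R') :
    stepRing M R w ≤ stepRing M R' w := by
  rintro z ⟨p, q, hq, hp, hz⟩
  exact ⟨p, q, hq, h hp, hz⟩

/-- A point of a variety without rational curves, with coordinates in the step ring, has
coordinates in the subfield. -/
theorem mem_of_noRationalCurve {m : ℕ} {S : Finset (MvPolynomial (Fin m) K)}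
    (hS : NoRationalCurve S) {M : Subfield K} {R : Subring K} {w : K}
    (hw : Transcendental M w)
    (hcoef : ∀ s ∈ S, ∀ c ∈ s.coeffs, c ∈ M) {Q : Fin m → K} (hQ : Q ∈ Points S)
    (hQR : ∀ i, Q i ∈ stepRing M R w) : ∀ i, Q i ∈ M := by
  choose p q hq _ hpq using hQR
  have hq0 : ∀ i, q i ≠ 0 := fun i h => by
    have := hq i
    rw [h] at this
    simp at this
  let f : Fin m → RatFunc M := fun i =>
    algebraMap M[X] (RatFunc M) (p i) / algebraMap M[X] (RatFunc M) (q i)
  have hf : ∀ i, evalRat hw (f i) = Q i := by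
    intro i
    rw [evalRat_div, ← hpq i, mul_div_cancel_right₀ _ (aeval_ne_zero hw (hq0 i))]
  -- descend the equations
  have hdesc : ∀ s ∈ S, ∃ s' : MvPolynomial (Fin m) M,
      MvPolynomial.map (algebraMap M K) s' = s := by
    intro s hs
    have : s ∈ Set.range (MvPolynomial.map (σ := Fin m) (algebraMap M K)) := by
      rw [MvPolynomial.mem_range_map_iff_coeffs_subset]
      intro c hc
      exact ⟨⟨c, hcoef s hs c hc⟩, rfl⟩
    exact this
  have hzero : ∀ s' : MvPolynomial (Fin m) M,
      MvPolynomial.map (algebraMap M K) s' ∈ S → MvPolynomial.aeval f s' = 0 := by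
    intro s' hs'
    apply (evalRat hw).injective
    rw [map_zero]
    have h1 : evalRat hw (MvPolynomial.aeval f s') =
        MvPolynomial.eval Q (MvPolynomial.map (algebraMap M K) s') := by
      rw [MvPolynomial.aeval_def, MvPolynomial.eval_map, MvPolynomial.hom_eval₂]
      congr 1
      · ext c
        simp only [RingHom.coe_comp, Function.comp_apply, RatFunc.algebraMap_eq_C]
        rw [evalRat_C]
        rfl
      · funext i
        exact hf i
    rw [h1]
    exact hQ _ hs'
  have hK : ∀ s ∈ S, MvPolynomial.aeval (fun i => mapRat M (f i)) s = 0 := by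
    intro s hs
    obtain ⟨s', rfl⟩ := hdesc s hs
    have h1 : MvPolynomial.aeval (fun i => mapRat M (f i))
        (MvPolynomial.map (algebraMap M K) s') = mapRat M (MvPolynomial.aeval f s') := by
      rw [MvPolynomial.aeval_def, MvPolynomial.aeval_def, MvPolynomial.eval₂_map,
        MvPolynomial.hom_eval₂]
      congr 1
      ext c
      simp only [RingHom.coe_comp, Function.comp_apply, RatFunc.algebraMap_eq_C]
      rw [mapRat_C]
      rfl
    rw [h1, hzero s' hs, map_zero]
  intro i
  obtain ⟨c, hc⟩ := hS _ hK i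
  have hqK : (q i).map (algebraMap M K) ≠ 0 := by
    rw [Ne, Polynomial.map_eq_zero]
    exact hq0 i
  have hqR : algebraMap K[X] (RatFunc K) ((q i).map (algebraMap M K)) ≠ 0 := by
    intro h
    exact hqK (RatFunc.algebraMap_injective K (by rw [h, map_zero]))
  have h2 : (p i).map (algebraMap M K) = C c * (q i).map (algebraMap M K) := by
    apply RatFunc.algebraMap_injective K
    have h3 : mapRat M (f i) = _ := mapRat_div (p i) (q i)
    rw [hc] at h3
    rw [map_mul, RatFunc.algebraMap_C, h3, div_mul_cancel₀ _ hqR]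
  have h4 : c = ((p i).coeff 0 : M) := by
    have := congrArg (fun r => Polynomial.coeff r 0) h2
    simp only [coeff_map, mul_coeff_zero, coeff_C_zero, hq i, map_one, mul_one] at this
    exact this.symm
  have h5 : p i = C ((p i).coeff 0) * q i := by
    apply Polynomial.map_injective (algebraMap M K) (algebraMap M K).injective
    rw [h2, Polynomial.map_mul, map_C]
    congr 2
  have h6 : Q i = ((p i).coeff 0 : M) := by
    have h7 := hpq i
    rw [h5, map_mul, aeval_C] at h7
    have h8 := mul_right_cancel₀ (aeval_ne_zero hw (hq0 i)) h7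
    rw [h8]
    rfl
  rw [h6]
  exact ((p i).coeff 0).2

namespace Tower

variable (T : Tower K)

theorem exists_common {m : ℕ} (S : Finset (MvPolynomial (Fin m) K)) (P : Fin m → K) :
    ∃ n, (∀ s ∈ S, ∀ c ∈ s.coeffs, c ∈ T.F n) ∧ ∀ i, P i ∈ T.F n := by
  classical
  have h1 : ∀ E : Finset K, ∃ n, ∀ c ∈ E, c ∈ T.F n := by
    intro E
    induction E using Finset.induction_on with
    | empty => exact ⟨0, by simp⟩
    | insert a E _ ih =>
      obtain ⟨n, hn⟩ := ih
      obtain ⟨k, hk⟩ := T.cover a
      refine ⟨max n k, fun c hc => ?_⟩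
      rcases Finset.mem_insert.1 hc with rfl | hc
      · exact T.monotone (le_max_right _ _) hk
      · exact T.monotone (le_max_left _ _) (hn c hc)
  obtain ⟨n, hn⟩ := h1 (S.biUnion (fun s => s.coeffs) ∪ Finset.univ.image P)
  refine ⟨n, fun s hs c hc => hn c ?_, fun i => hn _ ?_⟩
  · exact Finset.mem_union_left _ (Finset.mem_biUnion.2 ⟨s, hs, hc⟩)
  · exact Finset.mem_union_right _ (Finset.mem_image_of_mem _ (Finset.mem_univ i))

/-- The points of a variety without rational curves are isolated for the ring topology. -/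
theorem isolated {m : ℕ} {S : Finset (MvPolynomial (Fin m) K)} (hS : NoRationalCurve S)
    (P : Fin m → K) :
    ∃ a : K, a ≠ 0 ∧ ∀ Q ∈ Points S, (∀ i, ∃ r ∈ T.ring, Q i = P i + a * r) → Q = P := by
  obtain ⟨n, hcoef, hPn⟩ := T.exists_common S P
  refine ⟨T.w n, T.w_ne_zero n, ?_⟩
  intro Q hQ hQP
  have hd : ∀ i, (Q i - P i) / T.w n ∈ T.ring := by
    intro i
    obtain ⟨r, hr, h⟩ := hQP i
    have : (Q i - P i) / T.w n = r := by
      rw [h]
      have := T.w_ne_zero n
      field_simp
      ring
    rwa [this]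
  have hQe : ∀ i, Q i = P i + T.w n * ((Q i - P i) / T.w n) := by
    intro i
    have := T.w_ne_zero n
    field_simp
    ring
  have hmono : ∀ j, T.R j ≤ (T.F j).toSubring := fun j x hx => T.R_le_F j x hx
  obtain ⟨k, -, hk⟩ := T.exists_common S Q
  have key : ∀ j, (∀ i, Q i ∈ T.F (n + 1 + j)) → ∀ i, Q i ∈ T.F (n + 1) := by
    intro j
    induction j with
    | zero => exact fun h => h
    | succ j ih =>
      intro h
      apply ih
      have hnj : T.F n ≤ T.F (n + 1 + j) := T.monotone (by omega)
      have hwn : T.w n ∈ T.F (n + 1 + j) := T.monotone (by omega : n + 1 ≤ n + 1 + j) (T.mem n)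
      apply mem_of_noRationalCurve hS (T.tr (n + 1 + j)) (R := (T.F (n + 1 + j)).toSubring)
        (fun s hs c hc => hnj (hcoef s hs c hc)) hQ
      intro i
      have h1 : (Q i - P i) / T.w n ∈ T.F (n + 1 + j + 1) :=
        div_mem (sub_mem (h i) (T.mono _ (hnj (hPn i)))) (T.mono _ hwn)
      have h2 : (Q i - P i) / T.w n ∈ T.R (n + 1 + j + 1) := T.ring_inter (hd i) h1
      rw [hQe i]
      refine add_mem (le_stepRing (fun x hx => hx) (hnj (hPn i))) (mul_mem
        (le_stepRing (fun x hx => hx) hwn) (stepRing_mono (hmono _) h2))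
  have hQn1 : ∀ i, Q i ∈ T.F (n + 1) := key k fun i => T.monotone (by omega) (hk i)
  have hQn : ∀ i, Q i ∈ T.F n := by
    apply mem_of_noRationalCurve hS (T.tr n) (R := (T.F n).toSubring) hcoef hQ
    intro i
    have h1 : (Q i - P i) / T.w n ∈ T.F (n + 1) :=
      div_mem (sub_mem (hQn1 i) (T.mono _ (hPn i))) (T.mem n)
    have h2 : (Q i - P i) / T.w n ∈ T.R (n + 1) := T.ring_inter (hd i) h1
    rw [hQe i]
    refine add_mem (le_stepRing (fun x hx => hx) (hPn i)) (mul_mem ?_
      (stepRing_mono (hmono _) h2))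
    have := mul_mem_stepRing (R := (T.F n).toSubring) (w := T.w n) (one_mem (T.F n))
    rwa [one_mul] at this
  funext i
  by_contra hne
  exact T.div_w_not_mem (sub_mem (hQn i) (hPn i)) (sub_ne_zero.2 hne) (hd i)

end Tower

end Pool.Agent.Lib.MP_958bd4_lc
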