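import Pool.Agent.Lib.MP_958bd4_lc.Tower

/-!
# Existence of towers in fields of infinite transcendence degree
-/

namespace Pool.Agent.Lib.MP_958bd4_lc

open Polynomial

variable {K : Type*} [Field K] [CharZero K]

/-- The elements algebraic over `ℚ(s)`. -/
def algField (s : Set K) : Subfield K where
  carrier := {x | IsAlgebraic (Algebra.adjoin ℚ s) x}
  mul_mem' := fun ha hb => IsAlgebraic.mul ha hb
  one_mem' := isAlgebraic_one
  add_mem' := fun ha hb => IsAlgebraic.add ha hb
  zero_mem' := isAlgebraic_zero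
  neg_mem' := fun ha => IsAlgebraic.neg ha
  inv_mem' := fun _ ha => IsAlgebraic.inv_iff.2 ha

theorem mem_algField {s : Set K} {x : K} :
    x ∈ algField s ↔ IsAlgebraic (Algebra.adjoin ℚ s) x := Iff.rfl

theorem algField_mono {s t : Set K} (h : s ⊆ t) : algField s ≤ algField t := fun _ hx =>
  IsAlgebraic.tower_top_of_subalgebra_le (Algebra.adjoin_mono h) hx

theorem mem_algField_of_mem {s : Set K} {x : K} (hx : x ∈ s) : x ∈ algField s :=
  isAlgebraic_algebraMap (⟨x, Algebra.subset_adjoin hx⟩ : Algebra.adjoin ℚ s)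

theorem transcendental_algField {s : Set K} {w : K}
    (hw : Transcendental (Algebra.adjoin ℚ s) w) : Transcendental (algField s) w := by
  have hle : ∀ x : Algebra.adjoin ℚ s, (x : K) ∈ algField s := fun x =>
    isAlgebraic_algebraMap x
  let ι : Algebra.adjoin ℚ s →+* algField s :=
    (algebraMap (Algebra.adjoin ℚ s) K).codRestrict (algField s) hle
  let _ : Algebra (Algebra.adjoin ℚ s) (algField s) := ι.toAlgebra
  have : IsScalarTower (Algebra.adjoin ℚ s) (algField s) K :=
    IsScalarTower.of_algebraMap_eq fun _ => rfl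
  have : Algebra.IsAlgebraic (Algebra.adjoin ℚ s) (algField s) := by
    refine ⟨fun x => ?_⟩
    rw [← isAlgebraic_algHom_iff (IsScalarTower.toAlgHom (Algebra.adjoin ℚ s) (algField s) K)
      Subtype.val_injective]
    exact x.2
  exact hw.extendScalars _

/-- An element algebraic over the union of a chain is algebraic over a member. -/
theorem exists_mem_algField {S : ℕ → Set K} (hS : Monotone S) {x : K}
    (hx : IsAlgebraic (Algebra.adjoin ℚ (⋃ n, S n)) x) : ∃ n, x ∈ algField (S n) := by
  obtain ⟨p, hp, hpx⟩ := hx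
  have h1 : ∀ c : Algebra.adjoin ℚ (⋃ n, S n), ∃ n, (c : K) ∈ Algebra.adjoin ℚ (S n) := by
    rintro ⟨c, hc⟩
    have hdir : Directed (· ≤ ·) fun n => Algebra.adjoin ℚ (S n) :=
      (monotone_nat_of_le_succ fun n => Algebra.adjoin_mono (hS (Nat.le_succ n))).directed_le
    rw [Algebra.adjoin_iUnion] at hc
    have := (Subalgebra.coe_iSup_of_directed hdir)
    have hc' : c ∈ ((⨆ n, Algebra.adjoin ℚ (S n) : Subalgebra ℚ K) : Set K) := hc
    rw [this] at hc'
    exact Set.mem_iUnion.1 hc'
  choose N hN using h1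
  obtain ⟨M, hM⟩ : ∃ M, ∀ i, (p.coeff i : K) ∈ Algebra.adjoin ℚ (S M) := by
    refine ⟨(Finset.range (p.natDegree + 1)).sup fun i => N (p.coeff i), fun i => ?_⟩
    by_cases hi : i ≤ p.natDegree
    · exact Algebra.adjoin_mono (hS (Finset.le_sup (f := fun i => N (p.coeff i))
        (Finset.mem_range.2 (Nat.lt_succ_of_le hi)))) (hN _)
    · rw [coeff_eq_zero_of_natDegree_lt (not_le.1 hi)]
      exact zero_mem _
  have h2 : p.map (algebraMap (Algebra.adjoin ℚ (⋃ n, S n)) K) ∈
      lifts (algebraMap (Algebra.adjoin ℚ (S M)) K) := by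
    rw [lifts_iff_coeff_lifts]
    intro i
    rw [coeff_map]
    exact ⟨⟨_, hM i⟩, rfl⟩
  rw [mem_lifts] at h2
  obtain ⟨q, hq⟩ := h2
  refine ⟨M, q, ?_, ?_⟩
  · rintro rfl
    rw [Polynomial.map_zero] at hq
    have := (Polynomial.map_eq_zero_iff (f := algebraMap (Algebra.adjoin ℚ (⋃ n, S n)) K)
      Subtype.val_injective).1 hq.symm
    exact hp this
  · rw [← hpx, ← aeval_map_algebraMap K x q, hq, aeval_map_algebraMap]

theorem exists_tower (hK : ∃ b : ℕ → K, AlgebraicIndependent ℚ b) {U₁ U₂ : Set K}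
    (hsub : ∀ x ∈ U₁, ∀ y ∈ U₁, x - y ∈ U₂) (h1 : (1 : K) ∉ U₂) :
    ∃ T : Tower K, ∀ n, ∃ x ∈ T.F n, x * T.w n ∉ U₁ := by
  obtain ⟨b, hb⟩ := hK
  have hinj : Function.Injective b := hb.injective
  obtain ⟨B, hBb, hB⟩ := exists_isTranscendenceBasis_superset (R := ℚ) (A := K)
    (s := Set.range b) (by
      have := hb.coe_range
      exact this)
  let S : ℕ → Set K := fun n => (B \ Set.range b) ∪ b '' {i | i < n}
  have hSmono : Monotone S := by
    intro n m hnm
    refine Set.union_subset_union_right _ (Set.image_mono fun i hi => lt_of_lt_of_le hi hnm)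
  have hSB : ∀ n, S n ⊆ B := fun n => Set.union_subset Set.sdiff_subset
    ((Set.image_subset_range _ _).trans hBb)
  have hSU : ⋃ n, S n = B := by
    apply Set.Subset.antisymm (Set.iUnion_subset hSB)
    intro x hx
    by_cases h : x ∈ Set.range b
    · obtain ⟨i, rfl⟩ := h
      exact Set.mem_iUnion.2 ⟨i + 1, Or.inr ⟨i, Nat.lt_succ_self i, rfl⟩⟩
    · exact Set.mem_iUnion.2 ⟨0, Or.inl ⟨hx, h⟩⟩
  have hbn : ∀ n, b n ∉ S n := by
    rintro n (h | ⟨i, hi, h⟩)
    · exact h.2 ⟨n, rfl⟩
    · rw [hinj h] at hi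
      exact lt_irrefl n hi
  have htr : ∀ n, Transcendental (algField (S n)) (b n) := by
    intro n
    apply transcendental_algField
    have h2 : AlgebraicIndependent ℚ ((↑) : B → K) := hB.1
    have h3 := h2.transcendental_adjoin (s := ((↑) : B → K) ⁻¹' (S n))
      (i := ⟨b n, hBb ⟨n, rfl⟩⟩) (fun h => hbn n h)
    rwa [Subtype.image_preimage_coe, Set.inter_eq_right.2 (hSB n)] at h3
  have hcov : ∀ x : K, ∃ n, x ∈ algField (S n) := by
    intro x
    apply exists_mem_algField hSmono
    rw [hSU]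
    have := hB.isAlgebraic
    rw [Subtype.range_coe] at this
    exact this.isAlgebraic x
  have hmem : ∀ n, b n ∈ algField (S (n + 1)) := fun n =>
    mem_algField_of_mem (Or.inr ⟨n, Nat.lt_succ_self n, rfl⟩)
  have hchoice : ∀ n, ∃ w : K, w ∈ algField (S (n + 1)) ∧ Transcendental (algField (S n)) w ∧
      ∃ x ∈ algField (S n), x * w ∉ U₁ := by
    intro n
    by_cases h : ∃ x ∈ algField (S n), x * b n ∉ U₁
    · exact ⟨b n, hmem n, htr n, h⟩
    · push Not at h
      refine ⟨b n + 1, add_mem (hmem n) (one_mem _), ?_, 1, one_mem _, ?_⟩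
      · intro halg
        apply htr n
        have := halg.sub (isAlgebraic_one (R := algField (S n)))
        rwa [add_sub_cancel_right] at this
      · intro h2
        rw [one_mul] at h2
        have h3 := h 1 (one_mem _)
        rw [one_mul] at h3
        have := hsub _ h2 _ h3
        rw [add_sub_cancel_left] at this
        exact h1 this
  choose w hw1 hw2 hw3 using hchoice
  exact ⟨⟨fun n => algField (S n), w, fun n => algField_mono (hSmono (Nat.le_succ n)), hcov,
    hw1, hw2⟩, hw3⟩

end Pool.Agent.Lib.MP_958bd4_lc
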