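import Pool.Agent.Lib.MP_958bd4_lc.Defs

/-!
# MP_958bd4_lc: Specs, the explicit curve (section 4 of the text)
-/

set_option autoImplicit false

universe u

namespace Pool.Agent.Lib.MP958bd4

open Polynomial Topology Filter IsLocalRing

/-- The matrix of multiplication by `∑ f I * u_I` on the free module with basis `u_K`,
`K ⊆ {1..m}`, `u k ^ 2 = 1 + b k * x`. -/
noncomputable def MM {m : ℕ} {R : Type u} [CommRing R] (b : Fin m → R) (f : Finset (Fin m) → R[X]) :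
    Matrix (Finset (Fin m)) (Finset (Fin m)) R[X] :=
  Matrix.of fun J K => f (symmDiff J K) * ∏ k ∈ K \ J, (1 + C (b k) * X)

/-- [AMDET] the determinant is the product of the values at the conjugate points. -/
def SpecAMDET : Prop := ∀ (m : ℕ) (R S : Type u) [CommRing R] [CommRing S] [Algebra R S]
  (b : Fin m → R) (f : Finset (Fin m) → R[X]) (x : S) (u : Fin m → S),
  (∀ k, u k ^ 2 = 1 + algebraMap R S (b k) * x) → (∀ k, IsUnit (u k)) → IsUnit (2 : S) →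
  aeval x (MM b f).det = ∏ d : Fin m → Bool, ∑ I : Finset (Fin m), aeval x (f I) *
    ∏ k ∈ I, (sgn (d k) * u k)

/-- [AMEIG] if `f` vanishes at a point `(x; u)` then the determinant vanishes at `x`. -/
def SpecAMEIG : Prop := ∀ (m : ℕ) (F : Type u) [Field F] (b : Fin m → F)
  (f : Finset (Fin m) → F[X]) (x : F) (u : Fin m → F), (∀ k, u k ^ 2 = 1 + b k * x) →
  (∑ I : Finset (Fin m), (f I).eval x * ∏ k ∈ I, u k) = 0 → ((MM b f).det).eval x = 0

/-- [AMDEG] degree of the determinant. -/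
def SpecAMDEG : Prop := ∀ (m : ℕ) (R : Type u) [CommRing R] (b : Fin m → R)
  (f : Finset (Fin m) → R[X]) (d : ℕ), (∀ I, f I = 0 ∨ 2 * (f I).natDegree + I.card ≤ d) →
  2 * ((MM b f).det).natDegree ≤ 2 ^ m * d

/-- [AMNZ] the determinant does not vanish. -/
def SpecAMNZ : Prop := ∀ (m : ℕ) (F : Type u) [Field F] (b : Fin m → F), (2 : F) ≠ 0 →
  Function.Injective b → (∀ k, b k ≠ 0) → ∀ f : Finset (Fin m) → F[X], f ≠ 0 → (MM b f).det ≠ 0

/-- The coefficient of `u_I` in `H`. -/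
noncomputable def HI {m r : ℕ} {F : Type u} [Field F] (D : CData m r F) (c : Fin r → F) (c' : F)
    (I : Finset (Fin m)) : F[X] :=
  ∑ i, C (c i * ∏ k ∈ Iᶜ, D.U i k) * ∏ j ∈ Finset.univ.erase i, (X - C (D.x j)) +
    if I = ∅ then C c' * ∏ j, (X - C (D.x j)) else 0

/-- [AMCON] the constraints bound the degrees; and `HI` are the coefficients of `H`. -/
def SpecAMCON : Prop := ∀ (m r : ℕ) (F : Type u) [Field F] (D : CData m r F) (c : Fin r → F)
  (c' : F), D.Constr c →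
  (∀ I, HI D c c' I = 0 ∨ 2 * (HI D c c' I).natDegree + I.card ≤ 2 * r) ∧
  ∀ (S : Type u) [CommRing S] [Algebra F S] (x : S) (u : Fin m → S),
    D.H c c' x u = ∑ I : Finset (Fin m), aeval x (HI D c c' I) * ∏ k ∈ I, u k

/-- [AMDIV] divisibility by `E₀ ^ (2 ^ m - 1)`; `R = F[w]`. -/
def SpecAMDIV : Prop := ∀ (m r : ℕ) (F : Type u) [Field F] (D : CData m r F) (c : Fin r → F)
  (c' : F), (∏ i, (X - C (C (D.x i))) : F[X][X]) ^ (2 ^ m - 1) ∣
    (MM (R := F[X]) (fun k => C (D.b k)) (fun I => (if I = ∅ then ∏ i, (X - C (C (D.x i))) else 0) -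
      C X * (HI D c c' I).map C)).det

/-- [AMPOL] the polynomial `P_w(x)`. -/
def SpecAMPOL : Prop := ∀ (m r : ℕ) (F : Type u) [Field F] [CharZero F] (D : CData m r F)
  (c : Fin r → F) (c' : F), D.Constr c → ∃ cf : Fin (r + 1) → F[X],
  (∀ x : F, Pw cf (0 : F) x = D.E0 x) ∧ (cf (Fin.last r)).eval 0 = 1 ∧
  ∀ (S : Type u) [CommRing S] [Algebra F S] (w : F) (x : S) (u : Fin m → S),
    (∀ k, u k ^ 2 = 1 + algebraMap F S (D.b k) * x) → (∀ k, IsUnit (u k)) →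
    D.E0 x ^ (2 ^ m - 1) * Pw cf (algebraMap F S w) x =
      ∏ d : Fin m → Bool, (D.E0 x - algebraMap F S w * D.H c c' x fun k => sgn (d k) * u k)

/-- [AMCOE] the coefficients `c`. `F[ε]` is `DualNumber F`. -/
def SpecAMCOE : Prop := ∀ (m r : ℕ) (F : Type u) [Field F] [CharZero F] (D : CData m r F),
  2 ^ m * (m + 2) + 1 ≤ r → ∃ (c : Fin r → F) (c' : F), D.Constr c ∧
  D.H c c' (0 : F) (fun _ => 1) = D.E0 (0 : F) ∧
  (∀ d : Fin m → Bool, (∃ k, d k = false) → D.H c c' (0 : F) (fun k => sgn (d k)) ≠ D.E0 (0 : F)) ∧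
  D.H c c' (DualNumber.eps : DualNumber F) (fun k => 1 + (D.b k / 2) • DualNumber.eps) ≠
    D.E0 (DualNumber.eps : DualNumber F)

/-- [AMPTS] points close to a sign vector. -/
def SpecAMPTS : Prop := ∀ (m r : ℕ) (F : Type u) [Field F] [CharZero F] [TopologicalSpace F]
  [TopField F], THens F → ∀ (b : Fin m → F), Function.Injective b → (∀ k, b k ≠ 0) →
  ∀ (d : Fin m → Bool) (V : Set F), V ∈ 𝓝 (0 : F) →
  ∃ D : CData m r F, D.b = b ∧ (∀ i, D.x i ∈ V) ∧ ∀ i k, D.U i k - sgn (d k) ∈ V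

/-- [AMSIG] roots of `P_w` for small `w`. -/
def SpecAMSIG : Prop := ∀ (m r : ℕ) (F : Type u) [Field F] [TopologicalSpace F] [TopField F],
  THens F → ∀ (D : CData m r F) (cf : Fin (r + 1) → F[X]), (∀ x : F, Pw cf (0 : F) x = D.E0 x) →
  (cf (Fin.last r)).eval 0 = 1 → ∀ V ∈ 𝓝 (0 : F), ∃ W ∈ 𝓝 (0 : F), ∀ w ∈ W, ∃ ρ : Fin r → F,
    Function.Injective ρ ∧ (∀ i, ρ i - D.x i ∈ V) ∧ ∀ x : F, Pw cf w x = 0 ↔ ∃ i, x = ρ i

/-- [AMBR] the branch of the solution. -/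
def SpecAMBR : Prop := ∀ (m r : ℕ) (F : Type u) [Field F] [CharZero F] [TopologicalSpace F]
  [TopField F], THens F → ∀ (D : CData m r F) (c : Fin r → F) (c' : F), ∀ V ∈ 𝓝 (0 : F),
  ∃ V' ∈ 𝓝 (0 : F), ∀ (i : Fin r) (ρ w : F) (u : Fin m → F), ρ - D.x i ∈ V' → (∀ j, ρ ≠ D.x j) →
    w ∈ V' → (∀ k, u k ^ 2 = 1 + D.b k * ρ) → D.E0 ρ = w * D.H c c' ρ u →
    ∀ k, u k - D.U i k ∈ V

/-- [AMBSD] the `B` side: a root of `P_w` close to `0` in `B`, for `w` close to `1` in `B`. -/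
def SpecAMBSD : Prop := ∀ (r : ℕ) (B F : Type u) [CommRing B] [IsDomain B] [IsLocalRing B]
  [Field F] [Algebra B F] [IsFractionRing B F], ¬ IsField B → 2 ≤ r → LiftSplit r B F →
  ∀ cf : Fin (r + 1) → F[X], (cf 0).eval 1 = 0 → (cf 1).eval 1 ≠ 0 → ∀ c₁ : F, c₁ ≠ 0 →
  ∃ c₂ : F, c₂ ≠ 0 ∧ ∀ (b : B) (w : F), w = 1 + c₂ * algebraMap B F b → (cf 0).eval w ≠ 0 →
    (∃ ρ : Fin r → F, Function.Injective ρ ∧ ∀ i, Pw cf w (ρ i) = 0) →
    ∃ b' : B, Pw cf w (c₁ * algebraMap B F b') = 0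

/-- [AMCT] continuity for the topology of `B`, at the point `(0; 1, .., 1)`: in a `B`-neighbourhood
only the sign `δ = 1` is possible, the points `x i` are avoided and `cf 0` does not vanish
(except at `w = 1`). -/
def SpecAMCT : Prop := ∀ (m r : ℕ) (B F : Type u) [CommRing B] [IsDomain B] [IsLocalRing B]
  [Field F] [CharZero F] [Algebra B F] [IsFractionRing B F], ¬ IsField B →
  ∀ (D : CData m r F) (c : Fin r → F) (c' : F),
  (∀ d : Fin m → Bool, (∃ k, d k = false) → D.H c c' (0 : F) (fun k => sgn (d k)) ≠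
    D.E0 (0 : F)) →
  ∃ c₁ : F, c₁ ≠ 0 ∧
    (∀ (b : B), (∀ i, c₁ * algebraMap B F b ≠ D.x i) ∧ 1 + c₁ * algebraMap B F b ≠ 0) ∧
    (∀ (b b' : B) (v : Fin m → B) (d : Fin m → Bool), (∃ k, d k = false) →
      D.E0 (c₁ * algebraMap B F b) ≠ (1 + c₁ * algebraMap B F b') *
        D.H c c' (c₁ * algebraMap B F b) (fun k => sgn (d k) * (1 + c₁ * algebraMap B F (v k)))) ∧
    (∀ (b : B) (d : Fin m → Bool), (∃ k, d k = false) →
      D.E0 (0 : F) ≠ (1 + c₁ * algebraMap B F b) * D.H c c' (0 : F) (fun k => sgn (d k)))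

/-- [AMLIN] linear algebra over an infinite field: a subspace `V` of `F ^ r` given by equations,
and finitely many linear forms not in the span of the equations; there is a vector in `V` where
none of these forms vanishes. -/
def SpecAMLIN : Prop := ∀ (F : Type u) [Field F] [Infinite F] (r : ℕ) (ι κ : Type) [Finite ι]
  [Finite κ] (e : ι → Fin r → F) (l : κ → Fin r → F),
  (∀ j, l j ∉ Submodule.span F (Set.range e)) →
  ∃ c : Fin r → F, (∀ i, ∑ t, e i t * c t = 0) ∧ ∀ j, ∑ t, l j t * c t ≠ 0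

end Pool.Agent.Lib.MP958bd4
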