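import Pool.Agent.Lib.MP_958bd4_lc.SpecA
import Pool.Agent.Lib.MP_958bd4_lc.SpecC
import Pool.Agent.Lib.MP_958bd4_lc.SpecT

/-!
# MP_958bd4_lc, module LEMA: independence property from splitting polynomials in characteristic 0
-/

set_option autoImplicit false

universe u

namespace Pool.Agent.Lib.MP958bd4

open Polynomial Topology Filter IsLocalRing

namespace LEMAM

section curve

variable {m r : ℕ} {F : Type u} [Field F]

theorem map_E0 (D : CData m r F) {S T : Type u} [CommRing S] [CommRing T] [Algebra F S]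
    [Algebra F T] (f : S →ₐ[F] T) (x : S) : f (D.E0 x) = D.E0 (f x) := by
  simp [CData.E0, map_prod]

theorem map_H (D : CData m r F) (c : Fin r → F) (c' : F) {S T : Type u} [CommRing S] [CommRing T]
    [Algebra F S] [Algebra F T] (f : S →ₐ[F] T) (x : S) (u : Fin m → S) :
    f (D.H c c' x u) = D.H c c' (f x) (fun k => f (u k)) := by
  simp [CData.H, map_prod, map_sum, map_E0]

theorem map_sgn {S T : Type u} [CommRing S] [CommRing T] (f : S →+* T) (d : Bool) :
    f (sgn d) = sgn d := by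
  cases d <;> simp [sgn]

/-- `P_w(0)` -/
theorem Pw_zero (cf : Fin (r + 1) → F[X]) (w : F) : Pw cf w (0 : F) = (cf 0).eval w := by
  unfold Pw
  rw [Finset.sum_eq_single 0]
  · simp
  · intro j _ hj
    have : (j : ℕ) ≠ 0 := fun h => hj (Fin.ext h)
    simp [this]
  · simp

theorem E0_zero_ne (D : CData m r F) : D.E0 (0 : F) ≠ 0 := by
  unfold CData.E0
  rw [Finset.prod_ne_zero_iff]
  intro i _
  simp [D.hx0 i]

/-- The product formula of AMPOL. -/
def Prd (D : CData m r F) (c : Fin r → F) (c' : F) (cf : Fin (r + 1) → F[X]) : Prop :=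
  ∀ (S : Type u) [CommRing S] [Algebra F S] (w : F) (x : S) (u : Fin m → S),
    (∀ k, u k ^ 2 = 1 + algebraMap F S (D.b k) * x) → (∀ k, IsUnit (u k)) →
    D.E0 x ^ (2 ^ m - 1) * Pw cf (algebraMap F S w) x =
      ∏ d : Fin m → Bool, (D.E0 x - algebraMap F S w * D.H c c' x fun k => sgn (d k) * u k)

theorem cf0 {D : CData m r F} {c : Fin r → F} {c' : F} {cf : Fin (r + 1) → F[X]}
    (hP : Prd D c c' cf) (w : F) : D.E0 (0 : F) ^ (2 ^ m - 1) * (cf 0).eval w =
      ∏ d : Fin m → Bool, (D.E0 (0 : F) - w * D.H c c' (0 : F) fun k => sgn (d k)) := by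
  have h := hP F w 0 (fun _ => 1) (fun k => by simp) (fun k => isUnit_one)
  simp only [Algebra.algebraMap_self, RingHom.id_apply, mul_one] at h
  rw [Pw_zero] at h
  exact h

theorem cf0_one {D : CData m r F} {c : Fin r → F} {c' : F} {cf : Fin (r + 1) → F[X]}
    (hP : Prd D c c' cf) (h1 : D.H c c' (0 : F) (fun _ => 1) = D.E0 (0 : F)) :
    (cf 0).eval 1 = 0 := by
  have h := cf0 hP 1
  have h0 : ∏ d : Fin m → Bool, (D.E0 (0 : F) - 1 * D.H c c' (0 : F) fun k => sgn (d k)) = 0 := by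
    refine Finset.prod_eq_zero (Finset.mem_univ fun _ => true) ?_
    have : (fun k : Fin m => (sgn ((fun _ => true : Fin m → Bool) k) : F)) = fun _ => 1 := by
      funext k
      simp [sgn]
    rw [this, h1, one_mul, sub_self]
  rw [h0] at h
  rcases mul_eq_zero.1 h with h2 | h2
  · exact absurd h2 (pow_ne_zero _ (E0_zero_ne D))
  · exact h2

theorem cf0_ne {D : CData m r F} {c : Fin r → F} {c' : F} {cf : Fin (r + 1) → F[X]}
    (hP : Prd D c c' cf) (h1 : D.H c c' (0 : F) (fun _ => 1) = D.E0 (0 : F)) {w : F} (hw : w ≠ 1)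
    (h2 : ∀ d : Fin m → Bool, (∃ k, d k = false) →
      D.E0 (0 : F) ≠ w * D.H c c' (0 : F) (fun k => sgn (d k))) : (cf 0).eval w ≠ 0 := by
  intro h0
  have h := cf0 hP w
  rw [h0, mul_zero] at h
  obtain ⟨d, -, hd⟩ := Finset.prod_eq_zero_iff.1 h.symm
  by_cases hk : ∃ k, d k = false
  · exact h2 d hk (sub_eq_zero.1 hd)
  · push Not at hk
    have : (fun k : Fin m => (sgn (d k) : F)) = fun _ => 1 := by
      funext k
      have := hk k
      simp only [Bool.not_eq_false] at this
      simp [sgn, this]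
    rw [this, h1] at hd
    have h3 : D.E0 (0 : F) * (1 - w) = 0 := by linear_combination hd
    rcases mul_eq_zero.1 h3 with h4 | h4
    · exact E0_zero_ne D h4
    · exact hw (sub_eq_zero.1 h4).symm

theorem cf1_one [CharZero F] {D : CData m r F} {c : Fin r → F} {c' : F}
    {cf : Fin (r + 1) → F[X]} (hr : 2 ≤ r)
    (hP : Prd D c c' cf) (h1 : D.H c c' (0 : F) (fun _ => 1) = D.E0 (0 : F))
    (h2 : ∀ d : Fin m → Bool, (∃ k, d k = false) →
      D.H c c' (0 : F) (fun k => sgn (d k)) ≠ D.E0 (0 : F))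
    (h3 : D.H c c' (DualNumber.eps : DualNumber F) (fun k => 1 + (D.b k / 2) • DualNumber.eps) ≠
      D.E0 (DualNumber.eps : DualNumber F)) : (cf 1).eval 1 ≠ 0 := by
  intro h0
  have he : (DualNumber.eps : DualNumber F) * DualNumber.eps = 0 := DualNumber.eps_mul_eps
  have he2 : (DualNumber.eps : DualNumber F) ^ 2 = 0 := by rw [sq, he]
  set u : Fin m → DualNumber F := fun k => 1 + (D.b k / 2) • DualNumber.eps with hu
  have husq : ∀ k, u k ^ 2 = 1 + algebraMap F (DualNumber F) (D.b k) * DualNumber.eps := by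
    intro k
    have h4 : u k = 1 + algebraMap F (DualNumber F) (D.b k / 2) * DualNumber.eps := by
      rw [hu]
      simp only [Algebra.smul_def]
    have h5 : algebraMap F (DualNumber F) (D.b k) =
        2 * algebraMap F (DualNumber F) (D.b k / 2) := by
      rw [← map_ofNat (algebraMap F (DualNumber F)) 2, ← map_mul]
      congr 1
      field_simp
    rw [h4, h5]
    linear_combination algebraMap F (DualNumber F) (D.b k / 2) ^ 2 * he2
  have hfst : ∀ k, TrivSqZeroExt.fstHom F F F (u k) = 1 := by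
    intro k
    simp [hu]
  have huu : ∀ k, IsUnit (u k) := by
    intro k
    rw [TrivSqZeroExt.isUnit_iff_isUnit_fst]
    have := hfst k
    simp only [TrivSqZeroExt.fstHom_apply] at this
    rw [this]
    exact isUnit_one
  have h := hP (DualNumber F) 1 DualNumber.eps u husq huu
  have hPw : Pw cf (algebraMap F (DualNumber F) 1) (DualNumber.eps : DualNumber F) = 0 := by
    unfold Pw
    refine Finset.sum_eq_zero fun j _ => ?_
    rw [aeval_algebraMap_apply]
    rcases Nat.lt_or_ge (j : ℕ) 2 with hj | hj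
    · have hj' : (j : ℕ) = 0 ∨ (j : ℕ) = 1 := by omega
      rcases hj' with hj' | hj'
      · have : j = 0 := Fin.ext hj'
        rw [this]
        have h6 := cf0_one hP h1
        rw [coe_aeval_eq_eval, h6]
        simp
      · have : j = 1 := by
          apply Fin.ext
          rw [hj', Fin.val_one']
          rw [Nat.mod_eq_of_lt]
          omega
        rw [this]
        rw [coe_aeval_eq_eval, h0]
        simp
    · rw [pow_eq_zero_of_le hj he2, mul_zero]
  rw [hPw, mul_zero] at h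
  classical
  rw [← Finset.mul_prod_erase Finset.univ _ (Finset.mem_univ fun _ => true)] at h
  have hunit : IsUnit (∏ d ∈ Finset.univ.erase (fun _ => true : Fin m → Bool),
      (D.E0 (DualNumber.eps : DualNumber F) - algebraMap F (DualNumber F) 1 *
        D.H c c' DualNumber.eps fun k => sgn (d k) * u k)) := by
    refine Finset.prod_induction _ IsUnit (fun a b => IsUnit.mul) isUnit_one fun d hd => ?_
    have hd' : ∃ k, d k = false := by
      by_contra hk
      push Not at hk
      apply Finset.ne_of_mem_erase hd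
      funext k
      have := hk k
      simpa using this
    rw [TrivSqZeroExt.isUnit_iff_isUnit_fst]
    have h7 : TrivSqZeroExt.fstHom F F F (D.E0 (DualNumber.eps : DualNumber F) -
        algebraMap F (DualNumber F) 1 * D.H c c' DualNumber.eps fun k => sgn (d k) * u k) =
        D.E0 (0 : F) - D.H c c' (0 : F) (fun k => sgn (d k)) := by
      rw [map_sub, map_mul, map_E0, map_H, map_one, map_one, one_mul]
      have h8 : TrivSqZeroExt.fstHom F F F (DualNumber.eps : DualNumber F) = 0 := by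
        simp
      have h9 : (fun k => TrivSqZeroExt.fstHom F F F (sgn (d k) * u k)) = fun k => sgn (d k) := by
        funext k
        rw [map_mul, hfst, mul_one]
        exact map_sgn (TrivSqZeroExt.fstHom F F F).toRingHom (d k)
      rw [h8, h9]
    simp only [TrivSqZeroExt.fstHom_apply] at h7
    rw [h7]
    exact (sub_ne_zero.2 (h2 d hd').symm).isUnit
  have h10 := (hunit.mul_left_eq_zero).1 h.symm
  apply h3
  rw [map_one, one_mul] at h10
  have h11 : (fun k : Fin m => sgn ((fun _ => true : Fin m → Bool) k) * u k) = u := by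
    funext k
    simp [sgn]
  rw [h11] at h10
  exact (sub_eq_zero.1 h10).symm

end curve

section ring

variable {B F : Type u} [CommRing B] [IsLocalRing B] [Field F] [Algebra B F]

theorem quad [CharZero F] {r : ℕ} (hL : LiftSplit r B F) (hr : 2 ≤ r) {e : B}
    (he : e ∈ maximalIdeal B) {u : F} (hu : u ^ 2 = 1 + 4 * algebraMap B F e) :
    ∃ β ∈ maximalIdeal B, β ^ 2 - β = e := by
  have hdeg : (X ^ 2 - X - C e : B[X]).natDegree = 2 := by
    compute_degree!
  have hmon : (X ^ 2 - X - C e : B[X]).Monic := by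
    monicity!
  have hspl : ((X ^ 2 - X - C e : B[X]).map (algebraMap B F)).Splits := by
    have : (X ^ 2 - X - C e : B[X]).map (algebraMap B F) =
        (X - C ((1 + u) / 2)) * (X - C ((1 - u) / 2)) := by
      have h1 : C ((1 + u) / 2) + C ((1 - u) / 2) = (1 : F[X]) := by
        rw [← C_add, ← C_1]
        congr 1
        ring
      have h2 : C ((1 + u) / 2) * C ((1 - u) / 2) = -(C (algebraMap B F e) : F[X]) := by
        rw [← C_mul, ← C_neg]
        congr 1
        linear_combination (-1 / 4) * hu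
      simp only [Polynomial.map_sub, Polynomial.map_pow, map_X, map_C]
      linear_combination X * h1 - h2
    rw [this]
    exact (Splits.X_sub_C _).mul (Splits.X_sub_C _)
  obtain ⟨β, h1, h2⟩ := hL (X ^ 2 - X - C e) hmon (by rw [hdeg]; exact hr) hspl 0
    (by simpa using he) (by simp)
  refine ⟨β, by simpa using h2, ?_⟩
  have h3 : β ^ 2 - β - e = 0 := by simpa [IsRoot] using h1
  exact sub_eq_zero.1 h3

theorem exists_small [IsFractionRing B F] (hB : ¬ IsField B) {c : F} (hc : c ≠ 0) :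
    ∃ t s : B, c * algebraMap B F t = algebraMap B F s ∧ s ∈ maximalIdeal B ∧
      c * algebraMap B F t ≠ 0 := by
  obtain ⟨p, q, hq, hpq⟩ := IsFractionRing.div_surjective (A := B) c
  have hq0 : q ≠ 0 := nonZeroDivisors.ne_zero hq
  have hq' : algebraMap B F q ≠ 0 := by
    simpa using hq0
  obtain ⟨s, hs, hs0⟩ : ∃ s ∈ maximalIdeal B, s ≠ 0 := by
    by_contra hn
    push Not at hn
    exact hB (isField_iff_maximalIdeal_eq.2 ((Submodule.eq_bot_iff _).2 hn))
  have hs' : algebraMap B F s ≠ 0 := by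
    simpa using hs0
  refine ⟨q * s, p * s, ?_, Ideal.mul_mem_left _ _ hs, ?_⟩
  · rw [← hpq, map_mul, map_mul]
    field_simp
  · rw [map_mul]
    exact mul_ne_zero hc (mul_ne_zero hq' hs')

theorem common [IsFractionRing B F] {c₁ c₂ : F} (h₁ : c₁ ≠ 0) (h₂ : c₂ ≠ 0) :
    ∃ (c₃ : F) (s t : B), c₃ ≠ 0 ∧ c₃ = c₁ * algebraMap B F s ∧ c₃ = c₂ * algebraMap B F t := by
  obtain ⟨p₁, q₁, hq₁, hpq₁⟩ := IsFractionRing.div_surjective (A := B) c₁
  obtain ⟨p₂, q₂, hq₂, hpq₂⟩ := IsFractionRing.div_surjective (A := B) c₂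
  have hq₁' : algebraMap B F q₁ ≠ 0 := by
    simpa using nonZeroDivisors.ne_zero hq₁
  have hq₂' : algebraMap B F q₂ ≠ 0 := by
    simpa using nonZeroDivisors.ne_zero hq₂
  have e₁ : algebraMap B F p₁ = c₁ * algebraMap B F q₁ := by
    rw [← hpq₁]
    field_simp
  have e₂ : algebraMap B F p₂ = c₂ * algebraMap B F q₂ := by
    rw [← hpq₂]
    field_simp
  refine ⟨algebraMap B F p₁ * algebraMap B F p₂, q₁ * p₂, q₂ * p₁, ?_, ?_, ?_⟩
  · rw [e₁, e₂]
    exact mul_ne_zero (mul_ne_zero h₁ hq₁') (mul_ne_zero h₂ hq₂')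
  · rw [map_mul, e₁]
    ring
  · rw [map_mul, e₂]
    ring

end ring

section top

variable {F : Type u} [Field F] [TopologicalSpace F] [TopField F]

theorem exists_V {U : Set F} (hU : U ∈ 𝓝 (0 : F)) (hU' : Uᶜ ∈ 𝓝 (1 : F)) :
    ∃ V ∈ 𝓝 (0 : F), ∀ v ∈ V, ∀ w ∈ V, -(v + w) / 2 ∈ U ∧ 1 - (v + w) / 2 ∉ U := by
  have h1 : ∀ᶠ p : F × F in 𝓝 (0, 0), -(p.1 + p.2) / 2 ∈ U := by
    have : Tendsto (fun p : F × F => -(p.1 + p.2) / 2) (𝓝 (0, 0)) (𝓝 0) := by
      have h : Continuous (fun p : F × F => -(p.1 + p.2) / 2) := by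
        simp only [div_eq_mul_inv]
        fun_prop
      have := h.tendsto (0, 0)
      simpa using this
    exact this hU
  have h2 : ∀ᶠ p : F × F in 𝓝 (0, 0), 1 - (p.1 + p.2) / 2 ∉ U := by
    have : Tendsto (fun p : F × F => 1 - (p.1 + p.2) / 2) (𝓝 (0, 0)) (𝓝 1) := by
      have h : Continuous (fun p : F × F => 1 - (p.1 + p.2) / 2) := by
        simp only [div_eq_mul_inv]
        fun_prop
      have := h.tendsto (0, 0)
      simpa using this
    exact this hU'
  have h3 := h1.and h2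
  rw [nhds_prod_eq, Filter.eventually_iff, Filter.mem_prod_same_iff] at h3
  obtain ⟨V, hV, hVV⟩ := h3
  refine ⟨V, hV, fun v hv w hw => ?_⟩
  exact hVV (Set.mk_mem_prod hv hw)

end top

end LEMAM

open LEMAM in
theorem specLEMA (hSQR : SpecSQR.{u}) (hPTS : SpecAMPTS.{u}) (hCOE : SpecAMCOE.{u})
    (hPOL : SpecAMPOL.{u}) (hSIG : SpecAMSIG.{u}) (hBR : SpecAMBR.{u}) (hBSD : SpecAMBSD.{u})
    (hCT : SpecAMCT.{u}) : SpecLEMA.{u} := by
  intro m
  obtain ⟨r, hr⟩ : ∃ r, r = 2 ^ m * (m + 2) + 1 := ⟨_, rfl⟩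
  have hr2 : 2 ≤ r := by
    have : 1 ≤ 2 ^ m := Nat.one_le_two_pow
    nlinarith
  refine ⟨r, ?_⟩
  intro B F _ _ _ _ _ _ _ _ _ hT hB hI hL U hU hU'
  set a : Fin m → F := fun k => (k : ℕ) + 1 with ha
  suffices h : ∀ S : Set (Fin m), ∃ x : F, ∀ k, (∃ y : F, y ^ 2 - y = a k * x ∧
      (∃ c ∈ maximalIdeal B, algebraMap B F c = y) ∧ y ∈ U) ↔ k ∈ S by
    choose x hx using h
    exact ⟨a, x, fun k s => hx s k⟩
  intro S
  classical
  obtain ⟨V, hV, hVU⟩ := exists_V hU hU'
  set d : Fin m → Bool := fun k => decide (k ∈ S) with hd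
  have h4 : (4 : F) ≠ 0 := OfNat.ofNat_ne_zero 4
  have ha_inj : Function.Injective (fun k => 4 * a k) := by
    intro k l hkl
    simp only [ha] at hkl
    have h5 := mul_left_cancel₀ h4 hkl
    have h6 : ((k : ℕ) : F) = (l : ℕ) := by linear_combination h5
    exact Fin.ext (Nat.cast_injective h6)
  have ha0 : ∀ k, 4 * a k ≠ 0 := by
    intro k
    have : a k ≠ 0 := Nat.cast_add_one_ne_zero _
    exact mul_ne_zero h4 this
  obtain ⟨D, hDb, -, hDU⟩ := hPTS m r F hT (fun k => 4 * a k) ha_inj ha0 d V hV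
  obtain ⟨c, c', hcon, h1, h2, h3⟩ := hCOE m r F D hr.ge
  obtain ⟨cf, hcf0, hcfr, hP⟩ := hPOL m r F D c c' hcon
  have e0 := cf0_one hP h1
  have e1 := cf1_one hr2 hP h1 h2 h3
  obtain ⟨c₁, hc₁, t1, t2, t3⟩ := hCT m r B F hB D c c' h2
  obtain ⟨t, s, hts, hs, hne⟩ := exists_small hB hc₁
  obtain ⟨c₂, hc₂, hbsd⟩ := hBSD r B F hB hr2 hL cf e0 e1 (c₁ * algebraMap B F t) hne
  obtain ⟨c₃, s₁, s₂, hc₃, g1, g2⟩ := common (B := B) hc₁ hc₂
  obtain ⟨V', hV', hbr⟩ := hBR m r F hT D c c' V hV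
  -- squares
  have hsq : ∀ (i : Fin r) (k : Fin m), ∀ᶠ v in 𝓝 (0 : F),
      ∃ u : F, u ^ 2 = 1 + D.b k * (D.x i + v) := by
    intro i k
    obtain ⟨W, hW, hW'⟩ := hSQR F hT two_ne_zero (D.U i k) (D.hU0 i k) Set.univ Filter.univ_mem
    have : Tendsto (fun v : F => D.b k * v) (𝓝 0) (𝓝 0) := by
      have h : Continuous (fun v : F => D.b k * v) := by fun_prop
      simpa using h.tendsto 0
    filter_upwards [this hW] with v hv
    obtain ⟨u, hu, -⟩ := hW' (1 + D.b k * (D.x i + v)) (by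
      rw [D.hU i k]
      have : 1 + D.b k * (D.x i + v) - (1 + D.b k * D.x i) = D.b k * v := by ring
      rw [this]
      exact hv)
    exact ⟨u, hu⟩
  have hsq' : ∀ᶠ v in 𝓝 (0 : F), ∀ (i : Fin r) (k : Fin m),
      ∃ u : F, u ^ 2 = 1 + D.b k * (D.x i + v) :=
    eventually_all.2 fun i => eventually_all.2 fun k => hsq i k
  obtain ⟨W, hW, hsig⟩ := hSIG m r F hT D cf hcf0 hcfr _ (inter_mem hV' hsq')
  -- choice of `w`
  obtain ⟨w', ⟨b₀, rfl⟩, hw⟩ := hI 1 c₃ hc₃ (interior (W ∩ V') ∩ {1}ᶜ)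
    (isOpen_interior.inter isOpen_compl_singleton)
    ⟨0, mem_interior_iff_mem_nhds.2 (inter_mem hW hV'), by simp⟩
  obtain ⟨w, hwdef⟩ : ∃ w : F, w = 1 + c₃ * algebraMap B F b₀ := ⟨_, rfl⟩
  rw [← hwdef] at hw
  have hw1 : w ∈ W ∩ V' := interior_subset hw.1
  have hwne : w ≠ 1 := hw.2
  obtain ⟨ρ, hρi, hρV, hρ⟩ := hsig w hw1.1
  have ew1 : w = 1 + c₁ * algebraMap B F (s₁ * b₀) := by
    rw [hwdef, g1, map_mul]
    ring
  have ew2 : w = 1 + c₂ * algebraMap B F (s₂ * b₀) := by
    rw [hwdef, g2, map_mul]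
    ring
  have hcf0w : (cf 0).eval w ≠ 0 := cf0_ne hP h1 hwne fun d hd => by
    rw [ew1]
    exact t3 _ d hd
  obtain ⟨b', hb'⟩ := hbsd (s₂ * b₀) w ew2 hcf0w ⟨ρ, hρi, fun i => (hρ _).2 ⟨i, rfl⟩⟩
  obtain ⟨x, hx⟩ : ∃ x : F, x = c₁ * algebraMap B F t * algebraMap B F b' := ⟨_, rfl⟩
  rw [← hx] at hb'
  obtain ⟨i, hi⟩ := (hρ x).1 hb'
  have hxB : x = algebraMap B F (s * b') := by rw [hx, hts, map_mul]
  have hxc : x = c₁ * algebraMap B F (t * b') := by
    rw [hx, map_mul]
    ring
  have hbk : ∀ k, D.b k = 4 * a k := fun k => by rw [hDb]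
  have hak : ∀ k, a k = algebraMap B F ((k : ℕ) + 1) := fun k => by simp [ha]
  -- the quadratic equations
  have hquad : ∀ k : Fin m, ∃ β ∈ maximalIdeal B, β ^ 2 - β = (((k : ℕ) : B) + 1) * (s * b') := by
    intro k
    obtain ⟨u, hu⟩ := (hρV i).2 i k
    refine quad hL hr2 (Ideal.mul_mem_left _ _ (Ideal.mul_mem_right _ _ hs)) (u := u) ?_
    rw [hu, map_mul, ← hak, ← hxB, hbk, hi]
    ring
  choose β hβm hβ using hquad
  have hy : ∀ k, algebraMap B F (β k) ^ 2 - algebraMap B F (β k) = a k * x := by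
    intro k
    rw [← map_pow, ← map_sub, hβ, map_mul, ← hak, ← hxB]
  set u : Fin m → F := fun k => 1 - 2 * algebraMap B F (β k) with hu
  have hu2 : ∀ k, u k ^ 2 = 1 + D.b k * x := by
    intro k
    rw [hbk]
    simp only [hu]
    linear_combination 4 * hy k
  have hv : ∀ k, ∃ v : B, u k = 1 + c₁ * algebraMap B F v := by
    intro k
    have hun : IsUnit (1 - β k) := by
      by_contra hn
      have h4 : (1 - β k) + β k ∈ maximalIdeal B := Ideal.add_mem _ hn (hβm k)
      rw [sub_add_cancel] at h4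
      exact (Ideal.ne_top_iff_one _).1 (maximalIdeal.isMaximal B).ne_top h4
    obtain ⟨q, hq⟩ := hun.exists_right_inv
    have h4 : β k = -((((k : ℕ) : B) + 1) * (s * b')) * q := by
      rw [← hβ]
      linear_combination (-(β k)) * hq
    refine ⟨2 * ((((k : ℕ) : B) + 1) * (t * b')) * q, ?_⟩
    simp only [hu]
    rw [h4]
    have h5 : algebraMap B F (-((((k : ℕ) : B) + 1) * (s * b')) * q) =
        -(c₁ * algebraMap B F ((((k : ℕ) : B) + 1) * (t * b') * q)) := by
      simp only [map_mul, map_neg]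
      rw [← hts]
      ring
    rw [h5]
    simp only [map_mul, map_ofNat]
    ring
  choose v hv using hv
  have hu0 : ∀ k, IsUnit (u k) := fun k => by
    rw [hv]
    exact (t1 (v k)).2.isUnit
  have hprod := hP F w x u hu2 hu0
  simp only [Algebra.algebraMap_self, RingHom.id_apply] at hprod
  rw [hb', mul_zero] at hprod
  obtain ⟨δ, -, hδ⟩ := Finset.prod_eq_zero_iff.1 hprod.symm
  have hδ' := sub_eq_zero.1 hδ
  have hδt : ∀ k, δ k = true := by
    intro k
    by_contra hk
    have hk' : ∃ k, δ k = false := ⟨k, by simpa using hk⟩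
    have h4 := t2 (t * b') (s₁ * b₀) v δ hk'
    rw [← hxc, ← ew1] at h4
    apply h4
    rw [hδ']
    congr 2
    funext k
    rw [hv]
  have hEH : D.E0 x = w * D.H c c' x u := by
    rw [hδ']
    congr 2
    funext k
    rw [hδt k]
    simp [sgn]
  have hbr' := hbr i x w u (by rw [hi]; exact (hρV i).1) (fun j => by rw [hxc]; exact (t1 _).1 j)
    hw1.2 hu2 hEH
  -- conclusion
  refine ⟨x, fun k => ?_⟩
  have hyk : algebraMap B F (β k) = (1 - sgn (d k)) / 2 -
      ((u k - D.U i k) + (D.U i k - sgn (d k))) / 2 := by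
    simp only [hu]
    ring
  have hVk := hVU _ (hbr' k) _ (hDU i k)
  constructor
  · rintro ⟨y, hy1, ⟨e, he, hey⟩, hyU⟩
    have h6 : (y - algebraMap B F (β k)) * (y + algebraMap B F (β k) - 1) = 0 := by
      linear_combination hy1 - hy k
    have h7 : y = algebraMap B F (β k) := by
      rcases mul_eq_zero.1 h6 with h7 | h7
      · exact sub_eq_zero.1 h7
      · exfalso
        rw [← hey, ← map_add, ← map_one (algebraMap B F), ← map_sub] at h7
        have h8 : e + β k - 1 = 0 := by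
          have := (IsFractionRing.injective B F) (h7.trans (map_zero _).symm)
          exact this
        have h9 : (1 : B) ∈ maximalIdeal B := by
          rw [← sub_eq_zero.1 h8]
          exact Ideal.add_mem _ he (hβm k)
        exact (Ideal.ne_top_iff_one _).1 (maximalIdeal.isMaximal B).ne_top h9
    by_contra hk
    have h8 : d k = false := by simpa [hd] using hk
    apply hVk.2
    rw [h7, hyk, h8] at hyU
    rw [h8]
    have h9 : (1 - sgn false : F) / 2 = 1 := by
      simp only [sgn]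
      norm_num
    rw [h9] at hyU
    exact hyU
  · intro hk
    have h8 : d k = true := by simpa [hd] using hk
    refine ⟨algebraMap B F (β k), hy k, ⟨β k, hβm k, rfl⟩, ?_⟩
    have h9 : (1 - sgn true : F) / 2 = 0 := by
      simp [sgn]
    have h10 := hVk.1
    rw [h8] at h10
    rw [hyk, h8, h9, zero_sub, ← neg_div]
    exact h10

end Pool.Agent.Lib.MP958bd4
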