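import Pool.Agent.Lib.MP_958bd4_lc.SpecA

section
/-!
# MP_958bd4_lc: CBD, boundedness of local rings
-/
set_option autoImplicit false

universe u

namespace Pool.Agent.Lib.MP958bd4

open Polynomial Topology Filter

theorem specCBD : SpecCBD.{u} := by
  intro C F _ _ φ _ N _ hUC Q hQ hlt _ _ hB V hV
  obtain ⟨q, hqQ, hqk⟩ := Set.exists_of_ssubset (SetLike.coe_ssubset_coe.2 hlt)
  have hφq : φ q ≠ 0 := fun h => hqk (RingHom.mem_ker.2 h)
  obtain ⟨c, hc, hcV⟩ := hB V hV
  refine ⟨c * φ q ^ N, mul_ne_zero hc (pow_ne_zero _ hφq), ?_⟩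
  rintro y ⟨a, s, hs, hy⟩
  have hdiv : s ∣ q ^ N := by
    rcases hUC q s with h | h
    · exact h
    · exfalso
      obtain ⟨t, ht⟩ := h
      have : s ^ N ∈ Q := by rw [ht]; exact Ideal.mul_mem_right _ _ hqQ
      exact hs (hQ.mem_of_pow_mem _ this)
  obtain ⟨t, ht⟩ := hdiv
  have h1 : φ q ^ N = φ s * φ t := by rw [← map_pow, ht, map_mul]
  have h2 : c * φ q ^ N * y = c * φ (a * t) := by
    rw [h1, map_mul, ← hy]; ring
  rw [h2]
  exact hcV _ ⟨_, rfl⟩

end Pool.Agent.Lib.MP958bd4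
end

section
set_option autoImplicit false
universe u
namespace Pool.Agent.Lib.MP958bd4

open Polynomial IsLocalRing

namespace CHNM

/-- a prime without positive integers above the kernel -/
theorem start {C F : Type u} [CommRing C] [IsLocalRing C] [Field F] [CharZero F] (φ : C →+* F)
    (hG : ∀ x, x ∉ RingHom.ker φ → ∃ P : Ideal C, P.IsPrime ∧ RingHom.ker φ < P ∧ x ∉ P) :
    ∃ Q : Ideal C, Q.IsPrime ∧ RingHom.ker φ < Q ∧ ∀ j : ℕ, j ≠ 0 → (j : C) ∉ Q := by
  have hker : ∀ j : ℕ, j ≠ 0 → (j : C) ∉ RingHom.ker φ := by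
    intro j hj h
    rw [RingHom.mem_ker, map_natCast] at h
    exact hj (by exact_mod_cast h)
  by_cases hp : ∃ j : ℕ, j ≠ 0 ∧ (j : C) ∈ maximalIdeal C
  · classical
    obtain ⟨hp0, hpm⟩ := Nat.find_spec hp
    have hmin : ∀ j, j < Nat.find hp → ¬ (j ≠ 0 ∧ (j : C) ∈ maximalIdeal C) :=
      fun j hj => Nat.find_min hp hj
    generalize Nat.find hp = p at hp0 hpm hmin
    obtain ⟨Q, hQ, hkQ, hpQ⟩ := hG p (hker p hp0)
    refine ⟨Q, hQ, hkQ, ?_⟩
    have hQm : Q ≤ maximalIdeal C := le_maximalIdeal hQ.ne_top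
    intro j
    induction j using Nat.strong_induction_on with
    | _ j ih =>
      intro hj hjQ
      -- `p ∣ j`
      have hmod : j % p = 0 := by
        by_contra hne
        refine hmin (j % p) (Nat.mod_lt _ (Nat.pos_of_ne_zero hp0)) ⟨hne, ?_⟩
        have h1 : (j : C) = (p : C) * ((j / p : ℕ) : C) + ((j % p : ℕ) : C) := by
          exact_mod_cast congrArg (Nat.cast : ℕ → C) (Nat.div_add_mod j p).symm
        have h2 : ((j % p : ℕ) : C) = (j : C) - (p : C) * ((j / p : ℕ) : C) := by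
          rw [h1]; ring
        rw [h2]
        exact (maximalIdeal C).sub_mem (hQm hjQ) (Ideal.mul_mem_right _ _ hpm)
      obtain ⟨m, rfl⟩ := Nat.dvd_of_mod_eq_zero hmod
      rw [Nat.cast_mul] at hjQ
      have hm0 : m ≠ 0 := by
        rintro rfl
        exact hj (by simp)
      have hp1 : p ≠ 1 := by
        rintro rfl
        rw [Nat.cast_one] at hpm
        exact (Ideal.ne_top_iff_one _).1 (maximalIdeal.isMaximal C).ne_top hpm
      rcases hQ.mem_or_mem hjQ with h | h
      · exact hpQ h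
      · exact ih m (lt_mul_left (Nat.pos_of_ne_zero hm0) (by omega)) hm0 h
  · push Not at hp
    obtain ⟨Q, hQ, hkQ, _⟩ := hG 1 (fun h => by
      rw [RingHom.mem_ker, map_one] at h
      exact one_ne_zero h)
    exact ⟨Q, hQ, hkQ, fun j hj hjQ => hp j hj (le_maximalIdeal hQ.ne_top hjQ)⟩

end CHNM

theorem specCHN (hSTEP : SpecSTEP.{u}) (hT1N : SpecT1N.{u}) : SpecCHN.{u} := by
  intro hSC C _ _ _ N hN hUC hsat hnip F _ _ φ hφ hG n₀
  by_contra hcon
  push Not at hcon
  obtain ⟨Q₁, hQ₁, hkQ₁, hint₁⟩ := CHNM.start φ hG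
  let T := {Q : Ideal C // Q.IsPrime ∧ RingHom.ker φ < Q ∧ ∀ j : ℕ, j ≠ 0 → (j : C) ∉ Q}
  have hstep : ∀ Q : T, ∃ (n : T) (D : ℕ), n.1 < Q.1 ∧ 2 ≤ D ∧ D ≤ n₀ ∧ GoodPrime D n.1 := by
    rintro ⟨Q, hQ, hkQ, hint⟩
    obtain ⟨n, D, h1, h2, h3, h4, h5⟩ := hSTEP hSC C N hN hUC hsat hnip F φ hφ n₀
      (fun Q hQ hk => hcon Q hQ hk) Q hQ hkQ hint
    exact ⟨⟨n, h5.1, h1, fun j hj hjn => hint j hj (h2.le hjn)⟩, D, h2, h3, h4, h5⟩
  choose f D hf1 hf2 hf3 hf4 using hstep
  let q : ℕ → T := fun j => Nat.rec ⟨Q₁, hQ₁, hkQ₁, hint₁⟩ (fun _ Q => f Q) j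
  have hq : ∀ j, q (j + 1) = f (q j) := fun j => rfl
  have hanti : StrictAnti fun j => (q j).1 := strictAnti_nat_of_succ_lt fun j => by
    show (q (j + 1)).1 < (q j).1
    rw [hq]
    exact hf1 _
  -- the degree function
  let d : ℕ → Fin (n₀ + 1) := fun j => ⟨D (q j), Nat.lt_succ_of_le (hf3 _)⟩
  obtain ⟨e, he⟩ := Finite.exists_infinite_fiber d
  have hinf : (d ⁻¹' {e}).Infinite := Set.infinite_coe_iff.1 he
  have hD2 : 2 ≤ (e : ℕ) := by
    obtain ⟨j, hj⟩ := hinf.nonempty
    have : d j = e := hj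
    rw [← this]
    exact hf2 _
  obtain ⟨k, hk⟩ := hT1N C N (e : ℕ) hN hD2 hUC hnip
  have : Infinite (d ⁻¹' {e}) := he
  classical
  let o := Nat.orderEmbeddingOfSet (d ⁻¹' {e})
  have ho : ∀ i, d (o i) = e := fun i => by
    have h1 : o i ∈ Set.range (Nat.orderEmbeddingOfSet (d ⁻¹' {e})) := ⟨i, rfl⟩
    rw [Nat.orderEmbeddingOfSet_range] at h1
    exact h1
  refine hk (fun i : Fin k => (q (o (k - 1 - i) + 1)).1) ?_ ?_
  · intro i i' hii
    refine hanti (a := o (k - 1 - (i' : ℕ)) + 1) (b := o (k - 1 - (i : ℕ)) + 1) ?_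
    have h1 : (k - 1 - (i' : ℕ)) < k - 1 - (i : ℕ) := by
      have h2 : (i : ℕ) < i' := hii
      have h3 := i'.2
      omega
    have h2 : o (k - 1 - (i' : ℕ)) < o (k - 1 - (i : ℕ)) := o.strictMono h1
    omega
  · intro i
    have h1 := ho (k - 1 - i)
    have h2 : D (q (o (k - 1 - i))) = (e : ℕ) := by
      have := congrArg Fin.val h1
      exact this
    rw [← h2]
    show GoodPrime _ (q (o (k - 1 - i) + 1)).1
    rw [hq]
    exact hf4 _

end Pool.Agent.Lib.MP958bd4
end

section
/-!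
# MP_958bd4_lc: module IPP (characteristic `p`, additive polynomials)
-/
set_option autoImplicit false

universe u

namespace Pool.Agent.Lib.MP958bd4

open Polynomial Topology Filter IsLocalRing

namespace IPPM

section Additive

variable {p : ℕ} [hp : Fact p.Prime] {F : Type u} [Field F] [Algebra (ZMod p) F]

theorem prod_sub (A B : F) :
    ∏ c : ZMod p, (A - algebraMap (ZMod p) F c * B) = A ^ p - B ^ (p - 1) * A := by
  have hp1 : 1 < p := hp.out.one_lt
  have hcard : Fintype.card (ZMod p) = p := ZMod.card p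
  by_cases hB : B = 0
  · subst hB
    simp only [mul_zero, sub_zero, Finset.prod_const, Finset.card_univ, hcard]
    rw [zero_pow (by omega), zero_mul, sub_zero]
  · have key : ∏ c : ZMod p, (X - C c : (ZMod p)[X]) = X ^ p - X := by
      have hroots : (X ^ p - X : (ZMod p)[X]).roots = Finset.univ.val := by
        have := FiniteField.roots_X_pow_card_sub_X (ZMod p)
        rwa [hcard] at this
      have hmonic : (X ^ p - X : (ZMod p)[X]).Monic := by
        apply Polynomial.monic_X_pow_sub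
        rw [degree_X]
        exact_mod_cast hp1
      have h1 := prod_multiset_X_sub_C_of_monic_of_roots_card_eq hmonic (by
        rw [hroots, FiniteField.X_pow_card_sub_X_natDegree_eq (ZMod p) hp1]
        rw [← Finset.card_def, Finset.card_univ, hcard])
      rw [hroots] at h1
      exact h1
    have h2 := congrArg (fun q : (ZMod p)[X] => aeval (A / B) q) key
    simp only [map_prod, map_sub, aeval_X, aeval_C, map_pow] at h2
    have h3 : ∏ c : ZMod p, (A - algebraMap (ZMod p) F c * B) =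
        ∏ c : ZMod p, (B * (A / B - algebraMap (ZMod p) F c)) := by
      refine Finset.prod_congr rfl fun c _ => ?_
      field_simp
    rw [h3, Finset.prod_mul_distrib, h2, Finset.prod_const, Finset.card_univ, hcard]
    have h4 : B ^ p = B ^ (p - 1) * B := by
      rw [← pow_succ]
      congr 1
      omega
    have h5 : B ^ p * (A / B) ^ p = A ^ p := by
      rw [← mul_pow]
      congr 1
      field_simp
    rw [mul_sub, h5, h4]
    field_simp

/-- the polynomial function `∏ (x - w)`, `w` in the finite subspace `W`. -/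
noncomputable def PW (W : Submodule (ZMod p) F) [Finite W] (x : F) : F :=
  letI := Fintype.ofFinite W
  ∏ w : W, (x - w)

theorem PW_bot (W : Submodule (ZMod p) F) [Finite W] (h : W = ⊥) (x : F) : PW W x = x := by
  subst h
  unfold PW
  let _ := Fintype.ofFinite (⊥ : Submodule (ZMod p) F)
  rw [Fintype.prod_eq_single (0 : (⊥ : Submodule (ZMod p) F))
    (fun y hy => absurd (Subsingleton.elim _ _) hy)]
  simp

theorem PW_eq_zero (W : Submodule (ZMod p) F) [Finite W] (x : F) : PW W x = 0 ↔ x ∈ W := by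
  unfold PW
  let _ := Fintype.ofFinite W
  rw [Finset.prod_eq_zero_iff]
  constructor
  · rintro ⟨w, -, hw⟩
    rw [sub_eq_zero] at hw
    rw [hw]
    exact w.2
  · intro h
    exact ⟨⟨x, h⟩, Finset.mem_univ _, sub_self _⟩

theorem PW_congr (W W' : Submodule (ZMod p) F) [Finite W] [Finite W'] (h : W = W') (x : F) :
    PW W x = PW W' x := by
  subst h
  rfl

theorem PW_step (W W' : Submodule (ZMod p) F) [Finite W] [Finite W'] (v : F) (hv : v ∉ W)
    (hW : W' = Submodule.span (ZMod p) {v} ⊔ W) (hadd : ∀ x y, PW W (x + y) = PW W x + PW W y)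
    (x : F) : PW W' x = PW W x ^ p - PW W v ^ (p - 1) * PW W x := by
  have hmem : ∀ cw : ZMod p × W, (cw.2 : F) + cw.1 • v ∈ W' := by
    intro cw
    rw [hW]
    exact Submodule.add_mem _ (Submodule.mem_sup_right cw.2.2)
      (Submodule.mem_sup_left (Submodule.smul_mem _ _ (Submodule.mem_span_singleton_self v)))
  let _ := Fintype.ofFinite W
  let _ := Fintype.ofFinite W'
  let f : ZMod p × W → W' := fun cw => ⟨(cw.2 : F) + cw.1 • v, hmem cw⟩
  have hinj : Function.Injective f := by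
    rintro ⟨c, w⟩ ⟨c', w'⟩ h
    have h1 : (w : F) + c • v = (w' : F) + c' • v := congrArg Subtype.val h
    have hc : c = c' := by
      by_contra hcc
      apply hv
      have h2 : (c - c') • v = ((w' - w : W) : F) := by
        rw [sub_smul, Submodule.coe_sub]
        linear_combination h1
      have h3 : v = (c - c')⁻¹ • ((w' - w : W) : F) := by
        rw [← h2, smul_smul, inv_mul_cancel₀ (sub_ne_zero.2 hcc), one_smul]
      rw [h3]
      exact Submodule.smul_mem _ _ (w' - w).2
    subst hc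
    have : (w : F) = w' := by simpa using h1
    rw [Subtype.ext this]
  have hsurj : Function.Surjective f := by
    rintro ⟨y, hy⟩
    rw [hW, Submodule.mem_sup] at hy
    obtain ⟨a, ha, b, hb, hab⟩ := hy
    obtain ⟨c, rfl⟩ := Submodule.mem_span_singleton.1 ha
    refine ⟨(c, ⟨b, hb⟩), Subtype.ext ?_⟩
    change b + c • v = y
    rw [← hab, add_comm]
  have h1 : PW W' x = ∏ cw : ZMod p × W, (x - ((cw.2 : F) + cw.1 • v)) := by
    unfold PW
    symm
    exact Fintype.prod_bijective f ⟨hinj, hsurj⟩ _ _ fun cw => rfl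
  rw [h1, Fintype.prod_prod_type, ← prod_sub (p := p) (PW W x) (PW W v)]
  refine Finset.prod_congr rfl fun c _ => ?_
  have h2 : PW W (x - c • v) = PW W x - algebraMap (ZMod p) F c * PW W v := by
    let φ : F →+ F := AddMonoidHom.mk' (PW W) hadd
    have h3 : φ (x - c • v) = φ x - c • φ v := by
      rw [map_sub, ZMod.map_smul]
    rw [← Algebra.smul_def]
    exact h3
  rw [← h2]
  unfold PW
  refine Finset.prod_congr rfl fun w _ => ?_
  ring

end Additive

section Family

variable {p : ℕ} [hp : Fact p.Prime] {F : Type u} [Field F] [Algebra (ZMod p) F] {m : ℕ}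
  (v : Fin m → F)

/-- the span of the `v i`, `i ∈ T` -/
def WT (T : Finset (Fin m)) : Submodule (ZMod p) F := Submodule.span (ZMod p) (v '' (T : Set (Fin m)))

instance (T : Finset (Fin m)) : Finite (WT (p := p) v T) := by
  have : Module.Finite (ZMod p) (WT (p := p) v T) :=
    Module.Finite.span_of_finite _ ((Finset.finite_toSet T).image v)
  exact Module.finite_of_finite (ZMod p)

theorem WT_insert (k : Fin m) (T : Finset (Fin m)) :
    WT (p := p) v (insert k T) = Submodule.span (ZMod p) {v k} ⊔ WT v T := by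
  unfold WT
  rw [Finset.coe_insert, Set.image_insert_eq, Submodule.span_insert]

variable [CharP F p]

theorem PW_add (hv : LinearIndependent (ZMod p) v) (T : Finset (Fin m)) :
    ∀ x y, PW (WT (p := p) v T) (x + y) = PW (WT (p := p) v T) x + PW (WT (p := p) v T) y := by
  induction T using Finset.induction with
  | empty =>
    intro x y
    have h : WT (p := p) v ∅ = ⊥ := by
      unfold WT
      simp
    rw [PW_bot _ h, PW_bot _ h, PW_bot _ h]
  | insert k T hk ih =>
    intro x y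
    have hkv : v k ∉ WT (p := p) v T := hv.notMem_span_image (by simpa using hk)
    have hs := PW_step (WT (p := p) v T) (WT (p := p) v (insert k T)) (v k) hkv
      (WT_insert v k T) ih
    rw [hs, hs, hs, ih, add_pow_char]
    ring

theorem PW_insert (hv : LinearIndependent (ZMod p) v) (k : Fin m) (T : Finset (Fin m))
    (hk : k ∉ T) (x : F) : PW (WT (p := p) v (insert k T)) x =
      PW (WT (p := p) v T) x ^ p - PW (WT (p := p) v T) (v k) ^ (p - 1) * PW (WT (p := p) v T) x :=
  PW_step (WT v T) (WT v (insert k T)) (v k) (hv.notMem_span_image (by simpa using hk))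
    (WT_insert v k T) (PW_add v hv T) x

/-- Values at `B`-small elements are `B`-small. -/
theorem PW_small (hv : LinearIndependent (ZMod p) v) (B : Type u) [CommRing B] [IsDomain B]
    [IsLocalRing B] [Algebra B F] [IsFractionRing B F] (hB : ¬ IsField B) (T : Finset (Fin m)) :
    ∀ d : F, d ≠ 0 → ∃ c : B, c ≠ 0 ∧ ∀ b : B, ∃ μ ∈ maximalIdeal B,
      PW (WT (p := p) v T) (algebraMap B F (c * b)) = d * algebraMap B F μ := by
  have hinj : Function.Injective (algebraMap B F) := IsFractionRing.injective B F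
  induction T using Finset.induction with
  | empty =>
    intro d hd
    obtain ⟨ε, hε, hε0⟩ : ∃ ε ∈ maximalIdeal B, ε ≠ 0 := by
      by_contra hcon
      push Not at hcon
      apply hB
      rw [isField_iff_maximalIdeal_eq]
      exact (Submodule.eq_bot_iff _).2 hcon
    obtain ⟨d1, d2, hd2, rfl⟩ := IsFractionRing.div_surjective B d
    have hd2' : algebraMap B F d2 ≠ 0 := by
      rw [Ne, map_eq_zero_iff _ hinj]
      exact nonZeroDivisors.ne_zero hd2
    have hd1 : d1 ≠ 0 := by
      rintro rfl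
      exact hd (by simp)
    have h : WT (p := p) v ∅ = ⊥ := by
      unfold WT
      simp
    refine ⟨d1 * ε, mul_ne_zero hd1 hε0, fun b => ⟨d2 * ε * b, ?_, ?_⟩⟩
    · exact Ideal.mul_mem_right _ _ (Ideal.mul_mem_left _ _ hε)
    · rw [PW_bot _ h]
      simp only [map_mul]
      field_simp
  | insert k T hk ih =>
    intro d hd
    set α : F := PW (WT (p := p) v T) (v k) ^ (p - 1) with hα
    obtain ⟨d1, d2, hd2, rfl⟩ := IsFractionRing.div_surjective B d
    obtain ⟨α1, α2, hα2, hαe⟩ := IsFractionRing.div_surjective B α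
    have hd2' : algebraMap B F d2 ≠ 0 := by
      rw [Ne, map_eq_zero_iff _ hinj]
      exact nonZeroDivisors.ne_zero hd2
    have hα2' : algebraMap B F α2 ≠ 0 := by
      rw [Ne, map_eq_zero_iff _ hinj]
      exact nonZeroDivisors.ne_zero hα2
    have hd1 : d1 ≠ 0 := by
      rintro rfl
      exact hd (by simp)
    have hd1' : algebraMap B F d1 ≠ 0 := by
      rw [Ne, map_eq_zero_iff _ hinj]
      exact hd1
    obtain ⟨c, hc, hcb⟩ := ih (algebraMap B F (d1 * α2)) (by
      rw [map_mul]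
      exact mul_ne_zero hd1' hα2')
    refine ⟨c, hc, fun b => ?_⟩
    obtain ⟨μ, hμ, hμe⟩ := hcb b
    refine ⟨α2 * d2 * (d1 * α2) ^ (p - 1) * μ ^ p - α1 * d2 * μ, ?_, ?_⟩
    · refine Ideal.sub_mem _ (Ideal.mul_mem_left _ _ ?_) (Ideal.mul_mem_left _ _ hμ)
      exact Ideal.pow_mem_of_mem _ hμ _ hp.out.pos
    · rw [PW_insert v hv k T hk, hμe, ← hα, ← hαe]
      have h4 : (algebraMap B F (d1 * α2)) ^ p =
          (algebraMap B F (d1 * α2)) ^ (p - 1) * algebraMap B F (d1 * α2) := by
        rw [← pow_succ]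
        congr 1
        have := hp.out.pos
        omega
      rw [mul_pow, h4]
      simp only [map_sub, map_mul, map_pow]
      field_simp

end Family

theorem continuous_PW {p : ℕ} [hp : Fact p.Prime] {F : Type u} [Field F] [Algebra (ZMod p) F]
    [TopologicalSpace F] [IsTopologicalRing F] (W : Submodule (ZMod p) F) [Finite W] :
    Continuous (PW W) := by
  unfold PW
  let _ := Fintype.ofFinite W
  exact continuous_finsetProd _ fun w _ => continuous_id.sub continuous_const

theorem infinite_of_topField (F : Type u) [Field F] [TopologicalSpace F] [TopField F] :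
    Infinite F := by
  have := (TopField.nd : (𝓝[≠] (0 : F)).NeBot)
  exact Set.infinite_univ_iff.1 (infinite_of_mem_nhds (0 : F) univ_mem)

end IPPM

open IPPM

theorem specIPP : SpecIPP.{u} := by
  classical
  intro p m hp B F _ _ _ _ _ _ _ _ _ hB hInd U hU0 hU1
  let _ : Algebra (ZMod p) F := ZMod.algebra F p
  have hinj : Function.Injective (algebraMap B F) := IsFractionRing.injective B F
  -- independent elements
  obtain ⟨v, hv⟩ : ∃ v : Fin m → F, LinearIndependent (ZMod p) v := by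
    apply exists_linearIndependent_of_le_rank
    have hrank : Cardinal.aleph0 ≤ Module.rank (ZMod p) F := by
      by_contra hcon
      rw [not_le] at hcon
      have h1 : Module.Finite (ZMod p) F := Module.rank_lt_aleph0_iff.1 hcon
      have h2 : Finite F := Module.finite_of_finite (ZMod p)
      exact (infinite_of_topField F).not_finite h2
    exact (Cardinal.natCast_lt_aleph0 (n := m)).le.trans hrank
  -- the additive polynomials
  let T : Fin m → Finset (Fin m) := fun k => Finset.univ.erase k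
  let Q : Fin m → F → F := fun k => PW (WT (p := p) v (T k))
  have hQadd : ∀ k x y, Q k (x + y) = Q k x + Q k y := fun k => PW_add v hv (T k)
  have hQv : ∀ k, Q k (v k) ≠ 0 := by
    intro k h
    rw [PW_eq_zero] at h
    exact hv.notMem_span_image (s := (T k : Set (Fin m))) (x := k) (by simp [T]) h
  have hQo : ∀ k j, j ≠ k → Q k (v j) = 0 := by
    intro k j hj
    rw [PW_eq_zero]
    exact Submodule.subset_span ⟨j, by simp [T, hj], rfl⟩
  have hQ : ∀ k x, PW (WT (p := p) v Finset.univ) x =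
      Q k x ^ p - Q k (v k) ^ (p - 1) * Q k x := by
    intro k x
    have h1 := PW_insert v hv k (T k) (by simp [T]) x
    have h2 : insert k (T k) = Finset.univ := Finset.insert_erase (Finset.mem_univ k)
    rw [PW_congr _ (WT (p := p) v Finset.univ) (by rw [h2])] at h1
    exact h1
  -- smallness
  have hsm : ∀ k, ∃ c : B, c ≠ 0 ∧ ∀ b : B, ∃ μ ∈ maximalIdeal B,
      Q k (algebraMap B F (c * b)) = Q k (v k) * algebraMap B F μ := fun k =>
    PW_small v hv B hB (T k) _ (hQv k)
  choose c hc0 hc using hsm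
  have hcprod : algebraMap B F (∏ k, c k) ≠ 0 := by
    rw [Ne, map_eq_zero_iff _ hinj]
    exact Finset.prod_ne_zero_iff.2 fun k _ => hc0 k
  -- the points
  have hpt : ∀ s : Set (Fin m), ∃ w : F, (∀ k, ∃ μ ∈ maximalIdeal B,
      Q k w = Q k (v k) * algebraMap B F μ) ∧
      ∀ k, (k ∈ s → Q k w / Q k (v k) ∈ U) ∧ (k ∉ s → Q k w / Q k (v k) ∉ U) := by
    intro s
    let u : F := ∑ j ∈ Finset.univ.filter (fun j => j ∉ s), v j
    have hu : ∀ k, Q k u = if k ∈ s then 0 else Q k (v k) := by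
      intro k
      let φ : F →+ F := AddMonoidHom.mk' (Q k) (hQadd k)
      have h1 : φ u = ∑ j ∈ Finset.univ.filter (fun j => j ∉ s), φ (v j) := map_sum φ _ _
      have h2 : Q k u = ∑ j ∈ Finset.univ.filter (fun j => j ∉ s), Q k (v j) := h1
      rw [h2]
      split_ifs with hks
      · refine Finset.sum_eq_zero fun j hj => hQo k j ?_
        rintro rfl
        exact (Finset.mem_filter.1 hj).2 hks
      · refine Finset.sum_eq_single_of_mem k (by simp [hks]) fun j _ hj => hQo k j hj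
    let O : Set F := {w | ∀ k, (k ∈ s → Q k w / Q k (v k) ∈ U) ∧
      (k ∉ s → Q k w / Q k (v k) ∉ U)}
    have hO : O ∈ 𝓝 u := by
      have : O = ⋂ k, {w | (k ∈ s → Q k w / Q k (v k) ∈ U) ∧
          (k ∉ s → Q k w / Q k (v k) ∉ U)} := by
        ext w
        simp [O]
      rw [this, Filter.iInter_mem]
      intro k
      have hcont : Continuous fun w => Q k w / Q k (v k) :=
        (continuous_PW _).div_const _
      by_cases hks : k ∈ s
      · have h1 : (fun w => Q k w / Q k (v k)) ⁻¹' U ∈ 𝓝 u := by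
          apply hcont.continuousAt
          change U ∈ 𝓝 (Q k u / Q k (v k))
          rw [hu, if_pos hks, zero_div]
          exact hU0
        refine Filter.mem_of_superset h1 fun w hw => ⟨fun _ => hw, fun h => absurd hks h⟩
      · have h1 : (fun w => Q k w / Q k (v k)) ⁻¹' Uᶜ ∈ 𝓝 u := by
          apply hcont.continuousAt
          change Uᶜ ∈ 𝓝 (Q k u / Q k (v k))
          rw [hu, if_neg hks, div_self (hQv k)]
          exact hU1
        refine Filter.mem_of_superset h1 fun w hw => ⟨fun h => absurd h hks, fun _ => hw⟩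
    obtain ⟨O', hO'O, hO'open, huO'⟩ := mem_nhds_iff.1 hO
    obtain ⟨_, ⟨b, rfl⟩, hb⟩ := hInd 0 (algebraMap B F (∏ k, c k)) hcprod O' hO'open ⟨u, huO'⟩
    refine ⟨0 + algebraMap B F (∏ k, c k) * algebraMap B F b, fun k => ?_, hO'O hb⟩
    obtain ⟨μ, hμ, hμe⟩ := hc k ((∏ j ∈ Finset.univ.erase k, c j) * b)
    refine ⟨μ, hμ, ?_⟩
    rw [← hμe, zero_add, ← map_mul]
    congr 2
    rw [← Finset.mul_prod_erase Finset.univ c (Finset.mem_univ k)]
    ring
  choose w hw1 hw2 using hpt
  refine ⟨fun k => (Q k (v k) ^ p)⁻¹, fun s => PW (WT (p := p) v Finset.univ) (w s),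
    fun k s => ?_⟩
  obtain ⟨μ, hμ, hμe⟩ := hw1 s k
  have hy : Q k (w s) / Q k (v k) = algebraMap B F μ := by
    rw [hμe, mul_div_cancel_left₀ _ (hQv k)]
  have heq : (algebraMap B F μ) ^ p - algebraMap B F μ =
      (Q k (v k) ^ p)⁻¹ * PW (WT (p := p) v Finset.univ) (w s) := by
    rw [hQ k, hμe]
    have h4 : (Q k (v k)) ^ p = (Q k (v k)) ^ (p - 1) * Q k (v k) := by
      rw [← pow_succ]
      congr 1
      have := hp.out.pos
      omega
    have h5 : Q k (v k) ^ p ≠ 0 := pow_ne_zero _ (hQv k)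
    have h6 : (Q k (v k) * algebraMap B F μ) ^ p -
        Q k (v k) ^ (p - 1) * (Q k (v k) * algebraMap B F μ) =
        Q k (v k) ^ p * (algebraMap B F μ ^ p - algebraMap B F μ) := by
      rw [mul_pow, ← mul_assoc, ← h4]
      ring
    rw [h6, ← mul_assoc, inv_mul_cancel₀ h5, one_mul]
  constructor
  · rintro ⟨y, hy1, ⟨ν, hν, rfl⟩, hyU⟩
    by_contra hks
    have hne := (hw2 s k).2 hks
    rw [hy] at hne
    apply hne
    have h7 : (algebraMap B F (ν - μ)) ^ p = algebraMap B F (ν - μ) := by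
      rw [map_sub, sub_pow_char]
      have := hy1.trans heq.symm
      linear_combination this
    have h8 : (ν - μ) ^ p = ν - μ := hinj (by rw [map_pow]; exact h7)
    have h9 : ν - μ ∈ maximalIdeal B := Ideal.sub_mem _ hν hμ
    have h10 : ν - μ = 0 := by
      by_contra hne0
      have h11 : (ν - μ) ^ (p - 1) * (ν - μ) = 1 * (ν - μ) := by
        rw [← pow_succ, one_mul]
        have : p - 1 + 1 = p := by
          have := hp.out.pos
          omega
        rw [this, h8]
      have h12 : (ν - μ) ^ (p - 1) = 1 := mul_right_cancel₀ hne0 h11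
      have h13 : (ν - μ) ^ (p - 1) ∈ maximalIdeal B :=
        Ideal.pow_mem_of_mem _ h9 _ (by have := hp.out.one_lt; omega)
      rw [h12] at h13
      exact (Ideal.ne_top_iff_one _).1 (maximalIdeal.isMaximal B).ne_top h13
    rw [sub_eq_zero] at h10
    rwa [← h10]
  · intro hks
    refine ⟨algebraMap B F μ, heq, ⟨μ, hμ, rfl⟩, ?_⟩
    rw [← hy]
    exact (hw2 s k).1 hks

end Pool.Agent.Lib.MP958bd4
end

section
/-!
# [NAK] a root close to an approximate simple root is in the local domain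
-/
set_option autoImplicit false

universe u

namespace Pool.Agent.Lib.MP958bd4

open Polynomial IsLocalRing

theorem specNAK : SpecNAK.{u} := by
  intro B F _ _ _ _ _ _ g b α N u hg hgb hu hα hum hN
  set φ := algebraMap B F with hφ
  have hinj : Function.Injective φ := IsFractionRing.injective B F
  -- the ring `B[α]`
  set S : Subalgebra B F := Algebra.adjoin B {α} with hS
  have hint : IsIntegral B α := ⟨g, hg, by rw [← aeval_def]; exact hα⟩
  have hfg : (Subalgebra.toSubmodule S).FG := hint.fg_adjoin_singleton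
  have hαS : α ∈ S := Algebra.self_mem_adjoin_singleton B α
  have hbS : ∀ c : B, φ c ∈ S := fun c => S.algebraMap_mem c
  have haS : ∀ p : B[X], aeval α p ∈ S := fun p => aeval_mem_adjoin_singleton B α
  set I : Submodule B F := maximalIdeal B • Subalgebra.toSubmodule S with hI
  have hImul : ∀ x ∈ I, ∀ s ∈ S, x * s ∈ I := by
    intro x hx s hs
    refine Submodule.smul_induction_on hx ?_ ?_
    · intro r hr n hn
      rw [Algebra.smul_mul_assoc]
      exact Submodule.smul_mem_smul hr (S.mul_mem hn hs)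
    · intro x y hx hy
      rw [add_mul]
      exact I.add_mem hx hy
  have hIm : ∀ c ∈ maximalIdeal B, φ c ∈ I := by
    intro c hc
    have : φ c = c • (1 : F) := by rw [Algebra.smul_def, mul_one]
    rw [this]
    exact Submodule.smul_mem_smul hc S.one_mem
  -- the expansion of `g`
  obtain ⟨h, hh⟩ := X_sub_C_dvd_sub_C_eval (a := b) (p := g)
  obtain ⟨k, hk⟩ := X_sub_C_dvd_sub_C_eval (a := b) (p := h)
  have hgh : g = (X - C b) * h + C (g.eval b) := by rw [← hh]; ring
  have hhk : h = (X - C b) * k + C (h.eval b) := by rw [← hk]; ring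
  have hder : g.derivative.eval b = h.eval b := by
    rw [hgh]
    simp
  set w : F := α - φ b with hw
  have hwS : w ∈ S := S.sub_mem hαS (hbS b)
  have e1 : 0 = w * aeval α h + φ (g.eval b) := by
    have := congrArg (aeval α) hgh
    rw [hα] at this
    simpa using this
  have e2 : aeval α h = w * aeval α k + φ (h.eval b) := by
    have := congrArg (aeval α) hhk
    simpa using this
  obtain ⟨v, hv⟩ := hu
  have hvv : φ ((v⁻¹ : Bˣ) : B) * φ (h.eval b) = 1 := by
    rw [← map_mul, ← hder, ← hv, Units.inv_mul, map_one]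
  have e3 : w = -(φ (g.eval b)) * φ ((v⁻¹ : Bˣ) : B) + -(φ ((v⁻¹ : Bˣ) : B) * aeval α k) * w ^ 2 := by
    rw [e2] at e1
    linear_combination (-φ ((v⁻¹ : Bˣ) : B)) * e1 + (-w) * hvv
  have e4 : ∀ j : ℕ, ∃ i ∈ I, ∃ r ∈ S, w = i + r * w ^ (j + 1) := by
    intro j
    induction j with
    | zero => exact ⟨0, I.zero_mem, 1, S.one_mem, by ring⟩
    | succ j ih =>
      obtain ⟨i, hi, r, hr, hir⟩ := ih
      set i0 : F := -(φ (g.eval b)) * φ ((v⁻¹ : Bˣ) : B) with hi0
      set r0 : F := -(φ ((v⁻¹ : Bˣ) : B) * aeval α k) with hr0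
      have hi0I : i0 ∈ I := by
        rw [hi0, neg_mul, ← mul_neg]
        exact hImul _ (hIm _ hgb) _ (S.neg_mem (hbS _))
      have hr0S : r0 ∈ S := S.neg_mem (S.mul_mem (hbS _) (haS k))
      refine ⟨i0 + i * (r0 * w), I.add_mem hi0I (hImul i hi _ (S.mul_mem hr0S hwS)), r0 * r,
        S.mul_mem hr0S hr, ?_⟩
      calc w = i0 + r0 * w ^ 2 := e3
        _ = i0 + r0 * w * w := by ring
        _ = i0 + r0 * w * (i + r * w ^ (j + 1)) := by rw [← hir]
        _ = i0 + i * (r0 * w) + r0 * r * w ^ (j + 1 + 1) := by ring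
  have hwI : w ∈ I := by
    obtain ⟨i, hi, r, hr, hir⟩ := e4 N
    rw [hir]
    refine I.add_mem hi ?_
    have : r * w ^ (N + 1) = φ u * (r * w) := by
      rw [pow_succ, hN]
      ring
    rw [this]
    exact hImul _ (hIm u hum) _ (S.mul_mem hr hwS)
  have hle : Subalgebra.toSubmodule S ≤ 1 ⊔ maximalIdeal B • Subalgebra.toSubmodule S := by
    intro x hx
    have hx' : x ∈ Algebra.adjoin B {α} := hx
    rw [Algebra.adjoin_singleton_eq_range_aeval] at hx'
    obtain ⟨p, hp⟩ := hx'
    obtain ⟨q, hq⟩ := X_sub_C_dvd_sub_C_eval (a := b) (p := p)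
    have hpq : p = (X - C b) * q + C (p.eval b) := by rw [← hq]; ring
    have e5 : x = φ (p.eval b) + w * aeval α q := by
      have := congrArg (aeval α) hpq
      rw [← hp]
      change aeval α p = _
      rw [this]
      simp
      ring
    rw [e5]
    refine Submodule.add_mem_sup ?_ ?_
    · exact Submodule.mem_one.2 ⟨_, rfl⟩
    · exact hImul w hwI _ (haS q)
  have hfin := Submodule.le_of_le_smul_of_le_jacobson_bot hfg
    (IsLocalRing.maximalIdeal_le_jacobson _) hle
  obtain ⟨c, hc⟩ := Submodule.mem_one.1 (hfin hαS)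
  refine ⟨c, hc, ?_⟩
  have h9 : (c - b) ^ N = u := by
    apply hinj
    rw [map_pow, map_sub, hc]
    exact hN
  exact (inferInstance : (maximalIdeal B).IsPrime).mem_of_pow_mem N (h9 ▸ hum)

end Pool.Agent.Lib.MP958bd4
end

section
/-!
# MP_958bd4_lc: module ZRN (maximal failing primes)
-/
set_option autoImplicit false

universe u

namespace Pool.Agent.Lib.MP958bd4

open Polynomial Topology Filter IsLocalRing

namespace ZRNM

/-- The union of a nonempty chain of primes is prime. -/
theorem sSup_isPrime {C : Type u} [CommRing C] {c : Set (Ideal C)} (hne : c.Nonempty)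
    (hc : IsChain (· ≤ ·) c) (hp : ∀ P ∈ c, P.IsPrime) : (sSup c).IsPrime := by
  have hdir : DirectedOn (· ≤ ·) c := hc.directedOn
  have hmem : ∀ x : C, x ∈ sSup c ↔ ∃ P ∈ c, x ∈ P := fun x =>
    Submodule.mem_sSup_of_directed hne hdir
  refine ⟨?_, ?_⟩
  · rw [Ideal.ne_top_iff_one, hmem]
    rintro ⟨P, hP, h1⟩
    exact (Ideal.ne_top_iff_one P).1 (hp P hP).ne_top h1
  · intro x y hxy
    obtain ⟨P, hP, h1⟩ := (hmem _).1 hxy
    rcases (hp P hP).mem_or_mem h1 with h | h
    · exact Or.inl ((hmem _).2 ⟨P, hP, h⟩)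
    · exact Or.inr ((hmem _).2 ⟨P, hP, h⟩)

theorem rootMod_self {C : Type u} [CommRing C] {g : C[X]} {a : C} {Q : Ideal C} (hQ : Q.IsPrime)
    (h : SimpleAt g a Q) : RootMod g a Q Q := by
  refine ⟨a, 1, fun h1 => (Ideal.ne_top_iff_one Q).1 hQ.ne_top h1, by simp, ?_⟩
  simpa using h.1

end ZRNM

theorem specZRN : SpecZRN.{u} := by
  intro C _ N _ _ g a P Q hP hQ hPQ hs hR
  let S : Set (Ideal C) := {n | n.IsPrime ∧ n ≤ Q ∧ ¬ RootMod g a n Q}
  obtain ⟨n, hPn, hn⟩ := zorn_le_nonempty₀ S (by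
    intro c hcS hc y hy
    refine ⟨sSup c, ⟨ZRNM.sSup_isPrime ⟨y, hy⟩ hc fun P hP => (hcS hP).1,
      sSup_le fun P hP => (hcS hP).2.1, ?_⟩, fun z hz => le_sSup hz⟩
    rintro ⟨b, s, hs1, hs2, hs3⟩
    obtain ⟨P', hP', h1⟩ := (Submodule.mem_sSup_of_directed ⟨y, hy⟩ hc.directedOn).1 hs3
    exact (hcS hP').2.2 ⟨b, s, hs1, hs2, h1⟩) P ⟨hP, hPQ, hR⟩
  refine ⟨n, hn.prop.1, hPn, lt_of_le_of_ne hn.prop.2.1 ?_, hn.prop.2.2, ?_⟩
  · rintro rfl
    exact hn.prop.2.2 (ZRNM.rootMod_self hQ hs)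
  · intro P' hP' hlt hle
    by_contra hcon
    have := hn.le_of_ge (y := P') ⟨hP', hle, hcon⟩ hlt.le
    exact absurd hlt (not_lt_of_ge this)

end Pool.Agent.Lib.MP958bd4
end

section
/-!
# MP_958bd4_lc: module SAT2
-/
set_option autoImplicit false

universe u

namespace Pool.Agent.Lib.MP958bd4

open Polynomial Topology Filter IsLocalRing

namespace SAT2M

/-- Under uniform comparability the primes form a chain. -/
theorem prime_total {C : Type u} [CommRing C] {N : ℕ} (h : UC N C) {P₁ P₂ : Ideal C}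
    (h1 : P₁.IsPrime) (h2 : P₂.IsPrime) : P₁ ≤ P₂ ∨ P₂ ≤ P₁ := by
  by_contra hcon
  push Not at hcon
  obtain ⟨x, hx1, hx2⟩ := SetLike.not_le_iff_exists.1 hcon.1
  obtain ⟨y, hy1, hy2⟩ := SetLike.not_le_iff_exists.1 hcon.2
  rcases h x y with hh | hh
  · obtain ⟨z, hz⟩ := hh
    have : x ^ N ∈ P₂ := hz ▸ P₂.mul_mem_right z hy1
    exact hx2 (h2.mem_of_pow_mem _ this)
  · obtain ⟨z, hz⟩ := hh
    have : y ^ N ∈ P₁ := hz ▸ P₁.mul_mem_right z hx1
    exact hy2 (h1.mem_of_pow_mem _ this)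

theorem dvd_pow {C : Type u} [CommRing C] {N : ℕ} (h : UC N C) {P : Ideal C} (hP : P.IsPrime)
    {p s : C} (hp : p ∈ P) (hs : s ∉ P) : s ∣ p ^ N := by
  rcases h p s with hh | hh
  · exact hh
  · obtain ⟨z, hz⟩ := hh
    have : s ^ N ∈ P := hz ▸ P.mul_mem_right z hp
    exact absurd (hP.mem_of_pow_mem _ this) hs

/-- `q ^ N * y` comes from `C` for `q ∈ Q`, `y` in the localization at `Q`. -/
theorem clear {C : Type u} [CommRing C] {N : ℕ} (h : UC N C) {Q : Ideal C} (hQ : Q.IsPrime)
    (B : Type u) [CommRing B] [Algebra C B] [IsLocalization.AtPrime B Q] {q : C} (hq : q ∈ Q)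
    (y : B) : ∃ c : C, algebraMap C B q ^ N * y = algebraMap C B c := by
  obtain ⟨⟨c', s'⟩, hy⟩ := IsLocalization.surj Q.primeCompl y
  obtain ⟨e, he⟩ := dvd_pow h hQ hq s'.2
  refine ⟨e * c', ?_⟩
  rw [← map_pow, he, map_mul, map_mul, ← hy]
  ring

/-- values of `g.scaleRoots s`. -/
theorem root_eq {C B : Type u} [CommRing C] [CommRing B] (ι : C →+* B) (g : C[X]) (b s : C) (β : B)
    (h : ι s * β = ι b) :
    ι ((g.scaleRoots s).eval b) = ι s ^ g.natDegree * (g.map ι).eval β := by
  rw [← Polynomial.eval₂_at_apply, ← h, Polynomial.scaleRoots_eval₂_mul, Polynomial.eval_map]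

theorem dvd_pow_of_primes {B : Type u} [CommRing B] {x y : B}
    (h : ∀ J : Ideal B, J.IsPrime → x ∈ J → y ∈ J) : ∃ M : ℕ, x ∣ y ^ M := by
  have : y ∈ (Ideal.span {x}).radical := by
    rw [Ideal.radical_eq_sInf, Submodule.mem_sInf]
    rintro J ⟨hJ1, hJ2⟩
    exact h J hJ2 (hJ1 (Ideal.subset_span rfl))
  obtain ⟨M, hM⟩ := Ideal.mem_radical_iff.1 this
  exact ⟨M, Ideal.mem_span_singleton.1 hM⟩

end SAT2M

open SAT2M

theorem specSAT2 (hNEW : SpecNEW.{u}) : SpecSAT2.{u} := by
  intro C _ _ N hN hUC hCS g a Q n hg hQ hn hnQ hs hR hall x hx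
  by_contra hcon
  push Not at hcon
  have hne : n ≠ Q := by
    rintro rfl
    exact hR (ZRNM.rootMod_self hn hs)
  have hlt : n < Q := lt_of_le_of_ne hnQ hne
  have hxQ : x ∈ Q := hcon Q hQ hlt le_rfl
  -- the intersection of the larger primes
  set S : Set (Ideal C) := {P | P.IsPrime ∧ n < P ∧ P ≤ Q} with hS
  have hSne : S.Nonempty := ⟨Q, hQ, hlt, le_rfl⟩
  have hchain : IsChain (· ≤ ·) S := fun P₁ h1 P₂ h2 _ => prime_total hUC h1.1 h2.1
  have hnp : (sInf S).IsPrime := Ideal.sInf_isPrime_of_isChain hSne hchain fun P hP => hP.1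
  have hxnp : x ∈ sInf S := by
    rw [Submodule.mem_sInf]
    rintro P ⟨h1, h2, h3⟩
    exact hcon P h1 h2 h3
  have hnnp : n < sInf S := by
    refine lt_of_le_of_ne (le_sInf fun P hP => hP.2.1.le) ?_
    intro h
    exact hx (h ▸ hxnp)
  have hnpQ : sInf S ≤ Q := sInf_le ⟨hQ, hlt, le_rfl⟩
  -- a prime which contains an element outside `n` is one of them
  have hbig : ∀ P : Ideal C, P.IsPrime → P ≤ Q → ∀ y, y ∈ P → y ∉ n → n < P := by
    intro P hP hPQ y hy1 hy2
    rcases prime_total hUC hP hn with h | h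
    · exact absurd (h hy1) hy2
    · refine lt_of_le_of_ne h ?_
      rintro rfl
      exact hy2 hy1
  obtain ⟨b0, s0, hs0, hb0, hv0⟩ := hall _ hnp hnnp hnpQ
  -- the localization
  have : Q.IsPrime := hQ
  let B := Localization.AtPrime Q
  let ι : C →+* B := algebraMap C B
  have hle : Q.primeCompl ≤ nonZeroDivisors C := by
    intro s hs
    refine mem_nonZeroDivisors_of_ne_zero ?_
    rintro rfl
    exact hs Q.zero_mem
  have : IsDomain B := IsLocalization.isDomain_localization hle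
  have hinj : Function.Injective ι := IsLocalization.injective B hle
  have hm : ∀ y : C, ι y ∈ maximalIdeal B ↔ y ∈ Q := fun y =>
    IsLocalization.AtPrime.to_map_mem_maximal_iff B Q y
  have hunit : ∀ y : C, y ∉ Q → IsUnit (ι y) := fun y hy =>
    (IsLocalization.AtPrime.isUnit_to_map_iff B Q y).2 hy
  have hcomap : ∀ J : Ideal B, J.IsPrime → (J.comap ι).IsPrime ∧ J.comap ι ≤ Q := by
    intro J hJ
    refine ⟨Ideal.comap_isPrime ι J, ?_⟩
    intro y hy
    rw [← hm]
    exact le_maximalIdeal hJ.ne_top hy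
  obtain ⟨u0, hu0⟩ := (hunit s0 hs0).exists_right_inv
  set β0 : B := ι b0 * u0 with hβ0
  have e0 : ι s0 * β0 = ι b0 := by
    rw [hβ0]
    calc ι s0 * (ι b0 * u0) = ι b0 * (ι s0 * u0) := by ring
      _ = ι b0 := by rw [hu0, mul_one]
  have hr0 := root_eq ι g b0 s0 β0 e0
  have hβa : β0 - ι a ∈ maximalIdeal B := by
    have : β0 - ι a = ι (b0 - s0 * a) * u0 := by
      rw [map_sub, map_mul, sub_mul, hβ0]
      congr 1
      calc ι a = ι a * (ι s0 * u0) := by rw [hu0, mul_one]
        _ = ι s0 * ι a * u0 := by ring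
    rw [this]
    exact Ideal.mul_mem_right _ _ ((hm _).2 hb0)
  -- transfer of membership
  have hmemJ : ∀ J : Ideal B, J.IsPrime → ι ((g.scaleRoots s0).eval b0) ∈ J →
      (g.map ι).eval β0 ∈ J := by
    intro J hJ h
    rw [hr0] at h
    rcases hJ.mem_or_mem h with h | h
    · exfalso
      have h1 : ι s0 ∈ J := hJ.mem_of_pow_mem _ h
      exact hJ.ne_top (Ideal.eq_top_of_isUnit_mem _ h1 (hunit s0 hs0))
    · exact h
  have h1 : (g.map ι).eval β0 ∈ maximalIdeal B :=
    hmemJ _ inferInstance ((hm _).2 (hnpQ hv0))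
  have hder : ∀ β : B, β - ι a ∈ maximalIdeal B → IsUnit ((g.map ι).derivative.eval β) := by
    intro β hβ
    by_contra hcon
    have h3 : (g.map ι).derivative.eval β ∈ maximalIdeal B := (mem_maximalIdeal _).2 hcon
    have h4 : (g.map ι).derivative.eval β - (g.map ι).derivative.eval (ι a) ∈ maximalIdeal B := by
      obtain ⟨c, hc⟩ := Polynomial.sub_dvd_eval_sub β (ι a) (g.map ι).derivative
      rw [hc]
      exact Ideal.mul_mem_right _ _ hβ
    have h5 : (g.map ι).derivative.eval (ι a) ∈ maximalIdeal B := by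
      have := Ideal.sub_mem _ h3 h4
      simpa using this
    rw [Polynomial.derivative_map, Polynomial.eval_map, Polynomial.eval₂_at_apply] at h5
    exact hs.2 ((hm _).1 h5)
  obtain ⟨M, hM⟩ : ∃ M : ℕ, ι x ∣ (g.map ι).eval β0 ^ M := by
    refine dvd_pow_of_primes fun J hJ hxJ => ?_
    obtain ⟨hP, hPQ⟩ := hcomap J hJ
    have hlt' := hbig (J.comap ι) hP hPQ x hxJ hx
    have : sInf S ≤ J.comap ι := sInf_le ⟨hP, hlt', hPQ⟩
    exact hmemJ J hJ (this hv0)
  obtain ⟨β1, -, hv1, hd1, hc1, hm1⟩ := hNEW B (g.map ι) β0 h1 (hder β0 hβa) (M * (2 * N + 2))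
  have hx1 : ι x ^ (2 * N + 2) ∣ (g.map ι).eval β1 := by
    refine dvd_trans ?_ hv1
    rw [pow_mul]
    exact pow_dvd_pow_of_dvd hM _
  have hβ1a : β1 - ι a ∈ maximalIdeal B := by
    have := Ideal.add_mem _ hc1 hβa
    simpa using this
  -- the approximations
  have happ : ∀ k : ℕ, ∃ d e : C, (g.map ι).eval (β1 + ι (x * d)) = ι (x ^ k * e) := by
    intro k
    obtain ⟨βk, hk1, hk2, -, -, -⟩ := hNEW B (g.map ι) β1 hm1 hd1 (k + N)
    obtain ⟨y, hy⟩ := dvd_trans hx1 hk1
    obtain ⟨c, hc⟩ := clear hUC hQ B hxQ y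
    have hxk : ι x ^ (k + N) ∣ (g.map ι).eval βk := by
      refine dvd_trans ?_ hk2
      refine pow_dvd_pow_of_dvd (dvd_trans ?_ hx1) _
      exact dvd_pow_self _ (by omega)
    obtain ⟨y', hy'⟩ := hxk
    obtain ⟨e, he⟩ := clear hUC hQ B hxQ y'
    refine ⟨x ^ (N + 1) * c, e, ?_⟩
    have h2 : β1 + ι (x * (x ^ (N + 1) * c)) = βk := by
      have h3 : ι (x * (x ^ (N + 1) * c)) = βk - β1 := by
        rw [hy, map_mul, map_mul, map_pow, ← hc]
        change ι x * (ι x ^ (N + 1) * (ι x ^ N * y)) = _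
        ring
      rw [h3]
      ring
    rw [h2, hy', map_mul, map_pow, ← he]
    change _ = ι x ^ k * (ι x ^ N * y')
    ring
  obtain ⟨⟨c1, s1⟩, hcs⟩ := IsLocalization.surj Q.primeCompl β1
  have hs1 : (s1 : C) ∉ Q := s1.2
  have hcs' : ι (s1 : C) * β1 = ι c1 := by
    rw [mul_comm]
    exact hcs
  have hval : ∀ d : C, ι ((g.scaleRoots (s1 : C)).eval (c1 + s1 * (x * d))) =
      ι (s1 : C) ^ g.natDegree * (g.map ι).eval (β1 + ι (x * d)) := by
    intro d
    refine root_eq ι g _ _ _ ?_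
    rw [mul_add, hcs', map_add, map_mul ι (s1 : C)]
  obtain ⟨d, hd⟩ := hCS ((g.scaleRoots (s1 : C)).comp
    (Polynomial.C c1 + Polynomial.C ((s1 : C) * x) * X)) ((s1 : C) ^ g.natDegree) x (by
      intro k
      obtain ⟨d, e, hde⟩ := happ k
      refine ⟨d, e, ?_⟩
      apply hinj
      rw [Polynomial.eval_comp]
      have : Polynomial.eval d (Polynomial.C c1 + Polynomial.C ((s1 : C) * x) * X) =
          c1 + s1 * (x * d) := by
        simp [mul_assoc]
      rw [this, hval, hde, map_mul ι (_ * _) e, map_mul ι (_ ^ _) (x ^ k), map_pow ι (s1 : C),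
        map_mul ι (x ^ k) e]
      ring)
  have hev : ∀ k : ℕ, (s1 : C) ^ g.natDegree * x ^ k ∣
      (g.scaleRoots (s1 : C)).eval (c1 + s1 * (x * d)) := by
    intro k
    have h2 := hd k
    rw [Polynomial.eval_comp] at h2
    have : Polynomial.eval d (Polynomial.C c1 + Polynomial.C ((s1 : C) * x) * X) =
        c1 + s1 * (x * d) := by
      simp [mul_assoc]
    rwa [this] at h2
  -- the value lies in `n`
  have hwn : (g.scaleRoots (s1 : C)).eval (c1 + s1 * (x * d)) ∈ n := by
    by_contra hw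
    obtain ⟨j, hj⟩ : ∃ j : ℕ, ι ((g.scaleRoots (s1 : C)).eval (c1 + s1 * (x * d))) ∣ ι x ^ j := by
      refine dvd_pow_of_primes fun J hJ hwJ => ?_
      obtain ⟨hP, hPQ⟩ := hcomap J hJ
      exact hcon (J.comap ι) hP (hbig (J.comap ι) hP hPQ _ hwJ hw) hPQ
    have h2 : ι x ^ (j + 1) ∣ ι x ^ j := by
      refine dvd_trans ?_ hj
      rw [← map_pow]
      exact map_dvd ι (dvd_trans (Dvd.intro_left _ rfl) (hev (j + 1)))
    have hx0 : ι x ≠ 0 := by
      intro h
      have : x = 0 := hinj (by rw [h, map_zero])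
      exact hx (this ▸ n.zero_mem)
    obtain ⟨c, hc⟩ := h2
    have h3 : (1 : B) = ι x * c := by
      have h4 : ι x ^ j * 1 = ι x ^ j * (ι x * c) := by
        rw [mul_one]
        calc ι x ^ j = ι x ^ (j + 1) * c := hc
          _ = ι x ^ j * (ι x * c) := by ring
      exact mul_left_cancel₀ (pow_ne_zero j hx0) h4
    have h5 : IsUnit (ι x) := IsUnit.of_mul_eq_one c h3.symm
    exact (mem_maximalIdeal _).1 ((hm x).2 hxQ) h5
  refine hR ⟨c1 + s1 * (x * d), s1, hs1, ?_, hwn⟩
  have h6 : c1 - s1 * a ∈ Q := by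
    rw [← hm, map_sub, map_mul, ← hcs', ← mul_sub]
    exact Ideal.mul_mem_left _ _ hβ1a
  have h7 : c1 + s1 * (x * d) - s1 * a = (c1 - s1 * a) + x * (s1 * d) := by ring
  rw [h7]
  exact Q.add_mem h6 (Q.mul_mem_right _ hxQ)

end Pool.Agent.Lib.MP958bd4
end
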