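import Pool.Agent.Lib.MP_958bd4_lc.Defs

/-!
# MP_958bd4_lc: Specs, commutative algebra (sections 3, 5, 6 of the text)
-/

set_option autoImplicit false

universe u

namespace Pool.Agent.Lib.MP958bd4

open Polynomial Topology Filter IsLocalRing

/-- [NAK] -/
def SpecNAK : Prop := ∀ (B F : Type u) [CommRing B] [IsDomain B] [IsLocalRing B] [Field F]
  [Algebra B F] [IsFractionRing B F] (g : B[X]) (b : B) (α : F) (N : ℕ) (u : B), g.Monic →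
  g.eval b ∈ maximalIdeal B → IsUnit (g.derivative.eval b) → aeval α g = 0 →
  u ∈ maximalIdeal B → (α - algebraMap B F b) ^ N = algebraMap B F u →
  ∃ c : B, algebraMap B F c = α ∧ c - b ∈ maximalIdeal B

/-- [NEW] Newton's method in a local ring. -/
def SpecNEW : Prop := ∀ (B : Type u) [CommRing B] [IsLocalRing B] (g : B[X]) (b : B),
  g.eval b ∈ maximalIdeal B → IsUnit (g.derivative.eval b) → ∀ k : ℕ,
  ∃ b' : B, g.eval b ∣ b' - b ∧ g.eval b ^ k ∣ g.eval b' ∧ IsUnit (g.derivative.eval b') ∧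
    b' - b ∈ maximalIdeal B ∧ g.eval b' ∈ maximalIdeal B

/-- [LOC] dictionary: the local ring at `Q` modulo the kernel of `φ : C → F`. -/
def SpecLOC : Prop := ∀ (C F : Type u) [CommRing C] [Field F] (φ : C →+* F), IsFrac φ →
  ∀ (Q : Ideal C), Q.IsPrime → RingHom.ker φ ≤ Q →
  ∃ B : Subring F, (∀ y, y ∈ B ↔ y ∈ locSet φ Q) ∧ IsFractionRing B F ∧
    ∃ (_ : IsLocalRing B), (∀ y : B, y ∈ maximalIdeal B ↔ (y : F) ∈ locMax φ Q) ∧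
    (IsField B ↔ Q = RingHom.ker φ) ∧ (∀ N, UC N C → UC N B) ∧
    (∀ P : Ideal B, P.IsPrime → ∃ P' : Ideal C, P'.IsPrime ∧ RingHom.ker φ ≤ P' ∧ P' ≤ Q ∧
      (P = ⊥ ↔ P' = RingHom.ker φ) ∧
      ∀ y : B, y ∈ P ↔ ∃ a s : C, a ∈ P' ∧ s ∉ Q ∧ (y : F) * φ s = φ a) ∧
    (∀ P' : Ideal C, P'.IsPrime → RingHom.ker φ ≤ P' → P' ≤ Q → ∃ P : Ideal B, P.IsPrime ∧
      (P = ⊥ ↔ P' = RingHom.ker φ) ∧
      (∀ y : B, y ∈ P ↔ ∃ a s : C, a ∈ P' ∧ s ∉ Q ∧ (y : F) * φ s = φ a) ∧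
      ∀ (y : B) (c : C), (y : F) = φ c → (y ∈ P ↔ c ∈ P'))

/-- [SPLl] local form. -/
def SpecSPLl : Prop := ∀ (B F : Type u) [CommRing B] [IsDomain B] [IsLocalRing B] [Field F]
  [Algebra B F] [IsFractionRing B F] (N : ℕ), 0 < N → UC N B →
  (∀ x : B, x ≠ 0 → ∃ P : Ideal B, P.IsPrime ∧ P ≠ ⊥ ∧ x ∉ P) →
  ∀ (g : B[X]) (a : B), g.Monic → g.eval a ∈ maximalIdeal B → IsUnit (g.derivative.eval a) →
  (∀ P : Ideal B, P.IsPrime → P ≠ ⊥ → ∃ b : B, b - a ∈ maximalIdeal B ∧ g.eval b ∈ P) →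
  (∀ k : F[X], k.Monic → Irreducible k → k ∣ g.map (algebraMap B F) →
    k.natDegree = 1 ∨ k.derivative = 0) →
  ∃ b : B, b - a ∈ maximalIdeal B ∧ g.eval b = 0

/-- [BDDl] local form. -/
def SpecBDDl : Prop := ∀ (B F : Type u) [CommRing B] [IsDomain B] [IsLocalRing B] [Field F]
  [Algebra B F] [IsFractionRing B F] (N : ℕ), 0 < N → UC N B →
  (∀ x : B, x ≠ 0 → ∃ P : Ideal B, P.IsPrime ∧ P ≠ ⊥ ∧ x ∉ P) →
  ∀ [TopologicalSpace F] [TopField F], THens F → Bdd (Set.range (algebraMap B F)) →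
  ∀ (g : B[X]) (a : B), g.Monic → g.eval a ∈ maximalIdeal B → IsUnit (g.derivative.eval a) →
  (∀ P : Ideal B, P.IsPrime → P ≠ ⊥ → ∃ b : B, b - a ∈ maximalIdeal B ∧ g.eval b ∈ P) →
  ∃ b : B, b - a ∈ maximalIdeal B ∧ g.eval b = 0

/-- [SPL] unlocalized form (from SPLl and LOC). -/
def SpecSPL : Prop := ∀ (C F : Type u) [CommRing C] [Field F] (φ : C →+* F), IsFrac φ →
  ∀ (N : ℕ), 0 < N → UC N C → ∀ Q : Ideal C, Q.IsPrime → RingHom.ker φ ≤ Q →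
  (∀ x, x ∉ RingHom.ker φ → ∃ P : Ideal C, P.IsPrime ∧ RingHom.ker φ < P ∧ P ≤ Q ∧ x ∉ P) →
  ∀ (g : C[X]) (a : C), g.Monic → SimpleAt g a Q →
  (∀ P : Ideal C, P.IsPrime → RingHom.ker φ < P → P ≤ Q → RootMod g a P Q) →
  (∀ k : F[X], k.Monic → Irreducible k → k ∣ g.map φ → k.natDegree = 1 ∨ k.derivative = 0) →
  RootMod g a (RingHom.ker φ) Q

/-- [BDD] unlocalized form (from BDDl and LOC). -/
def SpecBDD : Prop := ∀ (C F : Type u) [CommRing C] [Field F] (φ : C →+* F), IsFrac φ →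
  ∀ (N : ℕ), 0 < N → UC N C → ∀ Q : Ideal C, Q.IsPrime → RingHom.ker φ ≤ Q →
  (∀ x, x ∉ RingHom.ker φ → ∃ P : Ideal C, P.IsPrime ∧ RingHom.ker φ < P ∧ P ≤ Q ∧ x ∉ P) →
  ∀ [TopologicalSpace F] [TopField F], THens F → Bdd (locSet φ Q) →
  ∀ (g : C[X]) (a : C), g.Monic → SimpleAt g a Q →
  (∀ P : Ideal C, P.IsPrime → RingHom.ker φ < P → P ≤ Q → RootMod g a P Q) →
  RootMod g a (RingHom.ker φ) Q

/-- [ZRN] maximal failing primes. -/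
def SpecZRN : Prop := ∀ (C : Type u) [CommRing C] (N : ℕ), 0 < N → UC N C →
  ∀ (g : C[X]) (a : C) (P Q : Ideal C), P.IsPrime → Q.IsPrime → P ≤ Q → SimpleAt g a Q →
  ¬ RootMod g a P Q → ∃ n : Ideal C, n.IsPrime ∧ P ≤ n ∧ n < Q ∧ ¬ RootMod g a n Q ∧
    ∀ P' : Ideal C, P'.IsPrime → n < P' → P' ≤ Q → RootMod g a P' Q

/-- [SAT2] -/
def SpecSAT2 : Prop := ∀ (C : Type u) [CommRing C] [IsDomain C] (N : ℕ), 0 < N →
  UC N C → CSat C → ∀ (g : C[X]) (a : C) (Q n : Ideal C), g.Monic → Q.IsPrime → n.IsPrime →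
  n ≤ Q → SimpleAt g a Q → ¬ RootMod g a n Q →
  (∀ P : Ideal C, P.IsPrime → n < P → P ≤ Q → RootMod g a P Q) →
  ∀ x, x ∉ n → ∃ P : Ideal C, P.IsPrime ∧ n < P ∧ P ≤ Q ∧ x ∉ P

/-- [CBD] boundedness of `C_Q / n` and of `C / n`. -/
def SpecCBD : Prop := ∀ (C F : Type u) [CommRing C] [Field F] (φ : C →+* F), IsFrac φ →
  ∀ (N : ℕ), 0 < N → UC N C → ∀ Q : Ideal C, Q.IsPrime → RingHom.ker φ < Q →
  ∀ [TopologicalSpace F] [TopField F], Bdd (Set.range φ) → Bdd (locSet φ Q)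

/-- [SCALE] -/
def SpecSCALE : Prop := ∀ (C F : Type u) [CommRing C] [Field F] (φ : C →+* F), IsFrac φ →
  ∀ (Q : Ideal C), Q.IsPrime → RingHom.ker φ ≤ Q → ∀ n : ℕ, LS n φ Q →
  ∀ (B : Subring F) [IsLocalRing B], (∀ y, y ∈ B ↔ y ∈ locSet φ Q) →
    (∀ y : B, y ∈ maximalIdeal B ↔ (y : F) ∈ locMax φ Q) → LiftSplit n B F

/-- [IPP] characteristic `p`. -/
def SpecIPP : Prop := ∀ (p m : ℕ) [Fact p.Prime] (B F : Type u) [CommRing B] [IsDomain B]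
  [IsLocalRing B] [Field F] [Algebra B F] [IsFractionRing B F] [CharP F p]
  [TopologicalSpace F] [TopField F], ¬ IsField B → IndepSet (Set.range (algebraMap B F)) →
  ∀ U : Set F, U ∈ 𝓝 (0 : F) → Uᶜ ∈ 𝓝 (1 : F) →
  ∃ (a : Fin m → F) (x : Set (Fin m) → F), ∀ k s,
    (∃ y : F, y ^ p - y = a k * x s ∧ (∃ c ∈ maximalIdeal B, algebraMap B F c = y) ∧ y ∈ U) ↔ k ∈ s

/-- [LEMA] characteristic `0`. -/
def SpecLEMA : Prop := ∀ m : ℕ, ∃ n : ℕ, ∀ (B F : Type u) [CommRing B] [IsDomain B]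
  [IsLocalRing B] [Field F] [Algebra B F] [IsFractionRing B F] [CharZero F]
  [TopologicalSpace F] [TopField F], THens F → ¬ IsField B →
  IndepSet (Set.range (algebraMap B F)) → LiftSplit n B F →
  ∀ U : Set F, U ∈ 𝓝 (0 : F) → Uᶜ ∈ 𝓝 (1 : F) →
  ∃ (a : Fin m → F) (x : Set (Fin m) → F), ∀ k s,
    (∃ y : F, y ^ 2 - y = a k * x s ∧ (∃ c ∈ maximalIdeal B, algebraMap B F c = y) ∧ y ∈ U) ↔ k ∈ s

/-- [UNI] -/
def SpecUNI : Prop := ∀ (C F : Type u) [CommRing C] [Field F] (φ : C →+* F), IsFrac φ →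
  CharZero F → ∀ (S : DefSys F), S.IsRing → S.Def₁ (Set.range φ) →
  ∀ [TopologicalSpace F] [TopField F], THens F → IndepSet (Set.range φ) →
  ∀ U : Set F, S.Def₁ U → U ∈ 𝓝 (0 : F) → Uᶜ ∈ 𝓝 (1 : F) →
  ∃ n : ℕ, ∀ Q : Ideal C, Q.IsPrime → RingHom.ker φ < Q → ¬ LS n φ Q

/-- [T1] -/
def SpecT1 : Prop := ∀ (C : Type u) [CommRing C] [IsDomain C] (N D k : ℕ), 0 < N → 2 ≤ D → UC N C →
  ∀ p : Fin k → Ideal C, StrictMono p → (∀ i, GoodPrime D (p i)) →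
  ∃ (a : Set (Fin k) → Fin D → C) (t w : Fin k → C), ∀ i s,
    (∃ ε : C, w i ∣ ε ^ D + ∑ j : Fin D, a s j * t i ^ (D - (j : ℕ)) * ε ^ (j : ℕ)) ↔ i ∈ s

/-- [T1N] consequence of T1 and NIP: no long chains of good primes. -/
def SpecT1N : Prop := ∀ (C : Type u) [CommRing C] [IsDomain C] (N D : ℕ), 0 < N → 2 ≤ D → UC N C →
  NipLoc C → ∃ k : ℕ, ∀ p : Fin k → Ideal C, StrictMono p → ¬ ∀ i, GoodPrime D (p i)

/-- [STEP] -/
def SpecSTEP : Prop := ShelahConjecture.{u} → ∀ (C : Type u) [CommRing C] [IsDomain C]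
  [IsLocalRing C] (N : ℕ), 0 < N → UC N C → CSat C → NipLoc C →
  ∀ (F : Type u) [Field F] (φ : C →+* F), IsFrac φ → ∀ n₀ : ℕ,
  (∀ Q : Ideal C, Q.IsPrime → RingHom.ker φ < Q → ¬ LS n₀ φ Q) →
  ∀ Q : Ideal C, Q.IsPrime → RingHom.ker φ < Q → (∀ j : ℕ, j ≠ 0 → (j : C) ∉ Q) →
  ∃ (n : Ideal C) (D : ℕ), RingHom.ker φ < n ∧ n < Q ∧ 2 ≤ D ∧ D ≤ n₀ ∧ GoodPrime D n

/-- [CHN] no infinite chains: the situation of STEP is impossible. -/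
def SpecCHN : Prop := ShelahConjecture.{u} → ∀ (C : Type u) [CommRing C] [IsDomain C]
  [IsLocalRing C] (N : ℕ), 0 < N → UC N C → CSat C → NipLoc C →
  ∀ (F : Type u) [Field F] [CharZero F] (φ : C →+* F), IsFrac φ →
  (∀ x, x ∉ RingHom.ker φ → ∃ P : Ideal C, P.IsPrime ∧ RingHom.ker φ < P ∧ x ∉ P) →
  ∀ n₀ : ℕ, ∃ Q : Ideal C, Q.IsPrime ∧ RingHom.ker φ < Q ∧ LS n₀ φ Q

/-- [XP] Theorem X'. -/
def SpecXP : Prop := ShelahConjecture.{u} → ∀ (C : Type u) [CommRing C] [IsDomain C]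
  [IsLocalRing C] (N : ℕ), 0 < N → UC N C → CSat C → NipLoc C → HenselianLocalRing C

/-- [X] Theorem X (from XP and ULT). -/
def SpecX : Prop := ShelahConjecture.{u} → ∀ (A : Type u) [CommRing A] [IsDomain A], NIPRing A →
  ∀ (q : Ideal A) [q.IsPrime] (N : ℕ), 0 < N → UC N (Localization.AtPrime q) →
  HenselianLocalRing (Localization.AtPrime q)

/-- [PAIR] -/
def SpecPAIR : Prop := ShelahConjecture.{u} → ∀ (A : Type u) [CommRing A] [IsDomain A],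
  NIPRing A → ∀ (p₁ p₂ : Ideal A) [p₁.IsPrime] [p₂.IsPrime], ¬ p₁ ≤ p₂ → ¬ p₂ ≤ p₁ →
  (∀ P : Ideal A, P.IsPrime → P ≤ p₁ → P ≤ p₂ → P = ⊥) →
  ∀ N : ℕ, 0 < N → UC N (Localization.AtPrime p₁) → UC N (Localization.AtPrime p₂) → False

/-- [NOW2] -/
def SpecNOW2 : Prop := ShelahConjecture.{u} → ∀ (A : Type u) [CommRing A] [IsDomain A],
  NIPRing A → ∀ q : Ideal A, q.IsPrime → ¬ Wr 2 q

/-- [FIN] -/
def SpecFIN : Prop := ShelahConjecture.{u} → GeneralizedHenselianityConjecture.{u}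

end Pool.Agent.Lib.MP958bd4
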