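import Pool.Agent.Lib.MP_958bd4_lc.Defs

/-!
# MP_958bd4_lc: Specs, model theory (section 1 of the text) and ultrapowers

Text with a proof of every module: `/team-store/MP_958bd4_lc_PROOF.md`.
-/

set_option autoImplicit false

universe u

namespace Pool.Agent.Lib.MP958bd4

open Polynomial Topology Filter
open scoped FirstOrder

/-- [NIPEQ] the two forms of NIP agree (finite `α`, `β` reduce to `Fin n`, `Fin m`). -/
def SpecNIPEQ : Prop := ∀ (R : Type u) [CommRing R], IsNIPRing R ↔ NIPRing R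

/-! #### Externally definable sets -/

/-- [EXT] closure properties of externally definable sets. -/
def SpecEXT : Prop := ∀ (L : FirstOrder.Language.{0, 0}) (M : Type u) [L.Structure M] [Nonempty M],
  (∀ (α : Type) [Finite α] (s : Set (α → M)), ExtDef L M s → ExtDef L M sᶜ) ∧
  (∀ (α : Type) [Finite α] (s t : Set (α → M)), ExtDef L M s → ExtDef L M t →
    ExtDef L M (s ∩ t)) ∧
  (∀ (α β : Type) [Finite α] [Finite β] (f : α → β) (s : Set (α → M)), ExtDef L M s →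
    ExtDef L M {x : β → M | x ∘ f ∈ s}) ∧
  (∀ (α : Type) [Finite α] (s : Set (α → M)), (Set.univ : Set M).Definable L s →
    ExtDef L M s) ∧
  (NIPf L M → ∀ (α β : Type) [Finite α] [Finite β] (s : Set (α ⊕ β → M)), ExtDef L M s →
    ∃ n, ¬ Shatters (fun (x : α → M) (y : β → M) => Sum.elim x y ∈ s) n)

/-- An extension of `(M, A)`; `φ` is a formula approximating `A`. -/
structure Extn (L : FirstOrder.Language.{0, 0}) {M : Type u} [L.Structure M] {α γ : Type}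
    (A : Set (α → M)) (φ : L.Formula (α ⊕ γ)) where
  N : Type u
  str : L.Structure N
  ι : M ↪ₑ[L] N
  AN : Set (α → N)
  e2 : ∀ (β : Type) [Finite β] (θ : L.Formula (α ⊕ β)) (Y0 : Set (α → M)), Y0.Finite →
    (∃ d : β → N, (∀ y ∈ Y0, θ.Realize (Sum.elim (ι ∘ y) d)) ∧
      ∀ y, θ.Realize (Sum.elim y d) → y ∈ AN) →
    ∃ d : β → M, (∀ y ∈ Y0, θ.Realize (Sum.elim y d)) ∧ ∀ y, θ.Realize (Sum.elim y d) → y ∈ A
  e3 : ∀ Y0 : Set (α → N), Y0.Finite → ∃ d : γ → N, ∀ y ∈ Y0, y ∈ AN ↔ φ.Realize (Sum.elim y d)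
  e4 : ∀ y : α → M, ι ∘ y ∈ AN ↔ y ∈ A

/-- The ideal of the sets `Y ⊆ A` whose finite subsets are inside definable subsets of `A`
from one family. -/
def HIdeal (L : FirstOrder.Language.{0, 0}) {M : Type u} [L.Structure M] {α : Type}
    (A Y : Set (α → M)) : Prop :=
  Y ⊆ A ∧ ∃ (β : Type) (_ : Finite β) (θ : L.Formula (α ⊕ β)), ∀ Y0 : Set (α → M), Y0.Finite →
    Y0 ⊆ Y → ∃ d : β → M, (∀ y ∈ Y0, θ.Realize (Sum.elim y d)) ∧
      ∀ y, θ.Realize (Sum.elim y d) → y ∈ A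

/-- [HDS] one step. -/
def SpecHDS : Prop := ∀ (L : FirstOrder.Language.{0, 0}) (M : Type u) [L.Structure M] [Nonempty M]
  (α γ : Type) [Finite α] [Finite γ] (A : Set (α → M)) (φ : L.Formula (α ⊕ γ))
  (D : Ultrafilter (α → M)), A ∈ D → (∀ Y ∈ D, ¬ HIdeal L A Y) → ∀ (E : Extn.{u} L A φ) (par : Bool),
  ∃ (E' : Extn.{u} L A φ), letI := E.str; letI := E'.str;
    ∃ (j : E.N ↪ₑ[L] E'.N) (e : α → E'.N),
      (e ∈ E'.AN ↔ par = true) ∧ (∀ x, j (E.ι x) = E'.ι x) ∧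
      (∀ y : α → E.N, j ∘ y ∈ E'.AN ↔ y ∈ E.AN) ∧
      ∀ (β : Type) [Finite β] (χ : L.Formula (α ⊕ β)) (d : β → E.N),
        χ.Realize (Sum.elim e (j ∘ d)) ↔ {a : α → M | χ.Realize (Sum.elim (E.ι ∘ a) d)} ∈ D

/-- The iterated limit along the ultrafilter `D`: the last variable is the outermost. -/
def LimU {X : Type u} (D : Ultrafilter X) : ∀ n : ℕ, Set (Fin n → X) → Prop
  | 0, S => (Fin.elim0 : Fin 0 → X) ∈ S
  | n + 1, S => {a : X | LimU D n {x | Fin.snoc (α := fun _ => X) x a ∈ S}} ∈ D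

/-- [HDL] iteration. -/
def SpecHDL : Prop := ∀ (L : FirstOrder.Language.{0, 0}) (M : Type u) [L.Structure M] [Nonempty M]
  (α γ : Type) [Finite α] [Finite γ] (A : Set (α → M)) (φ : L.Formula (α ⊕ γ))
  (D : Ultrafilter (α → M)), A ∈ D → (∀ Y ∈ D, ¬ HIdeal L A Y) →
  (∀ Y0 : Set (α → M), Y0.Finite → ∃ d : γ → M, ∀ y ∈ Y0, y ∈ A ↔ φ.Realize (Sum.elim y d)) →
  ∀ j : ℕ, ∃ E : Extn.{u} L A φ, letI := E.str; ∃ e : Fin j → α → E.N,
    (∀ i, e i ∈ E.AN ↔ Even i.val) ∧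
    ∀ (n : ℕ) (t : Fin n → Fin j), StrictMono t → ∀ (β : Type) [Finite β]
      (χ : L.Formula ((Fin n × α) ⊕ β)) (b : β → M),
      χ.Realize (Sum.elim (fun p => e (t p.1) p.2) (E.ι ∘ b)) ↔
        LimU D n {x : Fin n → α → M | χ.Realize (Sum.elim (fun p => x p.1 p.2) b)}

/-- [HD] honest definitions. -/
def SpecHD : Prop := ∀ (L : FirstOrder.Language.{0, 0}) (M : Type u) [L.Structure M] [Nonempty M],
  NIPf L M → ∀ (α : Type) [Finite α] (A : Set (α → M)), ExtDef L M A → HIdeal L A A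

/-- [SHE] Shelah's theorem (projection from HD). -/
def SpecSHE : Prop := ∀ (L : FirstOrder.Language.{0, 0}) (M : Type u) [L.Structure M] [Nonempty M],
  NIPf L M → ∃ S : DefSys M, ∀ (α : Type) [Finite α] (s : Set (α → M)), S.Def s ↔ ExtDef L M s

/-- [RSYS] the NIP system of externally definable sets of a NIP ring contains all primes. -/
def SpecRSYS : Prop := ∀ (A : Type u) [CommRing A], NIPRing A →
  ∃ S : DefSys A, S.IsRing ∧ ∀ P : Ideal A, P.IsPrime → S.Def₁ (P : Set A)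

/-! #### NIP systems -/

/-- [DPOLY] preimages under polynomial maps. -/
def SpecDPOLY : Prop := ∀ (R : Type u) [CommRing R] (S : DefSys R), S.IsRing →
  ∀ (α β : Type) [Finite α] [Finite β] (s : Set (β → R)) (p : β → MvPolynomial α R), S.Def s →
    S.Def {x : α → R | (fun j => MvPolynomial.eval x (p j)) ∈ s}

/-- [IND] induced systems on quotients. -/
def SpecIND : Prop := ∀ (M N : Type u) (S : DefSys M) (γ : Type) [Finite γ] (X : Set (γ → M))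
  (π : (γ → M) → N), S.Def X → (∀ y, ∃ x ∈ X, π x = y) →
  S.Def {x : γ ⊕ γ → M | x ∘ Sum.inl ∈ X ∧ x ∘ Sum.inr ∈ X ∧
    π (x ∘ Sum.inl) = π (x ∘ Sum.inr)} →
  ∃ T : DefSys N, ∀ (α : Type) [Finite α] (Y : Set (α → N)),
    T.Def Y ↔ S.Def {x : α × γ → M | (∀ i, (fun j => x (i, j)) ∈ X) ∧
      (fun i => π fun j => x (i, j)) ∈ Y}

/-- [INT] formulas of the language of rings. -/
def SpecINT : Prop := ∀ (R : Type u) [CommRing R] (S : DefSys R), S.IsRing →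
  NIPRing R ∧ ∀ X : Set R, IsDefinable R X → S.Def₁ X

/-- [MTI] NIP systems on residue fields. -/
def SpecMTI : Prop := ∀ (A : Type u) [CommRing A], NIPRing A → ∀ (F : Type u) [Field F]
  (φ : A →+* F), IsFrac φ → ∃ S : DefSys F, S.IsRing ∧ S.Def₁ (Set.range φ) ∧
    ∀ Q : Ideal A, Q.IsPrime → S.Def₁ (φ '' (Q : Set A))

/-- [QNIP] -/
def SpecQNIP : Prop := ∀ (A : Type u) [CommRing A] (P : Ideal A), P.IsPrime → NIPRing A →
  NIPRing (A ⧸ P)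

/-- [UNIP] ultrapowers of NIP rings are NIP. -/
def SpecUNIP : Prop := ∀ (A : Type u) [CommRing A] (U : Ultrafilter ℕ), NIPRing A →
  NIPRing (Filter.Germ (U : Filter ℕ) A)

/-- [NLOC] -/
def SpecNLOC : Prop := ∀ (A C : Type u) [CommRing A] [CommRing C] [IsLocalRing C] (ι : A →+* C),
  NIPRing A → (∀ c : C, ∃ a s : A, IsUnit (ι s) ∧ c * ι s = ι a) → NipLoc C

/-! #### Ultrapowers -/

/-- [ULT] the ultrapower of `A_q`. -/
def SpecULT : Prop := ∀ (A : Type u) [CommRing A] [IsDomain A], NIPRing A →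
  ∀ (q : Ideal A) [q.IsPrime] (N : ℕ), UC N (Localization.AtPrime q) →
  ∃ (C : Type u) (_ : CommRing C) (_ : IsDomain C) (_ : IsLocalRing C), UC N C ∧ CSat C ∧
    NipLoc C ∧ (HenselianLocalRing C → HenselianLocalRing (Localization.AtPrime q))

/-- [WB] -/
def SpecWB : Prop := ∀ (A : Type u) [CommRing A], NIPRing A → ∃ l : ℕ, ∀ q : Ideal A,
  q.IsPrime → ¬ Wr l q

/-- [WM] -/
def SpecWM : Prop := ∀ (A : Type u) [CommRing A] (q : Ideal A), q.IsPrime → ∀ l : ℕ,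
  Wr (l + 1) q → Wr l q

/-- [WUC] -/
def SpecWUC : Prop := ∀ (A : Type u) [CommRing A] [IsDomain A] (q : Ideal A) [q.IsPrime],
  ¬ Wr 2 q → ∃ N : ℕ, 0 < N ∧ UC N (Localization.AtPrime q)

/-- [WSAT] -/
def SpecWSAT : Prop := ∀ (A : Type u) [CommRing A] [IsDomain A], NIPRing A →
  ∀ q : Ideal A, q.IsPrime → Wr 2 q →
  ∃ (A' : Type u) (_ : CommRing A') (_ : IsDomain A') (q' : Ideal A') (z₁ z₂ : A'),
    NIPRing A' ∧ q'.IsPrime ∧ z₁ ∈ q' ∧ z₂ ∈ q' ∧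
    (∀ n : ℕ, ∀ s ∉ q', ¬ z₁ ∣ s * z₂ ^ n ∧ ¬ z₂ ∣ s * z₁ ^ n) ∧ ∀ l : ℕ, Wr l q' → Wr l q

/-- [WRED] -/
def SpecWRED : Prop := ∀ (A : Type u) [CommRing A] [IsDomain A] (q : Ideal A) (z₁ z₂ : A),
  q.IsPrime → z₁ ∈ q → z₂ ∈ q → (∀ n : ℕ, ∀ s ∉ q, ¬ z₁ ∣ s * z₂ ^ n ∧ ¬ z₂ ∣ s * z₁ ^ n) →
  ∀ l : ℕ, 2 ≤ l → ¬ Wr (l + 1) q →
  ∃ r p₁ p₂ : Ideal A, r.IsPrime ∧ p₁.IsPrime ∧ p₂.IsPrime ∧ r ≤ p₁ ∧ r ≤ p₂ ∧
    ¬ p₁ ≤ p₂ ∧ ¬ p₂ ≤ p₁ ∧ (∀ P : Ideal A, P.IsPrime → r ≤ P → P ≤ p₁ → P ≤ p₂ → P = r) ∧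
    ¬ Wr l (p₁.map (Ideal.Quotient.mk r)) ∧ ¬ Wr l (p₂.map (Ideal.Quotient.mk r))

end Pool.Agent.Lib.MP958bd4
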