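import Pool.Agent.Lib.MP_958bd4_lc.Defs
import Pool.Agent.Lib.MP_958bd4_lc.SpecM
import Pool.Agent.Lib.MP_958bd4_lc.SpecT
import Pool.Agent.Lib.MP_958bd4_lc.SpecA

section
/-!
# MP_958bd4_lc: closure properties of NIP systems
-/
set_option autoImplicit false

universe u

namespace Pool.Agent.Lib.MP958bd4

namespace DefSys

variable {M : Type u} (S : DefSys M)

theorem cast {α : Type} {s t : Set (α → M)} (h : S.Def s) (e : s = t) : S.Def t := e ▸ h

theorem union {α : Type} [Finite α] {s t : Set (α → M)} (hs : S.Def s) (ht : S.Def t) :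
    S.Def (s ∪ t) := by
  have := S.compl (S.inter (S.compl hs) (S.compl ht))
  rwa [Set.compl_inter, compl_compl, compl_compl] at this

theorem eq_var {α : Type} [Finite α] (i j : α) : S.Def {x : α → M | x i = x j} := by
  have := S.comap (β := α) (fun k : Fin 2 => if k = 0 then i else j) S.diag
  simpa using this

theorem empty {α : Type} [Finite α] : S.Def (∅ : Set (α → M)) := by
  have h1 : S.Def {x : (α ⊕ Fin 1) → M | x (Sum.inr 0) = x (Sum.inr 0)} := S.eq_var _ _
  have h2 := S.proj (S.inter h1 (S.compl h1))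
  refine S.cast h2 ?_
  ext x
  simp

theorem univ {α : Type} [Finite α] : S.Def (Set.univ : Set (α → M)) := by
  have := S.compl (S.empty (α := α))
  rwa [Set.compl_empty] at this

theorem const {α : Type} [Finite α] (p : Prop) : S.Def {_x : α → M | p} := by
  by_cases h : p
  · simpa [h] using S.univ (α := α)
  · simpa [h] using S.empty (α := α)

/-! Closure properties for predicates. -/

theorem and {α : Type} [Finite α] {p q : (α → M) → Prop} (hp : S.Def {x | p x})
    (hq : S.Def {x | q x}) : S.Def {x | p x ∧ q x} := S.inter hp hq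

theorem or {α : Type} [Finite α] {p q : (α → M) → Prop} (hp : S.Def {x | p x})
    (hq : S.Def {x | q x}) : S.Def {x | p x ∨ q x} := S.union hp hq

theorem not {α : Type} [Finite α] {p : (α → M) → Prop} (hp : S.Def {x | p x}) :
    S.Def {x | ¬ p x} := S.compl hp

theorem imp {α : Type} [Finite α] {p q : (α → M) → Prop} (hp : S.Def {x | p x})
    (hq : S.Def {x | q x}) : S.Def {x | p x → q x} := by
  refine S.cast (S.or (S.not hp) hq) ?_
  ext x
  simp [imp_iff_not_or]

theorem iff {α : Type} [Finite α] {p q : (α → M) → Prop} (hp : S.Def {x | p x})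
    (hq : S.Def {x | q x}) : S.Def {x | p x ↔ q x} := by
  refine S.cast (S.and (S.imp hp hq) (S.imp hq hp)) ?_
  ext x
  simp [iff_def]

theorem ex {α β : Type} [Finite α] [Finite β] {p : (α → M) → (β → M) → Prop}
    (hp : S.Def {x : α ⊕ β → M | p (x ∘ Sum.inl) (x ∘ Sum.inr)}) : S.Def {x | ∃ y, p x y} := by
  refine S.cast (S.proj hp) ?_
  ext x
  simp

theorem all {α β : Type} [Finite α] [Finite β] {p : (α → M) → (β → M) → Prop}
    (hp : S.Def {x : α ⊕ β → M | p (x ∘ Sum.inl) (x ∘ Sum.inr)}) : S.Def {x | ∀ y, p x y} := by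
  refine S.cast (S.not (S.ex (p := fun x y => ¬ p x y) (S.not hp))) ?_
  ext x
  simp

/-- one existential quantifier -/
theorem ex₁ {α : Type} [Finite α] {p : (α → M) → M → Prop}
    (hp : S.Def {x : α ⊕ Unit → M | p (x ∘ Sum.inl) (x (Sum.inr ()))}) :
    S.Def {x | ∃ y, p x y} := by
  refine S.cast (S.ex (β := Unit) (p := fun x y => p x (y ())) hp) ?_
  ext x
  constructor
  · rintro ⟨y, hy⟩
    exact ⟨y (), hy⟩
  · rintro ⟨y, hy⟩
    exact ⟨fun _ => y, hy⟩

theorem all₁ {α : Type} [Finite α] {p : (α → M) → M → Prop}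
    (hp : S.Def {x : α ⊕ Unit → M | p (x ∘ Sum.inl) (x (Sum.inr ()))}) :
    S.Def {x | ∀ y, p x y} := by
  refine S.cast (S.not (S.ex₁ (p := fun x y => ¬ p x y) (S.not hp))) ?_
  ext x
  simp

theorem eq_const {α : Type} [Finite α] (i : α) (c : M) : S.Def {x : α → M | x i = c} :=
  S.comap (β := α) (fun _ : Fin 1 => i) (S.sing c)

theorem mem₁ {α : Type} [Finite α] {X : Set M} (hX : S.Def₁ X) (i : α) :
    S.Def {x : α → M | x i ∈ X} :=
  S.comap (β := α) (fun _ : Fin 1 => i) hX

theorem iInter {α ι : Type} [Finite α] [Finite ι] {s : ι → Set (α → M)} (h : ∀ i, S.Def (s i)) :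
    S.Def (⋂ i, s i) := by
  have := Fintype.ofFinite ι
  have key : ∀ t : Finset ι, S.Def (⋂ i ∈ t, s i) := by
    classical
    intro t
    induction t using Finset.induction with
    | empty => simpa using S.univ (α := α)
    | insert a t _ ih =>
      rw [Finset.set_biInter_insert]
      exact S.inter (h a) ih
  simpa using key Finset.univ

theorem iUnion {α ι : Type} [Finite α] [Finite ι] {s : ι → Set (α → M)} (h : ∀ i, S.Def (s i)) :
    S.Def (⋃ i, s i) := by
  have := S.compl (S.iInter fun i => S.compl (h i))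
  rwa [Set.compl_iInter, show (fun i => (s i)ᶜᶜ) = s from funext fun i => compl_compl _] at this

theorem forall_fin {α ι : Type} [Finite α] [Finite ι] {p : ι → (α → M) → Prop}
    (h : ∀ i, S.Def {x | p i x}) : S.Def {x | ∀ i, p i x} := by
  refine S.cast (S.iInter h) ?_
  ext x
  simp

theorem exists_fin {α ι : Type} [Finite α] [Finite ι] {p : ι → (α → M) → Prop}
    (h : ∀ i, S.Def {x | p i x}) : S.Def {x | ∃ i, p i x} := by
  refine S.cast (S.iUnion h) ?_
  ext x
  simp

/-- Fixing parameters. -/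
theorem fiber {α β : Type} [Finite α] [Finite β] {s : Set (α ⊕ β → M)} (hs : S.Def s)
    (c : β → M) : S.Def {x : α → M | Sum.elim x c ∈ s} := by
  have h1 : S.Def {x : α ⊕ β → M | ∀ j : β, x (Sum.inr j) = c j} :=
    S.forall_fin fun j => S.eq_const _ _
  refine S.cast (S.proj (S.inter hs h1)) ?_
  ext x
  constructor
  · rintro ⟨y, hy, hy'⟩
    have : y = c := funext fun j => by simpa using hy' j
    rwa [this] at hy
  · intro h
    exact ⟨c, h, fun j => by simp⟩

/-- A NIP contradiction in the form used in the applications: if a relation of the system, after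
substituting `X = M^α`, `Y = M^β`, shatters arbitrarily many points, contradiction. -/
theorem false_of_shatters {α β : Type} [Finite α] [Finite β] {s : Set (α ⊕ β → M)}
    (hs : S.Def s)
    (h : ∀ n : ℕ, Shatters (fun (x : α → M) (y : β → M) => Sum.elim x y ∈ s) n) : False := by
  obtain ⟨n, hn⟩ := S.nip hs
  exact hn (h n)

end DefSys

end Pool.Agent.Lib.MP958bd4
end

section
/-!
# MP_958bd4_lc, module DPOLY: preimages under polynomial maps
-/
set_option autoImplicit false

universe u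

namespace Pool.Agent.Lib.MP958bd4

open Topology Filter

namespace DPOLYM

variable {R : Type u} [CommRing R] {S : DefSys R}

theorem add_var (h : S.IsRing) {γ : Type} [Finite γ] (i j k : γ) :
    S.Def {x : γ → R | x i + x j = x k} :=
  S.cast (S.comap (β := γ) ![i, j, k] h.add) (by ext x; simp)

theorem mul_var (h : S.IsRing) {γ : Type} [Finite γ] (i j k : γ) :
    S.Def {x : γ → R | x i * x j = x k} :=
  S.cast (S.comap (β := γ) ![i, j, k] h.mul) (by ext x; simp)

theorem graph (h : S.IsRing) {α : Type} [Finite α] (p : MvPolynomial α R) :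
    ∀ (γ : Type) [Finite γ] (f : α → γ) (i : γ),
      S.Def {x : γ → R | x i = MvPolynomial.eval (x ∘ f) p} := by
  induction p using MvPolynomial.induction_on with
  | C a =>
    intro γ _ f i
    exact S.cast (S.eq_const i a) (by ext x; simp)
  | add p q hp hq =>
    intro γ _ f i
    have h1 := hp ((γ ⊕ Unit) ⊕ Unit) (fun a => Sum.inl (Sum.inl (f a))) (Sum.inl (Sum.inr ()))
    have h2 := hq ((γ ⊕ Unit) ⊕ Unit) (fun a => Sum.inl (Sum.inl (f a))) (Sum.inr ())
    have h3 := add_var h (γ := (γ ⊕ Unit) ⊕ Unit) (Sum.inl (Sum.inr ())) (Sum.inr ())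
      (Sum.inl (Sum.inl i))
    have h4 := S.and h1 (S.and h2 h3)
    have h5 : S.Def {x : γ ⊕ Unit → R | ∃ z : R,
        x (Sum.inr ()) = MvPolynomial.eval (x ∘ Sum.inl ∘ f) p ∧
        z = MvPolynomial.eval (x ∘ Sum.inl ∘ f) q ∧ x (Sum.inr ()) + z = x (Sum.inl i)} :=
      S.ex₁ (S.cast h4 (by ext x; rfl))
    have h6 : S.Def {x : γ → R | ∃ y : R, ∃ z : R, y = MvPolynomial.eval (x ∘ f) p ∧
        z = MvPolynomial.eval (x ∘ f) q ∧ y + z = x i} :=
      S.ex₁ (S.cast h5 (by ext x; rfl))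
    refine S.cast h6 ?_
    ext x
    simp only [Set.mem_ofPred_eq, map_add]
    constructor
    · rintro ⟨y, z, rfl, rfl, h7⟩
      exact h7.symm
    · intro h7
      exact ⟨_, _, rfl, rfl, h7.symm⟩
  | mul_X p n hp =>
    intro γ _ f i
    have h1 := hp (γ ⊕ Unit) (fun a => Sum.inl (f a)) (Sum.inr ())
    have h3 := mul_var h (γ := γ ⊕ Unit) (Sum.inr ()) (Sum.inl (f n)) (Sum.inl i)
    have h4 := S.and h1 h3
    have h6 : S.Def {x : γ → R | ∃ y : R, y = MvPolynomial.eval (x ∘ f) p ∧
        y * x (f n) = x i} := S.ex₁ (S.cast h4 (by ext x; rfl))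
    refine S.cast h6 ?_
    ext x
    simp only [Set.mem_ofPred_eq, map_mul, MvPolynomial.eval_X, Function.comp_apply]
    constructor
    · rintro ⟨y, rfl, h7⟩
      exact h7.symm
    · intro h7
      exact ⟨_, rfl, h7.symm⟩

end DPOLYM

open DPOLYM in
theorem specDPOLY : SpecDPOLY.{u} := by
  intro R _ S hS α β _ _ s p hs
  have h1 : S.Def {x : α ⊕ β → R | ∀ j, x (Sum.inr j) = MvPolynomial.eval (x ∘ Sum.inl) (p j)} :=
    S.forall_fin fun j => graph hS (p j) (α ⊕ β) Sum.inl (Sum.inr j)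
  have h2 : S.Def {x : α ⊕ β → R | x ∘ Sum.inr ∈ s} := S.comap Sum.inr hs
  have h3 : S.Def {x : α → R | ∃ y : β → R, (∀ j, y j = MvPolynomial.eval x (p j)) ∧ y ∈ s} :=
    S.ex (S.cast (S.and h1 h2) (by ext x; rfl))
  refine S.cast h3 ?_
  ext x
  constructor
  · rintro ⟨y, hy, hys⟩
    have : y = fun j => MvPolynomial.eval x (p j) := funext hy
    rw [this] at hys
    exact hys
  · intro h4
    exact ⟨_, fun j => rfl, h4⟩

end Pool.Agent.Lib.MP958bd4
end

section
/-!
# MP_958bd4_lc, module EXT: closure properties of externally definable sets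
-/
set_option autoImplicit false

universe u

namespace Pool.Agent.Lib.MP958bd4

open FirstOrder FirstOrder.Language

namespace EXTM

variable {L : FirstOrder.Language.{0, 0}} {M : Type u} [L.Structure M]

theorem compl {α : Type} {s : Set (α → M)} (h : ExtDef L M s) : ExtDef L M sᶜ := by
  obtain ⟨β, hβ, φ, h⟩ := h
  refine ⟨β, hβ, φ.not, fun Y0 hY => ?_⟩
  obtain ⟨d, hd⟩ := h Y0 hY
  refine ⟨d, fun y hy => ?_⟩
  rw [Formula.realize_not, Set.mem_compl_iff, hd y hy]

theorem inter {α : Type} {s t : Set (α → M)} (hs : ExtDef L M s) (ht : ExtDef L M t) :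
    ExtDef L M (s ∩ t) := by
  obtain ⟨β, hβ, φ, hs⟩ := hs
  obtain ⟨γ, hγ, ψ, ht⟩ := ht
  refine ⟨β ⊕ γ, inferInstance, φ.relabel (Sum.map id Sum.inl) ⊓ ψ.relabel (Sum.map id Sum.inr),
    fun Y0 hY => ?_⟩
  obtain ⟨d, hd⟩ := hs Y0 hY
  obtain ⟨e, he⟩ := ht Y0 hY
  refine ⟨Sum.elim d e, fun y hy => ?_⟩
  rw [Formula.realize_inf, Formula.realize_relabel, Formula.realize_relabel, Sum.elim_comp_map,
    Sum.elim_comp_map, Function.comp_id, Sum.elim_comp_inl, Sum.elim_comp_inr, ← hd y hy,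
    ← he y hy, Set.mem_inter_iff]

theorem comap {α β : Type} (f : α → β) {s : Set (α → M)} (hs : ExtDef L M s) :
    ExtDef L M {x : β → M | x ∘ f ∈ s} := by
  obtain ⟨γ, hγ, φ, hs⟩ := hs
  refine ⟨γ, hγ, φ.relabel (Sum.map f id), fun Y0 hY => ?_⟩
  obtain ⟨d, hd⟩ := hs ((fun x => x ∘ f) '' Y0) (hY.image _)
  refine ⟨d, fun y hy => ?_⟩
  rw [Formula.realize_relabel, Sum.elim_comp_map, Function.comp_id,
    ← hd (y ∘ f) (Set.mem_image_of_mem _ hy)]
  rfl

theorem of_definable {α : Type} {s : Set (α → M)} (hs : (Set.univ : Set M).Definable L s) :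
    ExtDef L M s := by
  obtain ⟨A0, -, hd⟩ := Set.definable_iff_finitely_definable.1 hs
  obtain ⟨φ, rfl⟩ := Set.definable_iff_exists_formula_sum.1 hd
  let e : (A0 : Set M) ≃ Fin (Fintype.card (A0 : Set M)) := Fintype.equivFin _
  refine ⟨Fin (Fintype.card (A0 : Set M)), inferInstance,
    φ.relabel (Sum.elim (fun a => Sum.inr (e a)) Sum.inl), fun Y0 _ =>
    ⟨fun i => (e.symm i : M), fun y _ => ?_⟩⟩
  rw [Formula.realize_relabel]
  have : (Sum.elim y fun i => ((e.symm i : (A0 : Set M)) : M)) ∘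
      (Sum.elim (fun a => Sum.inr (e a)) Sum.inl) = Sum.elim (fun a : (A0 : Set M) => (a : M)) y := by
    funext i
    rcases i with i | i
    · simp
    · simp
  rw [this]
  rfl

theorem nip (hN : NIPf L M) {α β : Type} [Finite α] [Finite β] {s : Set (α ⊕ β → M)}
    (hs : ExtDef L M s) :
    ∃ n, ¬ Shatters (fun (x : α → M) (y : β → M) => Sum.elim x y ∈ s) n := by
  obtain ⟨γ, hγ, φ, hs⟩ := hs
  obtain ⟨n, hn⟩ := hN α (β ⊕ γ) (φ.relabel (Equiv.sumAssoc α β γ))
  refine ⟨n, fun ⟨a, b, hab⟩ => hn ?_⟩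
  obtain ⟨d, hd⟩ := hs (Set.range fun p : Fin n × Set (Fin n) => Sum.elim (a p.1) (b p.2))
    (Set.finite_range _)
  refine ⟨a, fun t => Sum.elim (b t) d, fun i t => ?_⟩
  have h1 := (hd _ ⟨(i, t), rfl⟩).symm.trans (hab i t)
  change (φ.relabel (Equiv.sumAssoc α β γ)).Realize (Sum.elim (a i) (Sum.elim (b t) d)) ↔ i ∈ t
  rw [Formula.realize_relabel, ← h1]
  have : Sum.elim (a i) (Sum.elim (b t) d) ∘ (Equiv.sumAssoc α β γ) =
      Sum.elim (Sum.elim (a i) (b t)) d := by
    funext j
    rcases j with (j | j) | j <;> rfl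
  rw [this]

/-- A formula without parameters. -/
theorem of_formula {α : Type} (φ : L.Formula α) : ExtDef L M {x : α → M | φ.Realize x} := by
  refine ⟨Empty, inferInstance, φ.relabel Sum.inl, fun Y0 _ => ⟨fun i => i.elim, fun y _ => ?_⟩⟩
  rw [Formula.realize_relabel, Sum.elim_comp_inl]
  rfl

end EXTM

open EXTM in
theorem specEXT : SpecEXT.{u} := by
  intro L M _ _
  exact ⟨fun α _ s h => compl h, fun α _ s t hs ht => inter hs ht,
    fun α β _ _ f s hs => comap f hs, fun α _ s hs => of_definable hs,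
    fun hN α β _ _ s hs => nip hN hs⟩

end Pool.Agent.Lib.MP958bd4
end

section
/-!
# MP_958bd4_lc, module HD: honest definitions
-/
set_option autoImplicit false

universe u

namespace Pool.Agent.Lib.MP958bd4

open Topology Filter FirstOrder FirstOrder.Language

namespace HDM

variable {L : FirstOrder.Language.{0, 0}} {M : Type u} [L.Structure M]

open Classical in
/-- the formula: some `d` cuts out `S` from the points `g i` -/
noncomputable def chi {α γ V : Type} [Finite γ] {n : ℕ} (φ : L.Formula (α ⊕ γ))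
    (g : Fin n → α → V) (S : Set (Fin n)) : L.Formula V :=
  (Formula.iInf fun i : Fin n =>
    if i ∈ S then φ.relabel (Sum.elim (fun a => Sum.inl (g i a)) Sum.inr : α ⊕ γ → V ⊕ γ)
    else (φ.relabel (Sum.elim (fun a => Sum.inl (g i a)) Sum.inr : α ⊕ γ → V ⊕ γ)).not).iExs γ

theorem realize_chi {α γ V : Type} [Finite γ] {n : ℕ} (φ : L.Formula (α ⊕ γ))
    (g : Fin n → α → V) (S : Set (Fin n)) (v : V → M) :
    (chi φ g S).Realize v ↔ ∃ d : γ → M, ∀ i, (φ.Realize (Sum.elim (fun a => v (g i a)) d) ↔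
      i ∈ S) := by
  unfold chi
  rw [Formula.realize_iExs]
  refine exists_congr fun d => ?_
  rw [Formula.realize_iInf]
  refine forall_congr' fun i => ?_
  have e : Sum.elim v d ∘ (Sum.elim (fun a => Sum.inl (g i a)) Sum.inr : α ⊕ γ → V ⊕ γ) =
      Sum.elim (fun a => v (g i a)) d := by
    funext z
    rcases z with a | c <;> rfl
  by_cases h : i ∈ S
  · rw [if_pos h, Formula.realize_relabel, e]
    exact ⟨fun h1 => ⟨fun _ => h, fun _ => h1⟩, fun h1 => h1.2 h⟩
  · rw [if_neg h, Formula.realize_not, Formula.realize_relabel, e]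
    exact ⟨fun h1 => ⟨fun h2 => absurd h2 h1, fun h2 => absurd h2 h⟩, fun h1 h2 => h (h1.1 h2)⟩

theorem ideal_mono {α : Type} {A Y Y' : Set (α → M)} (h : HIdeal L A Y) (hY : Y' ⊆ Y) :
    HIdeal L A Y' := by
  obtain ⟨h1, β, hβ, θ, h2⟩ := h
  exact ⟨hY.trans h1, β, hβ, θ, fun Y0 hf hs => h2 Y0 hf (hs.trans hY)⟩

theorem ideal_empty {α : Type} [Nonempty M] {A : Set (α → M)} : HIdeal L A ∅ := by
  refine ⟨Set.empty_subset _, Empty, inferInstance, ⊥, fun Y0 _ hs => ⟨Empty.elim, ?_, ?_⟩⟩
  · intro y hy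
    exact absurd (hs hy) (Set.notMem_empty y)
  · intro y hy
    exact absurd hy (by simp [Formula.Realize])

theorem ideal_union {α : Type} {A Y Y' : Set (α → M)} (h : HIdeal L A Y) (h' : HIdeal L A Y') :
    HIdeal L A (Y ∪ Y') := by
  obtain ⟨h1, β, hβ, θ, h2⟩ := h
  obtain ⟨h1', β', hβ', θ', h2'⟩ := h'
  refine ⟨Set.union_subset h1 h1', β ⊕ β', inferInstance,
    θ.relabel (Sum.elim Sum.inl (fun b => Sum.inr (Sum.inl b)) : α ⊕ β → α ⊕ (β ⊕ β')) ⊔
    θ'.relabel (Sum.elim Sum.inl (fun b => Sum.inr (Sum.inr b)) : α ⊕ β' → α ⊕ (β ⊕ β')), ?_⟩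
  intro Y0 hf hs
  obtain ⟨d, hd1, hd2⟩ := h2 (Y0 ∩ Y) (hf.subset Set.inter_subset_left) Set.inter_subset_right
  obtain ⟨d', hd1', hd2'⟩ := h2' (Y0 ∩ Y') (hf.subset Set.inter_subset_left)
    Set.inter_subset_right
  have e1 : ∀ y : α → M, Sum.elim y (Sum.elim d d') ∘
      (Sum.elim Sum.inl (fun b => Sum.inr (Sum.inl b)) : α ⊕ β → α ⊕ (β ⊕ β')) =
      Sum.elim y d := by
    intro y
    funext z
    rcases z with a | c <;> rfl
  have e2 : ∀ y : α → M, Sum.elim y (Sum.elim d d') ∘
      (Sum.elim Sum.inl (fun b => Sum.inr (Sum.inr b)) : α ⊕ β' → α ⊕ (β ⊕ β')) =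
      Sum.elim y d' := by
    intro y
    funext z
    rcases z with a | c <;> rfl
  refine ⟨Sum.elim d d', ?_, ?_⟩
  · intro y hy
    rw [Formula.realize_sup, Formula.realize_relabel, Formula.realize_relabel, e1, e2]
    rcases hs hy with h3 | h3
    · exact Or.inl (hd1 y ⟨hy, h3⟩)
    · exact Or.inr (hd1' y ⟨hy, h3⟩)
  · intro y hy
    rw [Formula.realize_sup, Formula.realize_relabel, Formula.realize_relabel, e1, e2] at hy
    rcases hy with h3 | h3
    · exact hd2 y h3
    · exact hd2' y h3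

/-- the ultrafilter -/
theorem exists_ultra {α : Type} [Nonempty M] (A : Set (α → M)) (hA : ¬ HIdeal L A A) :
    ∃ D : Ultrafilter (α → M), A ∈ D ∧ ∀ Y ∈ D, ¬ HIdeal L A Y := by
  let F : Filter (α → M) :=
    { sets := {Z | HIdeal L A (A \ Z)}
      univ_sets := by
        have : A \ Set.univ = ∅ := by simp
        show HIdeal L A (A \ Set.univ)
        rw [this]
        exact ideal_empty
      sets_of_superset := fun {Z Z'} hZ hZZ => ideal_mono hZ (Set.sdiff_subset_sdiff_right hZZ)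
      inter_sets := fun {Z Z'} hZ hZ' => by
        show HIdeal L A (A \ (Z ∩ Z'))
        rw [Set.sdiff_inter]
        exact ideal_union hZ hZ' }
  have hF : F.NeBot := by
    rw [← empty_mem_iff_bot.not.trans (neBot_iff.symm)]
    intro h
    have h1 : HIdeal L A (A \ ∅) := h
    rw [Set.sdiff_empty] at h1
    exact hA h1
  obtain ⟨D, hD⟩ := @Ultrafilter.exists_le _ F hF
  refine ⟨D, hD ?_, ?_⟩
  · show HIdeal L A (A \ A)
    rw [Set.sdiff_self]
    exact ideal_empty
  · intro Y hY hYI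
    have h1 : Yᶜ ∈ F := by
      show HIdeal L A (A \ Yᶜ)
      exact ideal_mono hYI (fun z hz => by
        have := hz.2
        rwa [Set.notMem_compl_iff] at this)
    have h2 : Yᶜ ∈ D := hD h1
    exact (Ultrafilter.compl_mem_iff_notMem.1 h2) hY

end HDM

open HDM in
theorem specHD (hHDL : SpecHDL.{u}) : SpecHD.{u} := by
  classical
  intro L M _ _ hN α _ A hA
  by_contra hcon
  obtain ⟨D, hD1, hD2⟩ := exists_ultra A hcon
  obtain ⟨γ, hγ, φ, hφ⟩ := hA
  obtain ⟨n, hn⟩ := hN α γ φ
  obtain ⟨E, e, he, hlim⟩ := hHDL L M α γ A φ D hD1 hD2 hφ (2 * n)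
  letI := E.str
  obtain ⟨d, hd⟩ := E.e3 (Set.range e) (Set.finite_range e)
  have hd' : ∀ i, φ.Realize (Sum.elim (e i) d) ↔ Even i.val := by
    intro i
    rw [← hd (e i) ⟨i, rfl⟩, he i]
  -- the two increasing sequences
  have hS : ∀ S : Set (Fin n), ∃ d : γ → E.N, ∀ i : Fin n,
      (φ.Realize (Sum.elim (e ⟨2 * i.val, by omega⟩) d) ↔ i ∈ S) := by
    intro S
    set χ : L.Formula ((Fin n × α) ⊕ Empty) := chi φ (fun i a => Sum.inl (i, a)) S with hχ
    have h1 := hlim n (fun i => if i ∈ S then (⟨2 * i.val, by omega⟩ : Fin (2 * n)) else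
      ⟨2 * i.val + 1, by omega⟩) (by
        intro i j hij
        have h3 : i.val < j.val := hij
        simp only
        rw [Fin.lt_def]
        split_ifs <;> simp only <;> omega) Empty χ Empty.elim
    have h2 := hlim n (fun i => (⟨2 * i.val, by omega⟩ : Fin (2 * n))) (by
        intro i j hij
        have h3 : i.val < j.val := hij
        rw [Fin.lt_def]
        simp only
        omega) Empty χ Empty.elim
    have h3 := h2.2 (h1.1 (by
      rw [hχ, realize_chi]
      refine ⟨d, fun i => ?_⟩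
      have h4 := hd' (if i ∈ S then (⟨2 * i.val, by omega⟩ : Fin (2 * n)) else
        ⟨2 * i.val + 1, by omega⟩)
      refine Iff.trans ?_ (h4.trans ?_)
      · rfl
      · by_cases h5 : i ∈ S
        · simp only [h5, if_true, iff_true]
          exact even_two_mul _
        · simp only [h5, if_false, iff_false]
          rw [Nat.not_even_iff_odd]
          exact odd_two_mul_add_one _))
    rw [hχ, realize_chi] at h3
    exact h3
  apply hn
  set ρ : L.Formula Empty := (Formula.iInf fun S : Set (Fin n) =>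
    (chi φ (fun i a => Sum.inr (i, a)) S : L.Formula (Empty ⊕ (Fin n × α)))).iExs (Fin n × α)
    with hρ
  have hρN : ρ.Realize (E.ι ∘ (Empty.elim : Empty → M)) := by
    rw [hρ, Formula.realize_iExs]
    refine ⟨fun p => e ⟨2 * p.1.val, by omega⟩ p.2, ?_⟩
    rw [Formula.realize_iInf]
    intro S
    rw [realize_chi]
    exact hS S
  rw [ElementaryEmbedding.map_formula, hρ, Formula.realize_iExs] at hρN
  obtain ⟨x, hx⟩ := hρN
  rw [Formula.realize_iInf] at hx
  have hx' : ∀ S : Set (Fin n), ∃ d : γ → M, ∀ i, (φ.Realize (Sum.elim (fun a => x (i, a)) d) ↔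
      i ∈ S) := by
    intro S
    have := hx S
    rw [realize_chi] at this
    exact this
  choose b hb using hx'
  exact ⟨fun i a => x (i, a), b, fun i s => hb s i⟩

end Pool.Agent.Lib.MP958bd4
end

section
/-!
# MP_958bd4_lc: HDL, iteration of the one step extensions
-/
set_option autoImplicit false

universe u

namespace Pool.Agent.Lib.MP958bd4

open FirstOrder FirstOrder.Language

namespace HDLM

/-- `M` itself is an extension. -/
def triv (L : FirstOrder.Language.{0, 0}) {M : Type u} [L.Structure M] {α γ : Type}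
    (A : Set (α → M)) (φ : L.Formula (α ⊕ γ))
    (h : ∀ Y0 : Set (α → M), Y0.Finite → ∃ d : γ → M, ∀ y ∈ Y0, y ∈ A ↔
      φ.Realize (Sum.elim y d)) : Extn.{u} L A φ where
  N := M
  str := inferInstance
  ι := ElementaryEmbedding.refl L M
  AN := A
  e2 := fun _ _ _ _ _ hd => hd
  e3 := h
  e4 := fun _ => Iff.rfl

/-- the relabelling for HDS -/
def rho1 {α β : Type} (n : ℕ) : (Fin (n + 1) × α) ⊕ β → α ⊕ ((Fin n × α) ⊕ β) :=
  Sum.elim (fun p => Fin.lastCases (motive := fun _ => α ⊕ ((Fin n × α) ⊕ β)) (Sum.inl p.2)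
    (fun i => Sum.inr (Sum.inl (i, p.2))) p.1) (fun b => Sum.inr (Sum.inr b))

/-- the relabelling for the induction hypothesis -/
def rho2 {α β : Type} (n : ℕ) : (Fin (n + 1) × α) ⊕ β → (Fin n × α) ⊕ (α ⊕ β) :=
  Sum.elim (fun p => Fin.lastCases (motive := fun _ => (Fin n × α) ⊕ (α ⊕ β))
    (Sum.inr (Sum.inl p.2)) (fun i => Sum.inl (i, p.2)) p.1) (fun b => Sum.inr (Sum.inr b))

lemma comp_rho1 {α β : Type} {X : Type u} (n : ℕ) (e : α → X) (d : Fin n → α → X) (b : β → X) :
    Sum.elim e (Sum.elim (fun p : Fin n × α => d p.1 p.2) b) ∘ rho1 n =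
      Sum.elim (fun p : Fin (n + 1) × α => Fin.snoc (α := fun _ => α → X) d e p.1 p.2) b := by
  funext x
  rcases x with ⟨i, a⟩ | b
  · refine Fin.lastCases ?_ (fun i => ?_) i
    · simp [rho1]
    · simp [rho1]
  · rfl

lemma comp_rho2 {α β : Type} {X : Type u} (n : ℕ) (e : α → X) (d : Fin n → α → X) (b : β → X) :
    Sum.elim (fun p : Fin n × α => d p.1 p.2) (Sum.elim e b) ∘ rho2 n =
      Sum.elim (fun p : Fin (n + 1) × α => Fin.snoc (α := fun _ => α → X) d e p.1 p.2) b := by
  funext x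
  rcases x with ⟨i, a⟩ | b
  · refine Fin.lastCases ?_ (fun i => ?_) i
    · simp [rho2]
    · simp [rho2]
  · rfl

end HDLM

open HDLM in
theorem specHDL (hHDS : SpecHDS.{u}) : SpecHDL.{u} := by
  intro L M _ _ α γ _ _ A φ D hA hD hφ j
  induction j with
  | zero =>
    refine ⟨triv L A φ hφ, fun i => i.elim0, fun i => i.elim0, ?_⟩
    intro n t _ β _ χ b
    rcases n with _ | n
    · have e1 : (Sum.elim (fun p : Fin 0 × α => (fun i : Fin 0 => i.elim0 : Fin 0 → α → M)
          (t p.1) p.2) b : (Fin 0 × α) ⊕ β → M) =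
          Sum.elim (fun p : Fin 0 × α => (Fin.elim0 : Fin 0 → α → M) p.1 p.2) b := by
        funext x
        rcases x with ⟨i, _⟩ | b
        · exact i.elim0
        · rfl
      change @Formula.Realize L M _ _ χ (Sum.elim (fun p : Fin 0 × α =>
        (fun i : Fin 0 => i.elim0 : Fin 0 → α → M) (t p.1) p.2) b) ↔
        @Formula.Realize L M _ _ χ (Sum.elim (fun p : Fin 0 × α =>
          (Fin.elim0 : Fin 0 → α → M) p.1 p.2) b)
      rw [e1]
    · exact (t 0).elim0
  | succ j ih =>
    obtain ⟨E, e, he, hlim⟩ := ih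
    obtain ⟨E', j', e', h1, h2, h3, h4⟩ := hHDS L M α γ A φ D hA hD E (decide (Even j))
    letI := E.str
    letI := E'.str
    refine ⟨E', Fin.snoc (α := fun _ => α → E'.N) (fun i => j' ∘ e i) e', fun i => ?_, ?_⟩
    · refine Fin.lastCases ?_ (fun i => ?_) i
      · rw [Fin.snoc_last, h1, Fin.val_last, decide_eq_true_iff]
      · rw [Fin.snoc_castSucc, h3, he, Fin.val_castSucc]
    · intro n t ht β _ χ b
      rcases n with _ | n
      · have e1 : (Sum.elim (fun p : Fin 0 × α => Fin.snoc (α := fun _ => α → E'.N)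
            (fun i => j' ∘ e i) e' (t p.1) p.2) (E'.ι ∘ b) : (Fin 0 × α) ⊕ β → E'.N) =
            E'.ι ∘ Sum.elim (fun p : Fin 0 × α => (Fin.elim0 : Fin 0 → α → M) p.1 p.2) b := by
          funext x
          rcases x with ⟨i, _⟩ | b
          · exact i.elim0
          · rfl
        rw [e1, ElementaryEmbedding.map_formula]
        exact Iff.rfl
      · by_cases hlast : t (Fin.last n) = Fin.last j
        · -- the last variable is the new element
          have hlt : ∀ i : Fin n, t i.castSucc ≠ Fin.last j := fun i h => by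
            have h5 := ht (Fin.castSucc_lt_last i)
            rw [hlast, h] at h5
            exact lt_irrefl _ h5
          let t' : Fin n → Fin j := fun i => (t i.castSucc).castPred (hlt i)
          have ht'c : ∀ i, (t' i).castSucc = t i.castSucc := fun i => Fin.castSucc_castPred _ _
          have ht' : StrictMono t' := fun a b hab => by
            rw [← Fin.castSucc_lt_castSucc_iff, ht'c, ht'c]
            exact ht (Fin.castSucc_lt_castSucc_iff.2 hab)
          have hval : (Sum.elim (fun p : Fin (n + 1) × α => Fin.snoc (α := fun _ => α → E'.N)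
              (fun i => j' ∘ e i) e' (t p.1) p.2) (E'.ι ∘ b) : (Fin (n + 1) × α) ⊕ β → E'.N) =
              Sum.elim e' (j' ∘ Sum.elim (fun p : Fin n × α => e (t' p.1) p.2) (E.ι ∘ b)) ∘
                rho1 n := by
            have e2 : (j' ∘ Sum.elim (fun p : Fin n × α => e (t' p.1) p.2) (E.ι ∘ b)) =
                Sum.elim (fun p : Fin n × α => (fun i => j' ∘ e (t' i)) p.1 p.2) (E'.ι ∘ b) := by
              funext x
              rcases x with p | b
              · rfl
              · exact h2 _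
            have e5 := comp_rho1 n e' (fun i => j' ∘ e (t' i)) (E'.ι ∘ b)
            rw [e2]
            refine Eq.trans ?_ e5.symm
            congr 1
            funext p
            rcases p with ⟨i, a⟩
            refine Fin.lastCases ?_ (fun i => ?_) i
            · simp [hlast]
            · simp only [Fin.snoc_castSucc]
              rw [← ht'c, Fin.snoc_castSucc]
          rw [hval, ← Formula.realize_relabel, h4]
          show _ ↔ {a : α → M | LimU D n {x | Fin.snoc (α := fun _ => α → M) x a ∈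
            {x : Fin (n + 1) → α → M | χ.Realize (Sum.elim (fun p => x p.1 p.2) b)}}} ∈ D
          have hset : {a : α → M | (χ.relabel (rho1 n)).Realize (Sum.elim (E.ι ∘ a)
              (Sum.elim (fun p : Fin n × α => e (t' p.1) p.2) (E.ι ∘ b)))} =
              {a : α → M | LimU D n {x | Fin.snoc (α := fun _ => α → M) x a ∈
            {x : Fin (n + 1) → α → M | χ.Realize (Sum.elim (fun p => x p.1 p.2) b)}}} := by
            ext a
            have h6 := hlim n t' ht' (α ⊕ β) (χ.relabel (rho2 n)) (Sum.elim a b)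
            have e3 : E.ι ∘ Sum.elim a b = Sum.elim (E.ι ∘ a) (E.ι ∘ b) := by
              funext x
              rcases x with a | b <;> rfl
            rw [e3, Formula.realize_relabel, comp_rho2 n (E.ι ∘ a) (fun i => e (t' i))] at h6
            simp only [Set.mem_setOf_eq]
            rw [Formula.realize_relabel, comp_rho1 n (E.ι ∘ a) (fun i => e (t' i)), h6]
            have e4 : {x : Fin n → α → M | (χ.relabel (rho2 n)).Realize
                (Sum.elim (fun p => x p.1 p.2) (Sum.elim a b))} =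
                {x | χ.Realize (Sum.elim (fun p => Fin.snoc (α := fun _ => α → M) x a p.1 p.2) b)} := by
              ext x
              simp only [Set.mem_setOf_eq]
              rw [Formula.realize_relabel, comp_rho2]
            rw [e4]
          rw [hset]
        · -- all the variables are old elements
          have hlt : ∀ i : Fin (n + 1), t i ≠ Fin.last j := fun i h => by
            have h5 : t i ≤ t (Fin.last n) := ht.monotone (Fin.le_last i)
            rw [h] at h5
            exact hlast (le_antisymm (Fin.le_last _) h5)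
          let t' : Fin (n + 1) → Fin j := fun i => (t i).castPred (hlt i)
          have ht'c : ∀ i, (t' i).castSucc = t i := fun i => Fin.castSucc_castPred _ _
          have ht' : StrictMono t' := fun a b hab => by
            rw [← Fin.castSucc_lt_castSucc_iff, ht'c, ht'c]
            exact ht hab
          have hval : (Sum.elim (fun p : Fin (n + 1) × α => Fin.snoc (α := fun _ => α → E'.N)
              (fun i => j' ∘ e i) e' (t p.1) p.2) (E'.ι ∘ b) : (Fin (n + 1) × α) ⊕ β → E'.N) =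
              j' ∘ Sum.elim (fun p : Fin (n + 1) × α => e (t' p.1) p.2) (E.ι ∘ b) := by
            funext x
            rcases x with ⟨i, a⟩ | b
            · simp only [Sum.elim_inl, Function.comp_apply]
              rw [← ht'c, Fin.snoc_castSucc]
              rfl
            · exact (h2 _).symm
          rw [hval, ElementaryEmbedding.map_formula]
          exact hlim (n + 1) t' ht' β χ b

end Pool.Agent.Lib.MP958bd4
end

section
/-!
# Module HDS: one step of the iteration for honest definitions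
-/
set_option autoImplicit false

universe u

namespace Pool.Agent.Lib.MP958bd4

open Filter
open scoped FirstOrder

namespace HDSM

variable {L : FirstOrder.Language.{0, 0}}

section Pow

variable {I N : Type u} (U : Ultrafilter I)

/-- the class of a function in the ultrapower -/
def cl (f : I → N) : (U : Filter I).Product (fun _ => N) := (f : (U : Filter I).Product fun _ => N)

theorem cl_eq {f g : I → N} : cl U f = cl U g ↔ ∀ᶠ i in (U : Filter I), f i = g i :=
  Quotient.eq''

theorem cl_surj (y : (U : Filter I).Product (fun _ => N)) : ∃ f : I → N, cl U f = y :=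
  Quotient.exists_rep y

variable [L.Structure N] [Nonempty N]

theorem los {β : Type} (φ : L.Formula β) (x : β → I → N) :
    φ.Realize (fun i => cl U (x i)) ↔ ∀ᶠ a in (U : Filter I), φ.Realize fun i => x i a :=
  FirstOrder.Language.Ultraproduct.realize_formula_cast (M := fun _ : I => N) φ x

/-- the diagonal embedding -/
noncomputable def diagE : N ↪ₑ[L] (U : Filter I).Product (fun _ => N) where
  toFun x := cl U fun _ => x
  map_formula' := by
    intro n φ x
    have := los U φ (fun i (_ : I) => x i)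
    rw [show (fun x : N => cl U fun _ : I => x) ∘ x = fun i => cl U fun _ => x i from rfl, this]
    exact Filter.eventually_const

theorem diagE_apply (x : N) : (diagE (L := L) U) x = cl U fun _ => x := rfl

/-- the ultrapower of a set of tuples -/
def pw {α : Type} (AN : Set (α → N)) : Set (α → (U : Filter I).Product (fun _ => N)) :=
  {y | ∃ f : α → I → N, (∀ k, y k = cl U (f k)) ∧ ∀ᶠ i in (U : Filter I), (fun k => f k i) ∈ AN}

omit [L.Structure N] [Nonempty N] in
theorem mem_pw {α : Type} [Finite α] (AN : Set (α → N)) (f : α → I → N) :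
    (fun k => cl U (f k)) ∈ pw U AN ↔ ∀ᶠ i in (U : Filter I), (fun k => f k i) ∈ AN := by
  constructor
  · rintro ⟨g, hg, hg'⟩
    have h1 : ∀ᶠ i in (U : Filter I), ∀ k, f k i = g k i :=
      Filter.eventually_all.2 fun k => (cl_eq U).1 (hg k)
    filter_upwards [h1, hg'] with i hi hi'
    rwa [funext hi]
  · intro h
    exact ⟨f, fun _ => rfl, h⟩

omit [L.Structure N] [Nonempty N] in
theorem reps {α : Type} (y : α → (U : Filter I).Product (fun _ => N)) :
    ∃ f : α → I → N, y = fun k => cl U (f k) := by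
  choose f hf using fun k => cl_surj U (y k)
  exact ⟨f, funext fun k => (hf k).symm⟩

omit [L.Structure N] [Nonempty N] in
theorem elim_cl {α β : Type} (f : α → I → N) (g : β → I → N) :
    (Sum.elim (fun k => cl U (f k)) fun k => cl U (g k)) = fun s => cl U (Sum.elim f g s) := by
  funext s
  cases s <;> rfl

omit [L.Structure N] [Nonempty N] in
theorem elim_at {α β : Type} (f : α → I → N) (g : β → I → N) (i : I) :
    (fun s => Sum.elim f g s i) = Sum.elim (fun k => f k i) fun k => g k i := by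
  funext s
  cases s <;> rfl

theorem los2 {α β : Type} (φ : L.Formula (α ⊕ β)) (f : α → I → N) (g : β → I → N) :
    φ.Realize (Sum.elim (fun k => cl U (f k)) fun k => cl U (g k)) ↔
      ∀ᶠ i in (U : Filter I), φ.Realize (Sum.elim (fun k => f k i) fun k => g k i) := by
  rw [elim_cl, los]
  simp_rw [elim_at]

end Pow

/-- the ultrafilter -/
theorem exU {M : Type u} [L.Structure M] [Nonempty M] {α γ : Type} [Finite α] [Finite γ]
    (A : Set (α → M)) (φ : L.Formula (α ⊕ γ)) (D : Ultrafilter (α → M)) (hA : A ∈ D)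
    (hD : ∀ Y ∈ D, ¬ HIdeal L A Y) (E : Extn.{u} L A φ) (par : Bool) :
    letI := E.str
    ∃ U : Ultrafilter (α → E.N), (E.AN ∈ U ↔ par = true) ∧
      ∀ (β : Type) [Finite β] (χ : L.Formula (α ⊕ β)) (d : β → E.N),
        {y : α → E.N | χ.Realize (Sum.elim y d)} ∈ U ↔
          {a : α → M | χ.Realize (Sum.elim (E.ι ∘ a) d)} ∈ D := by
  let _ := E.str
  cases par with
  | true =>
    refine ⟨D.map fun a => E.ι ∘ a, ?_, fun β _ χ d => ?_⟩
    · rw [Ultrafilter.mem_map]
      refine iff_of_true ?_ rfl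
      convert hA using 1
      ext a
      exact E.e4 a
    · rw [Ultrafilter.mem_map]
      rfl
  | false =>
    let F : Filter (α → E.N) :=
      { sets := {S | ∃ (β : Type) (_ : Finite β) (θ : L.Formula (α ⊕ β)) (d : β → E.N),
          {a : α → M | θ.Realize (Sum.elim (E.ι ∘ a) d)} ∈ D ∧
          ∀ y, θ.Realize (Sum.elim y d) → y ∉ E.AN → y ∈ S}
        univ_sets := by
          refine ⟨Fin 0, inferInstance, ⊤, Fin.elim0, ?_, fun y _ _ => trivial⟩
          refine Filter.univ_mem' fun a => ?_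
          exact FirstOrder.Language.Formula.realize_top.2 trivial
        sets_of_superset := by
          rintro S T ⟨β, hβ, θ, d, h1, h2⟩ hST
          exact ⟨β, hβ, θ, d, h1, fun y hy hy' => hST (h2 y hy hy')⟩
        inter_sets := by
          rintro S T ⟨β, hβ, θ, d, h1, h2⟩ ⟨β', hβ', θ', d', h1', h2'⟩
          let f : α ⊕ β → α ⊕ (β ⊕ β') := Sum.map id Sum.inl
          let f' : α ⊕ β' → α ⊕ (β ⊕ β') := Sum.map id Sum.inr
          have hr : ∀ y : α → E.N, ((θ.relabel f) ⊓ (θ'.relabel f')).Realize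
              (Sum.elim y (Sum.elim d d')) ↔
              θ.Realize (Sum.elim y d) ∧ θ'.Realize (Sum.elim y d') := by
            intro y
            rw [FirstOrder.Language.Formula.realize_inf,
              FirstOrder.Language.Formula.realize_relabel,
              FirstOrder.Language.Formula.realize_relabel]
            have e1 : Sum.elim y (Sum.elim d d') ∘ f = Sum.elim y d := by
              funext s
              cases s <;> rfl
            have e2 : Sum.elim y (Sum.elim d d') ∘ f' = Sum.elim y d' := by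
              funext s
              cases s <;> rfl
            rw [e1, e2]
          refine ⟨β ⊕ β', inferInstance, (θ.relabel f) ⊓ (θ'.relabel f'), Sum.elim d d', ?_, ?_⟩
          · filter_upwards [h1, h1'] with a ha ha'
            exact (hr _).2 ⟨ha, ha'⟩
          · intro y hy hy'
            obtain ⟨h3, h4⟩ := (hr y).1 hy
            exact ⟨h2 y h3 hy', h2' y h4 hy'⟩ }
    have hF : F.NeBot := by
      refine ⟨fun hbot => ?_⟩
      have h0 : (∅ : Set (α → E.N)) ∈ F := by
        rw [hbot]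
        exact Filter.mem_bot
      obtain ⟨β, hβ, θ, d, h1, h2⟩ := h0
      refine hD _ h1 ⟨fun a ha => ?_, β, hβ, θ, fun Y0 hY0 hsub => ?_⟩
      · rw [← E.e4]
        by_contra hn
        exact h2 _ ha hn
      · refine E.e2 β θ Y0 hY0 ⟨d, fun y hy => hsub hy, fun y hy => ?_⟩
        by_contra hn
        exact h2 _ hy hn
    have key : ∀ (β : Type) [Finite β] (χ : L.Formula (α ⊕ β)) (d : β → E.N),
        {a : α → M | χ.Realize (Sum.elim (E.ι ∘ a) d)} ∈ D →
        {y : α → E.N | χ.Realize (Sum.elim y d)} ∈ Ultrafilter.of F := by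
      intro β hβ χ d h
      exact Ultrafilter.of_le F ⟨β, hβ, χ, d, h, fun y hy _ => hy⟩
    refine ⟨Ultrafilter.of F, ?_, fun β _ χ d => ⟨fun h => ?_, key β χ d⟩⟩
    · refine iff_of_false ?_ (by simp)
      rw [← Ultrafilter.compl_mem_iff_notMem]
      refine Ultrafilter.of_le F ⟨Fin 0, inferInstance, ⊤, Fin.elim0, ?_, fun y _ hy => hy⟩
      refine Filter.univ_mem' fun a => ?_
      exact FirstOrder.Language.Formula.realize_top.2 trivial
    · by_contra hn
      have h3 : {a : α → M | (FirstOrder.Language.Formula.not χ).Realize (Sum.elim (E.ι ∘ a) d)} ∈ D := by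
        rw [← Ultrafilter.compl_mem_iff_notMem] at hn
        convert hn using 1
        ext a
        exact FirstOrder.Language.Formula.realize_not
      have h4 := key β (FirstOrder.Language.Formula.not χ) d h3
      have h5 := Filter.inter_mem h h4
      refine Filter.empty_notMem (Ultrafilter.of F : Filter (α → E.N)) ?_
      convert h5 using 1
      ext y
      simp only [Set.mem_empty_iff_false, Set.mem_inter_iff, Set.mem_ofPred_eq,
        FirstOrder.Language.Formula.realize_not, and_not_self_iff]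

end HDSM

open HDSM in
theorem specHDS : SpecHDS.{u} := by
  intro L M _ _ α γ _ _ A φ D hA hD E par
  let _ := E.str
  have : Nonempty E.N := ⟨E.ι (Classical.arbitrary M)⟩
  obtain ⟨U, hU1, hU2⟩ := exU A φ D hA hD E par
  have diag_tuple : ∀ {δ : Type} (y : δ → E.N),
      (fun k => (diagE (L := L) U) (y k)) = fun k => cl U fun _ => y k := fun y => rfl
  refine ⟨{ N := (U : Filter (α → E.N)).Product (fun _ => E.N)
            str := inferInstance
            ι := (diagE (L := L) U).comp E.ι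
            AN := pw U E.AN
            e2 := ?_
            e3 := ?_
            e4 := ?_ }, diagE (L := L) U, fun k => cl U fun i => i k, ?_, ?_, ?_, ?_⟩
  · intro β _ θ Y0 hY0 h
    obtain ⟨d, h1, h2⟩ := h
    obtain ⟨g, rfl⟩ := reps U d
    have h3 : ∀ᶠ i in (U : Filter (α → E.N)), ∀ y ∈ Y0,
        θ.Realize (Sum.elim (E.ι ∘ y) fun k => g k i) := by
      rw [Filter.eventually_all_finite hY0]
      intro y hy
      have := h1 y hy
      exact (los2 U θ (fun k (_ : α → E.N) => E.ι (y k)) g).1 this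
    have h4 : ∀ᶠ i in (U : Filter (α → E.N)), ∀ y : α → E.N,
        θ.Realize (Sum.elim y fun k => g k i) → y ∈ E.AN := by
      by_contra hn
      rw [← Ultrafilter.eventually_not] at hn
      push Not at hn
      classical
      have : ∃ f : (α → E.N) → (α → E.N), ∀ᶠ i in (U : Filter (α → E.N)),
          θ.Realize (Sum.elim (f i) fun k => g k i) ∧ f i ∉ E.AN := by
        refine ⟨fun i => if h : ∃ y : α → E.N, θ.Realize (Sum.elim y fun k => g k i) ∧ y ∉ E.AN
          then h.choose else i, ?_⟩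
        filter_upwards [hn] with i hi
        simp only [dif_pos hi]
        exact hi.choose_spec
      obtain ⟨f, hf⟩ := this
      have h5 := h2 (fun k => cl U fun i => f i k)
        ((los2 U θ (fun k i => f i k) g).2 (hf.mono fun i hi => hi.1))
      rw [mem_pw] at h5
      obtain ⟨i, hi, hi'⟩ := (h5.and hf).exists
      exact hi'.2 hi
    obtain ⟨i, hi, hi'⟩ := (h3.and h4).exists
    exact E.e2 β θ Y0 hY0 ⟨fun k => g k i, hi, hi'⟩
  · intro Y0 hY0
    choose f hf using fun y : α → (U : Filter (α → E.N)).Product (fun _ => E.N) => reps U y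
    have h1 : ∀ i : α → E.N, ∃ d : γ → E.N, ∀ y ∈ (fun y => fun k => f y k i) '' Y0,
        y ∈ E.AN ↔ φ.Realize (Sum.elim y d) := fun i => E.e3 _ (hY0.image _)
    choose d hd using h1
    refine ⟨fun k => cl U fun i => d i k, fun y hy => ?_⟩
    rw [hf y, mem_pw, los2 U φ (f y) fun k i => d i k]
    refine Filter.eventually_congr (Filter.Eventually.of_forall fun i => ?_)
    exact hd i _ ⟨y, hy, rfl⟩
  · intro y
    have := mem_pw U E.AN (fun k (_ : α → E.N) => E.ι (y k))
    refine (this.trans Filter.eventually_const).trans (E.e4 y)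
  · refine (mem_pw U E.AN fun k i => i k).trans (Iff.trans ?_ hU1)
    exact Iff.rfl
  · intro x
    rfl
  · intro y
    exact (mem_pw U E.AN (fun k (_ : α → E.N) => y k)).trans Filter.eventually_const
  · intro β _ χ d
    refine (los2 U χ (fun k i => i k) fun k _ => d k).trans (Iff.trans ?_ (hU2 β χ d))
    exact Iff.rfl

end Pool.Agent.Lib.MP958bd4
end

section
/-!
# MP_958bd4_lc: IND, induced systems on quotients
-/
set_option autoImplicit false

universe u

namespace Pool.Agent.Lib.MP958bd4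

namespace INDM

variable {M N : Type u} (S : DefSys M) {γ : Type} (X : Set (γ → M)) (π : (γ → M) → N)

/-- the preimage of `Y` in `X ^ α` -/
def pull {α : Type} (Y : Set (α → N)) : Set (α × γ → M) :=
  {x | (∀ i, (fun j => x (i, j)) ∈ X) ∧ (fun i => π fun j => x (i, j)) ∈ Y}

/-- the reindexing of a pair -/
def spl {α β : Type} : (α ⊕ β) × γ → (α × γ) ⊕ (β × γ) := fun p =>
  match p with
  | (Sum.inl a, j) => Sum.inl (a, j)
  | (Sum.inr b, j) => Sum.inr (b, j)

variable {X π}

lemma pull_elim {α β : Type} (s : Set (α ⊕ β → N)) (x : α × γ → M) (z : β × γ → M) :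
    (Sum.elim x z) ∘ spl ∈ pull X π s ↔ (∀ i, (fun j => x (i, j)) ∈ X) ∧
      (∀ i, (fun j => z (i, j)) ∈ X) ∧
      Sum.elim (fun i => π fun j => x (i, j)) (fun i => π fun j => z (i, j)) ∈ s := by
  unfold pull
  simp only [Set.mem_setOf_eq]
  have e : (fun i => π fun j => ((Sum.elim x z) ∘ spl (α := α) (β := β) (γ := γ)) (i, j)) =
      Sum.elim (fun i => π fun j => x (i, j)) (fun i => π fun j => z (i, j)) := by
    funext i
    cases i <;> rfl
  rw [e]
  constructor
  · rintro ⟨h1, h2⟩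
    exact ⟨fun i => h1 (Sum.inl i), fun i => h1 (Sum.inr i), h2⟩
  · rintro ⟨h1, h2, h3⟩
    refine ⟨fun i => ?_, h3⟩
    cases i with
    | inl a => exact h1 a
    | inr b => exact h2 b

variable [Finite γ]

lemma dom (hX : S.Def X) {α : Type} [Finite α] :
    S.Def {x : α × γ → M | ∀ i, (fun j => x (i, j)) ∈ X} :=
  S.forall_fin fun i => S.comap (β := α × γ) (fun j : γ => (i, j)) hX

end INDM

open INDM in
theorem specIND : SpecIND.{u} := by
  intro M N S γ _ X π hX hsurj hE
  choose lift hlift1 hlift2 using hsurj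
  refine ⟨{ Def := fun {α} Y => S.Def (pull X π Y), compl := ?_, inter := ?_, comap := ?_,
            proj := ?_, diag := ?_, sing := ?_, nip := ?_ }, fun α _ Y => Iff.rfl⟩
  · intro α _ s hs
    refine S.cast (S.inter (dom S hX) (S.compl hs)) ?_
    ext x
    unfold pull
    simp only [Set.mem_inter_iff, Set.mem_compl_iff, Set.mem_setOf_eq]
    tauto
  · intro α _ s t hs ht
    refine S.cast (S.inter hs ht) ?_
    ext x
    unfold pull
    simp only [Set.mem_inter_iff, Set.mem_setOf_eq]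
    tauto
  · intro α β _ _ f s hs
    refine S.cast (S.inter (dom S hX)
      (S.comap (β := β × γ) (fun p : α × γ => (f p.1, p.2)) hs)) ?_
    ext x
    unfold pull
    simp only [Set.mem_inter_iff, Set.mem_setOf_eq]
    constructor
    · rintro ⟨h1, h2, h3⟩
      exact ⟨h1, h3⟩
    · rintro ⟨h1, h2⟩
      exact ⟨h1, fun i => h1 (f i), h2⟩
  · intro α β _ _ s hs
    have h1 := S.proj (S.comap (β := (α × γ) ⊕ (β × γ)) spl hs)
    refine S.cast h1 ?_
    ext x
    simp only [Set.mem_setOf_eq, pull_elim]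
    constructor
    · rintro ⟨z, hx, hz, h⟩
      exact ⟨hx, _, h⟩
    · rintro ⟨hx, y, hy⟩
      refine ⟨fun p => lift (y p.1) p.2, hx, fun i => hlift1 (y i), ?_⟩
      have : (fun i => π fun j => lift (y i) j) = y := funext fun i => hlift2 (y i)
      rw [this]
      exact hy
  · refine S.cast (S.comap (β := Fin 2 × γ)
      (Sum.elim (fun j : γ => ((0 : Fin 2), j)) (fun j : γ => ((1 : Fin 2), j))) hE) ?_
    ext x
    unfold pull
    simp only [Set.mem_setOf_eq]
    constructor
    · rintro ⟨h1, h2, h3⟩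
      refine ⟨fun i => ?_, h3⟩
      fin_cases i
      · exact h1
      · exact h2
    · rintro ⟨h1, h2⟩
      exact ⟨h1 0, h1 1, h2⟩
  · intro c
    refine S.cast (S.comap (β := Fin 1 × γ) (fun j : γ => ((0 : Fin 1), j))
      (S.fiber hE (lift c))) ?_
    ext x
    unfold pull
    simp only [Set.mem_setOf_eq]
    constructor
    · rintro ⟨h1, h2, h3⟩
      refine ⟨fun i => ?_, ?_⟩
      · rw [Subsingleton.elim i 0]; exact h1
      · rw [← hlift2 c]; exact h3
    · rintro ⟨h1, h2⟩
      exact ⟨h1 0, hlift1 c, h2.trans (hlift2 c).symm⟩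
  · intro α β _ _ s hs
    obtain ⟨n, hn⟩ := S.nip (S.comap (β := (α × γ) ⊕ (β × γ)) spl hs)
    refine ⟨n, fun hsh => hn ?_⟩
    obtain ⟨a, b, hab⟩ := hsh
    refine ⟨fun i p => lift (a i p.1) p.2, fun t p => lift (b t p.1) p.2, fun i t => ?_⟩
    simp only [Set.mem_setOf_eq, pull_elim]
    rw [← hab i t]
    have e1 : (fun k => π fun j => lift (a i k) j) = a i := funext fun k => hlift2 _
    have e2 : (fun k => π fun j => lift (b t k) j) = b t := funext fun k => hlift2 _
    rw [e1, e2]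
    exact ⟨fun h => h.2.2, fun h => ⟨fun k => hlift1 _, fun k => hlift1 _, h⟩⟩

end Pool.Agent.Lib.MP958bd4
end

section
/-!
# MP_958bd4_lc: INT, formulas of the language of rings
-/
set_option autoImplicit false

universe u

namespace Pool.Agent.Lib.MP958bd4

open FirstOrder FirstOrder.Language

namespace INTM

variable {R : Type u} [CommRing R]

theorem term_poly {δ : Type} (t : Language.ring.Term δ) :
    letI := Ring.compatibleRingOfRing R
    ∃ p : MvPolynomial δ R, ∀ x : δ → R, t.realize x = MvPolynomial.eval x p := by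
  letI := Ring.compatibleRingOfRing R
  induction t with
  | var i => exact ⟨MvPolynomial.X i, fun x => by simp⟩
  | func f ts ih =>
    choose p hp using ih
    cases f with
    | add =>
      refine ⟨p 0 + p 1, fun x => ?_⟩
      rw [Term.realize_func, map_add, ← hp, ← hp]
      exact Ring.CompatibleRing.funMap_add _
    | mul =>
      refine ⟨p 0 * p 1, fun x => ?_⟩
      rw [Term.realize_func, map_mul, ← hp, ← hp]
      exact Ring.CompatibleRing.funMap_mul _
    | neg =>
      refine ⟨-p 0, fun x => ?_⟩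
      rw [Term.realize_func, map_neg, ← hp]
      exact Ring.CompatibleRing.funMap_neg _
    | zero =>
      refine ⟨0, fun x => ?_⟩
      rw [Term.realize_func, map_zero]
      exact Ring.CompatibleRing.funMap_zero _
    | one =>
      refine ⟨1, fun x => ?_⟩
      rw [Term.realize_func, map_one]
      exact Ring.CompatibleRing.funMap_one _

theorem def_bdd (hD : SpecDPOLY.{u}) (S : DefSys R) (hS : S.IsRing) {α : Type} [Finite α] {n : ℕ}
    (φ : Language.ring.BoundedFormula α n) :
    letI := Ring.compatibleRingOfRing R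
    S.Def {x : α ⊕ Fin n → R | φ.Realize (x ∘ Sum.inl) (x ∘ Sum.inr)} := by
  letI := Ring.compatibleRingOfRing R
  induction φ with
  | falsum => exact S.empty
  | equal t₁ t₂ =>
    obtain ⟨p₁, hp₁⟩ := term_poly (R := R) t₁
    obtain ⟨p₂, hp₂⟩ := term_poly (R := R) t₂
    have h := hD R S hS _ (Fin 2) {x : Fin 2 → R | x 0 = x 1} ![p₁, p₂] S.diag
    refine S.cast h ?_
    ext x
    simp only [Set.mem_setOf_eq, Matrix.cons_val_zero, Matrix.cons_val_one]
    have e : Sum.elim (x ∘ Sum.inl) (x ∘ Sum.inr) = x := Sum.elim_comp_inl_inr x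
    rw [← hp₁ x, ← hp₂ x]
    show _ ↔ t₁.realize (Sum.elim (x ∘ Sum.inl) (x ∘ Sum.inr)) =
      t₂.realize (Sum.elim (x ∘ Sum.inl) (x ∘ Sum.inr))
    rw [e]
  | rel r _ => exact isEmptyElim r
  | imp _ _ ih₁ ih₂ => exact S.imp ih₁ ih₂
  | @all k ψ ih =>
    refine S.all₁ (p := fun x a => ψ.Realize (x ∘ Sum.inl) (Fin.snoc (x ∘ Sum.inr) a)) ?_
    have h := S.comap (β := (α ⊕ Fin k) ⊕ Unit)
      (Sum.elim (fun a : α => Sum.inl (Sum.inl a))
        (Fin.snoc (α := fun _ => (α ⊕ Fin k) ⊕ Unit) (fun j => Sum.inl (Sum.inr j))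
          (Sum.inr ()))) ih
    refine S.cast h ?_
    ext x
    simp only [Set.mem_setOf_eq]
    have e : (x ∘ Sum.elim (fun a : α => Sum.inl (Sum.inl a))
        (Fin.snoc (α := fun _ => (α ⊕ Fin k) ⊕ Unit) (fun j => Sum.inl (Sum.inr j))
          (Sum.inr ()))) ∘ Sum.inr = Fin.snoc ((x ∘ Sum.inl) ∘ Sum.inr) (x (Sum.inr ())) := by
      funext i
      refine Fin.lastCases ?_ (fun j => ?_) i
      · simp
      · simp
    rw [e]
    rfl

theorem def_formula (hD : SpecDPOLY.{u}) (S : DefSys R) (hS : S.IsRing) {α : Type} [Finite α]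
    (φ : Language.ring.Formula α) :
    letI := Ring.compatibleRingOfRing R
    S.Def {x : α → R | φ.Realize x} := by
  letI := Ring.compatibleRingOfRing R
  have h := def_bdd hD S hS φ
  have h2 := S.comap (β := α) (Sum.elim id (Fin.elim0 : Fin 0 → α)) h
  refine S.cast h2 ?_
  ext x
  simp only [Set.mem_setOf_eq, Formula.Realize]
  have e : (x ∘ Sum.elim id (Fin.elim0 : Fin 0 → α)) ∘ Sum.inr = default :=
    Subsingleton.elim _ _
  rw [e]
  rfl

end INTM

open INTM in
theorem specINT (hD : SpecDPOLY.{u}) : SpecINT.{u} := by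
  intro R _ S hS
  letI := Ring.compatibleRingOfRing R
  constructor
  · intro α β _ _ φ
    exact S.nip (def_formula hD S hS φ)
  · intro X hX
    obtain ⟨A₀, -, hA₀⟩ := Set.definable_iff_finitely_definable.1 hX
    obtain ⟨φ, hφ⟩ := Set.definable_iff_exists_formula_sum.1 hA₀
    obtain ⟨k, ⟨e⟩⟩ := Finite.exists_equiv_fin ((A₀ : Set R) : Type u)
    -- variables first, parameters second
    let g : ((A₀ : Set R) : Type u) ⊕ Fin 1 → Fin 1 ⊕ Fin k :=
      Sum.elim (fun a => Sum.inr (e a)) Sum.inl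
    have h := S.fiber (def_formula hD S hS (φ.relabel g)) (fun i => ((e.symm i : R)))
    refine S.cast h ?_
    ext x
    have hx : (x 0 ∈ X) ↔ φ.Realize (Sum.elim (fun a : ((A₀ : Set R) : Type u) => (a : R)) x) := by
      have h1 : x ∈ {x : Fin 1 → R | x 0 ∈ X} ↔ x ∈ {v | φ.Realize (Sum.elim
          (fun a : ((A₀ : Set R) : Type u) => (a : R)) v)} := by
        rw [← hφ]
      exact h1
    show (φ.relabel g).Realize (Sum.elim x fun i => ((e.symm i : R))) ↔ x 0 ∈ X
    rw [hx, Formula.realize_relabel]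
    have e1 : (Sum.elim x fun i => ((e.symm i : R))) ∘ g =
        Sum.elim (fun a : ((A₀ : Set R) : Type u) => (a : R)) x := by
      funext i
      cases i with
      | inl a => simp [g]
      | inr b => simp [g]
    rw [e1]

end Pool.Agent.Lib.MP958bd4
end

section
/-!
# MP_958bd4_lc, modules MTI, QNIP, NLOC: NIP systems on residue fields and quotients
-/
set_option autoImplicit false

universe u

namespace Pool.Agent.Lib.MP958bd4

open Topology Filter

namespace MTIM

theorem memP (hD : SpecDPOLY.{u}) {A : Type u} [CommRing A] {S : DefSys A} (hS : S.IsRing)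
    {P : Set A} (hP : S.Def₁ P) {γ : Type} [Finite γ] (p : MvPolynomial γ A) :
    S.Def {x : γ → A | MvPolynomial.eval x p ∈ P} :=
  hD A S hS γ (Fin 1) _ (fun _ => p) hP

theorem mul_var {R : Type u} [CommRing R] {S : DefSys R} (h : S.IsRing) {γ : Type} [Finite γ]
    (i j k : γ) : S.Def {x : γ → R | x i * x j = x k} :=
  S.cast (S.comap (β := γ) ![i, j, k] h.mul) (by ext x; simp)

end MTIM

open MTIM MvPolynomial in
theorem specQNIP (hRS : SpecRSYS.{u}) (hIND : SpecIND.{u}) (hINT : SpecINT.{u})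
    (hD : SpecDPOLY.{u}) : SpecQNIP.{u} := by
  intro A _ P hP hA
  obtain ⟨S, hS, hprime⟩ := hRS A hA
  have hP1 := hprime P hP
  obtain ⟨T, hT⟩ := hIND A (A ⧸ P) S (Fin 1) Set.univ (fun z => Ideal.Quotient.mk P (z 0))
    S.univ (fun y => by
      obtain ⟨a, rfl⟩ := Ideal.Quotient.mk_surjective y
      exact ⟨fun _ => a, trivial, rfl⟩) (by
      refine S.cast (memP hD hS hP1 (X (Sum.inl 0) - X (Sum.inr 0) : MvPolynomial (Fin 1 ⊕ Fin 1) A))
        ?_
      ext x
      simp only [Set.mem_ofPred_eq, map_sub, eval_X, SetLike.mem_coe, Set.mem_univ, true_and,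
        Function.comp_apply]
      rw [Ideal.Quotient.mk_eq_mk_iff_sub_mem])
  refine (hINT (A ⧸ P) T ⟨?_, ?_⟩).1
  · rw [hT]
    refine S.cast (memP hD hS hP1
      (X (0, 0) + X (1, 0) - X (2, 0) : MvPolynomial (Fin 3 × Fin 1) A)) ?_
    ext x
    simp only [Set.mem_ofPred_eq, map_sub, map_add, eval_X, SetLike.mem_coe, Set.mem_univ,
      implies_true, true_and]
    rw [← map_add, Ideal.Quotient.mk_eq_mk_iff_sub_mem]
  · rw [hT]
    refine S.cast (memP hD hS hP1
      (X (0, 0) * X (1, 0) - X (2, 0) : MvPolynomial (Fin 3 × Fin 1) A)) ?_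
    ext x
    simp only [Set.mem_ofPred_eq, map_sub, map_mul, eval_X, SetLike.mem_coe, Set.mem_univ,
      implies_true, true_and]
    rw [← map_mul, Ideal.Quotient.mk_eq_mk_iff_sub_mem]

open MTIM MvPolynomial in
theorem specMTI (hRS : SpecRSYS.{u}) (hIND : SpecIND.{u}) (hD : SpecDPOLY.{u}) :
    SpecMTI.{u} := by
  intro A _ hA F _ φ hφ
  obtain ⟨S, hS, hprime⟩ := hRS A hA
  have hker : (RingHom.ker φ).IsPrime := RingHom.ker_isPrime φ
  have hP1 : S.Def₁ ((RingHom.ker φ : Ideal A) : Set A) := hprime _ hker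
  have hmem : ∀ {γ : Type} [Finite γ] (p : MvPolynomial γ A),
      S.Def {x : γ → A | φ (MvPolynomial.eval x p) = 0} := by
    intro γ _ p
    exact S.cast (memP hD hS hP1 p) (by ext x; simp [RingHom.mem_ker])
  have hvar : ∀ {γ : Type} [Finite γ] (i : γ), S.Def {x : γ → A | φ (x i) ≠ 0} := by
    intro γ _ i
    exact S.not (S.cast (hmem (X i)) (by ext x; simp))
  obtain ⟨T, hT⟩ := hIND A F S (Fin 2) {z | φ (z 1) ≠ 0} (fun z => φ (z 0) / φ (z 1))
    (hvar 1) (fun y => by
      obtain ⟨a, s, hs, h1⟩ := hφ y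
      refine ⟨![a, s], hs, ?_⟩
      simp only [Matrix.cons_val_zero, Matrix.cons_val_one]
      rw [div_eq_iff hs, h1]) (by
      refine S.cast (S.and (hvar (Sum.inl 1)) (S.and (hvar (Sum.inr 1)) (hmem
        (X (Sum.inl 0) * X (Sum.inr 1) - X (Sum.inr 0) * X (Sum.inl 1) :
          MvPolynomial (Fin 2 ⊕ Fin 2) A)))) ?_
      ext x
      simp only [Set.mem_ofPred_eq, map_sub, map_mul, eval_X, Function.comp_apply]
      constructor
      · rintro ⟨h1, h2, h3⟩
        refine ⟨h1, h2, ?_⟩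
        rw [div_eq_div_iff h1 h2]
        exact sub_eq_zero.1 h3
      · rintro ⟨h1, h2, h3⟩
        refine ⟨h1, h2, ?_⟩
        rw [div_eq_div_iff h1 h2] at h3
        exact sub_eq_zero.2 h3)
  have hQ : ∀ Q : Set A, S.Def₁ Q → T.Def₁ (φ '' Q) := by
    intro Q hQ
    unfold DefSys.Def₁
    rw [hT]
    have h1 : S.Def {x : (Fin 1 × Fin 2) ⊕ Unit → A | φ (x (Sum.inl (0, 1))) ≠ 0 ∧
        x (Sum.inr ()) ∈ Q ∧ φ (eval x (X (Sum.inl (0, 0)) - X (Sum.inr ()) * X (Sum.inl (0, 1)) :
          MvPolynomial ((Fin 1 × Fin 2) ⊕ Unit) A)) = 0} :=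
      S.and (hvar _) (S.and (S.mem₁ hQ _) (hmem _))
    have h2 : S.Def {x : Fin 1 × Fin 2 → A | ∃ b : A, φ (x (0, 1)) ≠ 0 ∧ b ∈ Q ∧
        φ (x (0, 0)) = φ b * φ (x (0, 1))} := by
      refine S.ex₁ (S.cast h1 ?_)
      ext x
      simp only [Set.mem_ofPred_eq, map_sub, map_mul, eval_X, Function.comp_apply, sub_eq_zero]
    refine S.cast h2 ?_
    ext x
    simp only [Set.mem_ofPred_eq, Set.mem_image]
    constructor
    · rintro ⟨b, h3, h4, h5⟩
      refine ⟨fun i => ?_, b, h4, ?_⟩
      · rw [Subsingleton.elim i 0]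
        exact h3
      · rw [eq_div_iff h3, h5]
    · rintro ⟨h3, b, h4, h5⟩
      refine ⟨b, h3 0, h4, ?_⟩
      rw [eq_div_iff (h3 0)] at h5
      exact h5.symm
  refine ⟨T, ⟨?_, ?_⟩, ?_, fun Q hQp => hQ Q (hprime Q hQp)⟩
  · rw [hT]
    refine S.cast (S.and (S.forall_fin fun i : Fin 3 => hvar (γ := Fin 3 × Fin 2) (i, 1)) (hmem
      ((X (0, 0) * X (1, 1) + X (1, 0) * X (0, 1)) * X (2, 1) - X (2, 0) * (X (0, 1) * X (1, 1)) :
        MvPolynomial (Fin 3 × Fin 2) A))) ?_
    ext x
    simp only [Set.mem_ofPred_eq, map_sub, map_add, map_mul, eval_X]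
    constructor
    · rintro ⟨h1, h2⟩
      refine ⟨h1, ?_⟩
      have h3 := h1 0
      have h4 := h1 1
      have h5 := h1 2
      rw [div_add_div _ _ h3 h4, div_eq_div_iff (mul_ne_zero h3 h4) h5]
      linear_combination h2
    · rintro ⟨h1, h2⟩
      refine ⟨h1, ?_⟩
      have h3 := h1 0
      have h4 := h1 1
      have h5 := h1 2
      rw [div_add_div _ _ h3 h4, div_eq_div_iff (mul_ne_zero h3 h4) h5] at h2
      linear_combination h2
  · rw [hT]
    refine S.cast (S.and (S.forall_fin fun i : Fin 3 => hvar (γ := Fin 3 × Fin 2) (i, 1)) (hmem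
      ((X (0, 0) * X (1, 0)) * X (2, 1) - X (2, 0) * (X (0, 1) * X (1, 1)) :
        MvPolynomial (Fin 3 × Fin 2) A))) ?_
    ext x
    simp only [Set.mem_ofPred_eq, map_sub, map_mul, eval_X]
    constructor
    · rintro ⟨h1, h2⟩
      refine ⟨h1, ?_⟩
      have h3 := h1 0
      have h4 := h1 1
      have h5 := h1 2
      rw [div_mul_div_comm, div_eq_div_iff (mul_ne_zero h3 h4) h5]
      linear_combination h2
    · rintro ⟨h1, h2⟩
      refine ⟨h1, ?_⟩
      have h3 := h1 0
      have h4 := h1 1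
      have h5 := h1 2
      rw [div_mul_div_comm, div_eq_div_iff (mul_ne_zero h3 h4) h5] at h2
      linear_combination h2
  · have := hQ Set.univ (S.cast (S.univ (α := Fin 1)) (by ext x; simp))
    rwa [Set.image_univ] at this

open MTIM in
theorem specNLOC (hMTI : SpecMTI.{u}) : SpecNLOC.{u} := by
  intro A C _ _ _ ι hA hfrac F _ φ hφ
  set ψ : A →+* F := φ.comp ι with hψ
  have hunit : ∀ s : A, IsUnit (ι s) → ψ s ≠ 0 := fun s hs => (hs.map φ).ne_zero
  have hψf : IsFrac ψ := by
    intro y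
    obtain ⟨c1, c2, hc, h1⟩ := hφ y
    obtain ⟨a1, s1, hs1, h2⟩ := hfrac c1
    obtain ⟨a2, s2, hs2, h3⟩ := hfrac c2
    have h2' : φ c1 * ψ s1 = ψ a1 := by rw [hψ, RingHom.comp_apply, RingHom.comp_apply, ← h2, map_mul]
    have h3' : φ c2 * ψ s2 = ψ a2 := by rw [hψ, RingHom.comp_apply, RingHom.comp_apply, ← h3, map_mul]
    refine ⟨a1 * s2, a2 * s1, ?_, ?_⟩
    · rw [map_mul, ← h3']
      exact mul_ne_zero (mul_ne_zero hc (hunit s2 hs2)) (hunit s1 hs1)
    · rw [map_mul, map_mul, ← h3', ← h2']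
      linear_combination (ψ s1 * ψ s2) * h1
  obtain ⟨T, hT, hr, hprime⟩ := hMTI A hA F ψ hψf
  set q : Ideal A := (IsLocalRing.maximalIdeal C).comap ι with hq
  have hqp : q.IsPrime := Ideal.comap_isPrime ι _
  have hq1 := hprime q hqp
  have hker : RingHom.ker φ ≤ IsLocalRing.maximalIdeal C :=
    IsLocalRing.le_maximalIdeal (RingHom.ker_ne_top φ)
  refine ⟨T, hT, ?_⟩
  have h1 : T.Def {x : (Fin 1 ⊕ Unit) ⊕ Unit → F | x (Sum.inl (Sum.inr ())) ∈ Set.range ψ ∧
      (¬ x (Sum.inl (Sum.inr ())) ∈ ψ '' (q : Set A)) ∧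
      x (Sum.inr ()) ∈ Set.range ψ ∧
      x (Sum.inl (Sum.inl 0)) * x (Sum.inl (Sum.inr ())) = x (Sum.inr ())} :=
    T.and (T.mem₁ hr _) (T.and (T.not (T.mem₁ hq1 _)) (T.and (T.mem₁ hr _) (mul_var hT _ _ _)))
  have h2 : T.Def {x : Fin 1 ⊕ Unit → F | ∃ u : F, x (Sum.inr ()) ∈ Set.range ψ ∧
      (¬ x (Sum.inr ()) ∈ ψ '' (q : Set A)) ∧ u ∈ Set.range ψ ∧
      x (Sum.inl 0) * x (Sum.inr ()) = u} := T.ex₁ (T.cast h1 (by ext x; rfl))
  have h3 : T.Def {x : Fin 1 → F | ∃ v : F, ∃ u : F, v ∈ Set.range ψ ∧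
      (¬ v ∈ ψ '' (q : Set A)) ∧ u ∈ Set.range ψ ∧ x 0 * v = u} :=
    T.ex₁ (T.cast h2 (by ext x; rfl))
  refine T.cast h3 ?_
  ext x
  simp only [Set.mem_ofPred_eq, Set.mem_range]
  constructor
  · rintro ⟨v, u, ⟨s, rfl⟩, h4, ⟨a, rfl⟩, h5⟩
    have hs : IsUnit (ι s) := by
      by_contra h6
      exact h4 ⟨s, (IsLocalRing.mem_maximalIdeal _).2 h6, rfl⟩
    obtain ⟨w, hw⟩ := hs
    refine ⟨ι a * (w⁻¹ : Cˣ), ?_⟩
    have h6 : φ (w : C) ≠ 0 := (w.isUnit.map φ).ne_zero
    have h7 : φ ((w⁻¹ : Cˣ) : C) * φ (w : C) = 1 := by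
      rw [← map_mul, Units.inv_mul, map_one]
    have h8 : x 0 * φ (w : C) = φ (ι a) := by rw [hw]; exact h5
    rw [map_mul, ← h8, mul_assoc, mul_comm (φ (w : C)), h7, mul_one]
  · rintro ⟨c, hc⟩
    obtain ⟨a, s, hs, h4⟩ := hfrac c
    refine ⟨ψ s, ψ a, ⟨s, rfl⟩, ?_, ⟨a, rfl⟩, ?_⟩
    · rintro ⟨s', hs', h5⟩
      have h6 : ι s' - ι s ∈ RingHom.ker φ := by
        rw [RingHom.mem_ker, map_sub, sub_eq_zero]
        exact h5
      have h7 := hker h6
      have h8 : ι s ∈ IsLocalRing.maximalIdeal C := by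
        have h9 : ι s' ∈ IsLocalRing.maximalIdeal C := hs'
        have := Ideal.sub_mem _ h9 h7
        rwa [sub_sub_cancel] at this
      exact (IsLocalRing.mem_maximalIdeal _).1 h8 hs
    · rw [← hc, hψ, RingHom.comp_apply, RingHom.comp_apply, ← h4, map_mul]

end Pool.Agent.Lib.MP958bd4
end

section
/-!
# MP_958bd4_lc, module NIPEQ: the two forms of NIP agree
-/
set_option autoImplicit false

universe u

namespace Pool.Agent.Lib.MP958bd4

open FirstOrder FirstOrder.Language Filter

namespace NIPEQM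

variable {L : FirstOrder.Language.{0, 0}} {M : Type u} [L.Structure M]

/-! ### shattering is expressed by a sentence -/

/-- The formula which says that the points `x i` are shattered by the parameters `y s`. -/
noncomputable def shF {p q : ℕ} (φ : L.Formula (Fin p ⊕ Fin q)) (n : ℕ) :
    L.Formula (Empty ⊕ ((Fin n × Fin p) ⊕ (Set (Fin n) × Fin q))) :=
  open Classical in
  Formula.iInf fun r : Fin n × Set (Fin n) =>
    if r.1 ∈ r.2 then φ.relabel (Sum.elim (fun j => Sum.inr (Sum.inl (r.1, j)))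
      fun j => Sum.inr (Sum.inr (r.2, j)))
    else (φ.relabel (Sum.elim (fun j => Sum.inr (Sum.inl (r.1, j)))
      fun j => Sum.inr (Sum.inr (r.2, j)))).not

theorem realize_shF {p q : ℕ} (φ : L.Formula (Fin p ⊕ Fin q)) (n : ℕ)
    (v : Empty ⊕ ((Fin n × Fin p) ⊕ (Set (Fin n) × Fin q)) → M) :
    (shF φ n).Realize v ↔ ∀ (i : Fin n) (s : Set (Fin n)),
      φ.Realize (Sum.elim (fun j => v (Sum.inr (Sum.inl (i, j))))
        fun j => v (Sum.inr (Sum.inr (s, j)))) ↔ i ∈ s := by
  classical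
  unfold shF
  rw [Formula.realize_iInf]
  constructor
  · intro h i s
    have h1 := h (i, s)
    by_cases hi : i ∈ s
    · simp only [hi, if_true, Formula.realize_relabel] at h1
      simp only [hi, iff_true]
      convert! h1 using 2
      funext j
      rcases j with j | j <;> rfl
    · simp only [hi, if_false, Formula.realize_not, Formula.realize_relabel] at h1
      simp only [hi, iff_false]
      convert! h1 using 3
      funext j
      rcases j with j | j <;> rfl
  · rintro h ⟨i, s⟩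
    have h1 := h i s
    by_cases hi : i ∈ s
    · simp only [hi, iff_true] at h1
      simp only [hi, if_true, Formula.realize_relabel]
      convert! h1 using 2
      funext j
      rcases j with j | j <;> rfl
    · simp only [hi, iff_false] at h1
      simp only [hi, if_false, Formula.realize_not, Formula.realize_relabel]
      convert! h1 using 3
      funext j
      rcases j with j | j <;> rfl

/-- The sentence. -/
noncomputable def shS {p q : ℕ} (φ : L.Formula (Fin p ⊕ Fin q)) (n : ℕ) : L.Sentence :=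
  (shF φ n).iExs ((Fin n × Fin p) ⊕ (Set (Fin n) × Fin q))

theorem realize_shS {p q : ℕ} (φ : L.Formula (Fin p ⊕ Fin q)) (n : ℕ) :
    M ⊨ shS φ n ↔
      Shatters (fun (x : Fin p → M) (y : Fin q → M) => φ.Realize (Sum.elim x y)) n := by
  unfold shS Sentence.Realize
  rw [Formula.realize_iExs]
  constructor
  · rintro ⟨v, hv⟩
    rw [realize_shF] at hv
    exact ⟨fun i j => v (Sum.inl (i, j)), fun s j => v (Sum.inr (s, j)), hv⟩
  · rintro ⟨a, b, hab⟩
    refine ⟨Sum.elim (fun r => a r.1 r.2) (fun r => b r.1 r.2), ?_⟩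
    rw [realize_shF]
    exact hab

/-- Finite form implies the infinite form. -/
theorem isNIP_of_NIPf (h : NIPf L M) : IsNIP L M := by
  rintro p q φ ⟨N, _, hN, a, b, hab⟩
  obtain ⟨n, hn⟩ := h (Fin p) (Fin q) φ
  have h1 : N ⊨ shS φ n := by
    rw [realize_shS]
    refine ⟨fun i => a i, fun s => b {j | ∃ h : j < n, (⟨j, h⟩ : Fin n) ∈ s}, fun i s => ?_⟩
    change φ.Realize _ ↔ _
    rw [hab]
    simp
  by_cases h2 : M ⊨ shS φ n
  · exact hn ((realize_shS φ n).1 h2)
  · have h3 : (shS φ n).not ∈ L.completeTheory M := by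
      change M ⊨ (shS φ n).not
      rwa [Sentence.realize_not]
    have h4 : N ⊨ (shS φ n).not := Theory.realize_sentence_of_mem (L.completeTheory M) h3
    rw [Sentence.realize_not] at h4
    exact h4 h1

/-- The infinite form implies the finite form for `Fin`. -/
theorem shatters_of_IP [Nonempty M] {p q : ℕ} (φ : L.Formula (Fin p ⊕ Fin q))
    (h : ∀ n, Shatters (fun (x : Fin p → M) (y : Fin q → M) => φ.Realize (Sum.elim x y)) n) :
    HasIP.{u} (L.completeTheory M) φ := by
  classical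
  choose a b hab using h
  let U : Ultrafilter ℕ := hyperfilter ℕ
  let N : Type u := (U : Filter ℕ).Product fun _ : ℕ => M
  refine ⟨N, inferInstance, ?_, fun i j => ((fun n : ℕ => if h : i < n then a n ⟨i, h⟩ j else
    Classical.arbitrary M : ∀ _ : ℕ, M) : N), fun s j =>
      ((fun n : ℕ => b n {k : Fin n | (k : ℕ) ∈ s} j : ∀ _ : ℕ, M) : N), fun i s => ?_⟩
  · rw [Theory.model_iff]
    intro σ hσ
    have h1 : M ⊨ σ := hσ
    rw [Ultraproduct.sentence_realize]
    exact Eventually.of_forall fun _ => h1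
  · let x : Fin p ⊕ Fin q → ∀ _ : ℕ, M := Sum.elim (fun (j : Fin p) (n : ℕ) =>
      if h : i < n then a n ⟨i, h⟩ j else Classical.arbitrary M)
      (fun (j : Fin q) (n : ℕ) => b n {k : Fin n | (k : ℕ) ∈ s} j)
    have key := Ultraproduct.realize_formula_cast (M := fun _ : ℕ => M) (u := U) φ x
    refine Iff.trans (b := φ.Realize fun r =>
      (x r : (U : Filter ℕ).Product fun _ : ℕ => M)) ?_ (key.trans ?_)
    · refine iff_of_eq (congrArg φ.Realize ?_)
      funext r
      rcases r with r | r <;> rfl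
    have h2 : ∀ᶠ n : ℕ in U, i < n :=
      (Nat.hyperfilter_le_atTop) (eventually_gt_atTop i)
    have h3 : ∀ᶠ n : ℕ in U, (φ.Realize (fun r => x r n) ↔ i ∈ s) := by
      filter_upwards [h2] with n hn
      have h4 := hab n ⟨i, hn⟩ {k : Fin n | (k : ℕ) ∈ s}
      simp only [Set.mem_ofPred_eq] at h4
      rw [← h4]
      apply iff_of_eq
      congr 1
      funext r
      rcases r with r | r
      · simp [x, hn]
      · rfl
    constructor
    · intro h5
      obtain ⟨n, hn1, hn2⟩ := (h5.and h3).exists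
      exact hn2.1 hn1
    · intro h5
      filter_upwards [h3] with n hn
      exact hn.2 h5

theorem NIPf_of_isNIP [Nonempty M] (h : IsNIP L M) : NIPf L M := by
  intro α β _ _ φ
  by_contra hcon
  push Not at hcon
  let e := Finite.equivFin α
  let f := Finite.equivFin β
  refine h _ _ (φ.relabel (Sum.map e f)) (shatters_of_IP _ fun n => ?_)
  obtain ⟨a, b, hab⟩ := hcon n
  refine ⟨fun i => a i ∘ e.symm, fun s => b s ∘ f.symm, fun i s => ?_⟩
  change (φ.relabel (Sum.map e f)).Realize _ ↔ _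
  rw [Formula.realize_relabel, ← hab i s]
  have : Sum.elim (a i ∘ e.symm) (b s ∘ f.symm) ∘ Sum.map e f = Sum.elim (a i) (b s) := by
    funext j
    rcases j with j | j <;> simp
  rw [this]

end NIPEQM

theorem specNIPEQ : SpecNIPEQ.{u} := by
  intro R _
  letI := Ring.compatibleRingOfRing R
  exact ⟨fun h => NIPEQM.NIPf_of_isNIP h, fun h => NIPEQM.isNIP_of_NIPf h⟩

end Pool.Agent.Lib.MP958bd4
end

section
/-!
# MP_958bd4_lc, module NLOC: see the file MTI.lean (theorem specNLOC)
-/
end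

section
/-!
# MP_958bd4_lc: PAIR, two incomparable primes
-/
set_option autoImplicit false

universe u

namespace Pool.Agent.Lib.MP958bd4

open Polynomial Topology Filter IsLocalRing

namespace PAIRM

variable {A F : Type u} [CommRing A] [IsDomain A] [Field F] [Algebra A F] [IsFractionRing A F]

omit [IsDomain A] in
theorem map_ne_zero {s : A} (hs : s ≠ 0) : algebraMap A F s ≠ 0 := fun h =>
  hs (IsFractionRing.injective A F (by rw [h, map_zero]))

/-- the localization inside the fraction field -/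
theorem exists_alg (p : Ideal A) [p.IsPrime] :
    ∃ (_ : Algebra (Localization.AtPrime p) F), IsFractionRing (Localization.AtPrime p) F ∧
      Set.range (algebraMap (Localization.AtPrime p) F) = locSet (algebraMap A F) p ∧
      ∀ y, (∃ c ∈ maximalIdeal (Localization.AtPrime p), algebraMap _ F c = y) ↔
        y ∈ locMax (algebraMap A F) p := by
  have hne : ∀ s : A, s ∉ p → algebraMap A F s ≠ 0 := by
    intro s hs
    refine map_ne_zero ?_
    rintro rfl
    exact hs p.zero_mem
  have hu : ∀ y : p.primeCompl, IsUnit (algebraMap A F y) := fun y =>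
    isUnit_iff_ne_zero.mpr (hne y.1 y.2)
  let ψ : Localization.AtPrime p →+* F := IsLocalization.lift hu
  have hψ : ∀ a : A, ψ (algebraMap A _ a) = algebraMap A F a := fun a =>
    IsLocalization.lift_eq hu a
  let _ : Algebra (Localization.AtPrime p) F := ψ.toAlgebra
  have hal : ∀ c, algebraMap (Localization.AtPrime p) F c = ψ c := fun c => rfl
  have : IsScalarTower A (Localization.AtPrime p) F :=
    IsScalarTower.of_algebraMap_eq fun a => (hψ a).symm
  have hmk : ∀ (a s : A) (hs : s ∉ p),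
      ψ (IsLocalization.mk' (Localization.AtPrime p) a (⟨s, hs⟩ : p.primeCompl)) *
        algebraMap A F s = algebraMap A F a := by
    intro a s hs
    rw [← hψ s, ← hψ a, ← map_mul]
    congr 1
    exact IsLocalization.mk'_spec (Localization.AtPrime p) a (⟨s, hs⟩ : p.primeCompl)
  refine ⟨inferInstance,
    IsFractionRing.isFractionRing_of_isDomain_of_isLocalization p.primeCompl _ F, ?_, ?_⟩
  · ext y
    constructor
    · rintro ⟨c, rfl⟩
      obtain ⟨a, s, rfl⟩ := IsLocalization.exists_mk'_eq p.primeCompl c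
      exact ⟨a, s.1, s.2, hmk a s.1 s.2⟩
    · rintro ⟨a, s, hs, h⟩
      refine ⟨IsLocalization.mk' _ a (⟨s, hs⟩ : p.primeCompl), ?_⟩
      have := hmk a s hs
      rw [← h] at this
      exact mul_right_cancel₀ (hne s hs) this
  · intro y
    constructor
    · rintro ⟨c, hc, rfl⟩
      obtain ⟨a, s, rfl⟩ := IsLocalization.exists_mk'_eq p.primeCompl c
      refine ⟨a, s.1, ?_, s.2, hmk a s.1 s.2⟩
      exact (IsLocalization.AtPrime.mk'_mem_maximal_iff (Localization.AtPrime p) p a s).1 hc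
    · rintro ⟨a, s, ha, hs, h⟩
      refine ⟨IsLocalization.mk' _ a (⟨s, hs⟩ : p.primeCompl),
        (IsLocalization.AtPrime.mk'_mem_maximal_iff (Localization.AtPrime p) p a
          (⟨s, hs⟩ : p.primeCompl)).2 ha, ?_⟩
      have := hmk a s hs
      rw [← h] at this
      exact mul_right_cancel₀ (hne s hs) this

theorem not_isField {p : Ideal A} [p.IsPrime] (hp : p ≠ ⊥) :
    ¬ IsField (Localization.AtPrime p) := by
  intro h
  obtain ⟨x, hx, hx0⟩ := Submodule.exists_mem_ne_zero_of_ne_bot hp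
  have h1 : algebraMap A (Localization.AtPrime p) x ∈ maximalIdeal (Localization.AtPrime p) :=
    (IsLocalization.AtPrime.to_map_mem_maximal_iff (Localization.AtPrime p) p x).2 hx
  have h2 := IsLocalRing.isField_iff_maximalIdeal_eq.1 h
  rw [h2, Ideal.mem_bot] at h1
  have h3 := IsLocalization.injective (Localization.AtPrime p) p.primeCompl_le_nonZeroDivisors
  exact hx0 (h3 (by rw [h1, map_zero]))

omit [IsDomain A] in
/-- the sets `locMax` are in the system -/
theorem def_locMax {S : DefSys F} (hD : SpecDPOLY.{u}) (hS : S.IsRing) {p : Ideal A}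
    (hA : S.Def₁ (Set.range (algebraMap A F)))
    (hp : S.Def₁ (algebraMap A F '' (p : Set A))) : S.Def₁ (locMax (algebraMap A F) p) := by
  have h : S.Def {z : Fin 1 → F | ∃ a, ∃ s, a ∈ algebraMap A F '' (p : Set A) ∧
      s ∈ Set.range (algebraMap A F) ∧ ¬ s ∈ algebraMap A F '' (p : Set A) ∧ z 0 * s = a} := by
    refine S.ex₁ (p := fun z a => ∃ s, a ∈ algebraMap A F '' (p : Set A) ∧
      s ∈ Set.range (algebraMap A F) ∧ ¬ s ∈ algebraMap A F '' (p : Set A) ∧ z 0 * s = a) ?_
    refine S.ex₁ (p := fun (z : Fin 1 ⊕ Unit → F) s =>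
      z (Sum.inr ()) ∈ algebraMap A F '' (p : Set A) ∧
      s ∈ Set.range (algebraMap A F) ∧ ¬ s ∈ algebraMap A F '' (p : Set A) ∧
      z (Sum.inl 0) * s = z (Sum.inr ())) ?_
    refine S.and (S.mem₁ hp _) (S.and (S.mem₁ hA _) (S.and (S.not (S.mem₁ hp _)) ?_))
    have h := hD F S hS ((Fin 1 ⊕ Unit) ⊕ Unit) (Fin 2) {y | y 0 = y 1}
      ![MvPolynomial.X (Sum.inl (Sum.inl 0)) * MvPolynomial.X (Sum.inr ()),
        MvPolynomial.X (Sum.inl (Sum.inr ()))] S.diag
    refine S.cast h ?_
    ext x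
    simp
  refine S.cast h ?_
  ext z
  constructor
  · rintro ⟨a, s, ⟨a', ha', rfl⟩, ⟨s', rfl⟩, hs, h⟩
    exact ⟨a', s', ha', fun hs' => hs ⟨s', hs', rfl⟩, h⟩
  · rintro ⟨a, s, ha, hs, h⟩
    refine ⟨algebraMap A F a, algebraMap A F s, ⟨a, ha, rfl⟩, ⟨s, rfl⟩, ?_, h⟩
    rintro ⟨s', hs', he⟩
    exact hs (IsFractionRing.injective A F he ▸ hs')

/-- the relation is in the system -/
theorem def_rel (hD : SpecDPOLY.{u}) {S : DefSys F} (hS : S.IsRing)
    {M U : Set F} (hM : S.Def₁ M) (hU : S.Def₁ U) (q : ℕ) :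
    S.Def {z : Fin 1 ⊕ Fin 1 → F | ∃ y, y ^ q - y = z (Sum.inl 0) * z (Sum.inr 0) ∧
      y ∈ M ∧ y ∈ U} := by
  refine S.ex₁ (p := fun z y => y ^ q - y = z (Sum.inl 0) * z (Sum.inr 0) ∧
      y ∈ M ∧ y ∈ U) ?_
  refine S.and ?_ (S.and (S.mem₁ hM _) (S.mem₁ hU _))
  have h := hD F S hS ((Fin 1 ⊕ Fin 1) ⊕ Unit) (Fin 2) {y | y 0 = y 1}
    ![MvPolynomial.X (Sum.inr ()) ^ q - MvPolynomial.X (Sum.inr ()),
      MvPolynomial.X (Sum.inl (Sum.inl 0)) * MvPolynomial.X (Sum.inl (Sum.inr 0))] S.diag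
  refine S.cast h ?_
  ext x
  simp

theorem contra (hD : SpecDPOLY.{u}) {S : DefSys F} (hS : S.IsRing)
    {M U : Set F} (hM : S.Def₁ M) (hU : S.Def₁ U) (q : ℕ)
    (h : ∀ m : ℕ, ∃ (a : Fin m → F) (x : Set (Fin m) → F), ∀ k s,
      (∃ y : F, y ^ q - y = a k * x s ∧ y ∈ M ∧ y ∈ U) ↔ k ∈ s) : False := by
  refine S.false_of_shatters (def_rel hD hS hM hU q) fun m => ?_
  obtain ⟨a, x, hax⟩ := h m
  refine ⟨fun i _ => a i, fun s _ => x s, fun i s => ?_⟩
  rw [← hax i s]
  rfl

end PAIRM

open PAIRM in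
theorem specPAIR (hM : SpecMTI.{u}) (hI : SpecIND2.{u}) (hR : SpecRTOP.{u}) (hH : SpecHTOP.{u})
    (hIPP : SpecIPP.{u}) (hL : SpecLEMA.{u}) (hX : SpecX.{u}) (hD : SpecDPOLY.{u}) :
    SpecPAIR.{u} := by
  intro hSC A _ _ hnip p₁ p₂ _ _ h12 h21 hcom N hN hU1 hU2
  have hp1 : p₁ ≠ ⊥ := fun h => h12 (h ▸ bot_le)
  have hp2 : p₂ ≠ ⊥ := fun h => h21 (h ▸ bot_le)
  obtain ⟨F, hF⟩ : ∃ F : Type u, F = FractionRing A := ⟨_, rfl⟩
  obtain ⟨_, _, _, _⟩ : ∃ (_ : Field F) (_ : Algebra A F) (_ : IsFractionRing A F), True := by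
    subst hF
    exact ⟨inferInstance, inferInstance, inferInstance, trivial⟩
  obtain ⟨alg1, fr1, r1, m1⟩ := exists_alg (F := F) p₁
  obtain ⟨alg2, fr2, r2, m2⟩ := exists_alg (F := F) p₂
  have hφ : IsFrac (algebraMap A F) := by
    intro y
    obtain ⟨a, s, hs, hy⟩ := IsFractionRing.div_surjective (A := A) y
    have hs0 : algebraMap A F s ≠ 0 := map_ne_zero (nonZeroDivisors.ne_zero hs)
    refine ⟨a, s, hs0, ?_⟩
    rw [← hy, div_mul_cancel₀ _ hs0]
  obtain ⟨S, hS, hA, hQ⟩ := hM A hnip F (algebraMap A F) hφ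
  have dM1 := def_locMax hD hS hA (hQ p₁ inferInstance)
  have dM2 := def_locMax hD hS hA (hQ p₂ inferInstance)
  obtain ⟨t, ht, hb⟩ := hR (Localization.AtPrime p₂) F (not_isField hp2)
  let _ : TopologicalSpace F := t
  have : TopField F := ht
  have hb' : ∀ s : Set F, s ∈ 𝓝 (0 : F) ↔ ∃ c : F, c ≠ 0 ∧
      ∀ b : Localization.AtPrime p₂, c * algebraMap _ F b ∈ s := hb
  -- independence
  have hind : IndepSet (Set.range (algebraMap (Localization.AtPrime p₁) F)) := by
    intro y c hc V hV hVn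
    obtain ⟨v, hv⟩ := hVn
    have h1 : (fun x : F => v + x) ⁻¹' V ∈ 𝓝 (0 : F) := by
      have hc1 : Continuous fun x : F => v + x := continuous_const.add continuous_id'
      have h0 : V ∈ 𝓝 ((fun x : F => v + x) 0) := by
        simpa using hV.mem_nhds hv
      exact hc1.continuousAt.preimage_mem_nhds h0
    obtain ⟨c', hc', h2⟩ := (hb' _).1 h1
    obtain ⟨w, hw, w', hw', he⟩ := hI A F p₁ p₂ inferInstance inferInstance h12 h21 hcom c c'
      (v - y) hc hc'
    rw [← r1] at hw
    rw [← r2] at hw'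
    obtain ⟨b', rfl⟩ := hw'
    refine ⟨w, hw, ?_⟩
    have h3 := h2 (-b')
    have h4 : y + c * w = v + c' * algebraMap _ F (-b') := by
      rw [map_neg]
      linear_combination -he
    rw [h4]
    exact h3
  -- the neighbourhood `m` of zero
  have hU0 : locMax (algebraMap A F) p₂ ∈ 𝓝 (0 : F) := by
    rw [hb']
    obtain ⟨x, hx, hx0⟩ := Submodule.exists_mem_ne_zero_of_ne_bot hp2
    refine ⟨algebraMap A F x, map_ne_zero hx0, fun b => ?_⟩
    have h1 : algebraMap (Localization.AtPrime p₂) F b ∈ locSet (algebraMap A F) p₂ := by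
      rw [← r2]; exact ⟨b, rfl⟩
    obtain ⟨a, s, hs, h2⟩ := h1
    refine ⟨x * a, s, p₂.mul_mem_right _ hx, hs, ?_⟩
    rw [mul_assoc, h2, map_mul]
  have hU1' : (locMax (algebraMap A F) p₂)ᶜ ∈ 𝓝 (1 : F) := by
    have h1 : (fun x : F => x - 1) ⁻¹' (locMax (algebraMap A F) p₂) ∈ 𝓝 (1 : F) := by
      have hc1 : Continuous fun x : F => x - 1 := continuous_id'.sub continuous_const
      have h0 : locMax (algebraMap A F) p₂ ∈ 𝓝 ((fun x : F => x - 1) 1) := by
        simpa using hU0
      exact hc1.continuousAt.preimage_mem_nhds h0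
    refine mem_of_superset h1 fun x hx hx' => ?_
    rw [Set.mem_preimage, ← m2] at hx
    rw [← m2] at hx'
    obtain ⟨c, hc, hcx⟩ := hx
    obtain ⟨c', hc', hcx'⟩ := hx'
    have h2 : c' - c = 1 := by
      apply IsFractionRing.injective (Localization.AtPrime p₂) F
      rw [map_sub, hcx, hcx', map_one]
      ring
    have h3 : (1 : Localization.AtPrime p₂) ∈ maximalIdeal (Localization.AtPrime p₂) := by
      rw [← h2]
      exact Ideal.sub_mem _ hc' hc
    exact (Ideal.ne_top_iff_one _).1 (maximalIdeal.isMaximal _).ne_top h3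
  obtain ⟨q, hq⟩ := CharP.exists F
  rcases CharP.char_is_prime_or_zero F q with hpr | h0
  · have : Fact q.Prime := ⟨hpr⟩
    refine contra hD hS dM1 dM2 q fun m => ?_
    obtain ⟨a, x, h⟩ := hIPP q m (Localization.AtPrime p₁) F (not_isField hp1) hind _ hU0 hU1'
    refine ⟨a, x, fun k s => ?_⟩
    rw [← h k s]
    simp only [m1]
  · subst h0
    have : CharZero F := CharP.charP_to_charZero F
    have hen1 : HenselianLocalRing (Localization.AtPrime p₁) := hX hSC A hnip p₁ N hN hU1
    have hen2 : HenselianLocalRing (Localization.AtPrime p₂) := hX hSC A hnip p₂ N hN hU2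
    have hTH : THens F := hH (Localization.AtPrime p₂) F t (not_isField hp2) ⟨ht, hb⟩
    refine contra hD hS dM1 dM2 2 fun m => ?_
    obtain ⟨n, hn⟩ := hL m
    have hlift : LiftSplit n (Localization.AtPrime p₁) F := by
      intro g hg _ _ a ha hu
      obtain ⟨b, hb1, hb2⟩ := HenselianLocalRing.is_henselian g hg a ha hu
      exact ⟨b, hb1, hb2⟩
    obtain ⟨a, x, h⟩ := hn (Localization.AtPrime p₁) F hTH (not_isField hp1) hind hlift _ hU0 hU1'
    refine ⟨a, x, fun k s => ?_⟩
    rw [← h k s]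
    simp only [m1]

end Pool.Agent.Lib.MP958bd4
end

section
/-!
# MP_958bd4_lc, module QNIP: see the file MTI.lean (theorem specQNIP)
-/
end

section
/-!
# MP_958bd4_lc, module SHE: the externally definable sets of a NIP structure form a NIP system
-/
set_option autoImplicit false

universe u

namespace Pool.Agent.Lib.MP958bd4

open FirstOrder FirstOrder.Language

namespace SHEM

variable {L : FirstOrder.Language.{0, 0}} {M : Type u} [L.Structure M]

/-- Projections, from honest definitions. -/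
theorem proj {α β : Type} [Finite β] {s : Set (α ⊕ β → M)} (h : HIdeal L s s) :
    ExtDef L M {x : α → M | ∃ y : β → M, Sum.elim x y ∈ s} := by
  obtain ⟨-, γ, hγ, θ, hθ⟩ := h
  let e : (α ⊕ β) ⊕ γ → (α ⊕ γ) ⊕ β :=
    Sum.elim (Sum.elim (fun a => Sum.inl (Sum.inl a)) Sum.inr) fun c => Sum.inl (Sum.inr c)
  have he : ∀ (x : α → M) (d : γ → M) (y : β → M),
      Sum.elim (Sum.elim x d) y ∘ e = Sum.elim (Sum.elim x y) d := by
    intro x d y
    funext j
    rcases j with (j | j) | j <;> rfl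
  refine ⟨γ, hγ, (θ.relabel e).iExs β, fun X0 hX => ?_⟩
  let T : Set (α → M) := {x | x ∈ X0 ∧ ∃ y : β → M, Sum.elim x y ∈ s}
  have hT : T.Finite := hX.subset fun x hx => hx.1
  have : Finite T := hT.to_subtype
  let g : T → (α ⊕ β → M) := fun x => Sum.elim x.1 x.2.2.choose
  obtain ⟨d, hd1, hd2⟩ := hθ (Set.range g) (Set.finite_range g) (by
    rintro _ ⟨x, rfl⟩
    exact x.2.2.choose_spec)
  refine ⟨d, fun x hx => ?_⟩
  rw [Formula.realize_iExs]
  constructor
  · intro hxs
    refine ⟨(⟨hx, hxs⟩ : x ∈ T).2.choose, ?_⟩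
    rw [Formula.realize_relabel, he]
    exact hd1 _ ⟨⟨x, hx, hxs⟩, rfl⟩
  · rintro ⟨y, hy⟩
    rw [Formula.realize_relabel, he] at hy
    exact ⟨y, hd2 _ hy⟩

theorem diag : ExtDef L M {x : Fin 2 → M | x 0 = x 1} := by
  have := EXTM.of_formula (M := M) (Term.equal (L := L) (Term.var (0 : Fin 2)) (Term.var (1 : Fin 2)))
  simpa [Formula.realize_equal] using this

theorem sing (c : M) : ExtDef L M {x : Fin 1 → M | x 0 = c} := by
  refine ⟨Fin 1, inferInstance, Term.equal (Term.var (Sum.inl 0)) (Term.var (Sum.inr 0)),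
    fun Y0 _ => ⟨fun _ => c, fun y _ => ?_⟩⟩
  rw [Formula.realize_equal]
  rfl

/-- The NIP system of the externally definable sets. -/
def sys (hHD : SpecHD.{u}) [Nonempty M] (hN : NIPf L M) : DefSys M where
  Def {_} s := ExtDef L M s
  compl h := EXTM.compl h
  inter hs ht := EXTM.inter hs ht
  comap f _ hs := EXTM.comap f hs
  proj hs := proj (hHD L M hN _ _ hs)
  diag := diag
  sing := sing
  nip hs := EXTM.nip hN hs

end SHEM

theorem specSHE (hHD : SpecHD.{u}) : SpecSHE.{u} := by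
  intro L M _ _ hN
  exact ⟨SHEM.sys hHD hN, fun α _ s => Iff.rfl⟩

end Pool.Agent.Lib.MP958bd4
end

section
/-!
# MP_958bd4_lc, module RSYS: the externally definable sets of a NIP ring; prime ideals
-/
set_option autoImplicit false

universe u

namespace Pool.Agent.Lib.MP958bd4

open FirstOrder FirstOrder.Language

namespace RSYSM

variable {A : Type u} [CommRing A]

theorem add_ext : letI := Ring.compatibleRingOfRing A
    ExtDef Language.ring A {x : Fin 3 → A | x 0 + x 1 = x 2} := by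
  letI := Ring.compatibleRingOfRing A
  have := EXTM.of_formula (M := A) (Term.equal (L := Language.ring)
    ((Term.var (0 : Fin 3)) + (Term.var (1 : Fin 3))) (Term.var (2 : Fin 3)))
  simpa [Formula.realize_equal] using this

theorem mul_ext : letI := Ring.compatibleRingOfRing A
    ExtDef Language.ring A {x : Fin 3 → A | x 0 * x 1 = x 2} := by
  letI := Ring.compatibleRingOfRing A
  have := EXTM.of_formula (M := A) (Term.equal (L := Language.ring)
    ((Term.var (0 : Fin 3)) * (Term.var (1 : Fin 3))) (Term.var (2 : Fin 3)))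
  simpa [Formula.realize_equal] using this

theorem prime_ext (P : Ideal A) (hP : P.IsPrime) : letI := Ring.compatibleRingOfRing A
    ExtDef Language.ring A {x : Fin 1 → A | x 0 ∈ P} := by
  classical
  letI := Ring.compatibleRingOfRing A
  -- the formula `¬ ∃ z, x * z = t`
  let ψ : Language.ring.Formula ((Fin 1 ⊕ Fin 1) ⊕ Fin 1) :=
    Term.equal (Term.var (Sum.inl (Sum.inl 0)) * Term.var (Sum.inr 0)) (Term.var (Sum.inl (Sum.inr 0)))
  refine ⟨Fin 1, inferInstance, (ψ.iExs (Fin 1)).not, fun Y0 hY => ?_⟩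
  let T : Finset (Fin 1 → A) := hY.toFinset.filter fun y => y 0 ∉ P
  let t : A := ∏ y ∈ T, y 0
  have ht : t ∉ P := by
    intro h
    obtain ⟨y, hy, hyP⟩ := (hP.prod_mem_iff).1 h
    exact (Finset.mem_filter.1 hy).2 hyP
  refine ⟨fun _ => t, fun y hy => ?_⟩
  rw [Formula.realize_not, Formula.realize_iExs]
  constructor
  · rintro hyP ⟨z, hz⟩
    have h1 : y 0 * z 0 = t := by simpa [ψ, Formula.realize_equal] using hz
    exact ht (h1 ▸ P.mul_mem_right _ hyP)
  · intro h
    by_contra hyP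
    apply h
    have hyT : y ∈ T := Finset.mem_filter.2 ⟨hY.mem_toFinset.2 hy, hyP⟩
    obtain ⟨z, hz⟩ := Finset.dvd_prod_of_mem (fun y : Fin 1 → A => y 0) hyT
    refine ⟨fun _ => z, ?_⟩
    have h1 : y 0 * z = t := hz.symm
    simpa [ψ, Formula.realize_equal] using h1

end RSYSM

theorem specRSYS (hSHE : SpecSHE.{u}) : SpecRSYS.{u} := by
  intro A _ hA
  letI := Ring.compatibleRingOfRing A
  obtain ⟨S, hS⟩ := hSHE Language.ring A hA
  exact ⟨S, ⟨(hS _ _).2 RSYSM.add_ext, (hS _ _).2 RSYSM.mul_ext⟩,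
    fun P hP => (hS _ _).2 (RSYSM.prime_ext P hP)⟩

end Pool.Agent.Lib.MP958bd4
end

section
/-!
# MP_958bd4_lc: module SCT
-/
set_option autoImplicit false

universe u

namespace Pool.Agent.Lib.MP958bd4

open Polynomial Topology Filter

namespace SCTM

/-- the maximal ideal of a valuation subring as a subset of the field -/
def mx {F : Type u} [Field F] (O : ValuationSubring F) : Set F :=
  {y | y = 0 ∨ ∃ z, y * z = 1 ∧ z ∉ O}

theorem mem_of_mx {F : Type u} [Field F] {O : ValuationSubring F} {y : F} (h : y ∈ mx O) :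
    y ∈ O := by
  rcases h with rfl | ⟨z, hz, hz'⟩
  · exact O.zero_mem
  · have : z = y⁻¹ := by rw [eq_comm, inv_eq_of_mul_eq_one_right hz]
    rcases O.mem_or_inv_mem y with h | h
    · exact h
    · exact absurd (this ▸ h) hz'

theorem mul_mem_mx {F : Type u} [Field F] {O : ValuationSubring F} {y b : F} (h : y ∈ mx O)
    (hb : b ∈ O) : y * b ∈ mx O := by
  by_cases h0 : y * b = 0
  · exact Or.inl h0
  right
  refine ⟨(y * b)⁻¹, mul_inv_cancel₀ h0, fun hc => ?_⟩
  have hy : y ≠ 0 := fun h => h0 (by rw [h, zero_mul])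
  have hb0 : b ≠ 0 := fun h => h0 (by rw [h, mul_zero])
  rcases h with h | ⟨z, hz, hz'⟩
  · exact hy h
  · apply hz'
    have : z = (y * b)⁻¹ * b := by
      rw [mul_inv, mul_assoc, inv_mul_cancel₀ hb0, mul_one]
      exact (inv_eq_of_mul_eq_one_right hz).symm
    rw [this]
    exact O.mul_mem _ _ hc hb

theorem one_notMem_mx {F : Type u} [Field F] {O : ValuationSubring F} : (1 : F) ∉ mx O := by
  rintro (h | ⟨z, hz, hz'⟩)
  · exact one_ne_zero h
  · rw [one_mul] at hz
    exact hz' (hz ▸ O.one_mem)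

theorem sub_mem_mx {F : Type u} [Field F] {O : ValuationSubring F} {x y : F} (hx : x ∈ mx O)
    (hy : y ∈ mx O) : x - y ∈ mx O := by
  by_cases hx0 : x = 0
  · rw [hx0, zero_sub, ← mul_neg_one]
    exact mul_mem_mx hy (O.neg_mem _ O.one_mem)
  by_cases hy0 : y = 0
  · rwa [hy0, sub_zero]
  rcases O.mem_or_inv_mem (x / y) with h | h
  · have : x - y = y * (x / y - 1) := by field_simp
    rw [this]
    exact mul_mem_mx hy (O.sub_mem h O.one_mem)
  · have : x - y = x * (1 - (x / y)⁻¹) := by field_simp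
    rw [this]
    exact mul_mem_mx hx (O.sub_mem O.one_mem h)

theorem exists_mx {F : Type u} [Field F] {O : ValuationSubring F} (h : O ≠ ⊤) :
    ∃ c ∈ mx O, c ≠ 0 := by
  obtain ⟨y, hy⟩ : ∃ y, y ∉ O := by
    by_contra hc
    push Not at hc
    exact h (by ext x; exact ⟨fun _ => trivial, fun _ => hc x⟩)
  have hy0 : y ≠ 0 := by rintro rfl; exact hy O.zero_mem
  exact ⟨y⁻¹, Or.inr ⟨y, inv_mul_cancel₀ hy0, hy⟩, inv_ne_zero hy0⟩

end SCTM

theorem specSCT (hNIPEQ : SpecNIPEQ.{u}) (hINT : SpecINT.{u}) (hDPOLY : SpecDPOLY.{u})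
    (hRTOP : SpecRTOP.{u}) (hHTOP : SpecHTOP.{u}) (hVTOP : SpecVTOP.{u}) (hRCF : SpecRCF.{u}) :
    SpecSCT.{u} := by
  intro hSC F _ S hS hinf hsep
  obtain ⟨hnip, hdef⟩ := hINT F S hS
  rcases hSC F ((hNIPEQ F).2 hnip) with h | h | h | ⟨O, hO, hhens, hOdef⟩
  · exact absurd hinf (not_infinite_iff_finite.2 h)
  · exact absurd h hsep
  · obtain ⟨t, h1, h2, h3, h4, h5⟩ := hRCF F h
    refine ⟨t, h1, h2, h3, _, ?_, h4, h5⟩
    show S.Def {x : Fin 1 → F | ∃ z : F, z ≠ 0 ∧ z ^ 2 = 1 - 4 * x 0 ^ 2}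
    refine S.ex₁ (p := fun x z => z ≠ 0 ∧ z ^ 2 = 1 - 4 * x 0 ^ 2) ?_
    refine S.and (S.not (S.eq_const _ 0)) ?_
    have := hDPOLY F S hS (Fin 1 ⊕ Unit) (Fin 1) _
      (fun _ => MvPolynomial.X (Sum.inr ()) ^ 2 + 4 * MvPolynomial.X (Sum.inl 0) ^ 2) (S.sing 1)
    refine S.cast this ?_
    ext x
    simp only [Set.mem_ofPred_eq, map_add, map_pow, MvPolynomial.eval_X, map_mul, map_ofNat,
      Function.comp]
    exact ⟨fun h => by linear_combination h, fun h => by linear_combination h⟩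
  · obtain ⟨c, hc, hc0⟩ := SCTM.exists_mx hO
    have hnf : ¬ IsField O := by
      intro hf
      have hcO := SCTM.mem_of_mx hc
      obtain ⟨d, hd⟩ := hf.mul_inv_cancel (a := ⟨c, hcO⟩) (by
        intro h; exact hc0 (congrArg Subtype.val h))
      have hd' : c * d = 1 := congrArg Subtype.val hd
      exact SCTM.one_notMem_mx (hd' ▸ SCTM.mul_mem_mx hc d.2)
    obtain ⟨t, ht⟩ := hRTOP O F hnf
    have hTF : @TopField F _ t := ht.1
    have hU : SCTM.mx O ∈ @nhds F t 0 :=
      (ht.2 _).2 ⟨c, hc0, fun b => SCTM.mul_mem_mx hc b.2⟩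
    refine ⟨t, ht.1, hHTOP O F t hnf ht, hVTOP F O t ht, SCTM.mx O, ?_, hU, ?_⟩
    · have hOS : S.Def₁ (O : Set F) := hdef _ hOdef
      show S.Def {x : Fin 1 → F | x 0 = 0 ∨ ∃ z, x 0 * z = 1 ∧ z ∉ O}
      refine S.or (S.eq_const _ 0) (S.ex₁ (p := fun x z => x 0 * z = 1 ∧ z ∉ O) ?_)
      refine S.and ?_ (S.not (S.mem₁ hOS _))
      have := hDPOLY F S hS (Fin 1 ⊕ Unit) (Fin 1) _
        (fun _ => MvPolynomial.X (Sum.inl 0) * MvPolynomial.X (Sum.inr ())) (S.sing 1)
      refine S.cast this ?_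
      ext x
      simp only [Set.mem_ofPred_eq, MvPolynomial.eval_X, map_mul, Function.comp]
    · let := t
      have h1 : Tendsto (fun x : F => x - 1) (𝓝 1) (𝓝 0) := by
        have : Continuous fun x : F => x - 1 := by fun_prop
        simpa using this.tendsto 1
      filter_upwards [h1 hU] with x hx hx'
      apply SCTM.one_notMem_mx (O := O)
      have := SCTM.sub_mem_mx hx' hx
      rwa [show x - (x - 1) = 1 by ring] at this

end Pool.Agent.Lib.MP958bd4
end

section
/-!
# MP_958bd4_lc: T1N, no long chains of good primes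
-/
set_option autoImplicit false

universe u

namespace Pool.Agent.Lib.MP958bd4

namespace T1NM

/-- the relation of T1 is in the system -/
theorem def_rel (hD : SpecDPOLY.{u}) {F : Type u} [Field F] (S : DefSys F) (hS : S.IsRing)
    {E : Set F} (hE : S.Def₁ E) (D : ℕ) :
    S.Def {z : Fin 2 ⊕ Fin D → F | ∃ ε, ∃ c, ε ∈ E ∧ c ∈ E ∧
      ε ^ D + ∑ j : Fin D, z (Sum.inr j) * z (Sum.inl 0) ^ (D - (j : ℕ)) * ε ^ (j : ℕ)
        = z (Sum.inl 1) * c} := by
  refine S.ex₁ (p := fun z ε => ∃ c, ε ∈ E ∧ c ∈ E ∧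
      ε ^ D + ∑ j : Fin D, z (Sum.inr j) * z (Sum.inl 0) ^ (D - (j : ℕ)) * ε ^ (j : ℕ)
        = z (Sum.inl 1) * c) ?_
  refine S.ex₁ (p := fun (z : (Fin 2 ⊕ Fin D) ⊕ Unit → F) c => z (Sum.inr ()) ∈ E ∧ c ∈ E ∧
      z (Sum.inr ()) ^ D + ∑ j : Fin D, z (Sum.inl (Sum.inr j)) *
        z (Sum.inl (Sum.inl 0)) ^ (D - (j : ℕ)) * z (Sum.inr ()) ^ (j : ℕ)
        = z (Sum.inl (Sum.inl 1)) * c) ?_
  refine S.and (S.mem₁ hE _) (S.and (S.mem₁ hE _) ?_)
  have h := hD F S hS (((Fin 2 ⊕ Fin D) ⊕ Unit) ⊕ Unit) (Fin 2) {y | y 0 = y 1}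
    ![MvPolynomial.X (Sum.inl (Sum.inr ())) ^ D + ∑ j : Fin D,
        MvPolynomial.X (Sum.inl (Sum.inl (Sum.inr j))) *
        MvPolynomial.X (Sum.inl (Sum.inl (Sum.inl 0))) ^ (D - (j : ℕ)) *
        MvPolynomial.X (Sum.inl (Sum.inr ())) ^ (j : ℕ),
      MvPolynomial.X (Sum.inl (Sum.inl (Sum.inl 1))) * MvPolynomial.X (Sum.inr ())] S.diag
  refine S.cast h ?_
  ext x
  simp

end T1NM

theorem specT1N (h1 : SpecT1.{u}) (hD : SpecDPOLY.{u}) : SpecT1N.{u} := by
  intro C _ _ N D hN hD2 hUC hNL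
  by_contra hcon
  push Not at hcon
  have hφ : IsFrac (algebraMap C (FractionRing C)) := by
    intro y
    obtain ⟨a, s, hs, hy⟩ := IsFractionRing.div_surjective (A := C) y
    refine ⟨a, s, ?_, ?_⟩
    · exact fun h => nonZeroDivisors.ne_zero hs
        ((IsFractionRing.injective C (FractionRing C)) (by rw [h, map_zero]))
    · have hs0 : algebraMap C (FractionRing C) s ≠ 0 := fun h => nonZeroDivisors.ne_zero hs
        ((IsFractionRing.injective C (FractionRing C)) (by rw [h, map_zero]))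
      rw [← hy, div_mul_cancel₀ _ hs0]
  obtain ⟨S, hS, hE⟩ := hNL (FractionRing C) (algebraMap C (FractionRing C)) hφ
  have inj := IsFractionRing.injective C (FractionRing C)
  refine S.false_of_shatters (T1NM.def_rel hD S hS hE D) fun k => ?_
  obtain ⟨p, hp, hgood⟩ := hcon k
  obtain ⟨a, t, w, hatw⟩ := h1 C N D k hN hD2 hUC p hp hgood
  refine ⟨fun i => ![algebraMap C _ (t i), algebraMap C _ (w i)],
    fun s j => algebraMap C _ (a s j), fun i s => ?_⟩
  rw [← hatw i s]
  simp only [Set.mem_ofPred_eq, Sum.elim_inr, Sum.elim_inl, Matrix.cons_val_zero,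
    Matrix.cons_val_one]
  constructor
  · rintro ⟨ε, c, ⟨ε', rfl⟩, ⟨c', rfl⟩, h⟩
    refine ⟨ε', c', inj ?_⟩
    simpa using h
  · rintro ⟨ε, c, h⟩
    refine ⟨algebraMap C _ ε, algebraMap C _ c, ⟨ε, rfl⟩, ⟨c, rfl⟩, ?_⟩
    have := congrArg (algebraMap C (FractionRing C)) h
    simpa using this

end Pool.Agent.Lib.MP958bd4
end

section
/-!
# MP_958bd4_lc: UNI
-/
set_option autoImplicit false

universe u

namespace Pool.Agent.Lib.MP958bd4

open Polynomial Topology Filter IsLocalRing

namespace UNIM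

variable {C F : Type u} [CommRing C] [Field F] {φ : C →+* F}

/-- membership in the maximal ideal of the local ring at `Q`, expressed with the parameter `t` -/
def Tst (E : Set F) (t y : F) : Prop := t * y ∈ E ∧ (y = 0 ∨ ¬ ∃ e, e ∈ E ∧ e * y = t)

theorem single {Q : Ideal C} [Q.IsPrime] (hQ : RingHom.ker φ ≤ Q) (y : F) :
    ∃ τ₀ ∉ Q, ∀ r : C, τ₀ * r ∉ Q →
      (y ∈ locMax φ Q ↔ Tst (Set.range φ) (φ (τ₀ * r)) y) := by
  have hnz : ∀ a ∉ Q, φ a ≠ 0 := fun a ha h => ha (hQ h)
  by_cases h1 : y ∈ locMax φ Q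
  · obtain ⟨q, s, hq, hs, h⟩ := h1
    refine ⟨s, hs, fun r hr => ⟨fun _ => ⟨⟨r * q, ?_⟩, ?_⟩, fun _ => ⟨q, s, hq, hs, h⟩⟩⟩
    · rw [map_mul, map_mul, ← h]
      ring
    · right
      rintro ⟨_, ⟨ε, rfl⟩, he⟩
      have h2 : φ (ε * q - s * r * s) = 0 := by
        rw [map_sub, map_mul, map_mul, ← he, ← h]
        ring
      have h3 := hQ (RingHom.mem_ker.2 h2)
      have h4 : s * r * s ∈ Q := by
        have := Q.sub_mem (Q.mul_mem_left ε hq) h3
        rwa [sub_sub_cancel] at this
      rcases Ideal.IsPrime.mem_or_mem inferInstance h4 with h5 | h5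
      · exact hr h5
      · exact hs h5
  · by_cases h2 : y ∈ locSet φ Q
    · obtain ⟨a, s, hs, h⟩ := h2
      have ha : a ∉ Q := fun ha => h1 ⟨a, s, ha, hs, h⟩
      have hy0 : y ≠ 0 := by
        rintro rfl
        rw [zero_mul] at h
        exact hnz a ha h.symm
      refine ⟨a, ha, fun r hr => ⟨fun h' => absurd h' h1, fun h' => ?_⟩⟩
      rcases h'.2 with h3 | h3
      · exact absurd h3 hy0
      · exfalso
        refine h3 ⟨φ (s * r), ⟨_, rfl⟩, ?_⟩
        rw [map_mul, map_mul, ← h]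
        ring
    · refine ⟨1, (Ideal.ne_top_iff_one Q).1 (Ideal.IsPrime.ne_top inferInstance), fun r hr =>
        ⟨fun h' => absurd h' h1, fun h' => ?_⟩⟩
      exfalso
      obtain ⟨c, hc⟩ := h'.1
      exact h2 ⟨c, 1 * r, hr, by rw [hc, mul_comm]⟩

theorem finite {Q : Ideal C} [Q.IsPrime] (hQ : RingHom.ker φ ≤ Q) (Y : Set F) (hY : Y.Finite) :
    ∃ τ₀ ∉ Q, ∀ r : C, τ₀ * r ∉ Q → ∀ y ∈ Y,
      (y ∈ locMax φ Q ↔ Tst (Set.range φ) (φ (τ₀ * r)) y) := by
  induction Y, hY using Set.Finite.induction_on with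
  | empty =>
    exact ⟨1, (Ideal.ne_top_iff_one Q).1 (Ideal.IsPrime.ne_top inferInstance), fun r _ y hy =>
      absurd hy (Set.notMem_empty _)⟩
  | @insert y Y _ _ ih =>
    obtain ⟨τ, hτ, h⟩ := ih
    obtain ⟨σ, hσ, h'⟩ := single hQ y
    refine ⟨τ * σ, fun hm => ?_, fun r hr z hz => ?_⟩
    · rcases Ideal.IsPrime.mem_or_mem inferInstance hm with h5 | h5
      · exact hτ h5
      · exact hσ h5
    · rcases hz with rfl | hz
      · have e : τ * σ * r = σ * (τ * r) := by ring
        rw [e] at hr ⊢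
        exact h' _ hr
      · have e : τ * σ * r = τ * (σ * r) := by ring
        rw [e] at hr ⊢
        exact h _ hr z hz

/-- the relation is in the system -/
theorem def_rel (hD : SpecDPOLY.{u}) {S : DefSys F} (hS : S.IsRing)
    {E U : Set F} (hE : S.Def₁ E) (hU : S.Def₁ U) :
    S.Def {z : Fin 1 ⊕ Fin 2 → F | ∃ y, y ^ 2 - y = z (Sum.inl 0) * z (Sum.inr 0) ∧
      Tst E (z (Sum.inr 1)) y ∧ y ∈ U} := by
  refine S.ex₁ (p := fun z y => y ^ 2 - y = z (Sum.inl 0) * z (Sum.inr 0) ∧
      Tst E (z (Sum.inr 1)) y ∧ y ∈ U) ?_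
  refine S.and ?_ (S.and (S.and ?_ (S.or ?_ (S.not ?_))) (S.mem₁ hU _))
  · have h := hD F S hS ((Fin 1 ⊕ Fin 2) ⊕ Unit) (Fin 2) {y | y 0 = y 1}
      ![MvPolynomial.X (Sum.inr ()) ^ 2 - MvPolynomial.X (Sum.inr ()),
        MvPolynomial.X (Sum.inl (Sum.inl 0)) * MvPolynomial.X (Sum.inl (Sum.inr 0))] S.diag
    refine S.cast h ?_
    ext x
    simp
  · have h := hD F S hS ((Fin 1 ⊕ Fin 2) ⊕ Unit) (Fin 1) {y | y 0 ∈ E}
      ![MvPolynomial.X (Sum.inl (Sum.inr 1)) * MvPolynomial.X (Sum.inr ())] hE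
    refine S.cast h ?_
    ext x
    simp
  · exact S.eq_const _ _
  · refine S.ex₁ (p := fun (z : (Fin 1 ⊕ Fin 2) ⊕ Unit → F) e => e ∈ E ∧
      e * z (Sum.inr ()) = z (Sum.inl (Sum.inr 1))) ?_
    refine S.and (S.mem₁ hE _) ?_
    have h := hD F S hS (((Fin 1 ⊕ Fin 2) ⊕ Unit) ⊕ Unit) (Fin 2) {y | y 0 = y 1}
      ![MvPolynomial.X (Sum.inr ()) * MvPolynomial.X (Sum.inl (Sum.inr ())),
        MvPolynomial.X (Sum.inl (Sum.inl (Sum.inr 1)))] S.diag
    refine S.cast h ?_
    ext x
    simp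

theorem fin_sol (c : F) : {y : F | y ^ 2 - y = c}.Finite := by
  have h1 : (X ^ 2 - X - Polynomial.C c : F[X]) ≠ 0 := by
    intro h
    have h2 := congrArg (fun p : F[X] => p.coeff 2) h
    simp [coeff_X] at h2
  refine ((X ^ 2 - X - Polynomial.C c : F[X]).rootSet_finite F).subset fun y hy => ?_
  rw [mem_rootSet]
  refine ⟨h1, ?_⟩
  simp only [map_sub, map_pow, aeval_X, aeval_C, Algebra.algebraMap_self, RingHom.id_apply]
  rw [hy, sub_self]

end UNIM

open UNIM in
theorem specUNI (hL : SpecLEMA.{u}) (hLOC : SpecLOC.{u}) (hSc : SpecSCALE.{u})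
    (hD : SpecDPOLY.{u}) : SpecUNI.{u} := by
  intro C F _ _ φ hφ _ S hS hE _ _ hTH hind U hU hU0 hU1
  obtain ⟨m, hm⟩ := S.nip (def_rel hD hS hE hU)
  obtain ⟨n, hn⟩ := hL m
  refine ⟨n, fun Q hQ hlt hLS => hm ?_⟩
  obtain ⟨B, hB, hfr, hloc, hmax, hfield, -⟩ := hLOC C F φ hφ Q hQ hlt.le
  have hlift : LiftSplit n B F := hSc C F φ hφ Q hQ hlt.le n hLS B hB hmax
  have hnf : ¬ IsField B := fun h => hlt.ne (hfield.1 h).symm
  have hone : (1 : C) ∉ Q := (Ideal.ne_top_iff_one Q).1 hQ.ne_top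
  have hindB : IndepSet (Set.range (algebraMap B F)) := by
    intro y c hc V hV hVn
    obtain ⟨b, ⟨e, rfl⟩, h⟩ := hind y c hc V hV hVn
    refine ⟨φ e, ⟨⟨φ e, (hB _).2 ⟨e, 1, hone, by rw [map_one, mul_one]⟩⟩, rfl⟩, h⟩
  obtain ⟨a, x, h⟩ := hn B F hTH hnf hindB hlift U hU0 hU1
  have hmax' : ∀ y : F, (∃ c ∈ maximalIdeal B, algebraMap B F c = y) ↔ y ∈ locMax φ Q := by
    intro y
    constructor
    · rintro ⟨c, hc, rfl⟩
      exact (hmax c).1 hc
    · intro hy
      have hyB : y ∈ B := by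
        obtain ⟨q, s, hq, hs, he⟩ := hy
        exact (hB y).2 ⟨q, s, hs, he⟩
      exact ⟨⟨y, hyB⟩, (hmax ⟨y, hyB⟩).2 hy, rfl⟩
  have hfin : ∀ s : Set (Fin m), ∃ t : F, ∀ k : Fin m, ∀ y : F, y ^ 2 - y = a k * x s →
      (y ∈ locMax φ Q ↔ Tst (Set.range φ) t y) := by
    intro s
    have hYf : (⋃ k : Fin m, {y : F | y ^ 2 - y = a k * x s}).Finite :=
      Set.finite_iUnion fun k => fin_sol _
    obtain ⟨τ, hτ, h1⟩ := finite hlt.le _ hYf
    have h2 := h1 1 (by rwa [mul_one])
    refine ⟨φ (τ * 1), fun k y hy => h2 y (Set.mem_iUnion.2 ⟨k, hy⟩)⟩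
  choose t ht using hfin
  refine ⟨fun k _ => a k, fun s => ![x s, t s], fun k s => ?_⟩
  rw [← h k s]
  simp only [Set.mem_ofPred_eq, Sum.elim_inl, Sum.elim_inr, Matrix.cons_val_zero,
    Matrix.cons_val_one, hmax']
  refine exists_congr fun y => ?_
  constructor
  · rintro ⟨h1, h2, h3⟩
    exact ⟨h1, (ht s k y h1).2 h2, h3⟩
  · rintro ⟨h1, h2, h3⟩
    exact ⟨h1, (ht s k y h1).1 h2, h3⟩

end Pool.Agent.Lib.MP958bd4
end
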