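import Mathlib
import Pool.Agent.Lib.MP_958bd4_lc.SpecT

section
/-!
# Module BND: bounded sets
-/
set_option autoImplicit false

universe u

namespace Pool.Agent.Lib.MP958bd4

open Polynomial Topology Filter

namespace BNDM

variable {F : Type u} [Field F] [TopologicalSpace F] [TopField F]

theorem exists_mul {V : Set F} (hV : V ∈ 𝓝 (0 : F)) :
    ∃ W ∈ 𝓝 (0 : F), ∀ x ∈ W, ∀ y ∈ W, x * y ∈ V := by
  have c : ContinuousAt (fun z : F × F => z.1 * z.2) (0, 0) := by fun_prop
  have h : ∀ᶠ z : F × F in 𝓝 (0, 0), z.1 * z.2 ∈ V := by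
    apply c
    simpa using hV
  rw [nhds_prod_eq, eventually_prod_iff] at h
  obtain ⟨P1, hP1, P2, hP2, hP⟩ := h
  exact ⟨{x | P1 x} ∩ {x | P2 x}, inter_mem hP1 hP2, fun x hx y hy => hP hx.1 hy.2⟩

theorem exists_add {V : Set F} (hV : V ∈ 𝓝 (0 : F)) :
    ∃ W ∈ 𝓝 (0 : F), ∀ x ∈ W, ∀ y ∈ W, x + y ∈ V := by
  have c : ContinuousAt (fun z : F × F => z.1 + z.2) (0, 0) := by fun_prop
  have h : ∀ᶠ z : F × F in 𝓝 (0, 0), z.1 + z.2 ∈ V := by
    apply c
    simpa using hV
  rw [nhds_prod_eq, eventually_prod_iff] at h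
  obtain ⟨P1, hP1, P2, hP2, hP⟩ := h
  exact ⟨{x | P1 x} ∩ {x | P2 x}, inter_mem hP1 hP2, fun x hx y hy => hP hx.1 hy.2⟩

theorem mul_mem_nhds {V : Set F} (hV : V ∈ 𝓝 (0 : F)) (x : F) : ∀ᶠ c in 𝓝 (0 : F), c * x ∈ V := by
  have c : ContinuousAt (fun z : F => z * x) 0 := by fun_prop
  apply c
  simpa using hV

theorem exists_ne {P : F → Prop} (h : ∀ᶠ c in 𝓝 (0 : F), P c) : ∃ c, c ≠ 0 ∧ P c := by
  have := (inferInstance : TopField F).nd
  have h1 : ∀ᶠ c in 𝓝[≠] (0 : F), P c := h.filter_mono nhdsWithin_le_nhds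
  have h2 : ∀ᶠ c in 𝓝[≠] (0 : F), c ≠ 0 := self_mem_nhdsWithin
  obtain ⟨c, hc⟩ := (h2.and h1).exists
  exact ⟨c, hc⟩

/-- the scaling factor can be taken small -/
theorem small {K : Set F} (hK : Bdd K) {V : Set F} (hV : V ∈ 𝓝 (0 : F)) :
    ∃ c : F, c ≠ 0 ∧ c ∈ V ∧ ∀ x ∈ K, c * x ∈ V := by
  obtain ⟨W, hW, hW'⟩ := exists_mul hV
  obtain ⟨c, hc, hcK⟩ := hK W hW
  obtain ⟨d, hd, hd1, hd2⟩ := exists_ne ((eventually_mem_set.2 hW).and (mul_mem_nhds hV c))
  refine ⟨d * c, mul_ne_zero hd hc, hd2, fun x hx => ?_⟩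
  rw [mul_assoc]
  exact hW' _ hd1 _ (hcK x hx)

theorem mono {K K' : Set F} (h : K ⊆ K') (hK : Bdd K') : Bdd K := by
  intro V hV
  obtain ⟨c, hc, hc'⟩ := hK V hV
  exact ⟨c, hc, fun x hx => hc' x (h hx)⟩

theorem union {K K' : Set F} (hK : Bdd K) (hK' : Bdd K') : Bdd (K ∪ K') := by
  intro V hV
  obtain ⟨W, hW, hW'⟩ := exists_mul hV
  obtain ⟨c, hc, hc1, hc2⟩ := small hK hW
  obtain ⟨d, hd, hd1, hd2⟩ := small hK' hW
  refine ⟨c * d, mul_ne_zero hc hd, ?_⟩
  rintro x (hx | hx)
  · rw [mul_comm c d, mul_assoc]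
    exact hW' _ hd1 _ (hc2 x hx)
  · rw [mul_assoc]
    exact hW' _ hc1 _ (hd2 x hx)

theorem singleton (x : F) : Bdd ({x} : Set F) := by
  intro V hV
  obtain ⟨c, hc, hc'⟩ := exists_ne (mul_mem_nhds hV x)
  refine ⟨c, hc, ?_⟩
  rintro y rfl
  exact hc'

theorem empty : Bdd (∅ : Set F) := fun _ _ => ⟨1, one_ne_zero, fun _ h => h.elim⟩

theorem finite {K : Set F} (hK : K.Finite) : Bdd K := by
  induction K, hK using Set.Finite.induction_on with
  | empty => exact empty
  | insert _ _ ih =>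
    rw [Set.insert_eq]
    exact union (singleton _) ih

theorem add {K K' : Set F} (hK : Bdd K) (hK' : Bdd K') :
    Bdd {z | ∃ x ∈ K, ∃ y ∈ K', z = x + y} := by
  intro V hV
  obtain ⟨W, hW, hW'⟩ := exists_add hV
  obtain ⟨c, hc, hc'⟩ := union hK hK' W hW
  refine ⟨c, hc, ?_⟩
  rintro _ ⟨x, hx, y, hy, rfl⟩
  rw [mul_add]
  exact hW' _ (hc' x (Or.inl hx)) _ (hc' y (Or.inr hy))

theorem mul {K K' : Set F} (hK : Bdd K) (hK' : Bdd K') :
    Bdd {z | ∃ x ∈ K, ∃ y ∈ K', z = x * y} := by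
  intro V hV
  obtain ⟨W, hW, hW'⟩ := exists_mul hV
  obtain ⟨c, hc, hc'⟩ := union hK hK' W hW
  refine ⟨c * c, mul_ne_zero hc hc, ?_⟩
  rintro _ ⟨x, hx, y, hy, rfl⟩
  rw [mul_mul_mul_comm]
  exact hW' _ (hc' x (Or.inl hx)) _ (hc' y (Or.inr hy))

theorem poly {K : Set F} (hK : Bdd K) : ∀ n : ℕ,
    Bdd {z | ∃ p : F[X], p.natDegree ≤ n ∧ (∀ i, p.coeff i ∈ K) ∧ ∃ x ∈ K, z = p.eval x}
  | 0 => by
    refine mono ?_ hK
    rintro _ ⟨p, hp, hc, x, hx, rfl⟩
    rw [eq_C_of_natDegree_le_zero hp, eval_C]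
    exact hc 0
  | n + 1 => by
    refine mono ?_ (add hK (mul (poly hK n) hK))
    rintro _ ⟨p, hp, hc, x, hx, rfl⟩
    refine ⟨p.coeff 0, hc 0, (p.divX).eval x * x, ?_, ?_⟩
    · refine ⟨_, ⟨p.divX, ?_, fun i => ?_, x, hx, rfl⟩, x, hx, rfl⟩
      · rw [natDegree_divX_eq_natDegree_tsub_one]; omega
      · rw [coeff_divX]; exact hc _
    · conv_lhs => rw [← divX_mul_X_add p]
      rw [eval_add, eval_mul, eval_X, eval_C, add_comm]

theorem unif {K : Set F} (hK : Bdd K) {V : Set F} (hV : V ∈ 𝓝 (0 : F)) :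
    ∃ W ∈ 𝓝 (0 : F), ∀ x ∈ K, ∀ w ∈ W, x * w ∈ V := by
  obtain ⟨U, hU, hU'⟩ := exists_mul hV
  obtain ⟨c, hc, hc'⟩ := hK U hU
  refine ⟨{w | w * c⁻¹ ∈ U}, mul_mem_nhds hU c⁻¹, fun x hx w hw => ?_⟩
  have : x * w = (c * x) * (w * c⁻¹) := by field_simp
  rw [this]
  exact hU' _ (hc' x hx) _ hw

end BNDM

theorem specBND : SpecBND.{u} := by
  intro F _ _ _
  exact ⟨fun _ _ h hK => BNDM.mono h hK, fun _ _ h h' => BNDM.union h h',
    fun _ h => BNDM.finite h, fun _ _ h h' => BNDM.add h h', fun _ _ h h' => BNDM.mul h h',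
    fun _ n h => BNDM.poly h n, fun _ h _ hV => BNDM.unif h hV⟩

end Pool.Agent.Lib.MP958bd4
end

section
/-!
# MP_958bd4_lc: DENS, unbounded local rings are dense
-/
set_option autoImplicit false

universe u

namespace Pool.Agent.Lib.MP958bd4

open Polynomial Topology Filter

namespace DENSM

variable {B F : Type u} [CommRing B] [IsDomain B] [IsLocalRing B] [Field F]
  [Algebra B F] [IsFractionRing B F] [TopologicalSpace F] [TopField F]

lemma small_unit (hV : IsV F) (hB : ¬ Bdd (Set.range (algebraMap B F))) (V : Set F)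
    (hVn : V ∈ 𝓝 (0 : F)) : ∃ ε : B, IsUnit ε ∧ algebraMap B F ε ∈ V := by
  have hcont : Tendsto (fun v : F => v / (1 + v)) (𝓝 0) (𝓝 0) := by
    have h : ContinuousAt (fun v : F => v * (1 + v)⁻¹) 0 := by
      refine continuousAt_id.mul (ContinuousAt.inv₀ (continuousAt_const.add continuousAt_id) ?_)
      simp
    have h2 := h.tendsto
    simp only [zero_mul] at h2
    simpa [div_eq_mul_inv] using h2
  have hV' : V ∩ (fun v : F => v / (1 + v)) ⁻¹' V ∈ 𝓝 (0 : F) := inter_mem hVn (hcont hVn)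
  have hex : ∃ x ∈ Set.range (algebraMap B F), x ≠ 0 ∧
      x⁻¹ ∈ V ∩ (fun v : F => v / (1 + v)) ⁻¹' V := by
    by_contra hcon
    push Not at hcon
    refine hB fun U hU => ?_
    obtain ⟨c, hc, hcU⟩ := hV _ hV' U hU
    refine ⟨c, hc, fun x hx => ?_⟩
    by_cases hx0 : x = 0
    · rw [hx0, mul_zero]
      exact mem_of_mem_nhds hU
    · exact hcU x (hcon x hx hx0)
  obtain ⟨_, ⟨b, rfl⟩, hb0, hb1, hb2⟩ := hex
  rcases IsLocalRing.isUnit_or_isUnit_of_add_one (a := -b) (b := 1 + b) (by ring) with h | h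
  · have h' : IsUnit b := by simpa using h.neg
    obtain ⟨w, rfl⟩ := h'
    refine ⟨((w⁻¹ : Bˣ) : B), Units.isUnit _, ?_⟩
    have : algebraMap B F ((w⁻¹ : Bˣ) : B) = (algebraMap B F w)⁻¹ := by
      refine eq_inv_of_mul_eq_one_left ?_
      rw [← map_mul]
      simp
    rw [this]
    exact hb1
  · obtain ⟨w, hw⟩ := h
    refine ⟨((w⁻¹ : Bˣ) : B), Units.isUnit _, ?_⟩
    have hw0 : (1 : F) + algebraMap B F b ≠ 0 := by
      have : algebraMap B F (w : B) ≠ 0 := by
        have hu : IsUnit (algebraMap B F (w : B)) := (Units.isUnit w).map _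
        exact hu.ne_zero
      rw [hw, map_add, map_one] at this
      exact this
    have : algebraMap B F ((w⁻¹ : Bˣ) : B) =
        (algebraMap B F b)⁻¹ / (1 + (algebraMap B F b)⁻¹) := by
      have h1 : algebraMap B F ((w⁻¹ : Bˣ) : B) * (1 + algebraMap B F b) = 1 := by
        rw [← map_one (algebraMap B F), ← map_add, ← map_mul, ← hw]
        simp
      have h2 : (1 : F) + (algebraMap B F b)⁻¹ ≠ 0 := by
        intro h3
        apply hw0
        have := congrArg (· * algebraMap B F b) h3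
        simp only [add_mul, one_mul, inv_mul_cancel₀ hb0, zero_mul] at this
        rw [add_comm]; exact this
      rw [eq_div_iff h2]
      field_simp
      rw [add_comm (algebraMap B F b) 1]
      exact h1
    rw [this]
    exact hb2

lemma dense_range (hV : IsV F) (hB : ¬ Bdd (Set.range (algebraMap B F))) (w : F) (N : Set F)
    (hN : N ∈ 𝓝 w) : ∃ b : B, algebraMap B F b ∈ N := by
  obtain ⟨p, q, hq, rfl⟩ := IsFractionRing.div_surjective B w
  have hq0 : algebraMap B F q ≠ 0 := by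
    have h := nonZeroDivisors.ne_zero hq
    intro h2
    exact h (IsFractionRing.injective B F (by rw [h2, map_zero]))
  by_cases hqu : IsUnit q
  · obtain ⟨u, rfl⟩ := hqu
    refine ⟨p * ((u⁻¹ : Bˣ) : B), ?_⟩
    have : algebraMap B F (p * ((u⁻¹ : Bˣ) : B)) = algebraMap B F p / algebraMap B F u := by
      rw [eq_div_iff hq0, ← map_mul, mul_assoc]
      simp
    rw [this]
    exact mem_of_mem_nhds hN
  · have hcont : Tendsto (fun t : F => algebraMap B F p / (algebraMap B F q + t)) (𝓝 0)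
        (𝓝 (algebraMap B F p / algebraMap B F q)) := by
      have h : ContinuousAt (fun t : F => algebraMap B F p * (algebraMap B F q + t)⁻¹) 0 := by
        refine continuousAt_const.mul (ContinuousAt.inv₀ (continuousAt_const.add continuousAt_id) ?_)
        simpa using hq0
      have h2 := h.tendsto
      simp only [add_zero] at h2
      simpa [div_eq_mul_inv] using h2
    obtain ⟨ε, hε, hεV⟩ := small_unit hV hB _ (hcont hN)
    have hunit : IsUnit (q + ε) := by
      by_contra hcon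
      have h1 : q + ε ∈ IsLocalRing.maximalIdeal B := (IsLocalRing.mem_maximalIdeal _).2 hcon
      have h2 : q ∈ IsLocalRing.maximalIdeal B := (IsLocalRing.mem_maximalIdeal _).2 hqu
      have h3 : ε ∈ IsLocalRing.maximalIdeal B := (Ideal.add_mem_iff_right _ h2).1 h1
      exact (IsLocalRing.mem_maximalIdeal _).1 h3 hε
    obtain ⟨u, hu⟩ := hunit
    refine ⟨p * ((u⁻¹ : Bˣ) : B), ?_⟩
    have hu0 : algebraMap B F (u : B) ≠ 0 := ((Units.isUnit u).map (algebraMap B F)).ne_zero
    have : algebraMap B F (p * ((u⁻¹ : Bˣ) : B)) =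
        algebraMap B F p / (algebraMap B F q + algebraMap B F ε) := by
      rw [← map_add, ← hu, eq_div_iff hu0, ← map_mul, mul_assoc]
      simp
    rw [this]
    exact hεV

end DENSM

open DENSM in
theorem specDENS : SpecDENS.{u} := by
  intro B F _ _ _ _ _ _ _ _ hV hB y c hc V hVo hVn
  obtain ⟨v, hv⟩ := hVn
  have hcont : Continuous fun z : F => y + c * z := by fun_prop
  have hmem : (fun z : F => y + c * z) ⁻¹' V ∈ 𝓝 ((v - y) / c) := by
    refine (hVo.preimage hcont).mem_nhds ?_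
    simp only [Set.mem_preimage]
    rw [mul_div_cancel₀ _ hc, add_sub_cancel]
    exact hv
  obtain ⟨b, hb⟩ := dense_range hV hB _ _ hmem
  exact ⟨_, ⟨b, rfl⟩, hb⟩

end Pool.Agent.Lib.MP958bd4
end

section
/-!
# MP_958bd4_lc: RTOP, the topology of a local domain on its fraction field
-/
set_option autoImplicit false

universe u

namespace Pool.Agent.Lib.MP958bd4

open Polynomial Topology Filter

namespace RTOPM

section

variable (B F : Type u) [CommRing B] [Field F] [Algebra B F]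

/-- The subgroup `c B` of `F`. -/
def sub (c : {c : F // c ≠ 0}) : AddSubgroup F where
  carrier := {x | ∃ b : B, x = c.1 * algebraMap B F b}
  add_mem' := by
    rintro _ _ ⟨a, rfl⟩ ⟨b, rfl⟩
    exact ⟨a + b, by rw [map_add]; ring⟩
  zero_mem' := ⟨0, by simp⟩
  neg_mem' := by
    rintro _ ⟨a, rfl⟩
    exact ⟨-a, by rw [map_neg]; ring⟩

theorem mem_sub (c : {c : F // c ≠ 0}) (x : F) :
    x ∈ sub B F c ↔ ∃ b : B, x = c.1 * algebraMap B F b := Iff.rfl

/-- every nonzero element is a quotient -/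
theorem exists_frac [IsDomain B] [IsFractionRing B F] (x : F) :
    ∃ p q : B, q ≠ 0 ∧ algebraMap B F q ≠ 0 ∧ x * algebraMap B F q = algebraMap B F p := by
  obtain ⟨p, q, hq, rfl⟩ := IsFractionRing.div_surjective (A := B) x
  have hq0 : q ≠ 0 := nonZeroDivisors.ne_zero hq
  have hq1 : algebraMap B F q ≠ 0 := by
    intro h
    exact hq0 ((IsFractionRing.injective B F) (by rw [h, map_zero]))
  exact ⟨p, q, hq0, hq1, by field_simp⟩

theorem am_ne [IsDomain B] [IsFractionRing B F] {p : B} (h : p ≠ 0) : algebraMap B F p ≠ 0 := by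
  intro h'
  exact h ((IsFractionRing.injective B F) (by rw [h', map_zero]))

/-- the subgroups form a ring basis -/
theorem basis [IsDomain B] [IsFractionRing B F] : RingSubgroupsBasis (sub B F) := by
  refine RingSubgroupsBasis.of_comm _ ?_ ?_ ?_
  · rintro ⟨c, hc⟩ ⟨d, hd⟩
    obtain ⟨p, q, hq0, hq1, h⟩ := exists_frac B F (c / d)
    have hcd : c * algebraMap B F q = d * algebraMap B F p := by
      field_simp at h
      exact h
    refine ⟨⟨c * algebraMap B F q, mul_ne_zero hc hq1⟩, ?_⟩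
    rintro _ ⟨b, rfl⟩
    refine ⟨⟨q * b, ?_⟩, ⟨p * b, ?_⟩⟩
    · simp only [map_mul]; ring
    · simp only [map_mul]
      rw [hcd]; ring
  · rintro ⟨c, hc⟩
    obtain ⟨p, q, hq0, hq1, h⟩ := exists_frac B F c
    have hp : algebraMap B F p ≠ 0 := by rw [← h]; exact mul_ne_zero hc hq1
    refine ⟨⟨algebraMap B F p, hp⟩, ?_⟩
    rintro _ ⟨_, ⟨a, rfl⟩, _, ⟨b, rfl⟩, rfl⟩
    refine ⟨q * p * a * b, ?_⟩
    simp only [map_mul]
    calc algebraMap B F p * algebraMap B F a * (algebraMap B F p * algebraMap B F b)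
        = algebraMap B F p * (algebraMap B F p * algebraMap B F a * algebraMap B F b) := by ring
      _ = c * algebraMap B F q * (algebraMap B F p * algebraMap B F a * algebraMap B F b) := by
          rw [h]
      _ = _ := by ring
  · rintro x ⟨c, hc⟩
    by_cases hx : x = 0
    · refine ⟨⟨c, hc⟩, ?_⟩
      rintro y -
      refine ⟨0, ?_⟩
      simp [hx]
    obtain ⟨p, q, hq0, hq1, h⟩ := exists_frac B F x
    refine ⟨⟨c * algebraMap B F q, mul_ne_zero hc hq1⟩, ?_⟩
    rintro _ ⟨b, rfl⟩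
    refine ⟨p * b, ?_⟩
    simp only [map_mul]
    rw [← h]
    ring

/-- smaller subgroups inside the maximal ideal -/
theorem exists_small [IsDomain B] [IsLocalRing B] [IsFractionRing B F] (hB : ¬ IsField B)
    (c : F) (hc : c ≠ 0) : ∃ d : B, d ≠ 0 ∧ d ∈ IsLocalRing.maximalIdeal B ∧
      ∀ b : B, ∃ b' : B, algebraMap B F (d * b) = c * algebraMap B F b' := by
  obtain ⟨m, hm, hm0⟩ : ∃ m ∈ IsLocalRing.maximalIdeal B, m ≠ 0 := by
    by_contra hcon
    push Not at hcon
    apply hB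
    rw [IsLocalRing.isField_iff_maximalIdeal_eq, eq_bot_iff]
    intro x hx
    simpa using hcon x hx
  obtain ⟨p, q, hq0, hq1, h⟩ := exists_frac B F c
  have hp : algebraMap B F p ≠ 0 := by rw [← h]; exact mul_ne_zero hc hq1
  have hp0 : p ≠ 0 := fun h0 => hp (by rw [h0, map_zero])
  refine ⟨p * m, mul_ne_zero hp0 hm0, Ideal.mul_mem_left _ _ hm, fun b => ⟨q * m * b, ?_⟩⟩
  simp only [map_mul]
  rw [← h]
  ring

end

end RTOPM

open RTOPM in
theorem specRTOP : SpecRTOP.{u} := by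
  intro B F _ _ _ _ _ _ hB
  haveI : Nonempty {c : F // c ≠ 0} := ⟨⟨1, one_ne_zero⟩⟩
  let t : TopologicalSpace F := (basis B F).topology
  have hb : ∀ s : Set F, s ∈ @nhds F t 0 ↔ ∃ c : F, c ≠ 0 ∧ ∀ b : B, c * algebraMap B F b ∈ s := by
    intro s
    rw [(basis B F).hasBasis_nhds_zero.mem_iff]
    constructor
    · rintro ⟨⟨c, hc⟩, -, h⟩
      exact ⟨c, hc, fun b => h ⟨b, rfl⟩⟩
    · rintro ⟨c, hc, h⟩
      refine ⟨⟨c, hc⟩, trivial, ?_⟩
      rintro _ ⟨b, rfl⟩
      exact h b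
  refine ⟨t, ?_, hb⟩
  letI : TopologicalSpace F := t
  haveI hr : IsTopologicalRing F :=
    (basis B F).toRingFilterBasis.isTopologicalRing
  have hinv : ContinuousInv₀ F := by
    apply ContinuousInv₀.of_nhds_one
    have h1 : 𝓝 (1 : F) = Filter.map (fun x => 1 + x) (𝓝 0) := by
      simp [map_add_left_nhds_zero]
    rw [h1, Filter.tendsto_map'_iff]
    intro s hs
    rw [Filter.mem_map] at hs
    obtain ⟨c, hc, hcs⟩ := (hb _).1 hs
    obtain ⟨d, hd0, hdm, hd⟩ := exists_small B F hB c hc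
    rw [Filter.mem_map]
    refine (hb _).2 ⟨algebraMap B F d, am_ne B F hd0, fun b => ?_⟩
    have hu : IsUnit (1 + d * b) := by
      have hmem : d * b ∈ IsLocalRing.maximalIdeal B := Ideal.mul_mem_right _ _ hdm
      by_contra hnu
      have h2 : (1 + d * b) ∈ IsLocalRing.maximalIdeal B := hnu
      have h3 : (1 : B) ∈ IsLocalRing.maximalIdeal B := by
        have h9 := Ideal.sub_mem _ h2 hmem
        rwa [add_sub_cancel_right] at h9
      exact (Ideal.ne_top_iff_one _).1 (IsLocalRing.maximalIdeal.isMaximal B).ne_top h3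
    obtain ⟨v, hv⟩ := hu
    obtain ⟨b', hb'⟩ := hd (-(b * (v⁻¹ : Bˣ)))
    have h4 := hcs b'
    simp only [Set.mem_preimage, Function.comp_apply] at h4 ⊢
    have h5 : (1 + algebraMap B F d * algebraMap B F b) = algebraMap B F v := by
      rw [hv]; simp
    have h6 : algebraMap B F (v : B) ≠ 0 := am_ne B F v.ne_zero
    have h7 : algebraMap B F (((v⁻¹ : Bˣ) : B)) = (algebraMap B F (v : B))⁻¹ := by
      apply eq_inv_of_mul_eq_one_left
      rw [← map_mul]
      simp
    have h8 : (1 + algebraMap B F d * algebraMap B F b)⁻¹ = 1 + c * algebraMap B F b' := by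
      rw [← hb', h5]
      simp only [map_mul, map_neg, h7]
      field_simp
      rw [← h5]
      ring
    rw [h8]
    exact h4
  have ht2 : T2Space F := by
    apply IsTopologicalAddGroup.t2Space_of_zero_sep
    intro x hx
    obtain ⟨d, hd0, hdm, hd⟩ := exists_small B F hB 1 one_ne_zero
    refine ⟨{y | ∃ b : B, y = x * algebraMap B F d * algebraMap B F b},
      (hb _).2 ⟨x * algebraMap B F d, mul_ne_zero hx (am_ne B F hd0), fun b => ⟨b, rfl⟩⟩, ?_⟩
    rintro ⟨b, hb1⟩
    have h1 : algebraMap B F (d * b) = algebraMap B F 1 := by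
      rw [map_mul, map_one]
      have : x * (algebraMap B F d * algebraMap B F b) = x * 1 := by
        rw [mul_one]; conv_rhs => rw [hb1]
        ring
      exact mul_left_cancel₀ hx this
    have h2 : d * b = 1 := IsFractionRing.injective B F h1
    exact hdm (isUnit_iff_exists_inv.2 ⟨b, h2⟩)
  have hnd : (𝓝[≠] (0 : F)).NeBot := by
    rw [← mem_closure_iff_nhdsWithin_neBot, mem_closure_iff_nhds]
    intro s hs
    obtain ⟨c, hc, h⟩ := (hb s).1 hs
    refine ⟨c, ?_, hc⟩
    have := h 1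
    rwa [map_one, mul_one] at this
  exact { toIsTopologicalRing := hr, toContinuousInv₀ := hinv, toT2Space := ht2, nd := hnd }

end Pool.Agent.Lib.MP958bd4
end

section
/-!
# MP_958bd4_lc: HTOP, the topology of a henselian local domain satisfies `THens`
-/
set_option autoImplicit false

universe u

namespace Pool.Agent.Lib.MP958bd4

open Polynomial Topology Filter

namespace HTOPM

/-- the reversed polynomial -/
noncomputable def gp {B : Type u} [CommRing B] (n : ℕ) (e : Fin n → B) : B[X] :=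
  X ^ (n + 1) + X ^ n + ∑ i : Fin n, C (e i) * X ^ (n - 1 - (i : ℕ))

theorem monic_gp {B : Type u} [CommRing B] [Nontrivial B] (n : ℕ) (e : Fin n → B) :
    (gp n e).Monic := by
  have h1 : (X ^ n + ∑ i : Fin n, C (e i) * X ^ (n - 1 - (i : ℕ)) : B[X]).degree <
      ((n + 1 : ℕ) : WithBot ℕ) := by
    refine lt_of_le_of_lt (degree_add_le _ _) (max_lt ?_ ?_)
    · rw [degree_X_pow]; exact_mod_cast Nat.lt_succ_self n
    · refine lt_of_le_of_lt (degree_sum_le _ _) ?_
      rw [Finset.sup_lt_iff (by exact_mod_cast WithBot.bot_lt_coe (n + 1))]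
      intro i _
      refine lt_of_le_of_lt (degree_C_mul_X_pow_le _ _) ?_
      have : n - 1 - (i : ℕ) < n + 1 := by omega
      exact_mod_cast this
  unfold gp
  rw [add_assoc]
  exact monic_X_pow_add (by
    refine lt_of_lt_of_le h1 ?_
    norm_num)

theorem eval_gp {B : Type u} [CommRing B] (n : ℕ) (e : Fin n → B) (y : B) :
    (gp n e).eval y = y ^ (n + 1) + y ^ n + ∑ i : Fin n, e i * y ^ (n - 1 - (i : ℕ)) := by
  unfold gp
  simp [eval_finsetSum]

theorem deriv_gp {B : Type u} [CommRing B] (n : ℕ) (e : Fin n → B) (y : B) :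
    (gp n e).derivative.eval y = (n + 1) * y ^ n + n * y ^ (n - 1) +
      ∑ i : Fin n, e i * (((n - 1 - (i : ℕ) : ℕ) : B) * y ^ (n - 1 - (i : ℕ) - 1)) := by
  unfold gp
  simp [eval_finsetSum, derivative_X_pow]

end HTOPM

open HTOPM RTOPM in
theorem specHTOP : SpecHTOP.{u} := by
  intro B F _ _ _ _ _ _ t hB ht
  have hb := ht.2
  obtain ⟨hT, -⟩ := ht
  intro n V hV
  -- a neighbourhood of the form -1 + c B
  have hV' : (fun x : F => -1 + x) ⁻¹' V ∈ @nhds F t 0 := by
    have hcont : Continuous fun x : F => -1 + x := by fun_prop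
    apply hcont.continuousAt.preimage_mem_nhds
    simpa using hV
  obtain ⟨c, hc, hcV⟩ := (hb _).1 hV'
  obtain ⟨d, hd0, hdm, hd⟩ := exists_small B F hB c hc
  refine ⟨{y | ∃ b : B, y = algebraMap B F d * algebraMap B F b},
    (hb _).2 ⟨algebraMap B F d, am_ne B F hd0, fun b => ⟨b, rfl⟩⟩, fun e he => ?_⟩
  choose b hbe using he
  set e' : Fin n → B := fun i => d * b i with he'
  have hee : ∀ i, e i = algebraMap B F (e' i) := fun i => by rw [hbe i, he', map_mul]
  have hem : ∀ i, e' i ∈ IsLocalRing.maximalIdeal B := fun i => Ideal.mul_mem_right _ _ hdm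
  have h0 : (gp n e').eval (-1 : B) ∈ IsLocalRing.maximalIdeal B := by
    rw [eval_gp]
    have h1 : (-1 : B) ^ (n + 1) + (-1) ^ n = 0 := by ring
    rw [h1, zero_add]
    exact Ideal.sum_mem _ fun i _ => Ideal.mul_mem_right _ _ (hem i)
  have h1 : IsUnit ((gp n e').derivative.eval (-1 : B)) := by
    rw [deriv_gp]
    have h2 : ∑ i : Fin n, e' i * (((n - 1 - (i : ℕ) : ℕ) : B) * (-1) ^ (n - 1 - (i : ℕ) - 1)) ∈
        IsLocalRing.maximalIdeal B :=
      Ideal.sum_mem _ fun i _ => Ideal.mul_mem_right _ _ (hem i)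
    have h3 : ((n : B) + 1) * (-1) ^ n + n * (-1) ^ (n - 1) = (-1) ^ n := by
      rcases n with _ | n
      · simp
      · simp only [Nat.add_sub_cancel]; ring
    rw [h3]
    by_contra hnu
    have h4 : (-1 : B) ^ n + ∑ i : Fin n, e' i * (((n - 1 - (i : ℕ) : ℕ) : B) *
        (-1) ^ (n - 1 - (i : ℕ) - 1)) ∈ IsLocalRing.maximalIdeal B := hnu
    have h5 := Ideal.sub_mem _ h4 h2
    rw [add_sub_cancel_right] at h5
    exact h5 (IsUnit.pow n (isUnit_one.neg))
  obtain ⟨y, hy, hy1⟩ := HenselianLocalRing.is_henselian (gp n e') (monic_gp n e') (-1) h0 h1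
  have hyu : IsUnit y := by
    by_contra hnu
    have h2 : y ∈ IsLocalRing.maximalIdeal B := hnu
    have h3 := Ideal.sub_mem _ h2 hy1
    have h4 : y - (y - -1) = (-1 : B) := by ring
    rw [h4] at h3
    exact h3 isUnit_one.neg
  obtain ⟨v, rfl⟩ := hyu
  have hv0 : algebraMap B F (v : B) ≠ 0 := am_ne B F v.ne_zero
  have hvi : algebraMap B F (((v⁻¹ : Bˣ) : B)) = (algebraMap B F (v : B))⁻¹ := by
    apply eq_inv_of_mul_eq_one_left
    rw [← map_mul]
    simp
  have hroot : (v : B) ^ (n + 1) + (v : B) ^ n + ∑ i : Fin n, e' i * (v : B) ^ (n - 1 - (i : ℕ)) = 0 := by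
    rw [← eval_gp]; exact hy
  refine ⟨(algebraMap B F (v : B))⁻¹, ?_, ?_⟩
  · -- the root is in -1 + c B
    set s : B := ∑ i : Fin n, b i * (v : B) ^ (n - 1 - (i : ℕ)) with hs
    have h2 : (v : B) ^ n * ((v : B) + 1) = d * (-s) := by
      have h3 : ∑ i : Fin n, e' i * (v : B) ^ (n - 1 - (i : ℕ)) = d * s := by
        rw [hs, Finset.mul_sum]
        exact Finset.sum_congr rfl fun i _ => by rw [he']; ring
      rw [h3] at hroot
      linear_combination hroot
    have h3 : (v : B) + 1 = d * (-s * ((v⁻¹ : Bˣ) : B) ^ n) := by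
      have h4 : ((v⁻¹ : Bˣ) : B) ^ n * (v : B) ^ n = 1 := by
        rw [← mul_pow]; simp
      calc (v : B) + 1 = (((v⁻¹ : Bˣ) : B) ^ n * (v : B) ^ n) * ((v : B) + 1) := by rw [h4, one_mul]
        _ = ((v⁻¹ : Bˣ) : B) ^ n * ((v : B) ^ n * ((v : B) + 1)) := by ring
        _ = ((v⁻¹ : Bˣ) : B) ^ n * (d * (-s)) := by rw [h2]
        _ = _ := by ring
    obtain ⟨b', hb'⟩ := hd (-s * ((v⁻¹ : Bˣ) : B) ^ n * ((v⁻¹ : Bˣ) : B))
    have h5 := hcV b'
    have h6 : (algebraMap B F (v : B))⁻¹ = -1 + c * algebraMap B F b' := by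
      rw [← hb']
      have h7 : d * (-s * ((v⁻¹ : Bˣ) : B) ^ n * ((v⁻¹ : Bˣ) : B)) =
          ((v : B) + 1) * ((v⁻¹ : Bˣ) : B) := by rw [h3]; ring
      rw [h7, map_mul, hvi, map_add, map_one]
      field_simp
      ring
    rw [h6]
    exact h5
  · have h2 : algebraMap B F ((v : B) ^ (n + 1) + (v : B) ^ n +
        ∑ i : Fin n, e' i * (v : B) ^ (n - 1 - (i : ℕ))) = 0 := by rw [hroot, map_zero]
    simp only [map_add, map_pow, map_sum, map_mul] at h2
    set w := algebraMap B F (v : B) with hw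
    have h3 : ∀ i : Fin n, e i * w⁻¹ ^ ((i : ℕ) + 2) =
        w⁻¹ ^ (n + 1) * (algebraMap B F (e' i) * w ^ (n - 1 - (i : ℕ))) := by
      intro i
      rw [hee i]
      have h4 : n + 1 = (n - 1 - (i : ℕ)) + ((i : ℕ) + 2) := by omega
      have h5 : w⁻¹ ^ (n + 1) * w ^ (n - 1 - (i : ℕ)) = w⁻¹ ^ ((i : ℕ) + 2) := by
        conv_lhs => rw [h4, pow_add]
        rw [mul_right_comm, ← mul_pow, inv_mul_cancel₀ hv0, one_pow, one_mul]
      rw [← h5]; ring
    rw [Finset.sum_congr rfl fun i _ => h3 i, ← Finset.mul_sum]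
    have h4 : ∑ i : Fin n, algebraMap B F (e' i) * w ^ (n - 1 - (i : ℕ)) = -(w ^ (n + 1) + w ^ n) := by
      linear_combination h2
    rw [h4]
    have h5 : w⁻¹ ^ (n + 1) * w ^ (n + 1) = 1 := by
      rw [← mul_pow, inv_mul_cancel₀ hv0, one_pow]
    have h6 : w⁻¹ ^ (n + 1) * w ^ n = w⁻¹ := by
      rw [pow_succ, mul_right_comm, ← mul_pow, inv_mul_cancel₀ hv0, one_pow, one_mul]
    linear_combination -h5 - h6

end Pool.Agent.Lib.MP958bd4
end

section
/-!
# MP_958bd4_lc: IND2, primes sharing no nonzero prime are independent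
-/
set_option autoImplicit false

universe u

namespace Pool.Agent.Lib.MP958bd4

open Polynomial Topology Filter

namespace IND2M

/-- the multiplicative set `(A \ p₁)(A \ p₂)` -/
def prodSub {A : Type u} [CommRing A] (p₁ p₂ : Ideal A) (h₁ : p₁.IsPrime) (h₂ : p₂.IsPrime) :
    Submonoid A where
  carrier := {x | ∃ s₁ s₂, s₁ ∉ p₁ ∧ s₂ ∉ p₂ ∧ x = s₁ * s₂}
  one_mem' := ⟨1, 1, fun h => h₁.ne_top ((Ideal.eq_top_iff_one _).2 h),
    fun h => h₂.ne_top ((Ideal.eq_top_iff_one _).2 h), by ring⟩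
  mul_mem' := by
    rintro x y ⟨s₁, s₂, h1, h2, rfl⟩ ⟨t₁, t₂, h3, h4, rfl⟩
    refine ⟨s₁ * t₁, s₂ * t₂, fun h => ?_, fun h => ?_, by ring⟩
    · rcases h₁.mem_or_mem h with h | h
      · exact h1 h
      · exact h3 h
    · rcases h₂.mem_or_mem h with h | h
      · exact h2 h
      · exact h4 h

lemma exists_c {A : Type u} [CommRing A] {p₁ p₂ : Ideal A} (h₁ : p₁.IsPrime) (h₂ : p₂.IsPrime)
    (hP : ∀ P : Ideal A, P.IsPrime → P ≤ p₁ → P ≤ p₂ → P = ⊥) (d : A) (hd : d ≠ 0) :
    ∃ s₁ s₂ c, s₁ ∉ p₁ ∧ s₂ ∉ p₂ ∧ s₁ * s₂ = d * c := by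
  by_contra hcon
  push Not at hcon
  have hdis : Disjoint ((Ideal.span {d} : Ideal A) : Set A) (prodSub p₁ p₂ h₁ h₂ : Set A) := by
    rw [Set.disjoint_left]
    rintro x hx ⟨s₁, s₂, h1, h2, rfl⟩
    obtain ⟨c, hc⟩ := Ideal.mem_span_singleton'.1 hx
    exact hcon s₁ s₂ c h1 h2 (by rw [← hc]; ring)
  obtain ⟨P, hPp, hle, hPd⟩ := Ideal.exists_le_prime_disjoint _ _ hdis
  have hP1 : P ≤ p₁ := fun x hx => by
    by_contra hx1
    exact Set.disjoint_left.1 hPd hx ⟨x, 1, hx1, fun h => h₂.ne_top ((Ideal.eq_top_iff_one _).2 h),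
      by ring⟩
  have hP2 : P ≤ p₂ := fun x hx => by
    by_contra hx1
    exact Set.disjoint_left.1 hPd hx ⟨1, x, fun h => h₁.ne_top ((Ideal.eq_top_iff_one _).2 h), hx1,
      by ring⟩
  have h0 := hP P hPp hP1 hP2
  have : d ∈ P := hle (Ideal.mem_span_singleton_self d)
  rw [h0] at this
  exact hd (by simpa using this)

end IND2M

open IND2M in
theorem specIND2 : SpecIND2.{u} := by
  intro A F _ _ _ _ _ p₁ p₂ h₁ h₂ h12 h21 hP a b y ha hb
  set φ := algebraMap A F with hφ
  have hinj : Function.Injective φ := IsFractionRing.injective A F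
  have hne : ∀ x : A, x ≠ 0 → φ x ≠ 0 := fun x hx h => hx (hinj (by rw [h, map_zero]))
  obtain ⟨x, hx1, hx2⟩ := SetLike.not_le_iff_exists.1 h12
  obtain ⟨z, hz2, hz1⟩ := SetLike.not_le_iff_exists.1 h21
  have hx0 : x ≠ 0 := fun h => hx2 (by rw [h]; exact p₂.zero_mem)
  have hz0 : z ≠ 0 := fun h => hz1 (by rw [h]; exact p₁.zero_mem)
  obtain ⟨n₁, k₁, hk₁, e₁⟩ := IsFractionRing.div_surjective A (y / a)
  obtain ⟨n₂, k₂, hk₂, e₂⟩ := IsFractionRing.div_surjective A (y / b)
  rw [← hφ] at e₁ e₂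
  have hk₁' := nonZeroDivisors.ne_zero hk₁
  have hk₂' := nonZeroDivisors.ne_zero hk₂
  set d : A := k₁ * k₂ * (x * z) with hd
  have hd0 : d ≠ 0 := mul_ne_zero (mul_ne_zero hk₁' hk₂') (mul_ne_zero hx0 hz0)
  have hd1 : d ∈ p₁ := Ideal.mul_mem_left _ _ (Ideal.mul_mem_right _ _ hx1)
  have hd2 : d ∈ p₂ := Ideal.mul_mem_left _ _ (Ideal.mul_mem_left _ _ hz2)
  obtain ⟨s₁, s₂, c, hs₁, hs₂, hsc⟩ := exists_c h₁ h₂ hP d hd0
  have hs2p1 : s₂ ∈ p₁ := by
    rcases h₁.mem_or_mem (show s₁ * s₂ ∈ p₁ by rw [hsc]; exact Ideal.mul_mem_right _ _ hd1) with h | h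
    · exact absurd h hs₁
    · exact h
  have hs1p2 : s₁ ∈ p₂ := by
    rcases h₂.mem_or_mem (show s₁ * s₂ ∈ p₂ by rw [hsc]; exact Ideal.mul_mem_right _ _ hd2) with h | h
    · exact h
    · exact absurd h hs₂
  have hsum1 : s₁ + s₂ ∉ p₁ := fun h => hs₁ ((Ideal.add_mem_iff_left _ hs2p1).1 h)
  have hsum2 : s₁ + s₂ ∉ p₂ := fun h => hs₂ ((Ideal.add_mem_iff_right _ hs1p2).1 h)
  have f1 : φ s₁ ≠ 0 := hne _ fun h => hs₁ (by rw [h]; exact p₁.zero_mem)
  have f2 : φ s₂ ≠ 0 := hne _ fun h => hs₂ (by rw [h]; exact p₂.zero_mem)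
  have f3 : φ s₁ + φ s₂ ≠ 0 := by
    rw [← map_add]
    exact hne _ fun h => hsum1 (by rw [h]; exact p₁.zero_mem)
  have fk1 := hne _ hk₁'
  have fk2 := hne _ hk₂'
  have hscφ : φ s₁ * φ s₂ = φ d * φ c := by rw [← map_mul, hsc, map_mul]
  refine ⟨y / a * φ d * φ c / (φ s₁ * (φ s₁ + φ s₂)), ?_,
    y / b * φ d * φ c / (φ s₂ * (φ s₁ + φ s₂)), ?_, ?_⟩
  · refine ⟨n₁ * k₂ * (x * z) * c, s₁ * (s₁ + s₂), fun h => ?_, ?_⟩
    · rcases h₁.mem_or_mem h with h | h
      · exact hs₁ h
      · exact hsum1 h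
    · rw [← e₁, hd]
      simp only [map_mul, map_add]
      field_simp
  · refine ⟨n₂ * k₁ * (x * z) * c, s₂ * (s₁ + s₂), fun h => ?_, ?_⟩
    · rcases h₂.mem_or_mem h with h | h
      · exact hs₂ h
      · exact hsum2 h
    · rw [← e₂, hd]
      simp only [map_mul, map_add]
      field_simp
  · have e3 : a * (y / a * φ d * φ c / (φ s₁ * (φ s₁ + φ s₂))) =
        y * (φ s₂ / (φ s₁ + φ s₂)) := by
      have : y / a * φ d * φ c = y / a * (φ s₁ * φ s₂) := by rw [hscφ]; ring
      rw [this]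
      field_simp
    have e4 : b * (y / b * φ d * φ c / (φ s₂ * (φ s₁ + φ s₂))) =
        y * (φ s₁ / (φ s₁ + φ s₂)) := by
      have : y / b * φ d * φ c = y / b * (φ s₁ * φ s₂) := by rw [hscφ]; ring
      rw [this]
      field_simp
    rw [e3, e4]
    field_simp
    ring

end Pool.Agent.Lib.MP958bd4
end

section
/-!
# Module PERS: persistence of simple roots
-/
set_option autoImplicit false

universe u

namespace Pool.Agent.Lib.MP958bd4

open Polynomial Topology Filter

namespace PERSM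

variable {F : Type u} [Field F]

/-- the polynomial with given coefficients -/
noncomputable def pol {n : ℕ} (q : Fin (n + 1) → F) : F[X] :=
  ∑ i : Fin (n + 1), monomial (i : ℕ) (q i)

theorem natDegree_pol {n : ℕ} (q : Fin (n + 1) → F) : (pol q).natDegree ≤ n := by
  unfold pol
  refine natDegree_sum_le_of_forall_le _ _ (fun i _ => ?_)
  refine (natDegree_monomial_le _).trans ?_
  have := i.2; omega

theorem hasse_pol {n : ℕ} (q : Fin (n + 1) → F) (k : ℕ) (x : F) :
    (hasseDeriv k (pol q)).eval x =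
      ∑ i : Fin (n + 1), ((i : ℕ).choose k : F) * q i * x ^ ((i : ℕ) - k) := by
  unfold pol
  rw [map_sum, eval_finsetSum]
  refine Finset.sum_congr rfl (fun i _ => ?_)
  rw [hasseDeriv_monomial, eval_monomial]

theorem eval_pol {n : ℕ} (q : Fin (n + 1) → F) (x : F) :
    (pol q).eval x = ∑ i : Fin (n + 1), q i * x ^ (i : ℕ) := by
  have := hasse_pol q 0 x
  rw [hasseDeriv_zero'] at this
  rw [this]
  refine Finset.sum_congr rfl (fun i _ => ?_)
  simp

theorem deriv_pol {n : ℕ} (q : Fin (n + 1) → F) (x : F) :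
    (pol q).derivative.eval x = ∑ i : Fin (n + 1), (i : ℕ) * q i * x ^ ((i : ℕ) - 1) := by
  have := hasse_pol q 1 x
  rw [hasseDeriv_one'] at this
  rw [this]
  refine Finset.sum_congr rfl (fun i _ => ?_)
  simp

theorem aux {X : Type u} [TopologicalSpace X] [TopologicalSpace F] [TopField F]
    (E D : X × F → F) (hE : Continuous E) (hD : Continuous D) (p : X) (α : F)
    (h0 : E (p, α) = 0) (h1 : D (p, α) ≠ 0) (V : Set F) (hV : V ∈ 𝓝 α) :
    ∀ᶠ z : X × F in 𝓝 (p, -1), α + E (z.1, α) * (D (z.1, α))⁻¹ * z.2 ∈ V ∧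
      D (z.1, α + E (z.1, α) * (D (z.1, α))⁻¹ * z.2) ≠ 0 := by
  have e1 : Continuous (fun z : X × F => E (z.1, α)) := by fun_prop
  have e2 : Continuous (fun z : X × F => D (z.1, α)) := by fun_prop
  have cβ : ContinuousAt (fun z : X × F => α + E (z.1, α) * (D (z.1, α))⁻¹ * z.2) (p, -1) :=
    continuousAt_const.add ((e1.continuousAt.mul (ContinuousAt.inv₀ e2.continuousAt h1)).mul
      continuous_snd.continuousAt)
  have vβ : α + E (p, α) * (D (p, α))⁻¹ * (-1) = α := by rw [h0]; ring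
  refine Filter.Eventually.and ?_ ?_
  · apply cβ
    simp only [vβ]
    exact hV
  · have c0 : ContinuousAt (fun z : X × F => (z.1,
        α + E (z.1, α) * (D (z.1, α))⁻¹ * z.2)) (p, -1) := continuous_fst.continuousAt.prodMk cβ
    have c : ContinuousAt (fun z : X × F => D (z.1,
        α + E (z.1, α) * (D (z.1, α))⁻¹ * z.2)) (p, -1) :=
      ContinuousAt.comp (g := D) hD.continuousAt c0
    apply c.eventually_ne
    simp only [vβ]
    exact h1

theorem aux2 {X : Type u} [TopologicalSpace X] [TopologicalSpace F] [TopField F]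
    (H E D : X × F → F) (hH : Continuous H) (hE : Continuous E) (hD : Continuous D) (p : X) (α : F)
    (h0 : E (p, α) = 0) (h1 : D (p, α) ≠ 0) (W : Set F) (hW : W ∈ 𝓝 0) (k : ℕ) (hk : 2 ≤ k) :
    ∀ᶠ q in 𝓝 p, H (q, α) * E (q, α) ^ (k - 1) * (D (q, α))⁻¹ ^ k ∈ W := by
  have e0 : Continuous (fun q : X => H (q, α)) := by fun_prop
  have e1 : Continuous (fun q : X => E (q, α)) := by fun_prop
  have e2 : Continuous (fun q : X => D (q, α)) := by fun_prop
  have c : ContinuousAt (fun q : X => H (q, α) * E (q, α) ^ (k - 1) * (D (q, α))⁻¹ ^ k) p :=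
    (e0.continuousAt.mul (e1.continuousAt.pow _)).mul
      ((ContinuousAt.inv₀ e2.continuousAt h1).pow _)
  apply c
  have : (0 : F) ^ (k - 1) = 0 := zero_pow (by omega)
  show W ∈ 𝓝 (H (p, α) * E (p, α) ^ (k - 1) * (D (p, α))⁻¹ ^ k)
  rw [h0, this, mul_zero, zero_mul]
  exact hW

end PERSM

open PERSM in
theorem specPERS (hTAY : SpecTAY.{u}) : SpecPERS.{u} := by
  intro F _ _ _ hT n p α h0 h1 V hV
  rw [← eval_pol] at h0
  rw [← deriv_pol] at h1
  -- continuity of the data
  have cH : ∀ k : ℕ, Continuous (fun z : (Fin (n + 1) → F) × F =>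
      (hasseDeriv k (pol z.1)).eval z.2) := by
    intro k
    simp only [hasse_pol]
    fun_prop
  have cE : Continuous (fun z : (Fin (n + 1) → F) × F => (pol z.1).eval z.2) := by
    have := cH 0; simpa only [hasseDeriv_zero'] using this
  have cD : Continuous (fun z : (Fin (n + 1) → F) × F => (pol z.1).derivative.eval z.2) := by
    have := cH 1; simpa only [hasseDeriv_one'] using this
  have E := aux (fun z : (Fin (n + 1) → F) × F => (pol z.1).eval z.2)
    (fun z : (Fin (n + 1) → F) × F => (pol z.1).derivative.eval z.2) cE cD p α h0 h1 V hV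
  rw [nhds_prod_eq, eventually_prod_iff] at E
  obtain ⟨P1, hP1, P2, hP2, hP⟩ := E
  obtain ⟨W, hW, hW'⟩ := hTAY F hT n {z | P2 z} hP2
  -- the e_k
  have E3 : ∀ᶠ q in 𝓝 p, (pol q).derivative.eval α ≠ 0 := by
    have c : Continuous (fun q : Fin (n + 1) → F => (pol q).derivative.eval α) := by
      simp only [deriv_pol]
      fun_prop
    exact c.continuousAt.eventually_ne h1
  have E4 : ∀ k : ℕ, 2 ≤ k → ∀ᶠ q in 𝓝 p, (hasseDeriv k (pol q)).eval α *
      (pol q).eval α ^ (k - 1) * ((pol q).derivative.eval α)⁻¹ ^ k ∈ W := fun k hk =>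
    aux2 (fun z : (Fin (n + 1) → F) × F => (hasseDeriv k (pol z.1)).eval z.2)
      (fun z : (Fin (n + 1) → F) × F => (pol z.1).eval z.2)
      (fun z : (Fin (n + 1) → F) × F => (pol z.1).derivative.eval z.2) (cH k) cE cD p α h0 h1
      W hW k hk
  have E5 : ∀ᶠ q in 𝓝 p, ∀ k ∈ Finset.Icc 2 n, (hasseDeriv k (pol q)).eval α *
      (pol q).eval α ^ (k - 1) * ((pol q).derivative.eval α)⁻¹ ^ k ∈ W := by
    rw [Filter.eventually_all_finset]
    intro k hk
    exact E4 k (Finset.mem_Icc.1 hk).1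
  refine ⟨{q | P1 q ∧ (pol q).derivative.eval α ≠ 0 ∧ ∀ k ∈ Finset.Icc 2 n,
    (hasseDeriv k (pol q)).eval α * (pol q).eval α ^ (k - 1) *
      ((pol q).derivative.eval α)⁻¹ ^ k ∈ W}, hP1.and (E3.and E5), ?_⟩
  rintro q ⟨q1, q2, q3⟩
  obtain ⟨z, hz, hz'⟩ := hW' (pol q) α (natDegree_pol q) q2
    (fun k hk hk' => q3 k (Finset.mem_Icc.2 ⟨hk, hk'⟩))
  obtain ⟨r1, r2⟩ := hP q1 hz
  refine ⟨_, r1, ?_, ?_⟩
  · rw [← eval_pol]; exact hz'
  · rw [← deriv_pol]; exact r2

end Pool.Agent.Lib.MP958bd4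
end

section
/-!
# MP_958bd4_lc: module RCF (the order topology of a real closed field)
-/
set_option autoImplicit false

universe u

namespace Pool.Agent.Lib.MP958bd4

open Polynomial Topology Filter

namespace RCFM

theorem thens {F : Type u} [Field F] [LinearOrder F] [IsStrictOrderedRing F] [TopologicalSpace F]
    [OrderTopology F] (ivt : ∀ (f : F[X]) (a b : F), a ≤ b → 0 < f.eval a → f.eval b < 0 →
      ∃ c, a ≤ c ∧ c ≤ b ∧ f.eval c = 0) : THens F := by
  intro n V hV
  obtain ⟨ε, hε, hεV⟩ := (nhds_basis_abs_sub_lt (-1 : F)).mem_iff.1 hV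
  obtain ⟨r, hr0, hr1, hrε⟩ : ∃ r : F, 0 < r ∧ r ≤ 1 ∧ r < ε :=
    ⟨min (ε / 2) 1, lt_min (by linarith) one_pos, min_le_right _ _,
      (min_le_left _ _).trans_lt (by linarith)⟩
  set δ : F := r / ((n + 1) * 2 ^ (n + 2)) with hδ
  have hδ0 : 0 < δ := by positivity
  refine ⟨{x | |x - 0| < δ}, (nhds_basis_abs_sub_lt (0 : F)).mem_of_mem hδ0, fun e he => ?_⟩
  have hsum : ∀ z : F, |z| ≤ 2 → |∑ i : Fin n, e i * z ^ (i.val + 2)| < r := by
    intro z hz
    have h1 : |∑ i : Fin n, e i * z ^ (i.val + 2)| ≤ ∑ i : Fin n, δ * 2 ^ (n + 2) := by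
      refine (Finset.abs_sum_le_sum_abs _ _).trans (Finset.sum_le_sum fun i _ => ?_)
      rw [abs_mul, abs_pow]
      have h2 : |e i| ≤ δ := by
        have := he i
        simp only [sub_zero] at this
        exact le_of_lt this
      have h3 : |z| ^ (i.val + 2) ≤ 2 ^ (n + 2) :=
        (pow_le_pow_left₀ (abs_nonneg z) hz _).trans
          (pow_le_pow_right₀ (by norm_num) (by have := i.2; omega))
      exact mul_le_mul h2 h3 (by positivity) hδ0.le
    refine h1.trans_lt ?_
    rw [Finset.sum_const, Finset.card_univ, Fintype.card_fin, nsmul_eq_mul]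
    have h4 : (n + 1 : F) * (δ * 2 ^ (n + 2)) = r := by
      rw [hδ]; field_simp
    have h5 : 0 < δ * 2 ^ (n + 2) := by positivity
    nlinarith
  let q : F[X] := -(1 + X + ∑ i : Fin n, C (e i) * X ^ (i.val + 2))
  have hq : ∀ z, q.eval z = -(1 + z + ∑ i : Fin n, e i * z ^ (i.val + 2)) := by
    intro z
    simp [q, eval_finsetSum]
  obtain ⟨c, hc1, hc2, hc3⟩ := ivt q (-1 - r) (-1 + r) (by linarith)
    (by
      rw [hq]
      have := (abs_lt.1 (hsum (-1 - r) (by rw [abs_le]; constructor <;> linarith))).2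
      linarith)
    (by
      rw [hq]
      have := (abs_lt.1 (hsum (-1 + r) (by rw [abs_le]; constructor <;> linarith))).1
      linarith)
  refine ⟨c, hεV ?_, ?_⟩
  · show |c - -1| < ε
    rw [abs_lt]; constructor <;> linarith
  · rw [hq] at hc3; exact neg_eq_zero.1 hc3

theorem isV {F : Type u} [Field F] [LinearOrder F] [IsStrictOrderedRing F] [TopologicalSpace F]
    [OrderTopology F] : IsV F := by
  intro V hV V' hV'
  obtain ⟨ε, hε, hεV⟩ := (nhds_basis_abs_sub_lt (0 : F)).mem_iff.1 hV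
  obtain ⟨ε', hε', hεV'⟩ := (nhds_basis_abs_sub_lt (0 : F)).mem_iff.1 hV'
  refine ⟨ε * ε' / 2, by positivity, fun x hx => hεV' ?_⟩
  have hx' : ε ≤ |x⁻¹| := by
    by_contra hlt
    exact hx (hεV (by show |x⁻¹ - 0| < ε; rw [sub_zero]; exact not_le.1 hlt))
  have hx0 : x ≠ 0 := by rintro rfl; rw [inv_zero, abs_zero] at hx'; linarith
  have hxp : 0 < |x| := abs_pos.2 hx0
  have h1 : ε * |x| ≤ 1 := by
    rw [abs_inv] at hx'
    calc ε * |x| ≤ |x|⁻¹ * |x| := mul_le_mul_of_nonneg_right hx' hxp.le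
      _ = 1 := inv_mul_cancel₀ hxp.ne'
  show |ε * ε' / 2 * x - 0| < ε'
  rw [sub_zero, abs_mul, abs_of_pos (by positivity : 0 < ε * ε' / 2)]
  have : ε * ε' / 2 * |x| = (ε * |x|) * (ε' / 2) := by ring
  rw [this]
  nlinarith

end RCFM

theorem specRCF (h : SpecRCI.{u}) : SpecRCF.{u} := by
  intro F _ hF
  obtain ⟨o, hs, hsq, ivt⟩ := h F hF
  let t : TopologicalSpace F := Preorder.topology F
  have hot : OrderTopology F := ⟨rfl⟩
  have hnd : (𝓝[≠] (0 : F)).NeBot := (nhdsGT_neBot (0 : F)).mono (nhdsWithin_mono _ fun x hx => ne_of_gt hx)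
  refine ⟨t, { nd := hnd }, RCFM.thens ivt, RCFM.isV, ?_, ?_⟩
  · refine (nhds_basis_abs_sub_lt (0 : F)).mem_iff.2 ⟨1 / 4, by norm_num, fun y hy => ?_⟩
    have hy' : |y| < 1 / 4 := by simpa using hy
    have h2 : y ^ 2 < 1 / 16 := by rw [← sq_abs]; nlinarith [abs_nonneg y]
    have h3 : 0 < 1 - 4 * y ^ 2 := by linarith
    obtain ⟨z, hz⟩ := (hsq _).1 h3.le
    refine ⟨z, ?_, by rw [hz]; ring⟩
    rintro rfl
    rw [hz] at h3; simp at h3
  · refine (nhds_basis_abs_sub_lt (1 : F)).mem_iff.2 ⟨1 / 4, by norm_num, fun y hy => ?_⟩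
    rintro ⟨z, -, hz⟩
    have hy' : |y - 1| < 1 / 4 := hy
    have h1 := (abs_lt.1 hy').1
    nlinarith [sq_nonneg z]

end Pool.Agent.Lib.MP958bd4
end

section
/-!
# MP_958bd4_lc: module RCI (real closed fields)
-/
set_option autoImplicit false

universe u

namespace Pool.Agent.Lib.MP958bd4

open Polynomial

namespace RCIM

variable {F : Type u} [Field F]

section order

theorem add_isSquare [IsRealClosed F] {x y : F} (hx : IsSquare x) (hy : IsSquare y) :
    IsSquare (x + y) := by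
  by_contra h
  obtain ⟨z, hz⟩ := IsRealClosed.isSquare_neg_of_not_isSquare h
  obtain ⟨a, rfl⟩ := hx
  obtain ⟨b, rfl⟩ := hy
  have h0 : z ≠ 0 := by
    rintro rfl
    apply h
    have : a * a + b * b = 0 := by
      rw [mul_zero] at hz; exact neg_eq_zero.1 hz
    rw [this]; exact ⟨0, by simp⟩
  apply IsSemireal.not_isSumSq_neg_one F
  have e : (-1 : F) = (a / z) * (a / z) + (b / z) * (b / z) := by
    field_simp
    linear_combination hz
  rw [e]
  exact (IsSumSq.mul_self _).add (IsSumSq.mul_self _)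

theorem neg_isSquare [IsRealClosed F] {x : F} (hx : IsSquare x) (hy : IsSquare (-x)) : x = 0 := by
  by_contra h0
  obtain ⟨a, rfl⟩ := hx
  obtain ⟨b, hb⟩ := hy
  have ha : a ≠ 0 := by rintro rfl; simp at h0
  apply IsSemireal.not_isSumSq_neg_one F
  have e : (-1 : F) = (b / a) * (b / a) := by
    field_simp
    linear_combination hb
  rw [e]
  exact IsSumSq.mul_self _

open Classical in
/-- the order of a real closed field -/
@[instance_reducible] noncomputable def ord (F : Type u) [Field F] [IsRealClosed F] : LinearOrder F where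
  le x y := IsSquare (y - x)
  le_refl x := by simp
  le_trans x y z h1 h2 := by
    have := add_isSquare h1 h2
    rwa [show y - x + (z - y) = z - x by ring] at this
  le_antisymm x y h1 h2 := by
    have := neg_isSquare h1 (by rwa [neg_sub])
    exact (sub_eq_zero.1 this).symm
  le_total x y := by
    rcases IsRealClosed.isSquare_or_isSquare_neg (y - x) with h | h
    · exact Or.inl h
    · right; rwa [neg_sub] at h
  toDecidableLE := fun _ _ => Classical.propDecidable _

theorem ord_strict [IsRealClosed F] : @IsStrictOrderedRing F _ (ord F).toPartialOrder := by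
  let := ord F
  have h1 : IsOrderedAddMonoid F :=
    { add_le_add_left := fun a b h c => by
        show IsSquare (b + c - (a + c))
        rw [show b + c - (a + c) = b - a by ring]; exact h }
  have h2 : ZeroLEOneClass F := ⟨by show IsSquare ((1 : F) - 0); simp⟩
  have h3 : IsOrderedRing F := .of_mul_nonneg fun x y hx hy => by
    show IsSquare (x * y - 0)
    have hx' : IsSquare (x - 0) := hx
    have hy' : IsSquare (y - 0) := hy
    rw [sub_zero] at hx' hy' ⊢
    exact hx'.mul hy'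
  exact IsOrderedRing.toIsStrictOrderedRing F

theorem ord_nonneg [IsRealClosed F] (x : F) : (ord F).le 0 x ↔ IsSquare x := by
  show IsSquare (x - 0) ↔ _
  rw [sub_zero]

end order

section galois

variable [LinearOrder F] [IsStrictOrderedRing F] [IsRealClosed F]

/-- square roots of `x + i y` in an extension containing `i` -/
theorem sqrt_adjoin {K : Type u} [Field K] [Algebra F K] {i : K} (hi : i ^ 2 = -1) (x y : F) :
    ∃ a b : F, (algebraMap F K a + algebraMap F K b * i) ^ 2 =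
      algebraMap F K x + algebraMap F K y * i := by
  obtain ⟨r, hr⟩ := (IsRealClosed.nonneg_iff_isSquare (x := x ^ 2 + y ^ 2)).1 (by positivity)
  obtain ⟨R, hR0, hR⟩ : ∃ R : F, 0 ≤ R ∧ R ^ 2 = x ^ 2 + y ^ 2 :=
    ⟨|r|, abs_nonneg r, by rw [sq_abs, hr]; ring⟩
  have hxR : |x| ≤ R := abs_le_of_sq_le_sq (by rw [hR]; nlinarith [sq_nonneg y]) hR0
  have h1 : 0 ≤ (R + x) / 2 := by
    have := (abs_le.1 hxR).1; linarith
  have h2 : 0 ≤ (R - x) / 2 := by
    have := (abs_le.1 hxR).2; linarith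
  obtain ⟨u, hu⟩ := (IsRealClosed.nonneg_iff_isSquare).1 h1
  obtain ⟨v, hv⟩ := (IsRealClosed.nonneg_iff_isSquare).1 h2
  have huv : (2 * u * v) ^ 2 = y ^ 2 := by
    have e1 : (2 * u * v) ^ 2 = 4 * (u * u) * (v * v) := by ring
    rw [e1, ← hu, ← hv]
    linear_combination hR
  have hi' : ∀ a b : F, (algebraMap F K a + algebraMap F K b * i) ^ 2 =
      algebraMap F K (a * a - b * b) + algebraMap F K (2 * a * b) * i := by
    intro a b
    simp only [map_sub, map_mul, map_ofNat]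
    linear_combination (algebraMap F K b) ^ 2 * hi
  rcases sq_eq_sq_iff_eq_or_eq_neg.1 huv with h | h
  · refine ⟨u, v, ?_⟩
    rw [hi', h, ← hu, ← hv]
    congr 2; ring
  · refine ⟨u, -v, ?_⟩
    rw [hi', show 2 * u * -v = y by linear_combination -h,
      show u * u - -v * -v = (R + x) / 2 - (R - x) / 2 by rw [hu, hv]; ring]
    congr 2; ring

/-- A finite Galois extension of a real closed field containing `i` is generated by `i`. -/
theorem top_eq {K : Type u} [Field K] [Algebra F K] [FiniteDimensional F K] [IsGalois F K]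
    {i : K} (hi : i ^ 2 = -1) : IntermediateField.adjoin F {i} = ⊤ := by
  classical
  have hfin : Finite (K ≃ₐ[F] K) := inferInstance
  have : Fact (Nat.Prime 2) := ⟨Nat.prime_two⟩
  have hcard : Nat.card (K ≃ₐ[F] K) = Module.finrank F K := IsGalois.card_aut_eq_finrank F K
  -- the fixed field of a Sylow 2-subgroup
  obtain ⟨P⟩ : Nonempty (Sylow 2 (K ≃ₐ[F] K)) := inferInstance
  set L := IntermediateField.fixedField (P : Subgroup (K ≃ₐ[F] K)) with hL
  have hLK : Module.finrank L K = Nat.card (P : Subgroup (K ≃ₐ[F] K)) :=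
    IntermediateField.finrank_fixedField_eq_card _
  have hmul : Module.finrank F L * Module.finrank L K = Module.finrank F K :=
    Module.finrank_mul_finrank F L K
  have hodd : ¬ 2 ∣ Module.finrank F L := by
    have h1 := P.card_mul_index
    have h2 : Module.finrank F L = (P : Subgroup (K ≃ₐ[F] K)).index := by
      have hpos : 0 < Nat.card (P : Subgroup (K ≃ₐ[F] K)) := Nat.card_pos
      apply Nat.eq_of_mul_eq_mul_right hpos
      rw [← hLK, hmul, ← hcard, ← h1, hLK, mul_comm]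
    rw [h2]
    exact P.not_dvd_index
  have hL1 : Module.finrank F L = 1 := by
    obtain ⟨α, hα⟩ := Field.exists_primitive_element F L
    have hint : IsIntegral F α := Algebra.IsIntegral.isIntegral α
    have hdeg : (minpoly F α).natDegree = Module.finrank F L := by
      rw [← IntermediateField.adjoin.finrank hint, hα, IntermediateField.finrank_top']
    obtain ⟨x, hx⟩ := IsRealClosed.exists_isRoot_of_odd_natDegree (f := minpoly F α)
      (by rw [hdeg]; exact Nat.not_even_iff_odd.1 fun h => hodd h.two_dvd)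
    rw [← hdeg]
    have := Polynomial.degree_eq_one_of_irreducible_of_root (minpoly.irreducible hint) hx
    exact Polynomial.natDegree_eq_of_degree_eq_some this
  have hG : ∃ k, Nat.card (K ≃ₐ[F] K) = 2 ^ k := by
    obtain ⟨k, hk⟩ := IsPGroup.iff_card.1 P.isPGroup'
    exact ⟨k, by rw [hcard, ← hmul, hL1, one_mul, hLK, hk]⟩
  obtain ⟨k, hk⟩ := hG
  set E := IntermediateField.adjoin F {i} with hE
  have hiint : IsIntegral F i := Algebra.IsIntegral.isIntegral i
  have hEmem : ∀ z ∈ E, ∃ a b : F, z = algebraMap F K a + algebraMap F K b * i := by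
    intro z hz
    have hz' : z ∈ Algebra.adjoin F {i} := by
      rw [← IntermediateField.adjoin_simple_toSubalgebra_of_isAlgebraic hiint.isAlgebraic]; exact hz
    clear hz
    induction hz' using Algebra.adjoin_induction with
    | mem x hx => exact ⟨0, 1, by rw [Set.mem_singleton_iff.1 hx]; simp⟩
    | algebraMap r => exact ⟨r, 0, by simp⟩
    | add x y _ _ hx hy =>
      obtain ⟨a, b, rfl⟩ := hx
      obtain ⟨c, d, rfl⟩ := hy
      exact ⟨a + c, b + d, by simp only [map_add]; ring⟩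
    | mul x y _ _ hx hy =>
      obtain ⟨a, b, rfl⟩ := hx
      obtain ⟨c, d, rfl⟩ := hy
      refine ⟨a * c - b * d, a * d + b * c, ?_⟩
      simp only [map_sub, map_add, map_mul]
      linear_combination (algebraMap F K b * algebraMap F K d) * hi
  have hEK : ∃ j, Module.finrank E K = 2 ^ j := by
    have : Module.finrank F E * Module.finrank E K = 2 ^ k := by
      rw [Module.finrank_mul_finrank, ← hcard, hk]
    obtain ⟨j, -, hj⟩ := (Nat.dvd_prime_pow Nat.prime_two).1 (Dvd.intro_left _ this)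
    exact ⟨j, hj⟩
  obtain ⟨j, hj⟩ := hEK
  rcases Nat.eq_zero_or_pos j with h0 | hpos
  · rw [h0, pow_zero] at hj
    exact IntermediateField.finrank_eq_one_iff_eq_top.1 hj
  exfalso
  have hcard' : Nat.card (K ≃ₐ[E] K) = 2 ^ j := by
    rw [IsGalois.card_aut_eq_finrank E K, hj]
  obtain ⟨K', hK'⟩ := Sylow.exists_subgroup_card_pow_prime (G := K ≃ₐ[E] K) 2 (n := j - 1)
    (by rw [hcard']; exact pow_dvd_pow 2 (Nat.sub_le _ _))
  set M := IntermediateField.fixedField K' with hM
  have hMK : Module.finrank M K = 2 ^ (j - 1) := by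
    rw [IntermediateField.finrank_fixedField_eq_card, hK']
  have hEM : Module.finrank E M = 2 := by
    have h1 : Module.finrank E M * Module.finrank M K = Module.finrank E K :=
      Module.finrank_mul_finrank E M K
    rw [hMK, hj] at h1
    have h2 : 2 * 2 ^ (j - 1) = 2 ^ j := by
      rw [← pow_succ']; congr 1; omega
    rw [← h2] at h1
    exact Nat.eq_of_mul_eq_mul_right (by positivity) h1
  obtain ⟨θ, hθ⟩ := Field.exists_primitive_element E M
  have hint : IsIntegral E θ := Algebra.IsIntegral.isIntegral θ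
  have hdeg : (minpoly E θ).natDegree = 2 := by
    rw [← hEM, ← IntermediateField.adjoin.finrank hint, hθ, IntermediateField.finrank_top']
  have hirr := minpoly.irreducible hint
  have hmonic := minpoly.monic hint
  set p := minpoly E θ with hp
  have h20 : (2 : E) ≠ 0 := by
    have : CharZero E := charZero_of_injective_algebraMap (algebraMap F E).injective
    exact two_ne_zero
  -- the discriminant is a square
  let iE : E := ⟨i, IntermediateField.mem_adjoin_simple_self F i⟩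
  have hiE : iE ^ 2 = -1 := by
    apply Subtype.ext; simpa [iE] using hi
  obtain ⟨δ, hδ⟩ : ∃ δ : E, δ ^ 2 = p.coeff 1 ^ 2 - 4 * p.coeff 0 := by
    obtain ⟨x, y, hxy⟩ := hEmem _ (p.coeff 1 ^ 2 - 4 * p.coeff 0).2
    obtain ⟨a, b, hab⟩ := sqrt_adjoin (F := F) (K := E) hiE x y
    refine ⟨algebraMap F E a + algebraMap F E b * iE, ?_⟩
    rw [hab]
    apply Subtype.ext
    rw [hxy]; rfl
  have hroot : p.IsRoot ((-p.coeff 1 + δ) / 2) := by
    have hpe : p = C (p.coeff 2) * X ^ 2 + C (p.coeff 1) * X + C (p.coeff 0) :=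
      Polynomial.eq_quadratic_of_degree_le_two (Polynomial.natDegree_le_iff_degree_le.1 hdeg.le)
    have hc2 : p.coeff 2 = 1 := by rw [← hdeg]; exact hmonic.coeff_natDegree
    rw [hc2] at hpe
    have e := congrArg (eval ((-p.coeff 1 + δ) / 2)) hpe
    simp only [eval_add, eval_mul, eval_C, eval_pow, eval_X] at e
    rw [Polynomial.IsRoot, e]
    field_simp
    linear_combination hδ
  have h1 : p.natDegree = 1 := Polynomial.natDegree_eq_of_degree_eq_some
    (Polynomial.degree_eq_one_of_irreducible_of_root hirr hroot)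
  rw [hdeg] at h1
  norm_num at h1

/-- irreducible polynomials over real closed fields have degree at most 2 -/
theorem natDegree_le_two {f : F[X]} (hf : Irreducible f) : f.natDegree ≤ 2 := by
  have hX : (X ^ 2 + 1 : F[X]).natDegree = 2 := by
    rw [← C_1]; exact natDegree_X_pow_add_C
  have hX0 : (X ^ 2 + 1 : F[X]) ≠ 0 := by
    intro h; rw [h] at hX; simp at hX
  have hf0 := hf.ne_zero
  let g : F[X] := f * (X ^ 2 + 1)
  let K := g.SplittingField
  have hgal : IsGalois F K := isGalois_iff.2 ⟨inferInstance, Normal.of_isSplittingField g⟩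
  have hfd : FiniteDimensional F K := inferInstance
  have hs : (g.map (algebraMap F K)).Splits := SplittingField.splits g
  have hg0 : g.map (algebraMap F K) ≠ 0 := Polynomial.map_ne_zero (mul_ne_zero hf0 hX0)
  have hs1 : (f.map (algebraMap F K)).Splits :=
    Splits.of_dvd hs hg0 (Polynomial.map_dvd _ (Dvd.intro _ rfl))
  have hs2 : ((X ^ 2 + 1 : F[X]).map (algebraMap F K)).Splits :=
    Splits.of_dvd hs hg0 (Polynomial.map_dvd _ (Dvd.intro_left _ rfl))
  obtain ⟨i, hi⟩ := hs2.exists_eval_eq_zero (by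
    rw [degree_map]; intro h
    rw [Polynomial.natDegree_eq_of_degree_eq_some h] at hX; norm_num at hX)
  have hi' : i ^ 2 = -1 := by
    rw [Polynomial.eval_map] at hi
    simp only [eval₂_add, eval₂_pow, eval₂_X, eval₂_one] at hi
    linear_combination hi
  obtain ⟨β, hβ⟩ := hs1.exists_eval_eq_zero (by
    rw [degree_map]; intro h
    exact hf.not_isUnit (Polynomial.isUnit_iff_degree_eq_zero.2 h))
  have htop := top_eq (F := F) hi'
  have hiint : IsIntegral F i := Algebra.IsIntegral.isIntegral i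
  have hfr : Module.finrank F K ≤ 2 := by
    rw [← IntermediateField.finrank_top', ← htop, IntermediateField.adjoin.finrank hiint, ← hX]
    refine Polynomial.natDegree_le_of_dvd (minpoly.dvd F i ?_) hX0
    simp only [map_add, map_pow, aeval_X, map_one]
    rw [hi']; ring
  have hβint : IsIntegral F β := Algebra.IsIntegral.isIntegral β
  have hβ' : aeval β f = 0 := by rw [aeval_def, ← Polynomial.eval_map]; exact hβ
  have hass := minpoly.eq_of_irreducible hf hβ'
  have hd : f.natDegree = (minpoly F β).natDegree := by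
    rw [← hass, Polynomial.natDegree_mul_C (inv_ne_zero (leadingCoeff_ne_zero.2 hf0))]
  rw [hd]
  exact (minpoly.natDegree_le β).trans hfr

/-- irreducible polynomials do not change sign on an interval without roots -/
theorem irr_sign {f : F[X]} (hf : Irreducible f) {a b : F} (hab : a ≤ b)
    (h : ∀ c, a ≤ c → c ≤ b → f.eval c ≠ 0) : 0 < f.eval a * f.eval b := by
  have hle := natDegree_le_two hf
  have hpe : f = C (f.coeff 2) * X ^ 2 + C (f.coeff 1) * X + C (f.coeff 0) :=
    Polynomial.eq_quadratic_of_degree_le_two (Polynomial.natDegree_le_iff_degree_le.1 hle)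
  set α := f.coeff 2
  set β := f.coeff 1
  set γ := f.coeff 0
  have hev : ∀ x, f.eval x = α * x ^ 2 + β * x + γ := by
    intro x
    conv_lhs => rw [hpe]
    simp only [eval_add, eval_mul, eval_C, eval_pow, eval_X]
  have hdegpos : 0 < f.natDegree := by
    rw [Nat.pos_iff_ne_zero]
    intro h0
    exact hf.not_isUnit (Polynomial.isUnit_iff_degree_eq_zero.2 (by
      rw [Polynomial.degree_eq_natDegree hf.ne_zero, h0]; rfl))
  by_cases hroot : ∃ r, f.eval r = 0
  · obtain ⟨r, hr⟩ := hroot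
    have h1 := Polynomial.degree_eq_one_of_irreducible_of_root hf hr
    have h1' : f.natDegree = 1 := Polynomial.natDegree_eq_of_degree_eq_some h1
    have hα : α = 0 := Polynomial.coeff_eq_zero_of_natDegree_lt (by rw [h1']; norm_num)
    have hβ : β ≠ 0 := by
      have := leadingCoeff_ne_zero.2 hf.ne_zero
      rwa [leadingCoeff, h1'] at this
    have hr' : β * r + γ = 0 := by rw [← hr, hev, hα]; ring
    have e : ∀ x, f.eval x = β * (x - r) := by
      intro x; rw [hev, hα]; linear_combination hr'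
    have hr'' : r < a ∨ b < r := by
      by_contra hc
      push Not at hc
      exact h r hc.1 hc.2 hr
    rw [e, e, show β * (a - r) * (β * (b - r)) = β ^ 2 * ((a - r) * (b - r)) by ring]
    refine mul_pos (by positivity) ?_
    rcases hr'' with hh | hh
    · exact mul_pos (by linarith) (by linarith)
    · exact mul_pos_of_neg_of_neg (by linarith) (by linarith)
  · push Not at hroot
    have hα : α ≠ 0 := by
      intro hα
      have hβ : β ≠ 0 := by
        intro hβ
        rw [hα, hβ] at hpe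
        have : f.natDegree = 0 := by rw [hpe]; simp
        omega
      exact hroot (-γ / β) (by rw [hev, hα]; field_simp; ring)
    have hdisc : β ^ 2 - 4 * α * γ < 0 := by
      by_contra hc
      obtain ⟨δ, hδ⟩ := (IsRealClosed.nonneg_iff_isSquare).1 (not_lt.1 hc)
      refine hroot ((-β + δ) / (2 * α)) ?_
      rw [hev]
      field_simp
      linear_combination -hδ
    have e : ∀ x, 0 < 4 * α * f.eval x := by
      intro x
      rw [hev]
      nlinarith [sq_nonneg (2 * α * x + β)]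
    have := mul_pos (e a) (e b)
    rw [show 4 * α * f.eval a * (4 * α * f.eval b) = 16 * α ^ 2 * (f.eval a * f.eval b) by ring]
      at this
    exact (mul_pos_iff_of_pos_left (by positivity)).1 this

theorem sign {f : F[X]} {a b : F} (hab : a ≤ b) (hf : f ≠ 0)
    (h : ∀ c, a ≤ c → c ≤ b → f.eval c ≠ 0) : 0 < f.eval a * f.eval b := by
  induction f using UniqueFactorizationMonoid.induction_on_prime with
  | h₁ => exact absurd rfl hf
  | h₂ x hx =>
    obtain ⟨c, hc, rfl⟩ := Polynomial.isUnit_iff.1 hx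
    have : c ≠ 0 := hc.ne_zero
    rw [eval_C, eval_C]
    exact mul_self_pos.2 this
  | h₃ g p hg hp ih =>
    have h1 := irr_sign hp.irreducible hab (fun c h1 h2 h3 => h c h1 h2 (by
      rw [eval_mul, h3, zero_mul]))
    have h2 := ih hg (fun c h1 h2 h3 => h c h1 h2 (by rw [eval_mul, h3, mul_zero]))
    rw [eval_mul, eval_mul, show p.eval a * g.eval a * (p.eval b * g.eval b) =
      (p.eval a * p.eval b) * (g.eval a * g.eval b) by ring]
    exact mul_pos h1 h2

theorem ivt (f : F[X]) (a b : F) (hab : a ≤ b) (ha : 0 < f.eval a) (hb : f.eval b < 0) :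
    ∃ c, a ≤ c ∧ c ≤ b ∧ f.eval c = 0 := by
  by_contra hc
  push Not at hc
  have hf : f ≠ 0 := by rintro rfl; simp at ha
  have := sign hab hf hc
  nlinarith

end galois

end RCIM

theorem specRCI : SpecRCI.{u} := by
  intro F _ hF
  have hord := RCIM.ord_strict (F := F)
  refine ⟨RCIM.ord F, hord, RCIM.ord_nonneg, fun f a b hab ha hb => ?_⟩
  let := RCIM.ord F
  exact RCIM.ivt f a b hab ha hb

end Pool.Agent.Lib.MP958bd4
end

section
/-!
# Module ROPEN: having no root is an open condition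
-/
set_option autoImplicit false

universe u

namespace Pool.Agent.Lib.MP958bd4

open Polynomial Topology Filter

namespace ROPENM

variable {F : Type u} [Field F] [TopologicalSpace F] [TopField F]

theorem bmul {ι : Type*} {l : Filter ι} {φ ψ : ι → F} {K : Set F} (hK : Bdd K)
    (hφ : ∀ᶠ i in l, φ i ∈ K) (hψ : Tendsto ψ l (𝓝 0)) :
    Tendsto (fun i => φ i * ψ i) l (𝓝 0) := by
  intro V hV
  obtain ⟨W, hW, hW'⟩ := BNDM.unif hK hV
  have h' : ∀ᶠ i in l, ψ i ∈ W := hψ hW
  show ∀ᶠ i in l, φ i * ψ i ∈ V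
  filter_upwards [hφ, h'] with i hi hi'
  exact hW' _ hi _ hi'

theorem bdd_eval {K : Set F} (hK : Bdd K) (P : F[X]) : Bdd {z | ∃ x ∈ K, z = P.eval x} := by
  have hfin : (Set.range P.coeff).Finite := by
    classical
    refine (Finset.finite_toSet (Finset.image P.coeff (Finset.range (P.natDegree + 2)))).subset ?_
    rintro _ ⟨i, rfl⟩
    rw [Finset.mem_coe, Finset.mem_image]
    by_cases hi : i ≤ P.natDegree
    · exact ⟨i, Finset.mem_range.2 (by omega), rfl⟩
    · exact ⟨P.natDegree + 1, Finset.mem_range.2 (by omega), by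
        rw [coeff_eq_zero_of_natDegree_lt (by omega), coeff_eq_zero_of_natDegree_lt (by omega)]⟩
  have h := BNDM.poly (BNDM.union hK (BNDM.finite hfin)) P.natDegree
  refine BNDM.mono ?_ h
  rintro _ ⟨x, hx, rfl⟩
  exact ⟨P, le_rfl, fun i => Or.inr ⟨i, rfl⟩, x, Or.inl hx, rfl⟩

theorem eval_monic {F : Type u} [Field F] (f : F[X]) (hf : f.Monic) (r : F) :
    f.eval r = r ^ f.natDegree + ∑ i : Fin f.natDegree, f.coeff i * r ^ (i : ℕ) := by
  rw [eval_eq_sum_range, Finset.sum_range_succ, hf.coeff_natDegree, one_mul, add_comm,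
    Finset.sum_range]

end ROPENM

open ROPENM in
theorem specROPEN (hTAY : SpecTAY.{u}) : SpecROPEN.{u} := by
  intro F _ _ _ hT hV f hf hirr hsep hdeg
  set D := f.natDegree with hD
  set a0 : Fin D → F := fun i => f.coeff i with ha0
  -- step 1: roots are in a bounded set
  have c1 : Continuous (fun z : (Fin D → F) × F => 1 + ∑ i : Fin D, z.1 i * z.2 ^ (D - (i : ℕ))) := by
    fun_prop
  have v1 : (1 : F) + ∑ i : Fin D, a0 i * 0 ^ (D - (i : ℕ)) = 1 := by
    rw [Finset.sum_eq_zero]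
    · simp
    · intro i _
      rw [zero_pow (by have := i.2; omega), mul_zero]
  have e1 : ∀ᶠ z : (Fin D → F) × F in 𝓝 (a0, 0),
      1 + ∑ i : Fin D, z.1 i * z.2 ^ (D - (i : ℕ)) ≠ 0 := by
    apply c1.continuousAt.eventually_ne
    simp only [v1]
    exact one_ne_zero
  rw [nhds_prod_eq, eventually_prod_iff] at e1
  obtain ⟨P1, hP1, P2, hP2, hP⟩ := e1
  set K : Set F := {x | x⁻¹ ∉ {ρ | P2 ρ}} ∪ {0} with hKdef
  have hK : Bdd K := BNDM.union (hV _ hP2) (BNDM.singleton 0)
  have inK : ∀ a : Fin D → F, P1 a → ∀ r : F, r ^ D + ∑ i : Fin D, a i * r ^ (i : ℕ) = 0 →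
      r ∈ K := by
    intro a ha r hr
    by_cases hr0 : r = 0
    · exact Or.inr hr0
    · left
      intro hr'
      apply hP ha hr'
      have hrD : r ^ D ≠ 0 := pow_ne_zero _ hr0
      apply mul_left_cancel₀ hrD
      rw [mul_zero, ← hr, mul_add, mul_one, Finset.mul_sum]
      congr 1
      refine Finset.sum_congr rfl (fun i _ => ?_)
      show r ^ D * (a i * r⁻¹ ^ (D - (i : ℕ))) = a i * r ^ (i : ℕ)
      have hi : D = (D - (i : ℕ)) + i := by have := i.2; omega
      have h2 : r ^ D = r ^ (D - (i : ℕ)) * r ^ (i : ℕ) := by rw [← pow_add, ← hi]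
      rw [h2]
      have h3 : r ^ (D - (i : ℕ)) * r⁻¹ ^ (D - (i : ℕ)) = 1 := by
        rw [← mul_pow, mul_inv_cancel₀ hr0, one_pow]
      linear_combination (a i * r ^ (i : ℕ)) * h3
  -- step 2
  obtain ⟨u, v, huv⟩ := hsep
  have huv' : ∀ r : F, v.eval r * f.derivative.eval r = 1 - u.eval r * f.eval r := by
    intro r
    have := congrArg (fun P : F[X] => P.eval r) huv
    simp only [eval_add, eval_mul, eval_one] at this
    linear_combination this
  -- step 3
  set S : Set ((Fin D → F) × F) := {z | z.2 ^ D + ∑ i : Fin D, z.1 i * z.2 ^ (i : ℕ) = 0} with hS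
  set l : Filter ((Fin D → F) × F) := (𝓝 a0 ×ˢ 𝓟 K) ⊓ 𝓟 S with hl
  have t1 : Tendsto (fun z : (Fin D → F) × F => z.1) l (𝓝 a0) :=
    tendsto_fst.mono_left inf_le_left
  have t2 : ∀ᶠ z in l, z.2 ∈ K := by
    have : ∀ᶠ z : (Fin D → F) × F in 𝓝 a0 ×ˢ 𝓟 K, z.2 ∈ K :=
      tendsto_snd.eventually (mem_principal_self K)
    exact this.filter_mono inf_le_left
  have t3 : ∀ᶠ z in l, z ∈ S := mem_inf_of_right (mem_principal_self S)
  have bd : ∀ (P : F[X]) (ψ : (Fin D → F) × F → F), Tendsto ψ l (𝓝 0) →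
      Tendsto (fun z => P.eval z.2 * ψ z) l (𝓝 0) := by
    intro P ψ hψ
    refine bmul (bdd_eval hK P) ?_ hψ
    filter_upwards [t2] with z hz
    exact ⟨_, hz, rfl⟩
  have tf : Tendsto (fun z : (Fin D → F) × F => f.eval z.2) l (𝓝 0) := by
    have h1 : Tendsto (fun z : (Fin D → F) × F => ∑ i : Fin D,
        (X ^ (i : ℕ) : F[X]).eval z.2 * (a0 i - z.1 i)) l (𝓝 (∑ i : Fin D, 0)) := by
      refine tendsto_finsetSum _ (fun i _ => bd _ _ ?_)
      have h2 : Tendsto (fun z : (Fin D → F) × F => z.1 i) l (𝓝 (a0 i)) :=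
        ((continuous_apply i).tendsto a0).comp t1
      have h3 := (tendsto_const_nhds (x := a0 i)).sub h2
      simpa using h3
    rw [Finset.sum_const_zero] at h1
    refine h1.congr' ?_
    filter_upwards [t3] with z hz
    have hz' : z.2 ^ D + ∑ i : Fin D, z.1 i * z.2 ^ (i : ℕ) = 0 := hz
    rw [eval_monic f hf]
    simp only [eval_pow, eval_X, mul_sub, Finset.sum_sub_distrib]
    have e1 : ∑ i : Fin D, z.2 ^ (i : ℕ) * a0 i = ∑ i : Fin D, f.coeff i * z.2 ^ (i : ℕ) :=
      Finset.sum_congr rfl (fun i _ => mul_comm _ _)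
    have e2 : ∑ i : Fin D, z.2 ^ (i : ℕ) * z.1 i = ∑ i : Fin D, z.1 i * z.2 ^ (i : ℕ) :=
      Finset.sum_congr rfl (fun i _ => mul_comm _ _)
    rw [e1, e2]
    linear_combination -hz'
  have tg : Tendsto (fun z : (Fin D → F) × F => v.eval z.2 * f.derivative.eval z.2) l (𝓝 1) := by
    simp only [huv']
    have h1 := (tendsto_const_nhds (x := (1 : F))).sub (bd u _ tf)
    simpa using h1
  have tgi : Tendsto (fun z : (Fin D → F) × F => (v.eval z.2 * f.derivative.eval z.2)⁻¹) l
      (𝓝 1) := by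
    have := tg.inv₀ one_ne_zero
    simpa using this
  have tne : ∀ᶠ z in l, v.eval z.2 * f.derivative.eval z.2 ≠ 0 := tg.eventually_ne one_ne_zero
  obtain ⟨W, hW, hW'⟩ := hTAY F hT D Set.univ univ_mem
  have te : ∀ k : ℕ, 2 ≤ k → ∀ᶠ z in l, (hasseDeriv k f).eval z.2 * f.eval z.2 ^ (k - 1) *
      (f.derivative.eval z.2)⁻¹ ^ k ∈ W := by
    intro k hk
    have h1 : Tendsto (fun z : (Fin D → F) × F => f.eval z.2 ^ (k - 1) *
        (v.eval z.2 * f.derivative.eval z.2)⁻¹ ^ k) l (𝓝 0) := by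
      have := (tf.pow (k - 1)).mul (tgi.pow k)
      rw [zero_pow (by omega : k - 1 ≠ 0), zero_mul] at this
      exact this
    have h2 := bd (hasseDeriv k f * v ^ k) _ h1
    filter_upwards [h2 hW, tne] with z hz hz'
    have hv0 : v.eval z.2 ≠ 0 := left_ne_zero_of_mul hz'
    have h3 : (hasseDeriv k f * v ^ k).eval z.2 * (f.eval z.2 ^ (k - 1) *
        (v.eval z.2 * f.derivative.eval z.2)⁻¹ ^ k) = (hasseDeriv k f).eval z.2 *
        f.eval z.2 ^ (k - 1) * (f.derivative.eval z.2)⁻¹ ^ k := by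
      rw [eval_mul, eval_pow, mul_inv, mul_pow]
      have h4 : v.eval z.2 ^ k * (v.eval z.2)⁻¹ ^ k = 1 := by
        rw [← mul_pow, mul_inv_cancel₀ hv0, one_pow]
      linear_combination ((hasseDeriv k f).eval z.2 * f.eval z.2 ^ (k - 1) *
        (f.derivative.eval z.2)⁻¹ ^ k) * h4
    rw [← h3]
    exact hz
  have te' : ∀ᶠ z in l, ∀ k ∈ Finset.Icc 2 D, (hasseDeriv k f).eval z.2 * f.eval z.2 ^ (k - 1) *
      (f.derivative.eval z.2)⁻¹ ^ k ∈ W := by
    rw [Filter.eventually_all_finset]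
    intro k hk
    exact te k (Finset.mem_Icc.1 hk).1
  have tF : ∀ᶠ z in l, False := by
    filter_upwards [te', tne] with z hz hz'
    obtain ⟨y, _, hy⟩ := hW' f z.2 le_rfl (right_ne_zero_of_mul hz')
      (fun k hk hk' => hz k (Finset.mem_Icc.2 ⟨hk, hk'⟩))
    have := degree_eq_one_of_irreducible_of_root hirr hy
    rw [degree_eq_natDegree hirr.ne_zero] at this
    have h5 : f.natDegree = 1 := by exact_mod_cast this
    omega
  rw [hl, eventually_inf_principal, eventually_prod_principal_iff] at tF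
  refine ⟨interior {a | P1 a ∧ ∀ y ∈ K, (a, y) ∈ S → False}, isOpen_interior,
    ⟨a0, mem_interior_iff_mem_nhds.2 (hP1.and tF)⟩, fun a ha r hr => ?_⟩
  have ha' := interior_subset ha
  exact ha'.2 r (inK a ha'.1 r hr) hr

end Pool.Agent.Lib.MP958bd4
end

section
/-!
# Module SOPEN: having a simple root is an open condition
-/
set_option autoImplicit false

universe u

namespace Pool.Agent.Lib.MP958bd4

open Polynomial Topology Filter

theorem specSOPEN (hP : SpecPERS.{u}) : SpecSOPEN.{u} := by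
  intro F _ _ _ hT D hD
  obtain ⟨m, rfl⟩ : ∃ m, D = m + 1 := ⟨D - 1, by omega⟩
  set a0 : Fin (m + 1) → F := Fin.snoc (fun _ : Fin m => (0 : F)) (-1) with ha0
  have key : ∀ (a : Fin (m + 1) → F) (r : F),
      (∑ i : Fin (m + 1 + 1), (Fin.snoc a (1 : F) : Fin (m + 1 + 1) → F) i * r ^ (i : ℕ)) =
        r ^ (m + 1) + ∑ i : Fin (m + 1), a i * r ^ (i : ℕ) := by
    intro a r
    rw [Fin.sum_univ_castSucc]
    simp only [Fin.snoc_castSucc, Fin.snoc_last, Fin.val_castSucc, Fin.val_last]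
    ring
  have key' : ∀ (a : Fin (m + 1) → F) (r : F),
      (∑ i : Fin (m + 1 + 1), ((i : ℕ) : F) * (Fin.snoc a (1 : F) : Fin (m + 1 + 1) → F) i *
        r ^ ((i : ℕ) - 1)) =
        ((m + 1 : ℕ) : F) * r ^ (m + 1 - 1) +
          ∑ i : Fin (m + 1), ((i : ℕ) : F) * a i * r ^ ((i : ℕ) - 1) := by
    intro a r
    rw [Fin.sum_univ_castSucc]
    simp only [Fin.snoc_castSucc, Fin.snoc_last, Fin.val_castSucc, Fin.val_last]
    ring
  have e1 : ∑ i : Fin (m + 1), a0 i * (1 : F) ^ (i : ℕ) = -1 := by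
    rw [Fin.sum_univ_castSucc]
    simp [ha0]
  have e2 : ∑ i : Fin (m + 1), ((i : ℕ) : F) * a0 i * (1 : F) ^ ((i : ℕ) - 1) = -(m : F) := by
    rw [Fin.sum_univ_castSucc]
    simp [ha0]
  obtain ⟨O, hO, hO'⟩ := hP F hT (m + 1) (Fin.snoc a0 (1 : F)) 1
    (by rw [key, e1]; simp) (by rw [key', e2]; push_cast; simp) Set.univ univ_mem
  have c : Continuous (fun a : Fin (m + 1) → F =>
      (Fin.snoc a (1 : F) : Fin (m + 1 + 1) → F)) := by
    apply continuous_pi
    intro i
    refine Fin.lastCases ?_ (fun j => ?_) i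
    · simp only [Fin.snoc_last]; fun_prop
    · simp only [Fin.snoc_castSucc]; fun_prop
  have hN : (fun a : Fin (m + 1) → F => (Fin.snoc a (1 : F) : Fin (m + 1 + 1) → F)) ⁻¹' O ∈
      𝓝 a0 := c.continuousAt hO
  refine ⟨interior ((fun a : Fin (m + 1) → F =>
    (Fin.snoc a (1 : F) : Fin (m + 1 + 1) → F)) ⁻¹' O), isOpen_interior,
    ⟨a0, mem_interior_iff_mem_nhds.2 hN⟩, fun a ha => ?_⟩
  have ha' : a ∈ ((fun a : Fin (m + 1) → F =>
    (Fin.snoc a (1 : F) : Fin (m + 1 + 1) → F)) ⁻¹' O) := interior_subset ha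
  obtain ⟨β, _, h1, h2⟩ := hO' _ ha'
  rw [key] at h1
  rw [key'] at h2
  exact ⟨β, h1, h2⟩

end Pool.Agent.Lib.MP958bd4
end

section
/-!
# Module SQR: square roots
-/
set_option autoImplicit false

universe u

namespace Pool.Agent.Lib.MP958bd4

open Polynomial Topology Filter

theorem specSQR (hP : SpecPERS.{u}) : SpecSQR.{u} := by
  intro F _ _ _ hT h2 U hU V hV
  have hV1 : {β : F | β - U ∈ V ∧ β ≠ 0} ∈ 𝓝 U := by
    have c : ContinuousAt (fun β : F => β - U) U := by fun_prop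
    have e1 : ∀ᶠ β in 𝓝 U, β - U ∈ V := by
      apply c
      simpa using hV
    have e2 : ∀ᶠ β in 𝓝 U, β ≠ 0 := isOpen_ne.mem_nhds hU
    exact e1.and e2
  obtain ⟨O, hO, hO'⟩ := hP F hT 2 ![-U ^ 2, 0, 1] U (by simp [Fin.sum_univ_three])
    (by simp [Fin.sum_univ_three]; exact ⟨h2, hU⟩) _ hV1
  have c : Continuous (fun w : F => (![-(w + U ^ 2), 0, 1] : Fin 3 → F)) := by
    apply continuous_pi
    intro i
    fin_cases i
    · show Continuous (fun w : F => -(w + U ^ 2)); fun_prop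
    · show Continuous (fun w : F => (0 : F)); fun_prop
    · show Continuous (fun w : F => (1 : F)); fun_prop
  refine ⟨(fun w : F => (![-(w + U ^ 2), 0, 1] : Fin 3 → F)) ⁻¹' O, ?_, ?_⟩
  · apply c.continuousAt
    simpa using hO
  · intro d hd
    obtain ⟨β, hβ, h1, _⟩ := hO' _ hd
    refine ⟨β, ?_, hβ.1, hβ.2⟩
    simp [Fin.sum_univ_three] at h1
    linear_combination h1

end Pool.Agent.Lib.MP958bd4
end

section
/-!
# Module TAY: uniform existence of roots (Newton / Taylor)
-/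
set_option autoImplicit false

universe u

namespace Pool.Agent.Lib.MP958bd4

open Polynomial Topology Filter

namespace TAYM

theorem taylor_sum {F : Type u} [Field F] (g : F[X]) (b h : F) (n : ℕ) (hn : g.natDegree ≤ n) :
    g.eval (b + h) = ∑ k ∈ Finset.range (n + 1), (hasseDeriv k g).eval b * h ^ k := by
  have h1 : (taylor b g).eval h = g.eval (b + h) := by rw [taylor_eval, add_comm]
  rw [← h1, eval_eq_sum_range' (n := n + 1)]
  · simp only [taylor_coeff]
  · rw [natDegree_taylor]; omega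

end TAYM

theorem specTAY : SpecTAY.{u} := by
  intro F _ _ _ hT n V hV
  obtain ⟨W, hW, hW'⟩ := hT (n - 1) V hV
  refine ⟨W, hW, fun g b hg hb he => ?_⟩
  rcases n with _ | _ | m
  · exfalso
    apply hb
    rw [natDegree_eq_zero.1 (Nat.le_zero.1 hg) |>.choose_spec.symm]
    simp
  · obtain ⟨z, hz, hz'⟩ := hW' (fun i => i.elim0) (fun i => i.elim0)
    refine ⟨z, hz, ?_⟩
    rw [TAYM.taylor_sum g b _ 1 hg, Finset.sum_range_succ, Finset.sum_range_succ]
    simp only [Finset.range_zero, Finset.sum_empty, hasseDeriv_zero', hasseDeriv_one', pow_zero,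
      pow_one, zero_add, mul_one]
    have h0 : 1 + z = 0 := by simpa using hz'
    field_simp
    linear_combination (g.eval b) * h0
  · obtain ⟨z, hz, hz'⟩ := hW' (fun i : Fin (m + 1) =>
      (hasseDeriv (i.val + 2) g).eval b * g.eval b ^ (i.val + 1) *
        (g.derivative.eval b)⁻¹ ^ (i.val + 2)) (fun i => by
          have := he (i.val + 2) (by omega) (by have := i.2; omega)
          simpa using this)
    refine ⟨z, hz, ?_⟩
    rw [TAYM.taylor_sum g b _ (m + 2) hg, Finset.sum_range_succ', Finset.sum_range_succ']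
    simp only [hasseDeriv_zero', hasseDeriv_one', pow_zero, pow_one, zero_add, mul_one]
    have h1 : ∀ k ∈ Finset.range (m + 1), (hasseDeriv (k + 1 + 1) g).eval b *
        (g.eval b * (g.derivative.eval b)⁻¹ * z) ^ (k + 1 + 1) =
        g.eval b * ((hasseDeriv (k + 2) g).eval b * g.eval b ^ (k + 1) *
        (g.derivative.eval b)⁻¹ ^ (k + 2) * z ^ (k + 2)) := by
      intro k _
      show (hasseDeriv (k + 2) g).eval b * (g.eval b * (g.derivative.eval b)⁻¹ * z) ^ (k + 2) = _
      rw [mul_pow, mul_pow, pow_succ (g.eval b) (k + 1)]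
      ring
    rw [Finset.sum_congr rfl h1, ← Finset.mul_sum, Finset.sum_range]
    have h2 : (g.derivative.eval b) * (g.eval b * (g.derivative.eval b)⁻¹ * z) = g.eval b * z := by
      field_simp
    rw [h2]
    have hz2 : 1 + z + ∑ i : Fin (m + 1), ((hasseDeriv (i.val + 2) g).eval b *
        g.eval b ^ (i.val + 1) * (g.derivative.eval b)⁻¹ ^ (i.val + 2)) * z ^ (i.val + 2) = 0 := hz'
    linear_combination (g.eval b) * hz2

end Pool.Agent.Lib.MP958bd4
end

section
/-!
# MP_958bd4_lc: VTOP, valuation rings give V-topologies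
-/
set_option autoImplicit false

universe u

namespace Pool.Agent.Lib.MP958bd4

open Polynomial Topology Filter

theorem specVTOP : SpecVTOP.{u} := by
  intro F _ O t ht
  have hb := ht.2
  intro V hV V' hV'
  obtain ⟨c, hc, h⟩ := (hb V).1 hV
  obtain ⟨d, hd, h'⟩ := (hb V').1 hV'
  refine ⟨d * c, mul_ne_zero hd hc, fun x hx => ?_⟩
  have hx1 : c⁻¹ * x⁻¹ ∉ O := by
    intro hmem
    apply hx
    have h1 := h ⟨c⁻¹ * x⁻¹, hmem⟩
    have h2 : c * algebraMap O F ⟨c⁻¹ * x⁻¹, hmem⟩ = x⁻¹ := by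
      change c * (c⁻¹ * x⁻¹) = x⁻¹
      field_simp
    rwa [h2] at h1
  have hx2 : c * x ∈ O := by
    rcases O.mem_or_inv_mem (c * x) with h1 | h1
    · exact h1
    · exact absurd (by rwa [mul_inv] at h1) hx1
  have h3 := h' ⟨c * x, hx2⟩
  have h4 : d * algebraMap O F ⟨c * x, hx2⟩ = d * c * x := by
    change d * (c * x) = d * c * x
    ring
  rwa [h4] at h3

end Pool.Agent.Lib.MP958bd4
end
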