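import Pool.Agent.Lib.MP_958bd4_lc.SpecM

section
/-!
# MP_958bd4_lc, module UNIP: ultrapowers of NIP rings are NIP
-/
set_option autoImplicit false

universe u

namespace Pool.Agent.Lib.MP958bd4

open FirstOrder FirstOrder.Language FirstOrder.Ring Filter

namespace UNIPM

/-- the two models of the ultrapower are the same -/
def eqv (A : Type u) (U : Ultrafilter ℕ) :
    (U : Filter ℕ).Product (fun _ => A) ≃ Germ (U : Filter ℕ) A :=
  Quotient.congrRight (fun _ _ => Iff.rfl)

/-- the isomorphism of structures -/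
noncomputable def iso (A : Type u) [CommRing A] (U : Ultrafilter ℕ) :
    letI := compatibleRingOfRing A
    letI := compatibleRingOfRing (Germ (U : Filter ℕ) A)
    (U : Filter ℕ).Product (fun _ => A) ≃[FirstOrder.Language.ring] Germ (U : Filter ℕ) A :=
  letI := compatibleRingOfRing A
  letI := compatibleRingOfRing (Germ (U : Filter ℕ) A)
  { eqv A U with
    map_fun' := by
      intro n f x
      obtain ⟨y, rfl⟩ : ∃ y : Fin n → ℕ → A,
          x = fun i => (Quotient.mk _ (y i) : (U : Filter ℕ).Product (fun _ => A)) :=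
        ⟨fun i => (x i).out, funext fun i => (Quotient.out_eq _).symm⟩
      refine (congrArg (eqv A U) (Ultraproduct.funMap_cast f y)).trans ?_
      cases f <;> rfl
    map_rel' := by
      intro n r
      cases r }

theorem los (A : Type u) [CommRing A] (U : Ultrafilter ℕ) {β : Type}
    (φ : FirstOrder.Language.ring.Formula β) (x : β → ℕ → A) :
    letI := compatibleRingOfRing A
    letI := compatibleRingOfRing (Germ (U : Filter ℕ) A)
    φ.Realize (fun i => ((x i : ℕ → A) : Germ (U : Filter ℕ) A)) ↔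
      ∀ᶠ k in (U : Filter ℕ), φ.Realize (fun i => x i k) := by
  let _ := compatibleRingOfRing A
  let _ := compatibleRingOfRing (Germ (U : Filter ℕ) A)
  rw [← Ultraproduct.realize_formula_cast]
  exact (StrongHomClass.realize_formula (iso A U) φ
    (v := fun i => (Quotient.mk _ (x i) : (U : Filter ℕ).Product (fun _ => A))))

end UNIPM

open UNIPM in
theorem specUNIP : SpecUNIP.{u} := by
  intro A _ U hA α β _ _ φ
  let _ := compatibleRingOfRing A
  let _ := compatibleRingOfRing (Germ (U : Filter ℕ) A)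
  obtain ⟨n, hn⟩ := hA α β φ
  refine ⟨n, fun hS => hn ?_⟩
  obtain ⟨a, b, hab⟩ := hS
  -- representatives
  have ha : ∀ i x, ∃ f : ℕ → A, (f : Germ (U : Filter ℕ) A) = a i x := fun i x =>
    ⟨_, Quotient.out_eq (a i x)⟩
  have hb : ∀ s x, ∃ f : ℕ → A, (f : Germ (U : Filter ℕ) A) = b s x := fun s x =>
    ⟨_, Quotient.out_eq (b s x)⟩
  choose a' ha' using ha
  choose b' hb' using hb
  have key : ∀ᶠ k in (U : Filter ℕ), ∀ (i : Fin n) (s : Set (Fin n)),
      φ.Realize (Sum.elim (fun x => a' i x k) (fun y => b' s y k)) ↔ i ∈ s := by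
    rw [eventually_all]
    intro i
    rw [eventually_all]
    intro s
    have h1 := hab i s
    have h2 : (Sum.elim (a i) (b s)) =
        fun j => ((Sum.elim (a' i) (b' s) j : ℕ → A) : Germ (U : Filter ℕ) A) := by
      funext j
      cases j with
      | inl x => exact (ha' i x).symm
      | inr y => exact (hb' s y).symm
    simp only [h2] at h1
    rw [los] at h1
    have h3 : ∀ k, (fun j => (Sum.elim (a' i) (b' s) j : ℕ → A) k) =
        Sum.elim (fun x => a' i x k) (fun y => b' s y k) := by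
      intro k
      funext j
      cases j <;> rfl
    simp only [h3] at h1
    by_cases hi : i ∈ s
    · have := h1.2 hi
      filter_upwards [this] with k hk
      exact ⟨fun _ => hi, fun _ => hk⟩
    · have : ¬ ∀ᶠ k in (U : Filter ℕ),
          φ.Realize (Sum.elim (fun x => a' i x k) (fun y => b' s y k)) := fun h => hi (h1.1 h)
      rw [← Ultrafilter.eventually_not] at this
      filter_upwards [this] with k hk
      exact ⟨fun h => absurd h hk, fun h => absurd h hi⟩
  obtain ⟨k, hk⟩ := key.exists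
  exact ⟨fun i x => a' i x k, fun s y => b' s y k, hk⟩

end Pool.Agent.Lib.MP958bd4
end

section
/-!
# MP_958bd4_lc: ultrapowers along `hyperfilter ℕ` (helper lemmas for ULT and WSAT)
-/
set_option autoImplicit false

universe u

namespace Pool.Agent.Lib.MP958bd4

open Filter Polynomial

/-- the ultrafilter -/
noncomputable abbrev UU : Ultrafilter ℕ := hyperfilter ℕ

/-- the ultrapower -/
abbrev Star (A : Type u) : Type u := Germ ((hyperfilter ℕ : Ultrafilter ℕ) : Filter ℕ) A

namespace UPowM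

theorem ev_or {p q : ℕ → Prop} (h : ∀ n, p n ∨ q n) :
    (∀ᶠ n in (hyperfilter ℕ : Filter ℕ), p n) ∨ ∀ᶠ n in (hyperfilter ℕ : Filter ℕ), q n :=
  Ultrafilter.eventually_or.1 (Eventually.of_forall h)

theorem ev_not {p : ℕ → Prop} (h : ¬ ∀ᶠ n in (hyperfilter ℕ : Filter ℕ), p n) :
    ∀ᶠ n in (hyperfilter ℕ : Filter ℕ), ¬ p n := Ultrafilter.eventually_not.2 h

theorem ev_ge (k : ℕ) : ∀ᶠ n in (hyperfilter ℕ : Filter ℕ), k ≤ n := by
  have h1 : ∀ᶠ n in (atTop : Filter ℕ), k ≤ n := eventually_ge_atTop k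
  rw [← Nat.cofinite_eq_atTop] at h1
  exact hyperfilter_le_cofinite h1

/-- the diagonal argument -/
theorem diag {X : Type u} [Nonempty X] (P : ℕ → ℕ → X → Prop)
    (hanti : ∀ k l n d, k ≤ l → P l n d → P k n d)
    (h : ∀ k, ∀ᶠ n in (hyperfilter ℕ : Filter ℕ), ∃ d, P k n d) :
    ∃ d : ℕ → X, ∀ k, ∀ᶠ n in (hyperfilter ℕ : Filter ℕ), P k n (d n) := by
  classical
  have hd : ∀ n, ∃ d : X, ∀ k ≤ n, (∃ d, P k n d) → P k n d := by
    intro n
    by_cases h0 : ∃ k ≤ n, ∃ d, P k n d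
    · have h1 := Nat.findGreatest_spec (P := fun k => ∃ d, P k n d) h0.choose_spec.1
        h0.choose_spec.2
      obtain ⟨d, hd⟩ := h1
      refine ⟨d, fun k hk hk' => ?_⟩
      exact hanti _ _ n d (Nat.le_findGreatest hk hk') hd
    · push Not at h0
      exact ⟨Classical.arbitrary X, fun k hk ⟨d, hd⟩ => absurd hd (h0 k hk d)⟩
  choose d hd using hd
  refine ⟨d, fun k => ?_⟩
  filter_upwards [h k, ev_ge k] with n h1 h2
  exact hd n k h2 h1

section
variable {A : Type u}

theorem exists_rep (x : Star A) : ∃ f : ℕ → A, (f : Star A) = x := ⟨_, Quotient.out_eq x⟩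

variable [CommRing A]

theorem coe_dvd {f g : ℕ → A} : (f : Star A) ∣ (g : Star A) ↔
    ∀ᶠ n in (hyperfilter ℕ : Filter ℕ), f n ∣ g n := by
  constructor
  · rintro ⟨c, hc⟩
    obtain ⟨c, rfl⟩ := exists_rep c
    rw [← Germ.coe_mul, Germ.coe_eq] at hc
    filter_upwards [hc] with n hn
    exact ⟨c n, hn⟩
  · intro h
    have : ∀ n, ∃ c, f n ∣ g n → g n = f n * c := fun n => by
      by_cases h : f n ∣ g n
      · obtain ⟨c, hc⟩ := h
        exact ⟨c, fun _ => hc⟩
      · exact ⟨0, fun h' => absurd h' h⟩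
    choose c hc using this
    refine ⟨(c : Star A), ?_⟩
    rw [← Germ.coe_mul, Germ.coe_eq]
    filter_upwards [h] with n hn
    exact hc n hn

theorem coe_isUnit {f : ℕ → A} : IsUnit (f : Star A) ↔
    ∀ᶠ n in (hyperfilter ℕ : Filter ℕ), IsUnit (f n) := by
  rw [isUnit_iff_dvd_one]
  have : (1 : Star A) = ((fun _ => 1 : ℕ → A) : Star A) := rfl
  rw [this, coe_dvd]
  simp only [isUnit_iff_dvd_one]

theorem coe_eq_zero {f : ℕ → A} : (f : Star A) = 0 ↔
    ∀ᶠ n in (hyperfilter ℕ : Filter ℕ), f n = 0 := by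
  have : (0 : Star A) = ((fun _ => 0 : ℕ → A) : Star A) := rfl
  rw [this, Germ.coe_eq]
  exact Iff.rfl

instance instIsDomain [IsDomain A] : IsDomain (Star A) := by
  have h1 : Nontrivial (Star A) := by
    refine ⟨0, 1, fun h => ?_⟩
    have h2 : ((fun _ => 1 : ℕ → A) : Star A) = 0 := h.symm
    rw [coe_eq_zero] at h2
    obtain ⟨n, hn⟩ := h2.exists
    exact one_ne_zero hn
  have h2 : NoZeroDivisors (Star A) := by
    refine ⟨fun {x y} h => ?_⟩
    obtain ⟨x, rfl⟩ := exists_rep x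
    obtain ⟨y, rfl⟩ := exists_rep y
    rw [← Germ.coe_mul, coe_eq_zero] at h
    rw [coe_eq_zero, coe_eq_zero, ← Ultrafilter.eventually_or]
    filter_upwards [h] with n hn
    exact mul_eq_zero.1 hn
  exact NoZeroDivisors.to_isDomain _

theorem isLocalRing [IsLocalRing A] : IsLocalRing (Star A) := by
  have h1 : Nontrivial (Star A) := by
    refine ⟨0, 1, fun h => ?_⟩
    have h2 : ((fun _ => 1 : ℕ → A) : Star A) = 0 := h.symm
    rw [coe_eq_zero] at h2
    obtain ⟨n, hn⟩ := h2.exists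
    exact one_ne_zero hn
  refine IsLocalRing.of_isUnit_or_isUnit_one_sub_self fun a => ?_
  obtain ⟨f, rfl⟩ := exists_rep a
  have : (1 : Star A) - (f : Star A) = ((fun n => 1 - f n : ℕ → A) : Star A) := rfl
  rw [this, coe_isUnit, coe_isUnit]
  exact ev_or fun n => IsLocalRing.isUnit_or_isUnit_one_sub_self (f n)

/-- representatives of polynomials -/
theorem exists_poly (G : (Star A)[X]) : ∃ g : ℕ → A[X], ∀ d : ℕ → A,
    G.eval (d : Star A) = ((fun n => (g n).eval (d n) : ℕ → A) : Star A) := by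
  induction G using Polynomial.induction_on' with
  | add p q hp hq =>
    obtain ⟨p', hp⟩ := hp
    obtain ⟨q', hq⟩ := hq
    refine ⟨fun n => p' n + q' n, fun d => ?_⟩
    rw [eval_add, hp, hq, ← Germ.coe_add]
    congr 1
    funext n
    simp
  | monomial k a =>
    obtain ⟨a, rfl⟩ := exists_rep a
    refine ⟨fun n => monomial k (a n), fun d => ?_⟩
    rw [eval_monomial, ← Germ.coe_pow, ← Germ.coe_mul]
    congr 1
    funext n
    simp

end

/-- functoriality -/
noncomputable def mapHom {A B : Type u} [CommRing A] [CommRing B] (φ : A →+* B) : Star A →+* Star B where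
  toFun := Germ.map φ
  map_one' := by
    have h : (1 : Star A) = ((fun _ => 1 : ℕ → A) : Star A) := rfl
    rw [h, Germ.map_coe]
    have h2 : (1 : Star B) = ((fun _ => 1 : ℕ → B) : Star B) := rfl
    rw [h2]
    congr 1
    funext n
    simp
  map_zero' := by
    have h : (0 : Star A) = ((fun _ => 0 : ℕ → A) : Star A) := rfl
    rw [h, Germ.map_coe]
    have h2 : (0 : Star B) = ((fun _ => 0 : ℕ → B) : Star B) := rfl
    rw [h2]
    congr 1
    funext n
    simp
  map_mul' := by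
    intro x y
    obtain ⟨x, rfl⟩ := exists_rep x
    obtain ⟨y, rfl⟩ := exists_rep y
    rw [← Germ.coe_mul, Germ.map_coe, Germ.map_coe, Germ.map_coe, ← Germ.coe_mul]
    congr 1
    funext n
    simp
  map_add' := by
    intro x y
    obtain ⟨x, rfl⟩ := exists_rep x
    obtain ⟨y, rfl⟩ := exists_rep y
    rw [← Germ.coe_add, Germ.map_coe, Germ.map_coe, Germ.map_coe, ← Germ.coe_add]
    congr 1
    funext n
    simp

theorem mapHom_coe {A B : Type u} [CommRing A] [CommRing B] (φ : A →+* B) (f : ℕ → A) :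
    mapHom φ (f : Star A) = ((fun n => φ (f n) : ℕ → B) : Star B) := rfl

/-- constants -/
noncomputable def constHom (A : Type u) [CommRing A] : A →+* Star A where
  toFun := fun a => ((fun _ => a : ℕ → A) : Star A)
  map_one' := rfl
  map_zero' := rfl
  map_mul' := fun _ _ => rfl
  map_add' := fun _ _ => rfl

theorem constHom_apply {A : Type u} [CommRing A] (a : A) :
    constHom A a = ((fun _ => a : ℕ → A) : Star A) := rfl

theorem eval_const {A : Type u} [CommRing A] (f : A[X]) (d : ℕ → A) :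
    (f.map (constHom A)).eval (d : Star A) = ((fun n => f.eval (d n) : ℕ → A) : Star A) := by
  induction f using Polynomial.induction_on' with
  | add p q hp hq =>
    rw [Polynomial.map_add, eval_add, hp, hq, ← Germ.coe_add]
    congr 1
    funext n
    simp
  | monomial k a =>
    rw [map_monomial, eval_monomial, ← Germ.coe_pow, constHom_apply, ← Germ.coe_mul]
    congr 1
    funext n
    simp

end UPowM

end Pool.Agent.Lib.MP958bd4
end

section
/-!
# MP_958bd4_lc, module ULT: the ultrapower of `A_q`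
-/
set_option autoImplicit false

universe u

namespace Pool.Agent.Lib.MP958bd4

open Filter Polynomial

open UPowM in
theorem specULT (hUNIP : SpecUNIP.{u}) (hNLOC : SpecNLOC.{u}) : SpecULT.{u} := by
  intro A _ _ hA q _ N hUC
  have hdom : IsDomain (Localization.AtPrime q) :=
    IsLocalization.isDomain_localization q.primeCompl_le_nonZeroDivisors
  have hloc : IsLocalRing (Star (Localization.AtPrime q)) := isLocalRing
  refine ⟨Star (Localization.AtPrime q), inferInstance, instIsDomain, hloc, ?_, ?_, ?_, ?_⟩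
  · intro a b
    obtain ⟨f, rfl⟩ := exists_rep a
    obtain ⟨g, rfl⟩ := exists_rep b
    rw [← Germ.coe_pow, ← Germ.coe_pow, coe_dvd, coe_dvd]
    exact ev_or fun n => hUC (f n) (g n)
  · intro G σ x h
    obtain ⟨σ, rfl⟩ := exists_rep σ
    obtain ⟨x, rfl⟩ := exists_rep x
    obtain ⟨g, hg⟩ := exists_poly G
    have hP : ∀ (k : ℕ) (d : ℕ → Localization.AtPrime q),
        (σ : Star (Localization.AtPrime q)) * (x : Star (Localization.AtPrime q)) ^ k ∣
          G.eval (d : Star (Localization.AtPrime q)) ↔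
        ∀ᶠ n in (hyperfilter ℕ : Filter ℕ), σ n * x n ^ k ∣ (g n).eval (d n) := by
      intro k d
      rw [hg, ← Germ.coe_pow, ← Germ.coe_mul, coe_dvd]
      exact Iff.rfl
    obtain ⟨d, hd⟩ := diag (fun k n d => σ n * x n ^ k ∣ (g n).eval d)
      (fun k l n d hkl hd => (mul_dvd_mul_left _ (pow_dvd_pow _ hkl)).trans hd) (fun k => by
        obtain ⟨d, hd⟩ := h k
        obtain ⟨d, rfl⟩ := exists_rep d
        rw [hP] at hd
        filter_upwards [hd] with n hn
        exact ⟨_, hn⟩)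
    exact ⟨_, fun k => (hP k d).2 (hd k)⟩
  · refine hNLOC (Star A) (Star (Localization.AtPrime q))
      (mapHom (algebraMap A (Localization.AtPrime q))) (hUNIP A _ hA) ?_
    intro c
    obtain ⟨c, rfl⟩ := exists_rep c
    have h := fun n => IsLocalization.surj q.primeCompl (c n)
    choose x hx using h
    refine ⟨((fun n => (x n).1 : ℕ → A) : Star A), ((fun n => ((x n).2 : A) : ℕ → A) : Star A),
      ?_, ?_⟩
    · rw [mapHom_coe, coe_isUnit]
      exact Eventually.of_forall fun n => IsLocalization.map_units _ (x n).2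
    · rw [mapHom_coe, mapHom_coe, ← Germ.coe_mul]
      congr 1
      funext n
      exact hx n
  · intro hC
    refine { is_henselian := ?_ }
    intro f hf a₀ h1 h2
    have e1 : ∀ g : (Localization.AtPrime q)[X],
        (g.map (constHom (Localization.AtPrime q))).eval (constHom (Localization.AtPrime q) a₀) =
          ((fun _ => g.eval a₀ : ℕ → Localization.AtPrime q) :
            Star (Localization.AtPrime q)) := fun g => eval_const g (fun _ => a₀)
    obtain ⟨b, hb1, hb2⟩ := hC.is_henselian (f.map (constHom (Localization.AtPrime q)))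
      (hf.map _) (constHom (Localization.AtPrime q) a₀) (by
        rw [e1, IsLocalRing.mem_maximalIdeal, mem_nonunits_iff, coe_isUnit]
        intro h
        obtain ⟨n, hn⟩ := h.exists
        exact (IsLocalRing.mem_maximalIdeal _).1 h1 hn) (by
        rw [derivative_map, e1, coe_isUnit]
        exact Eventually.of_forall fun _ => h2)
    obtain ⟨b, rfl⟩ := exists_rep b
    rw [IsRoot.def, eval_const, coe_eq_zero] at hb1
    rw [IsLocalRing.mem_maximalIdeal, mem_nonunits_iff, constHom_apply, ← Germ.coe_sub,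
      coe_isUnit] at hb2
    obtain ⟨n, hn1, hn2⟩ := (hb1.and (ev_not hb2)).exists
    exact ⟨b n, hn1, (IsLocalRing.mem_maximalIdeal _).2 hn2⟩

end Pool.Agent.Lib.MP958bd4
end

section
/-!
# MP_958bd4_lc: module WB
-/
set_option autoImplicit false

universe u

namespace Pool.Agent.Lib.MP958bd4.WBM

open FirstOrder FirstOrder.Language

/-- The formula `x ∣ y`. -/
def dvdF : Language.ring.Formula (Fin 1 ⊕ Fin 1) :=
  BoundedFormula.ex (n := 0) (Term.bdEqual
    ((Term.var (Sum.inl (Sum.inl 0)) * Term.var (Sum.inr 0) : Language.ring.Term ((Fin 1 ⊕ Fin 1) ⊕ Fin 1)))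
    (Term.var (Sum.inl (Sum.inr 0))))

theorem realize_dvdF (R : Type u) [CommRing R] (x y : Fin 1 → R) :
    letI := Ring.compatibleRingOfRing R
    dvdF.Realize (Sum.elim x y) ↔ x 0 ∣ y 0 := by
  let _ := Ring.compatibleRingOfRing R
  unfold dvdF Formula.Realize
  rw [BoundedFormula.realize_ex]
  constructor
  · rintro ⟨c, hc⟩
    rw [BoundedFormula.realize_bdEqual] at hc
    simp [Fin.snoc] at hc
    exact ⟨c, hc.symm⟩
  · rintro ⟨c, hc⟩
    refine ⟨c, ?_⟩
    rw [BoundedFormula.realize_bdEqual]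
    simp [Fin.snoc]
    exact hc.symm

end Pool.Agent.Lib.MP958bd4.WBM

namespace Pool.Agent.Lib.MP958bd4

open WBM

theorem specWB : SpecWB.{u} := by
  classical
  intro A _ hA
  let _ := FirstOrder.Ring.compatibleRingOfRing A
  obtain ⟨n, hn⟩ := hA (Fin 1) (Fin 1) dvdF
  refine ⟨n, fun q hq hW => hn ?_⟩
  obtain ⟨z, -, hz⟩ := hW 1
  refine ⟨fun i _ => z i, fun s _ => ∏ j ∈ Finset.univ.filter (· ∈ s), z j, fun i s => ?_⟩
  refine (realize_dvdF A (fun _ => z i) (fun _ => ∏ j ∈ Finset.univ.filter (· ∈ s), z j)).trans ?_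
  constructor
  · intro hd
    by_contra hi
    apply hz i 1 (fun h => hq.ne_top ((Ideal.eq_top_iff_one q).2 h))
    rw [one_mul, pow_one]
    refine hd.trans (Finset.prod_dvd_prod_of_subset _ _ _ ?_)
    intro j hj
    refine Finset.mem_erase.2 ⟨?_, Finset.mem_univ _⟩
    rintro rfl
    exact hi (Finset.mem_filter.1 hj).2
  · intro hi
    exact Finset.dvd_prod_of_mem _ (Finset.mem_filter.2 ⟨Finset.mem_univ _, hi⟩)

end Pool.Agent.Lib.MP958bd4
end

section
/-!
# MP_958bd4_lc: module WM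
-/
set_option autoImplicit false

universe u

namespace Pool.Agent.Lib.MP958bd4

theorem specWM : SpecWM.{u} := by
  intro A _ q hq l h n
  obtain ⟨z, hz, hz2⟩ := h n
  refine ⟨fun i => z i.castSucc, fun i => hz _, fun i s hs hd => ?_⟩
  apply hz2 i.castSucc s hs
  refine hd.trans (mul_dvd_mul_left s (pow_dvd_pow_of_dvd ?_ n))
  have h1 : (∏ j ∈ Finset.univ.erase i, z j.castSucc) =
      ∏ j ∈ (Finset.univ.erase i).map Fin.castSuccEmb, z j := by
    rw [Finset.prod_map]
    rfl
  rw [h1]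
  apply Finset.prod_dvd_prod_of_subset
  intro j hj
  obtain ⟨k, hk, rfl⟩ := Finset.mem_map.1 hj
  refine Finset.mem_erase.2 ⟨?_, Finset.mem_univ _⟩
  intro h2
  exact (Finset.mem_erase.1 hk).1 (Fin.castSucc_injective _ h2)

end Pool.Agent.Lib.MP958bd4
end

section
/-!
# MP_958bd4_lc: WRED, reduction of the rank of incomparability
-/
set_option autoImplicit false

universe u

namespace Pool.Agent.Lib.MP958bd4

namespace WREDM

lemma prod_erase_ite {l : ℕ} {R : Type u} [CommMonoid R] (f : Fin l → R) (i : Fin l) :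
    ∏ j ∈ Finset.univ.erase i, f j = ∏ j, if j = i then 1 else f j := by
  rw [← Finset.prod_erase Finset.univ (a := i) (f := fun j => if j = i then 1 else f j) (by simp)]
  refine Finset.prod_congr rfl fun j hj => ?_
  rw [if_neg (Finset.ne_of_mem_erase hj)]

lemma prod_succ {l : ℕ} {R : Type u} [CommMonoid R] (f : Fin (l + 1) → R) (i : Fin l) :
    ∏ j ∈ Finset.univ.erase (Fin.succ i), f j = f 0 * ∏ j ∈ Finset.univ.erase i, f j.succ := by
  rw [prod_erase_ite, Fin.prod_univ_succ, prod_erase_ite, if_neg (Fin.succ_ne_zero i).symm]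
  simp only [Fin.succ_inj]

lemma prod_zero {l : ℕ} {R : Type u} [CommMonoid R] (f : Fin (l + 1) → R) :
    ∏ j ∈ Finset.univ.erase 0, f j = ∏ j : Fin l, f j.succ := by
  rw [prod_erase_ite, Fin.prod_univ_succ, if_pos rfl, one_mul]
  refine Finset.prod_congr rfl fun j _ => ?_
  rw [if_neg (Fin.succ_ne_zero j)]

variable {A : Type u} [CommRing A]

lemma one_notMem {p : Ideal A} (h : p.IsPrime) : (1 : A) ∉ p := fun h1 =>
  h.ne_top ((Ideal.eq_top_iff_one _).2 h1)

lemma mul_notMem {p : Ideal A} (h : p.IsPrime) {a b : A} (ha : a ∉ p) (hb : b ∉ p) :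
    a * b ∉ p := fun hab => (h.mem_or_mem hab).elim ha hb

lemma pow_notMem {p : Ideal A} (h : p.IsPrime) {a : A} (ha : a ∉ p) (n : ℕ) : a ^ n ∉ p :=
  fun hab => ha (h.mem_of_pow_mem _ hab)

lemma prod_notMem {p : Ideal A} (h : p.IsPrime) {ι : Type} (s : Finset ι) (f : ι → A)
    (hf : ∀ i ∈ s, f i ∉ p) : ∏ i ∈ s, f i ∉ p := by
  classical
  induction s using Finset.induction with
  | empty => simpa using one_notMem h
  | insert a s ha ih =>
    rw [Finset.prod_insert ha]
    exact mul_notMem h (hf a (Finset.mem_insert_self _ _))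
      (ih fun i hi => hf i (Finset.mem_insert_of_mem hi))

lemma key (q p₁ p₂ r : Ideal A) (h1 : p₁.IsPrime) (h2 : p₂.IsPrime)
    (hr : r.IsPrime) (h1q : p₁ ≤ q) (h2q : p₂ ≤ q) (hr1 : r ≤ p₁)
    (hT : ∀ I : Ideal A, r < I → ∃ s w, s ∉ p₁ ∧ w ∉ p₂ ∧ s * w ∈ I)
    (z₀ : A) (hz2 : z₀ ∈ p₂) (hz1 : z₀ ∉ p₁) (l : ℕ) (hl : 2 ≤ l)
    (hW : Wr l (p₁.map (Ideal.Quotient.mk r))) : Wr (l + 1) q := by
  intro n
  rcases Nat.eq_zero_or_pos n with rfl | hn
  · refine ⟨fun _ => z₀, fun _ => h2q hz2, fun i s hs hdvd => hs ?_⟩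
    rw [pow_zero, mul_one] at hdvd
    obtain ⟨a, rfl⟩ := hdvd
    exact q.mul_mem_right _ (h2q hz2)
  obtain ⟨z', hz'mem, hz'⟩ := hW n
  have hlift : ∀ j, ∃ y ∈ p₁, Ideal.Quotient.mk r y = z' j := fun j =>
    (Ideal.mem_map_iff_of_surjective _ Ideal.Quotient.mk_surjective).1 (hz'mem j)
  choose z hz1' hπz using hlift
  have hnot : ∀ s, s ∉ p₁ → Ideal.Quotient.mk r s ∉ p₁.map (Ideal.Quotient.mk r) := by
    intro s hs hs'
    obtain ⟨y, hy, hys⟩ := (Ideal.mem_map_iff_of_surjective _ Ideal.Quotient.mk_surjective).1 hs'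
    have h3 := Ideal.Quotient.eq.1 hys
    have h4 : s = y - (y - s) := by ring
    exact hs (h4 ▸ p₁.sub_mem hy (hr1 h3))
  generalize hπ : Ideal.Quotient.mk r = π at *
  have hker : ∀ a, π a = 0 ↔ a ∈ r := fun a => by rw [← hπ]; exact Ideal.Quotient.eq_zero_iff_mem
  have H : ∀ i s, s ∉ p₁ → ¬ π (z i) ∣ π s * (∏ j ∈ Finset.univ.erase i, π (z j)) ^ n := by
    intro i s hs
    have h3 := hz' i (π s) (hnot s hs)
    rw [← hπz i] at h3
    have h4 : ∏ j ∈ Finset.univ.erase i, z' j = ∏ j ∈ Finset.univ.erase i, π (z j) :=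
      Finset.prod_congr rfl fun j _ => (hπz j).symm
    rwa [h4] at h3
  have hzr : ∀ j, z j ∉ r := by
    intro j hj
    have : Nontrivial (Fin l) := Fin.nontrivial_iff_two_le.2 hl
    obtain ⟨i, hij⟩ := exists_ne j
    refine H i 1 (one_notMem h1) ?_
    have h3 : ∏ j ∈ Finset.univ.erase i, π (z j) = 0 :=
      Finset.prod_eq_zero (Finset.mem_erase.2 ⟨hij.symm, Finset.mem_univ _⟩) ((hker _).2 hj)
    rw [h3, zero_pow hn.ne', mul_zero]
    exact dvd_zero _
  have hrep : ∀ j, ∃ y α β, y ∈ p₁ ∧ y ∉ p₂ ∧ α ∉ p₁ ∧ β ∉ p₁ ∧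
      π α * π y = π β * π (z j) := by
    intro j
    by_cases hj : z j ∈ p₂
    · have hlt : r < r ⊔ Ideal.span {z j ^ 2} := by
        refine lt_of_le_of_ne le_sup_left fun he => ?_
        have h3 : z j ^ 2 ∈ r := by
          rw [he]
          exact Ideal.mem_sup_right (Ideal.mem_span_singleton_self _)
        exact hzr j (hr.mem_of_pow_mem _ h3)
      obtain ⟨s, w, hs, hw, hsw⟩ := hT _ hlt
      obtain ⟨ρ, hρ, t, ht, hst⟩ := Submodule.mem_sup.1 hsw
      obtain ⟨a, rfl⟩ := Ideal.mem_span_singleton'.1 ht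
      have hw1 : w ∈ p₁ := by
        have h3 : s * w ∈ p₁ := by
          rw [← hst]
          exact p₁.add_mem (hr1 hρ) (p₁.mul_mem_left _ (p₁.pow_mem_of_mem (hz1' j) 2 (by norm_num)))
        exact (h1.mem_or_mem h3).resolve_left hs
      refine ⟨z j + w, s, s + z j * a, p₁.add_mem (hz1' j) hw1, fun h3 => hw ?_, hs, fun h3 => hs ?_,
        ?_⟩
      · exact (Ideal.add_mem_iff_right _ hj).1 h3
      · exact (Ideal.add_mem_iff_left _ (p₁.mul_mem_right _ (hz1' j))).1 h3
      · have h3 : π ρ = 0 := (hker _).2 hρ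
        have h4 : s * (z j + w) = (s + z j * a) * z j + ρ := by
          have : s * (z j + w) = s * z j + s * w := by ring
          rw [this, ← hst]
          ring
        rw [← map_mul, h4, map_add, h3, add_zero, map_mul]
    · exact ⟨z j, 1, 1, hz1' j, hj, one_notMem h1, one_notMem h1, rfl⟩
  choose y α β hy1 hy2 hα hβ hαβ using hrep
  have H' : ∀ i s, s ∉ p₁ → ¬ π (y i) ∣ π s * (∏ j ∈ Finset.univ.erase i, π (y j)) ^ n := by
    rintro i s hs ⟨a, ha⟩
    have hs' : α i * s * (∏ j ∈ Finset.univ.erase i, β j) ^ n ∉ p₁ :=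
      mul_notMem h1 (mul_notMem h1 (hα i) hs)
        (pow_notMem h1 (prod_notMem h1 _ _ fun j _ => hβ j) n)
    refine H i _ hs' ⟨(∏ j ∈ Finset.univ.erase i, π (α j)) ^ n * a * π (β i), ?_⟩
    have h3 : (∏ j ∈ Finset.univ.erase i, π (β j)) * (∏ j ∈ Finset.univ.erase i, π (z j)) =
        (∏ j ∈ Finset.univ.erase i, π (α j)) * (∏ j ∈ Finset.univ.erase i, π (y j)) := by
      rw [← Finset.prod_mul_distrib, ← Finset.prod_mul_distrib]
      exact Finset.prod_congr rfl fun j _ => (hαβ j).symm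
    calc π (α i * s * (∏ j ∈ Finset.univ.erase i, β j) ^ n) *
          (∏ j ∈ Finset.univ.erase i, π (z j)) ^ n
        = π (α i) * π s * ((∏ j ∈ Finset.univ.erase i, π (β j)) *
            (∏ j ∈ Finset.univ.erase i, π (z j))) ^ n := by
          rw [map_mul, map_mul, map_pow, map_prod, mul_pow]; ring
      _ = π (α i) * (∏ j ∈ Finset.univ.erase i, π (α j)) ^ n *
            (π s * (∏ j ∈ Finset.univ.erase i, π (y j)) ^ n) := by
          rw [h3, mul_pow]; ring
      _ = (∏ j ∈ Finset.univ.erase i, π (α j)) ^ n * a * (π (α i) * π (y i)) := by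
          rw [ha]; ring
      _ = π (z i) * ((∏ j ∈ Finset.univ.erase i, π (α j)) ^ n * a * π (β i)) := by
          rw [hαβ i]; ring
  refine ⟨Fin.cons z₀ y, fun i => ?_, fun i s hs hdvd => ?_⟩
  · refine Fin.cases ?_ (fun j => ?_) i
    · exact h2q hz2
    · exact h1q (hy1 j)
  · revert hdvd
    refine Fin.cases ?_ (fun j => ?_) i
    · intro hdvd
      rw [prod_zero, Fin.cons_zero] at hdvd
      simp only [Fin.cons_succ] at hdvd
      obtain ⟨a, ha⟩ := hdvd
      have h3 : s * (∏ j, y j) ^ n ∈ p₂ := by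
        rw [ha]
        exact p₂.mul_mem_right _ hz2
      exact mul_notMem h2 (fun h4 => hs (h2q h4)) (pow_notMem h2
        (prod_notMem h2 _ _ fun j _ => hy2 j) n) h3
    · intro hdvd
      rw [prod_succ, Fin.cons_zero] at hdvd
      simp only [Fin.cons_succ] at hdvd
      refine H' j (s * z₀ ^ n) (mul_notMem h1 (fun h4 => hs (h1q h4)) (pow_notMem h1 hz1 n)) ?_
      have h3 := map_dvd π hdvd
      have h4 : π (s * (z₀ * ∏ j ∈ Finset.univ.erase j, y j) ^ n) =
          π (s * z₀ ^ n) * (∏ j ∈ Finset.univ.erase j, π (y j)) ^ n := by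
        rw [map_mul, map_mul, map_pow, map_mul, map_pow, map_prod, mul_pow]; ring
      rwa [h4] at h3

/-- products of an element outside `p₁` and one outside `p₂` -/
def prodSub (p₁ p₂ : Ideal A) (h₁ : p₁.IsPrime) (h₂ : p₂.IsPrime) : Submonoid A where
  carrier := {x | ∃ s₁ s₂, s₁ ∉ p₁ ∧ s₂ ∉ p₂ ∧ x = s₁ * s₂}
  one_mem' := ⟨1, 1, one_notMem h₁, one_notMem h₂, by ring⟩
  mul_mem' := by
    rintro x y ⟨s₁, s₂, h1, h2, rfl⟩ ⟨t₁, t₂, h3, h4, rfl⟩
    exact ⟨s₁ * t₁, s₂ * t₂, mul_notMem h₁ h1 h3, mul_notMem h₂ h2 h4, by ring⟩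

/-- the multiplicative set of the `s * z ^ n`, `s ∉ q` -/
def powSub (q : Ideal A) (hq : q.IsPrime) (z : A) : Submonoid A where
  carrier := {x | ∃ s n, s ∉ q ∧ x = s * z ^ n}
  one_mem' := ⟨1, 0, one_notMem hq, by ring⟩
  mul_mem' := by
    rintro x y ⟨s, n, h1, rfl⟩ ⟨t, m, h2, rfl⟩
    exact ⟨s * t, n + m, mul_notMem hq h1 h2, by ring⟩

lemma exists_prime (q : Ideal A) (hq : q.IsPrime) (z w : A)
    (h : ∀ n : ℕ, ∀ s ∉ q, ¬ z ∣ s * w ^ n) :
    ∃ p : Ideal A, p.IsPrime ∧ z ∈ p ∧ w ∉ p ∧ p ≤ q := by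
  have hdis : Disjoint ((Ideal.span {z} : Ideal A) : Set A) (powSub q hq w : Set A) := by
    rw [Set.disjoint_left]
    rintro x hx ⟨s, n, hs, rfl⟩
    exact h n s hs (Ideal.mem_span_singleton.1 hx)
  obtain ⟨p, hp, hle, hd⟩ := Ideal.exists_le_prime_disjoint _ _ hdis
  refine ⟨p, hp, hle (Ideal.mem_span_singleton_self z), fun hw => ?_, fun s hs => ?_⟩
  · exact Set.disjoint_left.1 hd hw ⟨1, 1, one_notMem hq, by ring⟩
  · by_contra hsq
    exact Set.disjoint_left.1 hd hs ⟨s, 0, hsq, by ring⟩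

lemma exists_max [IsDomain A] (p₁ p₂ : Ideal A) (h₁ : p₁.IsPrime) (h₂ : p₂.IsPrime) :
    ∃ r : Ideal A, Disjoint (r : Set A) (prodSub p₁ p₂ h₁ h₂ : Set A) ∧
      ∀ I : Ideal A, Disjoint (I : Set A) (prodSub p₁ p₂ h₁ h₂ : Set A) → r ≤ I → I = r := by
  have h0 : (⊥ : Ideal A) ∈ {I : Ideal A | Disjoint (I : Set A) (prodSub p₁ p₂ h₁ h₂ : Set A)} := by
    rw [Set.mem_setOf_eq, Set.disjoint_left]
    rintro x hx ⟨s, t, hs, ht, rfl⟩
    have hx' : s * t = 0 := by simpa using hx
    rcases mul_eq_zero.1 hx' with h | h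
    · exact hs (by rw [h]; exact p₁.zero_mem)
    · exact ht (by rw [h]; exact p₂.zero_mem)
  obtain ⟨r, hr1, hr2⟩ := zorn_le_nonempty₀
    {I : Ideal A | Disjoint (I : Set A) (prodSub p₁ p₂ h₁ h₂ : Set A)} (by
      intro c hc hchain y hy
      refine ⟨sSup c, ?_, fun z hz => le_sSup hz⟩
      rw [Set.mem_setOf_eq, Set.disjoint_left]
      intro x hx hxT
      rw [SetLike.mem_coe, Submodule.mem_sSup_of_directed ⟨y, hy⟩ hchain.directedOn] at hx
      obtain ⟨I, hI, hxI⟩ := hx
      exact Set.disjoint_left.1 (hc hI) hxI hxT) ⊥ h0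
  refine ⟨r, hr2.prop, fun I hI hle => ?_⟩
  exact le_antisymm (hr2.2 hI hle) hle

end WREDM

open WREDM in
theorem specWRED : SpecWRED.{u} := by
  intro A _ _ q z₁ z₂ hq hz₁ hz₂ hz l hl hW
  obtain ⟨p₁, h1, h1z, h1w, h1q⟩ := exists_prime q hq z₁ z₂ fun n s hs => (hz n s hs).1
  obtain ⟨p₂, h2, h2z, h2w, h2q⟩ := exists_prime q hq z₂ z₁ fun n s hs => (hz n s hs).2
  obtain ⟨r, hrd, hrm⟩ := exists_max p₁ p₂ h1 h2
  have hr : r.IsPrime := by
    refine Ideal.isPrime_of_maximally_disjoint r (prodSub p₁ p₂ h1 h2) hrd ?_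
    intro J hJ hJd
    exact hJ.ne (hrm J hJd hJ.le).symm
  have hr1 : r ≤ p₁ := fun x hx => by
    by_contra hx1
    exact Set.disjoint_left.1 hrd hx ⟨x, 1, hx1, one_notMem h2, by ring⟩
  have hr2 : r ≤ p₂ := fun x hx => by
    by_contra hx1
    exact Set.disjoint_left.1 hrd hx ⟨1, x, one_notMem h1, hx1, by ring⟩
  have hT : ∀ I : Ideal A, r < I → ∃ s w, s ∉ p₁ ∧ w ∉ p₂ ∧ s * w ∈ I := by
    intro I hI
    by_contra hcon
    push Not at hcon
    have hd : Disjoint (I : Set A) (prodSub p₁ p₂ h1 h2 : Set A) := by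
      rw [Set.disjoint_left]
      rintro x hx ⟨s, w, hs, hw, rfl⟩
      exact hcon s w hs hw hx
    exact hI.ne (hrm I hd hI.le).symm
  refine ⟨r, p₁, p₂, hr, h1, h2, hr1, hr2, fun h => h2w (h h1z), fun h => h1w (h h2z), ?_, ?_, ?_⟩
  · intro P hP hrP hP1 hP2
    refine hrm P ?_ hrP
    rw [Set.disjoint_left]
    rintro x hx ⟨s, w, hs, hw, rfl⟩
    rcases hP.mem_or_mem hx with h | h
    · exact hs (hP1 h)
    · exact hw (hP2 h)
  · intro hW'
    exact hW (key q p₁ p₂ r h1 h2 hr h1q h2q hr1 hT z₂ h2z h1w l hl hW')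
  · intro hW'
    refine hW (key q p₂ p₁ r h2 h1 hr h2q h1q hr2 ?_ z₁ h1z h2w l hl hW')
    intro I hI
    obtain ⟨s, w, hs, hw, hsw⟩ := hT I hI
    exact ⟨w, s, hw, hs, by rwa [mul_comm]⟩

end Pool.Agent.Lib.MP958bd4
end

section
/-!
# MP_958bd4_lc, module WSAT: incomparable elements in the ultrapower
-/
set_option autoImplicit false

universe u

namespace Pool.Agent.Lib.MP958bd4

open Filter Polynomial

namespace WSATM

open UPowM

/-- the prime of the ultrapower -/
noncomputable def qs {A : Type u} [CommRing A] (q : Ideal A) : Ideal (Star A) where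
  carrier := {x | ∃ f : ℕ → A, (f : Star A) = x ∧
    ∀ᶠ n in (hyperfilter ℕ : Filter ℕ), f n ∈ q}
  add_mem' := by
    rintro _ _ ⟨f, rfl, hf⟩ ⟨g, rfl, hg⟩
    refine ⟨f + g, rfl, ?_⟩
    filter_upwards [hf, hg] with n h1 h2
    exact q.add_mem h1 h2
  zero_mem' := ⟨0, rfl, Eventually.of_forall fun _ => q.zero_mem⟩
  smul_mem' := by
    rintro c _ ⟨f, rfl, hf⟩
    obtain ⟨c, rfl⟩ := exists_rep c
    refine ⟨c * f, rfl, ?_⟩
    filter_upwards [hf] with n h1
    exact q.mul_mem_left _ h1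

theorem mem_qs {A : Type u} [CommRing A] {q : Ideal A} {f : ℕ → A} :
    (f : Star A) ∈ qs q ↔ ∀ᶠ n in (hyperfilter ℕ : Filter ℕ), f n ∈ q := by
  constructor
  · rintro ⟨g, hg, h⟩
    rw [Germ.coe_eq] at hg
    filter_upwards [hg, h] with n h1 h2
    rwa [← h1]
  · intro h
    exact ⟨f, rfl, h⟩

theorem not_mem_qs {A : Type u} [CommRing A] {q : Ideal A} {f : ℕ → A} :
    (f : Star A) ∉ qs q ↔ ∀ᶠ n in (hyperfilter ℕ : Filter ℕ), f n ∉ q := by
  rw [mem_qs]
  exact Ultrafilter.eventually_not.symm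

theorem qs_prime {A : Type u} [CommRing A] {q : Ideal A} (hq : q.IsPrime) : (qs q).IsPrime := by
  refine ⟨?_, ?_⟩
  · intro h
    have h1 : (1 : Star A) ∈ qs q := by rw [h]; trivial
    have h2 : ((fun _ => 1 : ℕ → A) : Star A) ∈ qs q := h1
    rw [mem_qs] at h2
    obtain ⟨n, hn⟩ := h2.exists
    exact hq.ne_top ((Ideal.eq_top_iff_one q).2 hn)
  · intro x y h
    obtain ⟨x, rfl⟩ := exists_rep x
    obtain ⟨y, rfl⟩ := exists_rep y
    rw [← Germ.coe_mul, mem_qs] at h
    rw [mem_qs, mem_qs, ← Ultrafilter.eventually_or]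
    filter_upwards [h] with n hn
    exact hq.mem_or_mem hn

theorem coe_prod {A : Type u} [CommRing A] {ι : Type} (s : Finset ι) (z : ι → ℕ → A) :
    ∏ j ∈ s, (z j : Star A) = ((fun n => ∏ j ∈ s, z j n : ℕ → A) : Star A) := by
  have := (map_prod (Germ.coeRingHom (R := A) ((hyperfilter ℕ : Ultrafilter ℕ) : Filter ℕ)) z
    s).symm
  refine this.trans ?_
  show ((∏ j ∈ s, z j : ℕ → A) : Star A) = _
  congr 1
  funext n
  simp

end WSATM

open UPowM WSATM in
theorem specWSAT (hUNIP : SpecUNIP.{u}) : SpecWSAT.{u} := by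
  intro A _ _ hA q hq hW
  choose z hz hz' using hW
  have hz0 : ((fun n => z n 0 : ℕ → A) : Star A) ∈ qs q :=
    mem_qs.2 (Eventually.of_forall fun n => hz n 0)
  have hz1 : ((fun n => z n 1 : ℕ → A) : Star A) ∈ qs q :=
    mem_qs.2 (Eventually.of_forall fun n => hz n 1)
  have he0 : (Finset.univ.erase (0 : Fin 2)) = {1} := by decide
  have he1 : (Finset.univ.erase (1 : Fin 2)) = {0} := by decide
  refine ⟨Star A, inferInstance, instIsDomain, qs q, ((fun n => z n 0 : ℕ → A) : Star A),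
    ((fun n => z n 1 : ℕ → A) : Star A), hUNIP A _ hA, qs_prime hq, hz0, hz1, ?_, ?_⟩
  · intro k s hs
    obtain ⟨s, rfl⟩ := exists_rep s
    rw [not_mem_qs] at hs
    constructor
    · intro h
      rw [← Germ.coe_pow, ← Germ.coe_mul, coe_dvd] at h
      obtain ⟨n, h1, h2, h3⟩ := (h.and (hs.and (ev_ge k))).exists
      have := hz' n 0 (s n) h2
      rw [he0, Finset.prod_singleton] at this
      exact this (h1.trans (mul_dvd_mul_left _ (pow_dvd_pow _ h3)))
    · intro h
      rw [← Germ.coe_pow, ← Germ.coe_mul, coe_dvd] at h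
      obtain ⟨n, h1, h2, h3⟩ := (h.and (hs.and (ev_ge k))).exists
      have := hz' n 1 (s n) h2
      rw [he1, Finset.prod_singleton] at this
      exact this (h1.trans (mul_dvd_mul_left _ (pow_dvd_pow _ h3)))
  · intro l hl n
    obtain ⟨w, hw, hw'⟩ := hl n
    have hrep : ∀ i, ∃ f : ℕ → A, (f : Star A) = w i := fun i => exists_rep (w i)
    choose f hf using hrep
    have hmem : ∀ i, ∀ᶠ m in (hyperfilter ℕ : Filter ℕ), f i m ∈ q := by
      intro i
      have := hw i
      rw [← hf i, mem_qs] at this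
      exact this
    by_contra hcon
    push Not at hcon
    have h1 : ∀ᶠ m in (hyperfilter ℕ : Filter ℕ), ∃ i, ∃ s ∉ q,
        f i m ∣ s * (∏ j ∈ Finset.univ.erase i, f j m) ^ n := by
      filter_upwards [eventually_all.2 hmem] with m hm
      exact hcon (fun i => f i m) hm
    have h2 : ∃ i, ∀ᶠ m in (hyperfilter ℕ : Filter ℕ), ∃ s ∉ q,
        f i m ∣ s * (∏ j ∈ Finset.univ.erase i, f j m) ^ n := by
      by_contra h3
      rw [not_exists] at h3
      have h4 : ∀ i, ∀ᶠ m in (hyperfilter ℕ : Filter ℕ), ¬ ∃ s ∉ q,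
        f i m ∣ s * (∏ j ∈ Finset.univ.erase i, f j m) ^ n := fun i => ev_not (h3 i)
      obtain ⟨m, ⟨i, h5⟩, h6⟩ := (h1.and (eventually_all.2 h4)).exists
      exact h6 i h5
    obtain ⟨i, hi⟩ := h2
    have h3 : ∀ m, ∃ s : A, (∃ s ∉ q, f i m ∣ s * (∏ j ∈ Finset.univ.erase i, f j m) ^ n) →
        s ∉ q ∧ f i m ∣ s * (∏ j ∈ Finset.univ.erase i, f j m) ^ n := by
      intro m
      by_cases h : ∃ s ∉ q, f i m ∣ s * (∏ j ∈ Finset.univ.erase i, f j m) ^ n
      · obtain ⟨s, hs, hs'⟩ := h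
        exact ⟨s, fun _ => ⟨hs, hs'⟩⟩
      · exact ⟨0, fun h' => absurd h' h⟩
    choose s hs using h3
    refine hw' i (s : Star A) ?_ ?_
    · rw [not_mem_qs]
      filter_upwards [hi] with m hm
      exact (hs m hm).1
    · simp only [← hf]
      rw [coe_prod, ← Germ.coe_pow, ← Germ.coe_mul, coe_dvd]
      filter_upwards [hi] with m hm
      exact (hs m hm).2

end Pool.Agent.Lib.MP958bd4
end

section
/-!
# MP_958bd4_lc: module WUC
-/
set_option autoImplicit false

universe u

namespace Pool.Agent.Lib.MP958bd4.WUCM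

theorem assoc {A : Type u} [CommRing A] (q : Ideal A) [q.IsPrime] (x : A) (s : q.primeCompl) :
    Associated (algebraMap A (Localization.AtPrime q) x)
      (IsLocalization.mk' (Localization.AtPrime q) x s) := by
  have h := IsLocalization.map_units (Localization.AtPrime q) s
  refine (Associated.symm ⟨h.unit, ?_⟩)
  rw [IsUnit.unit_spec]
  exact IsLocalization.mk'_spec _ x s

theorem mem_of_not_unit {A : Type u} [CommRing A] (q : Ideal A) [q.IsPrime] (x : A)
    (s : q.primeCompl) (h : ¬ IsUnit (IsLocalization.mk' (Localization.AtPrime q) x s)) :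
    x ∈ q := by
  by_contra hx
  apply h
  rw [← (assoc q x s).isUnit_iff]
  exact IsLocalization.map_units (Localization.AtPrime q) (⟨x, hx⟩ : q.primeCompl)

/-- Divisibility in the local ring. -/
theorem dvd_of {A : Type u} [CommRing A] (q : Ideal A) [q.IsPrime] {x y c : A} {n : ℕ}
    (s t : q.primeCompl) (hc : c ∉ q) (h : x ∣ c * y ^ n) :
    IsLocalization.mk' (Localization.AtPrime q) x s ∣
      IsLocalization.mk' (Localization.AtPrime q) y t ^ (n + 1) := by
  have h1 : algebraMap A (Localization.AtPrime q) x ∣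
      algebraMap A (Localization.AtPrime q) c * algebraMap A (Localization.AtPrime q) y ^ n := by
    rw [← map_pow, ← map_mul]
    exact map_dvd _ h
  have hu : IsUnit (algebraMap A (Localization.AtPrime q) c) :=
    IsLocalization.map_units (Localization.AtPrime q) (⟨c, hc⟩ : q.primeCompl)
  have h2 := (hu.dvd_mul_left).1 h1
  have h3 := ((assoc q x s).dvd_iff_dvd_left).1 h2
  have h4 := (((assoc q y t).pow_pow (n := n)).dvd_iff_dvd_right).1 h3
  exact h4.trans (pow_dvd_pow _ n.le_succ)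

end Pool.Agent.Lib.MP958bd4.WUCM

namespace Pool.Agent.Lib.MP958bd4

open WUCM

theorem specWUC : SpecWUC.{u} := by
  intro A _ _ q hq h
  unfold Wr at h
  push Not at h
  obtain ⟨n, hn⟩ := h
  refine ⟨n + 1, n.succ_pos, fun a b => ?_⟩
  by_cases ha : IsUnit a
  · exact Or.inr ha.dvd
  by_cases hb : IsUnit b
  · exact Or.inl hb.dvd
  obtain ⟨a', s, rfl⟩ := IsLocalization.exists_mk'_eq q.primeCompl a
  obtain ⟨b', t, rfl⟩ := IsLocalization.exists_mk'_eq q.primeCompl b
  have ha' := mem_of_not_unit q a' s ha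
  have hb' := mem_of_not_unit q b' t hb
  obtain ⟨i, c, hc, hd⟩ := hn ![a', b'] (by
    intro i
    fin_cases i
    · exact ha'
    · exact hb')
  have e0 : (Finset.univ.erase (0 : Fin 2)) = {1} := by decide
  have e1 : (Finset.univ.erase (1 : Fin 2)) = {0} := by decide
  rcases i with ⟨i, hi⟩
  interval_cases i
  · right
    change ![a', b'] 0 ∣ c * (∏ j ∈ Finset.univ.erase (0 : Fin 2), ![a', b'] j) ^ n at hd
    rw [e0, Finset.prod_singleton] at hd
    exact dvd_of q s t hc hd
  · left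
    change ![a', b'] 1 ∣ c * (∏ j ∈ Finset.univ.erase (1 : Fin 2), ![a', b'] j) ^ n at hd
    rw [e1, Finset.prod_singleton] at hd
    exact dvd_of q t s hc hd

end Pool.Agent.Lib.MP958bd4
end
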