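import Pool.Agent.Lib.MP_958bd4_lc.SpecA
import Pool.Agent.Lib.MP_958bd4_lc.SpecT
import Pool.Agent.Lib.MP_958bd4_lc.SpecM
import Pool.Agent.Lib.MP_958bd4_lc.UNI

section
/-!
# MP_958bd4_lc: [LOC] the local ring at `Q` modulo the kernel of `φ : C → F`
-/
set_option autoImplicit false

universe u

namespace Pool.Agent.Lib.MP958bd4.LOCM

open Polynomial Topology Filter IsLocalRing

variable {C F : Type u} [CommRing C] [Field F] (φ : C →+* F) (Q : Ideal C)

theorem ne_zero (hk : RingHom.ker φ ≤ Q) {s : C} (hs : s ∉ Q) : φ s ≠ 0 := fun h => hs (hk h)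

/-- The local ring as a subring. -/
def locRing [hQ : Q.IsPrime] : Subring F where
  carrier := locSet φ Q
  zero_mem' := ⟨0, 1, fun h => hQ.ne_top ((Ideal.eq_top_iff_one _).2 h), by simp⟩
  one_mem' := ⟨1, 1, fun h => hQ.ne_top ((Ideal.eq_top_iff_one _).2 h), by simp⟩
  add_mem' := by
    rintro x y ⟨a, s, hs, h1⟩ ⟨b, t, ht, h2⟩
    refine ⟨a * t + b * s, s * t, fun h => (hQ.mem_or_mem h).elim hs ht, ?_⟩
    rw [map_mul, map_add, map_mul, map_mul, ← h1, ← h2]
    ring
  mul_mem' := by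
    rintro x y ⟨a, s, hs, h1⟩ ⟨b, t, ht, h2⟩
    refine ⟨a * b, s * t, fun h => (hQ.mem_or_mem h).elim hs ht, ?_⟩
    rw [map_mul, map_mul, ← h1, ← h2]
    ring
  neg_mem' := by
    rintro x ⟨a, s, hs, h1⟩
    exact ⟨-a, s, hs, by rw [map_neg, ← h1]; ring⟩

theorem one_notMem [hQ : Q.IsPrime] : (1 : C) ∉ Q := fun h =>
  hQ.ne_top ((Ideal.eq_top_iff_one _).2 h)

theorem mem_locRing [Q.IsPrime] {y : F} : y ∈ locRing φ Q ↔ y ∈ locSet φ Q := Iff.rfl

theorem map_mem [Q.IsPrime] (c : C) : φ c ∈ locRing φ Q :=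
  ⟨c, 1, one_notMem Q, by simp⟩

/-- The map from `C` to the local ring. -/
def toLoc [Q.IsPrime] : C →+* locRing φ Q := φ.codRestrict (locRing φ Q) (map_mem φ Q)

@[simp] theorem coe_toLoc [Q.IsPrime] (c : C) : ((toLoc φ Q c : locRing φ Q) : F) = φ c := rfl

theorem inv_mem [Q.IsPrime] (hk : RingHom.ker φ ≤ Q) {s : C} (hs : s ∉ Q) :
    (φ s)⁻¹ ∈ locRing φ Q :=
  ⟨1, s, hs, by rw [inv_mul_cancel₀ (ne_zero φ Q hk hs), map_one]⟩

theorem isUnit_toLoc [Q.IsPrime] (hk : RingHom.ker φ ≤ Q) {s : C} (hs : s ∉ Q) :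
    IsUnit (toLoc φ Q s) := by
  refine IsUnit.of_mul_eq_one ⟨(φ s)⁻¹, inv_mem φ Q hk hs⟩ ?_
  ext
  simp [mul_inv_cancel₀ (ne_zero φ Q hk hs)]

theorem exists_repr [Q.IsPrime] (y : locRing φ Q) : ∃ a s : C, s ∉ Q ∧
    y * toLoc φ Q s = toLoc φ Q a := by
  obtain ⟨a, s, hs, h⟩ := y.2
  exact ⟨a, s, hs, Subtype.ext h⟩

theorem not_isUnit_iff [hQ : Q.IsPrime] (hk : RingHom.ker φ ≤ Q) (y : locRing φ Q) :
    ¬ IsUnit y ↔ (y : F) ∈ locMax φ Q := by
  constructor
  · intro h
    obtain ⟨a, s, hs, h1⟩ := exists_repr φ Q y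
    refine ⟨a, s, ?_, hs, congrArg Subtype.val h1⟩
    by_contra ha
    refine h (isUnit_of_mul_isUnit_left (y := toLoc φ Q s) ?_)
    rw [h1]
    exact isUnit_toLoc φ Q hk ha
  · rintro ⟨a, s, ha, hs, h1⟩ hu
    obtain ⟨z, hz⟩ := hu.exists_right_inv
    obtain ⟨b, t, ht, h2⟩ := exists_repr φ Q z
    have h3 : φ (s * t) = φ (a * b) := by
      have h2' := congrArg Subtype.val h2
      have hz' := congrArg Subtype.val hz
      simp only [Subring.coe_mul, coe_toLoc, Subring.coe_one] at h2' hz'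
      rw [map_mul, map_mul, ← h1, ← h2']
      linear_combination (- (φ s * φ t)) * hz'
    have h4 : s * t - a * b ∈ Q := hk (by rw [RingHom.mem_ker, map_sub, h3, sub_self])
    have h5 : s * t ∈ Q := by
      have := Q.add_mem h4 (Q.mul_mem_right b ha)
      rwa [sub_add_cancel] at this
    exact (hQ.mem_or_mem h5).elim hs ht

theorem isLocal [hQ : Q.IsPrime] (hk : RingHom.ker φ ≤ Q) : IsLocalRing (locRing φ Q) := by
  refine IsLocalRing.of_nonunits_add ?_
  intro x y hx hy
  rw [mem_nonunits_iff, not_isUnit_iff φ Q hk] at *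
  obtain ⟨a, s, ha, hs, h1⟩ := hx
  obtain ⟨b, t, hb, ht, h2⟩ := hy
  refine ⟨a * t + b * s, s * t, Q.add_mem (Q.mul_mem_right _ ha) (Q.mul_mem_right _ hb),
    fun h => (hQ.mem_or_mem h).elim hs ht, ?_⟩
  rw [Subring.coe_add, map_mul, map_add, map_mul, map_mul, ← h1, ← h2]
  ring

theorem isFrac [hQ : Q.IsPrime] (hφ : IsFrac φ) : IsFractionRing (locRing φ Q) F := by
  refine ⟨?_, ?_, ?_⟩
  · rintro ⟨y, hy⟩
    have : (y : F) ≠ 0 := fun h => nonZeroDivisors.ne_zero hy (Subtype.ext h)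
    exact isUnit_iff_ne_zero.2 this
  · intro z
    obtain ⟨a, s, hs, h⟩ := hφ z
    refine ⟨⟨toLoc φ Q a, ⟨toLoc φ Q s, mem_nonZeroDivisors_of_ne_zero fun h' => hs ?_⟩⟩, h⟩
    exact congrArg Subtype.val h'
  · intro x y hxy
    exact ⟨1, by rw [Subtype.ext hxy]⟩

theorem uc [hQ : Q.IsPrime] (hk : RingHom.ker φ ≤ Q) {N : ℕ} (h : UC N C) :
    UC N (locRing φ Q) := by
  have key : ∀ x y : locRing φ Q, ∀ a b s : C, s ∉ Q → x * toLoc φ Q s = toLoc φ Q a →
      y * toLoc φ Q s = toLoc φ Q b → b ∣ a ^ N → y ∣ x ^ N := by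
    rintro x y a b s hs h1 h2 ⟨c, hc⟩
    have hu := isUnit_toLoc φ Q hk hs
    have h3 : x ^ N * toLoc φ Q s ^ N = y * toLoc φ Q s * toLoc φ Q c := by
      rw [← mul_pow, h1, ← map_pow, hc, map_mul, h2]
    have h4 : y ∣ x ^ N * toLoc φ Q s ^ N := ⟨toLoc φ Q s * toLoc φ Q c, by rw [h3, mul_assoc]⟩
    exact (hu.pow N).dvd_mul_right.1 h4
  intro x y
  obtain ⟨a, s, hs, h1⟩ := exists_repr φ Q x
  obtain ⟨b, t, ht, h2⟩ := exists_repr φ Q y
  have hst : s * t ∉ Q := fun h => (hQ.mem_or_mem h).elim hs ht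
  have h1' : x * toLoc φ Q (s * t) = toLoc φ Q (a * t) := by
    rw [map_mul, map_mul, ← h1, mul_assoc]
  have h2' : y * toLoc φ Q (s * t) = toLoc φ Q (b * s) := by
    rw [map_mul, map_mul, ← h2]
    ring
  rcases h (a * t) (b * s) with h3 | h3
  · exact Or.inl (key x y _ _ _ hst h1' h2' h3)
  · exact Or.inr (key y x _ _ _ hst h2' h1' h3)

/-- The extension of the prime `P'`. -/
def ext (P' : Ideal C) [hQ : Q.IsPrime] : Ideal (locRing φ Q) where
  carrier := {y | ∃ a s : C, a ∈ P' ∧ s ∉ Q ∧ (y : F) * φ s = φ a}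
  zero_mem' := ⟨0, 1, P'.zero_mem, one_notMem Q, by simp⟩
  add_mem' := by
    rintro x y ⟨a, s, ha, hs, h1⟩ ⟨b, t, hb, ht, h2⟩
    refine ⟨a * t + b * s, s * t, P'.add_mem (P'.mul_mem_right _ ha) (P'.mul_mem_right _ hb),
      fun h => (hQ.mem_or_mem h).elim hs ht, ?_⟩
    rw [Subring.coe_add, map_mul, map_add, map_mul, map_mul, ← h1, ← h2]
    ring
  smul_mem' := by
    rintro x y ⟨b, t, hb, ht, h2⟩
    obtain ⟨a, s, hs, h1⟩ := x.2
    refine ⟨a * b, s * t, P'.mul_mem_left _ hb, fun h => (hQ.mem_or_mem h).elim hs ht, ?_⟩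
    rw [smul_eq_mul, Subring.coe_mul, map_mul, map_mul, ← h1, ← h2]
    ring

theorem mem_ext {P' : Ideal C} [hQ : Q.IsPrime] {y : locRing φ Q} :
    y ∈ ext φ Q P' ↔ ∃ a s : C, a ∈ P' ∧ s ∉ Q ∧ (y : F) * φ s = φ a := Iff.rfl

end Pool.Agent.Lib.MP958bd4.LOCM

namespace Pool.Agent.Lib.MP958bd4

open Polynomial Topology Filter IsLocalRing LOCM

theorem specLOC : SpecLOC.{u} := by
  intro C F _ _ φ hφ Q hQ hk
  refine ⟨locRing φ Q, fun y => Iff.rfl, isFrac φ Q hφ, isLocal φ Q hk, ?_, ?_, ?_, ?_, ?_⟩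
  · intro y
    have := isLocal φ Q hk
    rw [← not_isUnit_iff φ Q hk, mem_maximalIdeal, mem_nonunits_iff]
  · constructor
    · intro hf
      refine le_antisymm ?_ hk
      intro a ha
      by_contra h
      have h0 : toLoc φ Q a ≠ 0 := fun h' => h (congrArg Subtype.val h')
      have hu : IsUnit (toLoc φ Q a) := by
        obtain ⟨b, hb⟩ := hf.mul_inv_cancel h0
        exact IsUnit.of_mul_eq_one b hb
      exact (not_isUnit_iff φ Q hk _).2 ⟨a, 1, ha, one_notMem Q, by simp⟩ hu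
    · intro hQk
      refine ⟨⟨0, 1, zero_ne_one⟩, mul_comm, ?_⟩
      intro y hy
      have hu : IsUnit y := by
        by_contra h
        rw [not_isUnit_iff φ Q hk] at h
        obtain ⟨a, s, ha, hs, h1⟩ := h
        rw [hQk, RingHom.mem_ker] at ha
        rw [ha] at h1
        rcases mul_eq_zero.1 h1 with h2 | h2
        · exact hy (Subtype.ext h2)
        · exact ne_zero φ Q hk hs h2
      exact hu.exists_right_inv
  · intro N h
    exact uc φ Q hk h
  · intro P hP
    refine ⟨P.comap (toLoc φ Q), hP.comap _, ?_, ?_, ?_, ?_⟩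
    · intro c hc
      have : toLoc φ Q c = 0 := Subtype.ext hc
      rw [Ideal.mem_comap, this]
      exact P.zero_mem
    · intro c hc
      by_contra h
      exact hP.ne_top (P.eq_top_of_isUnit_mem hc (isUnit_toLoc φ Q hk h))
    · constructor
      · rintro rfl
        ext c
        rw [Ideal.mem_comap, RingHom.mem_ker]
        change toLoc φ Q c = 0 ↔ _
        exact ⟨fun h => congrArg Subtype.val h, fun h => Subtype.ext h⟩
      · intro h
        rw [eq_bot_iff]
        intro y hy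
        obtain ⟨a, s, hs, h1⟩ := exists_repr φ Q y
        have h2 : a ∈ P.comap (toLoc φ Q) := by
          rw [Ideal.mem_comap, ← h1]
          exact P.mul_mem_right _ hy
        rw [h, RingHom.mem_ker] at h2
        have h3 : toLoc φ Q a = 0 := Subtype.ext h2
        rw [h3] at h1
        exact ((isUnit_toLoc φ Q hk hs).mul_left_eq_zero).1 h1
    · intro y
      constructor
      · intro hy
        obtain ⟨a, s, hs, h1⟩ := exists_repr φ Q y
        refine ⟨a, s, ?_, hs, congrArg Subtype.val h1⟩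
        rw [Ideal.mem_comap, ← h1]
        exact P.mul_mem_right _ hy
      · rintro ⟨a, s, ha, hs, h1⟩
        have h2 : y * toLoc φ Q s = toLoc φ Q a := Subtype.ext h1
        rw [Ideal.mem_comap, ← h2] at ha
        rcases hP.mem_or_mem ha with h3 | h3
        · exact h3
        · exact absurd (P.eq_top_of_isUnit_mem h3 (isUnit_toLoc φ Q hk hs)) hP.ne_top
  · intro P' hP' hkP hPQ
    refine ⟨ext φ Q P', ?_, ?_, ?_, ?_⟩
    · refine ⟨?_, ?_⟩
      · intro h
        have h1 : (1 : locRing φ Q) ∈ ext φ Q P' := by rw [h]; trivial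
        obtain ⟨a, s, ha, hs, h2⟩ := h1
        have h3 : s - a ∈ P' := hkP (by
          rw [RingHom.mem_ker, map_sub, ← h2]
          simp)
        refine hs (hPQ ?_)
        have := P'.add_mem h3 ha
        rwa [sub_add_cancel] at this
      · intro x y hxy
        obtain ⟨a, s, hs, h1⟩ := x.2
        obtain ⟨b, t, ht, h2⟩ := y.2
        obtain ⟨c, r, hc, hr, h3⟩ := hxy
        have h4 : a * b * r - c * (s * t) ∈ P' := hkP (by
          rw [RingHom.mem_ker, map_sub]
          simp only [map_mul]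
          rw [← h1, ← h2, ← h3, Subring.coe_mul]
          ring)
        have h5 : a * b * r ∈ P' := by
          have := P'.add_mem h4 (P'.mul_mem_right (s * t) hc)
          rwa [sub_add_cancel] at this
        have hr' : r ∉ P' := fun h => hr (hPQ h)
        have h6 : a * b ∈ P' := (hP'.mem_or_mem h5).resolve_right hr'
        rcases hP'.mem_or_mem h6 with h7 | h7
        · exact Or.inl ⟨a, s, h7, hs, h1⟩
        · exact Or.inr ⟨b, t, h7, ht, h2⟩
    · constructor
      · intro h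
        refine le_antisymm ?_ hkP
        intro a ha
        have h1 : toLoc φ Q a ∈ ext φ Q P' := ⟨a, 1, ha, one_notMem Q, by simp⟩
        rw [h] at h1
        exact congrArg Subtype.val h1
      · intro h
        rw [eq_bot_iff]
        rintro y ⟨a, s, ha, hs, h1⟩
        rw [h, RingHom.mem_ker] at ha
        rw [ha] at h1
        rcases mul_eq_zero.1 h1 with h2 | h2
        · exact Subtype.ext h2
        · exact absurd h2 (ne_zero φ Q hk hs)
    · intro y
      exact Iff.rfl
    · intro y c hyc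
      constructor
      · rintro ⟨a, s, ha, hs, h1⟩
        have h2 : c * s - a ∈ P' := hkP (by
          rw [RingHom.mem_ker, map_sub, map_mul, ← hyc, h1, sub_self])
        have h3 : c * s ∈ P' := by
          have := P'.add_mem h2 ha
          rwa [sub_add_cancel] at this
        exact (hP'.mem_or_mem h3).resolve_right fun h => hs (hPQ h)
      · intro hc
        exact ⟨c, 1, hc, one_notMem Q, by rw [map_one, mul_one, hyc]⟩

end Pool.Agent.Lib.MP958bd4
end

section
/-!
# MP_958bd4_lc: [SCALE] clearing denominators in the lifting of simple roots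
-/
set_option autoImplicit false

universe u

namespace Pool.Agent.Lib.MP958bd4.SCALEM

open Polynomial Topology Filter IsLocalRing LOCM

theorem scaleRoots_comp {R : Type u} [CommRing R] (p : R[X]) (s : R) :
    (p.scaleRoots s).comp (C s * X) = C (s ^ p.natDegree) * p := by
  have := scaleRoots_eval₂_mul (p := p) (C : R →+* R[X]) X s
  rw [comp, this, eval₂_C_X, C_pow]

theorem mul_derivative_scaleRoots {R : Type u} [CommRing R] (p : R[X]) (s r : R) :
    s * (derivative (p.scaleRoots s)).eval (s * r) = s ^ p.natDegree * p.derivative.eval r := by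
  have h := congrArg derivative (scaleRoots_comp p s)
  rw [derivative_comp, derivative_C_mul, derivative_C_mul, derivative_X, mul_one] at h
  have h' := congrArg (eval r) h
  simpa using h'

variable {C F : Type u} [CommRing C] [Field F] (φ : C →+* F) (Q : Ideal C)

/-- A common denominator. -/
theorem exists_common [hQ : Q.IsPrime] {ι : Type*} (f : ι → locRing φ Q) (t : Finset ι) :
    ∃ s : C, s ∉ Q ∧ ∀ i ∈ t, ∃ c, f i * toLoc φ Q s = toLoc φ Q c := by
  classical
  induction t using Finset.induction with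
  | empty => exact ⟨1, one_notMem Q, by simp⟩
  | insert a t _ ih =>
    obtain ⟨s, hs, h⟩ := ih
    obtain ⟨c, r, hr, h'⟩ := exists_repr φ Q (f a)
    refine ⟨s * r, fun hh => (hQ.mem_or_mem hh).elim hs hr, ?_⟩
    intro i hi
    rcases Finset.mem_insert.1 hi with rfl | hi
    · refine ⟨s * c, ?_⟩
      rw [map_mul, map_mul, ← h']
      ring
    · obtain ⟨d, hd⟩ := h i hi
      refine ⟨d * r, ?_⟩
      rw [map_mul, map_mul, ← hd]
      ring

/-- Clearing denominators of a monic polynomial and of an element. -/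
theorem exists_lift [hQ : Q.IsPrime] (p : (locRing φ Q)[X]) (hp : p.Monic)
    (a : locRing φ Q) : ∃ (s : C) (G : C[X]) (a' : C), s ∉ Q ∧ G.Monic ∧
      G.natDegree = p.natDegree ∧ G.map (toLoc φ Q) = p.scaleRoots (toLoc φ Q s) ∧
      toLoc φ Q a' = toLoc φ Q s * a := by
  obtain ⟨s, hs, h⟩ := exists_common φ Q (fun i : Option ℕ => i.elim a p.coeff)
    (insert none (Finset.image some p.support))
  obtain ⟨a', ha'⟩ := h none (Finset.mem_insert_self _ _)
  have hc : ∀ i, ∃ c, p.coeff i * toLoc φ Q s = toLoc φ Q c := by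
    intro i
    by_cases hi : i ∈ p.support
    · exact h (some i) (Finset.mem_insert_of_mem (Finset.mem_image_of_mem _ hi))
    · rw [notMem_support_iff] at hi
      exact ⟨0, by rw [hi]; simp⟩
  have hl : p.scaleRoots (toLoc φ Q s) ∈ lifts (toLoc φ Q) := by
    rw [lifts_iff_coeff_lifts]
    intro i
    rw [coeff_scaleRoots]
    rcases lt_trichotomy i p.natDegree with hi | hi | hi
    · obtain ⟨c, hc⟩ := hc i
      obtain ⟨k, hk⟩ : ∃ k, p.natDegree - i = k + 1 := ⟨p.natDegree - i - 1, by omega⟩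
      refine ⟨c * s ^ k, ?_⟩
      rw [hk, map_mul, ← hc, map_pow, pow_succ]
      ring
    · refine ⟨1, ?_⟩
      rw [hi, Nat.sub_self, pow_zero, mul_one, map_one]
      exact hp.symm
    · refine ⟨0, ?_⟩
      rw [coeff_eq_zero_of_natDegree_lt hi, zero_mul, map_zero]
  obtain ⟨G, hG, hGd, hGm⟩ := lifts_and_natDegree_eq_and_monic hl ((monic_scaleRoots_iff _).2 hp)
  refine ⟨s, G, a', hs, hGm, by rw [hGd, natDegree_scaleRoots], hG, ?_⟩
  rw [← ha', mul_comm]
  rfl

theorem mem_of_mem_maximalIdeal [hQ : Q.IsPrime] (hk : RingHom.ker φ ≤ Q)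
    [IsLocalRing (locRing φ Q)] {c : C} (h : toLoc φ Q c ∈ maximalIdeal (locRing φ Q)) :
    c ∈ Q := by
  by_contra hc
  exact (mem_nonunits_iff.1 ((mem_maximalIdeal _).1 h)) (isUnit_toLoc φ Q hk hc)

theorem notMem_of_isUnit [hQ : Q.IsPrime] (hk : RingHom.ker φ ≤ Q) {c : C}
    (h : IsUnit (toLoc φ Q c)) : c ∉ Q := fun hc =>
  (not_isUnit_iff φ Q hk _).2 ⟨c, 1, hc, one_notMem Q, by simp⟩ h

theorem eval_toLoc [hQ : Q.IsPrime] (g : C[X]) (a : C) :
    toLoc φ Q (g.eval a) = (g.map (toLoc φ Q)).eval (toLoc φ Q a) := by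
  rw [eval_map, eval₂_at_apply]

end Pool.Agent.Lib.MP958bd4.SCALEM

namespace Pool.Agent.Lib.MP958bd4

open Polynomial Topology Filter IsLocalRing LOCM SCALEM

theorem specSCALE : SpecSCALE.{u} := by
  intro C F _ _ φ hφ Q hQ hk n hLS B _ hB hmax
  obtain rfl : B = locRing φ Q := by
    ext y
    exact hB y
  intro g hg hgn hsp a ha hu
  obtain ⟨s, G, a', hs, hGm, hGd, hG, ha'⟩ := exists_lift φ Q g hg a
  have hsu := isUnit_toLoc φ Q hk hs
  have hGφ : G.map φ = (g.scaleRoots (toLoc φ Q s)).map (algebraMap (locRing φ Q) F) := by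
    rw [← hG, Polynomial.map_map]
    rfl
  have hinj : Function.Injective (algebraMap (locRing φ Q) F) := Subtype.val_injective
  have h1 : (G.map φ).Splits := by
    rw [hGφ, map_scaleRoots _ _ _ (by rw [hg.leadingCoeff, map_one]; exact one_ne_zero)]
    exact hsp.scaleRoots _
  have h2 : SimpleAt G a' Q := by
    constructor
    · refine mem_of_mem_maximalIdeal φ Q hk ?_
      rw [eval_toLoc, hG, ha', scaleRoots_eval_mul]
      exact Ideal.mul_mem_left _ _ ha
    · refine notMem_of_isUnit φ Q hk ?_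
      rw [eval_toLoc, ← derivative_map, hG, ha']
      have h3 := mul_derivative_scaleRoots g (toLoc φ Q s) a
      refine isUnit_of_mul_isUnit_right (x := toLoc φ Q s) ?_
      rw [h3]
      exact (hsu.pow _).mul hu
  obtain ⟨b, t, ht, hb, hb'⟩ := hLS G hGm (hGd.trans_le hgn) h1 a' h2
  have hst : s * t ∉ Q := fun h => (hQ.mem_or_mem h).elim hs ht
  have hstu := isUnit_toLoc φ Q hk hst
  obtain ⟨w, hw⟩ := hstu.exists_right_inv
  have hβ : toLoc φ Q (s * t) * (w * toLoc φ Q b) = toLoc φ Q b := by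
    rw [← mul_assoc, hw, one_mul]
  refine ⟨w * toLoc φ Q b, ?_, ?_⟩
  · have h3 : toLoc φ Q ((G.scaleRoots t).eval b) = 0 := Subtype.ext hb'
    rw [eval_toLoc, map_scaleRoots _ _ _ (by rw [hGm.leadingCoeff, map_one]; exact one_ne_zero),
      hG, ← scaleRoots_mul, ← map_mul, ← hβ, scaleRoots_eval_mul] at h3
    exact ((hstu.pow _).mul_right_eq_zero).1 h3
  · have h3 : toLoc φ Q (s * t) * (w * toLoc φ Q b - a) = toLoc φ Q (b - t * a') := by
      rw [mul_sub, hβ, map_sub, map_mul, map_mul, ha']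
      ring
    have h4 : toLoc φ Q (b - t * a') ∈ maximalIdeal (locRing φ Q) := by
      rw [mem_maximalIdeal, mem_nonunits_iff, not_isUnit_iff φ Q hk]
      exact ⟨b - t * a', 1, hb, one_notMem Q, by simp⟩
    rw [← h3] at h4
    rcases (maximalIdeal.isMaximal (locRing φ Q)).isPrime.mem_or_mem h4 with h5 | h5
    · exact absurd hstu ((mem_nonunits_iff).1 ((mem_maximalIdeal _).1 h5))
    · exact h5

end Pool.Agent.Lib.MP958bd4
end

section
/-!
# MP_958bd4_lc: [SPL] from the local form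
-/
set_option autoImplicit false

universe u

namespace Pool.Agent.Lib.MP958bd4.SPLM

open Polynomial Topology Filter IsLocalRing LOCM SCALEM

variable {C F : Type u} [CommRing C] [Field F] (φ : C →+* F) (Q : Ideal C)

theorem mem_maximalIdeal_of_mem [hQ : Q.IsPrime] (hk : RingHom.ker φ ≤ Q)
    [IsLocalRing (locRing φ Q)] {c : C} (h : c ∈ Q) :
    toLoc φ Q c ∈ maximalIdeal (locRing φ Q) := by
  rw [mem_maximalIdeal, mem_nonunits_iff, not_isUnit_iff φ Q hk]
  exact ⟨c, 1, h, one_notMem Q, by simp⟩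

theorem isUnit_mul_mem_iff {B : Type u} [CommRing B] (I : Ideal B) {u x : B} (hu : IsUnit u) :
    u * x ∈ I ↔ x ∈ I := by
  constructor
  · intro h
    obtain ⟨v, hv⟩ := hu.exists_left_inv
    have := I.mul_mem_left v h
    rwa [← mul_assoc, hv, one_mul] at this
  · exact fun h => I.mul_mem_left _ h

/-- `RootMod` in terms of the local ring. -/
theorem rootMod_iff [hQ : Q.IsPrime] (hk : RingHom.ker φ ≤ Q) [IsLocalRing (locRing φ Q)]
    (P : Ideal (locRing φ Q)) (g : C[X]) (hg : g.Monic) (a : C) :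
    RootMod g a (P.comap (toLoc φ Q)) Q ↔ ∃ b : locRing φ Q,
      b - toLoc φ Q a ∈ maximalIdeal (locRing φ Q) ∧ (g.map (toLoc φ Q)).eval b ∈ P := by
  have hsc : ∀ s : C, (g.scaleRoots s).map (toLoc φ Q) =
      (g.map (toLoc φ Q)).scaleRoots (toLoc φ Q s) := fun s =>
    map_scaleRoots _ _ _ (by rw [hg.leadingCoeff, map_one]; exact one_ne_zero)
  constructor
  · rintro ⟨b, s, hs, h1, h2⟩
    have hsu := isUnit_toLoc φ Q hk hs
    obtain ⟨w, hw⟩ := hsu.exists_right_inv
    have hβ : toLoc φ Q s * (w * toLoc φ Q b) = toLoc φ Q b := by rw [← mul_assoc, hw, one_mul]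
    refine ⟨w * toLoc φ Q b, ?_, ?_⟩
    · have h3 := mem_maximalIdeal_of_mem φ Q hk h1
      rw [← isUnit_mul_mem_iff _ hsu, mul_sub, hβ, ← map_mul, ← map_sub]
      exact h3
    · rw [Ideal.mem_comap, eval_toLoc, hsc, ← hβ, scaleRoots_eval_mul,
        isUnit_mul_mem_iff _ (hsu.pow _)] at h2
      exact h2
  · rintro ⟨β, h1, h2⟩
    obtain ⟨b, s, hs, h3⟩ := exists_repr φ Q β
    have hsu := isUnit_toLoc φ Q hk hs
    refine ⟨b, s, hs, ?_, ?_⟩
    · refine mem_of_mem_maximalIdeal φ Q hk ?_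
      rw [map_sub, map_mul, ← h3, mul_comm β, ← mul_sub]
      exact Ideal.mul_mem_left _ _ h1
    · rw [Ideal.mem_comap, eval_toLoc, hsc, ← h3, mul_comm β, scaleRoots_eval_mul]
      exact Ideal.mul_mem_left _ _ h2

theorem comap_bot [hQ : Q.IsPrime] :
    (⊥ : Ideal (locRing φ Q)).comap (toLoc φ Q) = RingHom.ker φ := by
  ext c
  rw [Ideal.mem_comap, RingHom.mem_ker]
  change toLoc φ Q c = 0 ↔ _
  exact ⟨fun h => congrArg Subtype.val h, fun h => Subtype.ext h⟩

/-- Primes avoiding an element. -/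
theorem nonG (hφ : IsFrac φ) [hQ : Q.IsPrime] (hk : RingHom.ker φ ≤ Q)
    (h : ∀ x, x ∉ RingHom.ker φ →
      ∃ P : Ideal C, P.IsPrime ∧ RingHom.ker φ < P ∧ P ≤ Q ∧ x ∉ P) :
    ∀ y : locRing φ Q, y ≠ 0 → ∃ P : Ideal (locRing φ Q), P.IsPrime ∧ P ≠ ⊥ ∧ y ∉ P := by
  intro y hy
  obtain ⟨B, hB, -, -, -, -, -, -, h2⟩ := specLOC C F φ hφ Q hQ hk
  obtain rfl : B = locRing φ Q := by
    ext y
    exact hB y
  obtain ⟨x, s, hs, hx⟩ := exists_repr φ Q y
  have hsu := isUnit_toLoc φ Q hk hs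
  have hx0 : x ∉ RingHom.ker φ := by
    intro h0
    have h1 : toLoc φ Q x = 0 := Subtype.ext h0
    rw [h1] at hx
    exact hy ((hsu.mul_left_eq_zero).1 hx)
  obtain ⟨P', hP', hlt, hle, hxP⟩ := h x hx0
  obtain ⟨P, hP, hbot, -, h4⟩ := h2 P' hP' hlt.le hle
  refine ⟨P, hP, fun h => hlt.ne (hbot.1 h).symm, fun hyP => hxP ?_⟩
  rw [← h4 (toLoc φ Q x) x rfl, ← hx]
  exact P.mul_mem_right _ hyP

theorem rootMod_of (hφ : IsFrac φ) [hQ : Q.IsPrime] (hk : RingHom.ker φ ≤ Q)
    [IsLocalRing (locRing φ Q)] (g : C[X]) (hg : g.Monic) (a : C)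
    (h : ∀ P : Ideal C, P.IsPrime → RingHom.ker φ < P → P ≤ Q → RootMod g a P Q) :
    ∀ P : Ideal (locRing φ Q), P.IsPrime → P ≠ ⊥ → ∃ b : locRing φ Q,
      b - toLoc φ Q a ∈ maximalIdeal (locRing φ Q) ∧ (g.map (toLoc φ Q)).eval b ∈ P := by
  intro P hP hP0
  rw [← rootMod_iff φ Q hk P g hg a]
  refine h _ (hP.comap _) ?_ ?_
  · rw [← comap_bot φ Q]
    refine lt_of_le_of_ne (Ideal.comap_mono bot_le) fun he => hP0 ?_
    rw [eq_bot_iff]
    intro y hy
    obtain ⟨x, s, hs, hx⟩ := exists_repr φ Q y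
    have hsu := isUnit_toLoc φ Q hk hs
    have h1 : x ∈ P.comap (toLoc φ Q) := by
      rw [Ideal.mem_comap, ← hx]
      exact P.mul_mem_right _ hy
    rw [← he, Ideal.mem_comap, ← hx] at h1
    exact (hsu.mul_left_eq_zero).1 h1
  · intro c hc
    by_contra hcQ
    exact hP.ne_top (P.eq_top_of_isUnit_mem hc (isUnit_toLoc φ Q hk hcQ))

theorem simple_loc [hQ : Q.IsPrime] (hk : RingHom.ker φ ≤ Q)
    [IsLocalRing (locRing φ Q)] (g : C[X]) (a : C) (h : SimpleAt g a Q) :
    (g.map (toLoc φ Q)).eval (toLoc φ Q a) ∈ maximalIdeal (locRing φ Q) ∧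
      IsUnit ((g.map (toLoc φ Q)).derivative.eval (toLoc φ Q a)) := by
  constructor
  · rw [← eval_toLoc]
    exact mem_maximalIdeal_of_mem φ Q hk h.1
  · rw [derivative_map, ← eval_toLoc]
    exact isUnit_toLoc φ Q hk h.2

end Pool.Agent.Lib.MP958bd4.SPLM

namespace Pool.Agent.Lib.MP958bd4

open Polynomial Topology Filter IsLocalRing LOCM SCALEM SPLM

theorem specSPL (h0 : SpecSPLl.{u}) : SpecSPL.{u} := by
  intro C F _ _ φ hφ N hN hUC Q hQ hk hnonG g a hg hs hroot hfac
  have hloc : IsLocalRing (locRing φ Q) := isLocal φ Q hk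
  have hfrac : IsFractionRing (locRing φ Q) F := isFrac φ Q hφ
  rw [← comap_bot φ Q, rootMod_iff φ Q hk ⊥ g hg a]
  obtain ⟨hs1, hs2⟩ := simple_loc φ Q hk g a hs
  refine h0 (locRing φ Q) F N hN (uc φ Q hk hUC) (nonG φ Q hφ hk hnonG) (g.map (toLoc φ Q))
    (toLoc φ Q a) (hg.map _) hs1 hs2 (rootMod_of φ Q hφ hk g hg a hroot) ?_
  intro k hk1 hk2 hk3
  refine hfac k hk1 hk2 ?_
  rw [Polynomial.map_map] at hk3
  exact hk3

end Pool.Agent.Lib.MP958bd4
end

section
/-!
# MP_958bd4_lc: [BDD] from the local form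
-/
set_option autoImplicit false

universe u

namespace Pool.Agent.Lib.MP958bd4

open Polynomial Topology Filter IsLocalRing LOCM SCALEM SPLM

theorem specBDD (h0 : SpecBDDl.{u}) : SpecBDD.{u} := by
  intro C F _ _ φ hφ N hN hUC Q hQ hk hnonG _ _ hT hB g a hg hs hroot
  have hloc : IsLocalRing (locRing φ Q) := isLocal φ Q hk
  have hfrac : IsFractionRing (locRing φ Q) F := isFrac φ Q hφ
  rw [← comap_bot φ Q, rootMod_iff φ Q hk ⊥ g hg a]
  obtain ⟨hs1, hs2⟩ := simple_loc φ Q hk g a hs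
  refine h0 (locRing φ Q) F N hN (uc φ Q hk hUC) (nonG φ Q hφ hk hnonG) hT ?_ (g.map (toLoc φ Q))
    (toLoc φ Q a) (hg.map _) hs1 hs2 (rootMod_of φ Q hφ hk g hg a hroot)
  have : Set.range (algebraMap (locRing φ Q) F) = locSet φ Q := by
    ext y
    constructor
    · rintro ⟨z, rfl⟩
      exact z.2
    · intro hy
      exact ⟨⟨y, hy⟩, rfl⟩
  rw [this]
  exact hB

end Pool.Agent.Lib.MP958bd4
end

section
/-!
# [NEW] Newton's method in a local ring
-/
set_option autoImplicit false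

universe u

namespace Pool.Agent.Lib.MP958bd4

open Polynomial IsLocalRing

namespace NEWM

variable {B : Type u} [CommRing B] [IsLocalRing B]

/-- A unit stays a unit under a change by an element of the maximal ideal. -/
theorem isUnit_of_sub_mem {x y : B} (hx : IsUnit x) (h : y - x ∈ maximalIdeal B) : IsUnit y := by
  by_contra hy
  have hy' : y ∈ maximalIdeal B := (mem_maximalIdeal y).2 hy
  have : x ∈ maximalIdeal B := by
    have := (maximalIdeal B).sub_mem hy' h
    rwa [sub_sub_cancel] at this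
  exact (mem_maximalIdeal x).1 this hx

theorem eval_sub_mem (g : B[X]) {a b : B} (h : b - a ∈ maximalIdeal B) :
    g.eval b - g.eval a ∈ maximalIdeal B :=
  (maximalIdeal B).mem_of_dvd (sub_dvd_eval_sub b a g) h

theorem isUnit_deriv (g : B[X]) {a b : B} (hu : IsUnit (g.derivative.eval a))
    (h : b - a ∈ maximalIdeal B) : IsUnit (g.derivative.eval b) :=
  isUnit_of_sub_mem hu (eval_sub_mem g.derivative h)

end NEWM

open NEWM in
theorem specNEW : SpecNEW.{u} := by
  intro B _ _ g b hb hu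
  have key : ∀ k : ℕ, ∃ b' : B, g.eval b ∣ b' - b ∧ g.eval b ^ (k + 1) ∣ g.eval b' ∧
      b' - b ∈ maximalIdeal B := by
    intro k
    induction k with
    | zero => exact ⟨b, by simp, by simp, by simp⟩
    | succ k ih =>
      obtain ⟨b', h1, h2, h3⟩ := ih
      obtain ⟨v, hv⟩ := (isUnit_deriv g hu h3)
      set y : B := -(g.eval b' * ((v⁻¹ : Bˣ) : B)) with hy
      obtain ⟨z, hz⟩ := g.binomExpansion b' y
      have h4 : g.eval (b' + y) = z * y ^ 2 := by
        rw [hz, ← hv, hy]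
        have : (v : B) * ((v⁻¹ : Bˣ) : B) = 1 := v.mul_inv
        linear_combination (-(g.eval b')) * this
      have h5 : g.eval b' ∣ y := ⟨-((v⁻¹ : Bˣ) : B), by rw [hy]; ring⟩
      have h6 : g.eval b ∣ g.eval b' := (dvd_pow_self _ (Nat.succ_ne_zero k)).trans h2
      refine ⟨b' + y, ?_, ?_, ?_⟩
      · have : b' + y - b = (b' - b) + y := by ring
        rw [this]
        exact dvd_add h1 (h6.trans h5)
      · rw [h4]
        have h7 : g.eval b ^ (k + 1) ∣ y := h2.trans h5
        have h8 : g.eval b ^ (k + 1 + 1) ∣ y ^ 2 := by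
          rw [pow_succ, sq]
          exact mul_dvd_mul h7 (h6.trans h5)
        exact h8.mul_left z
      · have : b' + y - b = (b' - b) + y := by ring
        rw [this]
        exact Ideal.add_mem _ h3 ((maximalIdeal B).mem_of_dvd (h6.trans h5) hb)
  intro k
  obtain ⟨b', h1, h2, h3⟩ := key k
  refine ⟨b', h1, (pow_dvd_pow _ (Nat.le_succ k)).trans h2, isUnit_deriv g hu h3, h3, ?_⟩
  exact (maximalIdeal B).mem_of_dvd ((dvd_pow_self _ (Nat.succ_ne_zero k)).trans h2) hb

end Pool.Agent.Lib.MP958bd4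
end

section
/-!
# [SPLl] splitting: a root over a local domain, local form
-/
set_option autoImplicit false
set_option linter.unusedSectionVars false

universe u

namespace Pool.Agent.Lib.MP958bd4

open Polynomial IsLocalRing

namespace SPLlM

section Loc

variable {B F : Type u} [CommRing B] [IsDomain B] [Field F] [Algebra B F] [IsFractionRing B F]

theorem inj (B F : Type u) [CommRing B] [IsDomain B] [Field F] [Algebra B F]
    [IsFractionRing B F] : Function.Injective (algebraMap B F) := IsFractionRing.injective B F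

theorem ne_zero {P : Ideal B} {s : B} (hs : s ∉ P) : algebraMap B F s ≠ 0 := by
  intro h
  rw [map_eq_zero_iff _ (inj B F)] at h
  exact hs (h ▸ P.zero_mem)

/-- The local ring at the prime `P` as a subring of `F`. -/
def Lr (F : Type u) [Field F] [Algebra B F] [IsFractionRing B F] (P : Ideal B) [hP : P.IsPrime] :
    Subring F where
  carrier := locSet (algebraMap B F) P
  one_mem' := ⟨1, 1, fun h => hP.ne_top ((Ideal.eq_top_iff_one P).2 h), by simp⟩
  zero_mem' := ⟨0, 1, fun h => hP.ne_top ((Ideal.eq_top_iff_one P).2 h), by simp⟩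
  mul_mem' := by
    rintro x y ⟨a, s, hs, hx⟩ ⟨b, t, ht, hy⟩
    refine ⟨a * b, s * t, fun h => (hP.mem_or_mem h).elim hs ht, ?_⟩
    rw [map_mul, map_mul, ← hx, ← hy]
    ring
  add_mem' := by
    rintro x y ⟨a, s, hs, hx⟩ ⟨b, t, ht, hy⟩
    refine ⟨a * t + b * s, s * t, fun h => (hP.mem_or_mem h).elim hs ht, ?_⟩
    rw [map_mul, map_add, map_mul, map_mul, ← hx, ← hy]
    ring
  neg_mem' := by
    rintro x ⟨a, s, hs, hx⟩
    exact ⟨-a, s, hs, by rw [map_neg, ← hx]; ring⟩

variable (P : Ideal B) [hP : P.IsPrime]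

theorem mem_Lr {x : F} : x ∈ Lr F P ↔ ∃ a s : B, s ∉ P ∧ x * algebraMap B F s = algebraMap B F a :=
  Iff.rfl

theorem map_mem_Lr (c : B) : algebraMap B F c ∈ Lr F P :=
  ⟨c, 1, fun h => hP.ne_top ((Ideal.eq_top_iff_one P).2 h), by simp⟩

theorem mul_mem_locMax {x y : F} (hx : x ∈ Lr F P) (hy : y ∈ locMax (algebraMap B F) P) :
    x * y ∈ locMax (algebraMap B F) P := by
  obtain ⟨a, s, hs, hx⟩ := hx
  obtain ⟨b, t, hb, ht, hy⟩ := hy
  refine ⟨a * b, s * t, P.mul_mem_left a hb, fun h => (hP.mem_or_mem h).elim hs ht, ?_⟩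
  rw [map_mul, map_mul, ← hx, ← hy]
  ring

theorem mem_of_map_mem {c : B} (hc : algebraMap B F c ∈ locMax (algebraMap B F) P) : c ∈ P := by
  obtain ⟨a, s, ha, hs, h⟩ := hc
  rw [← map_mul] at h
  have := inj B F h
  rw [← this] at ha
  exact (hP.mem_or_mem ha).resolve_right hs

theorem prime_locMax {x y : F} (hx : x ∈ Lr F P) (hy : y ∈ Lr F P)
    (hxy : x * y ∈ locMax (algebraMap B F) P) :
    x ∈ locMax (algebraMap B F) P ∨ y ∈ locMax (algebraMap B F) P := by
  obtain ⟨a, s, hs, hx⟩ := hx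
  obtain ⟨b, t, ht, hy⟩ := hy
  obtain ⟨c, u, hc, hu, h⟩ := hxy
  have h1 : a * b * u = c * s * t := by
    apply inj B F
    rw [map_mul, map_mul, map_mul, map_mul, ← hx, ← hy, ← h]
    ring
  have h2 : a * b * u ∈ P := by
    rw [h1]
    exact P.mul_mem_right t (P.mul_mem_right s hc)
  rcases hP.mem_or_mem ((hP.mem_or_mem h2).resolve_right hu) with h3 | h3
  · exact Or.inl ⟨a, s, h3, hs, hx⟩
  · exact Or.inr ⟨b, t, h3, ht, hy⟩

theorem one_notMem_locMax : (1 : F) ∉ locMax (algebraMap B F) P := by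
  intro h
  have h1 : algebraMap B F 1 ∈ locMax (algebraMap B F) P := by rwa [map_one]
  exact hP.ne_top ((Ideal.eq_top_iff_one P).2 (mem_of_map_mem P h1))

theorem exists_mem_locMax (s : Multiset F) (h : ∀ x ∈ s, x ∈ Lr F P)
    (hs : s.prod ∈ locMax (algebraMap B F) P) : ∃ x ∈ s, x ∈ locMax (algebraMap B F) P := by
  induction s using Multiset.induction_on with
  | empty =>
    rw [Multiset.prod_zero] at hs
    exact absurd hs (one_notMem_locMax P)
  | cons a s ih =>
    rw [Multiset.prod_cons] at hs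
    have h1 : s.prod ∈ Lr F P :=
      (Lr F P).multiset_prod_mem s fun x hx => h x (Multiset.mem_cons_of_mem hx)
    rcases prime_locMax P (h a (Multiset.mem_cons_self a s)) h1 hs with h2 | h2
    · exact ⟨a, Multiset.mem_cons_self a s, h2⟩
    · obtain ⟨x, hx, hx'⟩ := ih (fun x hx => h x (Multiset.mem_cons_of_mem hx)) h2
      exact ⟨x, Multiset.mem_cons_of_mem hx, hx'⟩

/-- Polynomials with coefficients in the local ring. -/
def PL (p : F[X]) : Prop := ∀ n, p.coeff n ∈ Lr F P

theorem PL_mul {p q : F[X]} (hp : PL P p) (hq : PL P q) : PL P (p * q) := by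
  intro n
  rw [coeff_mul]
  exact (Lr F P).sum_mem fun x _ => (Lr F P).mul_mem (hp _) (hq _)

theorem PL_one : PL P (1 : F[X]) := by
  intro n
  rw [coeff_one]
  split_ifs
  · exact (Lr F P).one_mem
  · exact (Lr F P).zero_mem

theorem PL_prod (s : Multiset F[X]) (h : ∀ p ∈ s, PL P p) : PL P s.prod := by
  induction s using Multiset.induction_on with
  | empty => simpa using PL_one P
  | cons a s ih =>
    rw [Multiset.prod_cons]
    exact PL_mul P (h a (Multiset.mem_cons_self a s))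
      (ih fun x hx => h x (Multiset.mem_cons_of_mem hx))

theorem PL_derivative {p : F[X]} (hp : PL P p) : PL P p.derivative := by
  intro n
  rw [coeff_derivative]
  refine (Lr F P).mul_mem (hp _) ((Lr F P).add_mem ?_ (Lr F P).one_mem)
  exact natCast_mem (Lr F P) n

theorem eval_mem {p : F[X]} (hp : PL P p) {x : F} (hx : x ∈ Lr F P) : p.eval x ∈ Lr F P := by
  rw [eval_eq_sum_range]
  exact (Lr F P).sum_mem fun i _ => (Lr F P).mul_mem (hp i) ((Lr F P).pow_mem hx i)

end Loc

section Local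

variable {B F : Type u} [CommRing B] [IsDomain B] [IsLocalRing B] [Field F] [Algebra B F]
  [IsFractionRing B F]

/-- Elements of `P B_P` have a power in the maximal ideal. -/
theorem pow_mem {N : ℕ} (hUC : UC N B) (P : Ideal B) [hP : P.IsPrime] {y : F}
    (hy : y ∈ locMax (algebraMap B F) P) :
    ∃ (n : ℕ) (u : B), u ∈ maximalIdeal B ∧ y ^ n = algebraMap B F u := by
  obtain ⟨p, s, hp, hs, h⟩ := hy
  by_cases hPm : P = maximalIdeal B
  · have hsu : IsUnit s := by
      by_contra hns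
      exact hs (hPm ▸ (mem_maximalIdeal s).2 hns)
    obtain ⟨v, hv⟩ := hsu
    refine ⟨1, p * ((v⁻¹ : Bˣ) : B), (maximalIdeal B).mul_mem_right _ (hPm ▸ hp), ?_⟩
    rw [pow_one, map_mul, ← h, mul_assoc, ← map_mul, ← hv, Units.mul_inv, map_one, mul_one]
  · have hlt : P < maximalIdeal B := lt_of_le_of_ne (le_maximalIdeal hP.ne_top) hPm
    obtain ⟨t, ht, htP⟩ := SetLike.exists_of_lt hlt
    have h1 : s ^ N * t ∉ P := by
      intro h2
      rcases hP.mem_or_mem h2 with h3 | h3
      · exact hs (hP.mem_of_pow_mem N h3)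
      · exact htP h3
    rcases hUC p (s ^ N * t) with ⟨z, hz⟩ | h2
    · refine ⟨N, t * z, (maximalIdeal B).mul_mem_right z ht, ?_⟩
      have hs0 : algebraMap B F s ^ N ≠ 0 := pow_ne_zero N (ne_zero hs)
      have h3 : y ^ N * algebraMap B F s ^ N = algebraMap B F (t * z) * algebraMap B F s ^ N := by
        rw [← mul_pow, h, ← map_pow, hz, ← map_pow, ← map_mul]
        congr 1
        ring
      exact mul_right_cancel₀ hs0 h3
    · exfalso
      exact h1 (hP.mem_of_pow_mem N (P.mem_of_dvd h2 hp))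

/-- evaluation at elements of `B` -/
theorem aeval_map (g : B[X]) (b : B) :
    (g.map (algebraMap B F)).eval (algebraMap B F b) = algebraMap B F (g.eval b) := by
  rw [eval_map, eval₂_at_apply]

theorem common_denom (T : Finset F) :
    ∃ d : B, d ≠ 0 ∧ ∀ x ∈ T, ∃ a : B, x * algebraMap B F d = algebraMap B F a := by
  obtain ⟨d, hd⟩ := IsLocalization.exist_integer_multiples_of_finset (nonZeroDivisors B) T
  refine ⟨d, nonZeroDivisors.ne_zero d.2, fun x hx => ?_⟩
  obtain ⟨a, ha⟩ := hd x hx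
  refine ⟨a, ?_⟩
  rw [ha, Algebra.smul_def, mul_comm]

end Local

end SPLlM

open SPLlM in
theorem specSPLl (hNAK : SpecNAK.{u}) : SpecSPLl.{u} := by
  classical
  intro B F _ _ _ _ _ _ N hN hUC hnonG g a hg hga hu hP hk
  set G : F[X] := g.map (algebraMap B F) with hG
  have hGm : G.Monic := hg.map _
  have hG0 : G ≠ 0 := hGm.ne_zero
  set Φ := UniqueFactorizationMonoid.normalizedFactors G with hΦ
  have hprod : Φ.prod = G := by
    rw [hΦ, UniqueFactorizationMonoid.prod_normalizedFactors_eq hG0, hGm.normalize_eq_self]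
  -- common denominator
  set T : Finset F := Φ.toFinset.biUnion fun k => k.support.image k.coeff with hT
  obtain ⟨d, hd0, hd⟩ := common_denom (B := B) T
  obtain ⟨P, hPp, hP0, hdP⟩ := hnonG d hd0
  have hPL : ∀ k ∈ Φ, PL P k := by
    intro k hk n
    by_cases hn : k.coeff n = 0
    · rw [hn]
      exact (Lr F P).zero_mem
    · have h1 : k.coeff n ∈ T := by
        rw [hT, Finset.mem_biUnion]
        refine ⟨k, Multiset.mem_toFinset.2 hk, ?_⟩
        rw [Finset.mem_image]
        exact ⟨n, mem_support_iff.2 hn, rfl⟩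
      obtain ⟨c, hc⟩ := hd _ h1
      exact ⟨c, d, hdP, hc⟩
  obtain ⟨b, hba, hgb⟩ := hP P hPp hP0
  have hPm : P ≤ maximalIdeal B := le_maximalIdeal hPp.ne_top
  set β : F := algebraMap B F b with hβ
  have hGb : G.eval β ∈ locMax (algebraMap B F) P := by
    rw [hG, hβ, aeval_map]
    exact ⟨g.eval b, 1, hgb, fun h => hPp.ne_top ((Ideal.eq_top_iff_one P).2 h), by simp⟩
  have hex : ∃ k ∈ Φ, k.eval β ∈ locMax (algebraMap B F) P := by
    have h1 : (Φ.map (eval β)).prod ∈ locMax (algebraMap B F) P := by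
      rw [← eval_multiset_prod, hprod]
      exact hGb
    obtain ⟨x, hx, hx'⟩ := exists_mem_locMax P (Φ.map (eval β)) (by
      intro x hx
      obtain ⟨k, hk, rfl⟩ := Multiset.mem_map.1 hx
      exact eval_mem P (hPL k hk) (map_mem_Lr P b)) h1
    obtain ⟨k, hk, rfl⟩ := Multiset.mem_map.1 hx
    exact ⟨k, hk, hx'⟩
  obtain ⟨k, hkΦ, hkβ⟩ := hex
  have hkirr : Irreducible k := UniqueFactorizationMonoid.irreducible_of_normalized_factor k hkΦ
  have hkmon : k.Monic := by
    have h1 := UniqueFactorizationMonoid.normalize_normalized_factor k hkΦ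
    rw [← h1]
    exact monic_normalize hkirr.ne_zero
  have hkG : k * (Φ.erase k).prod = G := by
    rw [← hprod, Multiset.prod_erase hkΦ]
  set h : F[X] := (Φ.erase k).prod with hh
  have hhPL : PL P h := PL_prod P _ fun p hp => hPL p (Multiset.mem_of_mem_erase hp)
  have hub : IsUnit (g.derivative.eval b) := NEWM.isUnit_deriv g hu hba
  rcases hk k hkmon hkirr ⟨h, hkG.symm⟩ with hdeg | hder
  · -- linear factor
    have hkX : k = X + C (k.coeff 0) := hkmon.eq_X_add_C hdeg
    set α : F := -(k.coeff 0) with hα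
    have hkα : k.eval α = 0 := by
      rw [hkX]
      simp [hα]
    have hαG : G.eval α = 0 := by
      rw [← hkG, eval_mul, hkα, zero_mul]
    have hαg : aeval α g = 0 := by
      rw [aeval_def, ← eval_map]
      exact hαG
    have hd1 : α - β ∈ locMax (algebraMap B F) P := by
      have h1 : α - β = -(k.eval β) := by
        rw [hkX]
        simp [hα]
        ring
      rw [h1]
      have h2 := mul_mem_locMax P (x := (-1 : F)) ((Lr F P).neg_mem (Lr F P).one_mem) hkβ
      simpa using h2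
    obtain ⟨n, u, hum, hun⟩ := SPLlM.pow_mem hUC P hd1
    obtain ⟨c, hc, hcb⟩ := hNAK B F g b α n u hg (hPm hgb) hub hαg hum hun
    refine ⟨c, ?_, ?_⟩
    · have : c - a = (c - b) + (b - a) := by ring
      rw [this]
      exact Ideal.add_mem _ hcb hba
    · apply inj B F
      rw [← aeval_map, hc, map_zero]
      exact hαG
  · -- inseparable factor
    exfalso
    have h1 : G.derivative = k * h.derivative := by
      rw [← hkG, derivative_mul, hder]
      ring
    have h2 : algebraMap B F (g.derivative.eval b) ∈ locMax (algebraMap B F) P := by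
      rw [← aeval_map, ← derivative_map]
      change eval β G.derivative ∈ _
      rw [h1, eval_mul, mul_comm]
      exact mul_mem_locMax P (eval_mem P (PL_derivative P hhPL) (map_mem_Lr P b)) hkβ
    have h3 := hPm (mem_of_map_mem P h2)
    exact (mem_maximalIdeal _).1 h3 hub

end Pool.Agent.Lib.MP958bd4
end

section
/-!
# [BDDl] bounded local domains: a root, local form
-/
set_option autoImplicit false
set_option linter.unusedSectionVars false

universe u

namespace Pool.Agent.Lib.MP958bd4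

open Polynomial IsLocalRing Topology Filter

namespace BDDlM

open SPLlM

theorem hasseDeriv_map {R S : Type u} [CommRing R] [CommRing S] (f : R →+* S) (k : ℕ) (p : R[X]) :
    hasseDeriv k (p.map f) = (hasseDeriv k p).map f := by
  ext n
  simp [hasseDeriv_coeff]

section

variable {B F : Type u} [CommRing B] [IsDomain B] [IsLocalRing B] [Field F] [Algebra B F]
  [IsFractionRing B F]

/-- [CONG] approximate roots modulo every nonzero element. -/
theorem cong {N : ℕ} (hUC : UC N B)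
    (hnonG : ∀ x : B, x ≠ 0 → ∃ P : Ideal B, P.IsPrime ∧ P ≠ ⊥ ∧ x ∉ P)
    {g : B[X]} {a : B} (hu : IsUnit (g.derivative.eval a))
    (hP : ∀ P : Ideal B, P.IsPrime → P ≠ ⊥ → ∃ b : B, b - a ∈ maximalIdeal B ∧ g.eval b ∈ P)
    {c : B} (hc : c ≠ 0) :
    ∃ b : B, b - a ∈ maximalIdeal B ∧ c ∣ g.eval b ∧ IsUnit (g.derivative.eval b) := by
  obtain ⟨P, hPp, hP0, hcP⟩ := hnonG c hc
  obtain ⟨b, hba, hgb⟩ := hP P hPp hP0
  have h1 : c ∣ g.eval b ^ N := by
    rcases hUC (g.eval b) c with h | h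
    · exact h
    · exact absurd (hPp.mem_of_pow_mem N (P.mem_of_dvd h hgb)) hcP
  obtain ⟨b', _, h3, h4, h5, _⟩ := specNEW B g b (le_maximalIdeal hPp.ne_top hgb)
    (NEWM.isUnit_deriv g hu hba) N
  refine ⟨b', ?_, h1.trans h3, h4⟩
  have : b' - a = (b' - b) + (b - a) := by ring
  rw [this]
  exact Ideal.add_mem _ h5 hba

/-- The algebraic part: a root `α` of `g` close to `b` in the sense that `α - b` is not a unit of
`B[α]`. -/
theorem alg (hNAK : SpecNAK.{u}) {N : ℕ} (hUC : UC N B)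
    (hnonG : ∀ x : B, x ≠ 0 → ∃ P : Ideal B, P.IsPrime ∧ P ≠ ⊥ ∧ x ∉ P)
    {g : B[X]} (hg : g.Monic) {a : B} (hu : IsUnit (g.derivative.eval a))
    (hP : ∀ P : Ideal B, P.IsPrime → P ≠ ⊥ → ∃ b : B, b - a ∈ maximalIdeal B ∧ g.eval b ∈ P)
    {b : B} (hba : b - a ∈ maximalIdeal B) {α : F} (hα : aeval α g = 0)
    (hnu : ∀ p : B[X], aeval α p * (α - algebraMap B F b) ≠ 1) :
    ∃ c : B, c - a ∈ maximalIdeal B ∧ g.eval c = 0 := by
  set φ := algebraMap B F with hφ
  have hint : IsIntegral B α := ⟨g, hg, by rw [← aeval_def]; exact hα⟩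
  set A : Subalgebra B F := Algebra.adjoin B {α} with hA
  have : Algebra.IsIntegral B A := Algebra.IsIntegral.adjoin (by
    intro x hx
    rw [Set.mem_singleton_iff] at hx
    rw [hx]
    exact hint)
  have hαA : α ∈ A := Algebra.self_mem_adjoin_singleton B α
  set αA : A := ⟨α, hαA⟩ with hαAdef
  set ψ := algebraMap B A with hψ
  have hψφ : ∀ c : B, ((ψ c : A) : F) = φ c := fun c => rfl
  have hnonunit : αA - ψ b ∈ nonunits A := by
    intro hun
    obtain ⟨w, hw⟩ := hun.exists_left_inv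
    have h1 : (w : F) * (α - φ b) = 1 := by
      have := congrArg (Subtype.val) hw
      exact this
    have h2 : (w : F) ∈ Algebra.adjoin B {α} := w.2
    rw [Algebra.adjoin_singleton_eq_range_aeval] at h2
    obtain ⟨p, hp⟩ := h2
    refine hnu p ?_
    change (aeval α).toRingHom p * _ = 1
    have h3 : (aeval α).toRingHom p = (w : F) := hp
    rw [h3]
    exact h1
  obtain ⟨M, hM, hbM⟩ := exists_max_ideal_of_mem_nonunits hnonunit
  have hMc : (M.comap ψ).IsMaximal := Ideal.isMaximal_comap_of_isIntegral_of_isMaximal M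
  have hMm : M.comap ψ = maximalIdeal B := eq_maximalIdeal hMc
  have hmM : ∀ c ∈ maximalIdeal B, ψ c ∈ M := by
    intro c hc
    rw [← hMm] at hc
    exact hc
  have hαa : αA - ψ a ∈ M := by
    have : αA - ψ a = (αA - ψ b) + ψ (b - a) := by rw [map_sub]; ring
    rw [this]
    exact M.add_mem hbM (hmM _ hba)
  -- the denominator of `α`
  obtain ⟨d, hd0, hd⟩ := common_denom (B := B) ({α} : Finset F)
  obtain ⟨p0, hp0⟩ := hd α (Finset.mem_singleton_self α)
  obtain ⟨P, hPp, hP0, hdP⟩ := hnonG d hd0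
  have hPm : P ≤ maximalIdeal B := le_maximalIdeal hPp.ne_top
  obtain ⟨b2, hb2a, hgb2⟩ := hP P hPp hP0
  have hαP : α ∈ Lr F P := ⟨p0, d, hdP, hp0⟩
  have hAP : ∀ x : A, (x : F) ∈ Lr F P := by
    rintro ⟨x, hx⟩
    have hx' := hx
    rw [hA, Algebra.adjoin_singleton_eq_range_aeval] at hx'
    obtain ⟨p, hp⟩ := hx'
    have h1 : x = (p.map φ).eval α := by
      rw [← hp, eval_map, ← aeval_def]
      rfl
    change x ∈ Lr F P
    rw [h1]
    refine eval_mem P ?_ hαP
    intro n
    rw [coeff_map]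
    exact map_mem_Lr P _
  -- the factor `h`
  set gA : A[X] := g.map ψ with hgA
  have hgAα : gA.eval αA = 0 := by
    apply Subtype.val_injective
    have h1 : ((gA.eval αA : A) : F) = aeval α g := by
      rw [hgA, eval_map, ← aeval_def]
      have := (A.val).congr_arg (rfl : aeval αA g = aeval αA g)
      change A.val (aeval αA g) = _
      rw [← aeval_algHom_apply]
      rfl
    rw [h1, hα]
    rfl
  obtain ⟨h, hh⟩ := (dvd_iff_isRoot (p := gA) (a := αA)).2 hgAα
  have hder : gA.derivative.eval αA = h.eval αA := by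
    rw [hh]
    simp
  have h3 : gA.derivative.eval (ψ a) = ψ (g.derivative.eval a) := by
    rw [hgA, derivative_map, eval_map, eval₂_at_apply]
  have hβα : ψ b2 - αA ∈ M := by
    have : ψ b2 - αA = ψ (b2 - a) - (αA - ψ a) := by rw [map_sub]; ring
    rw [this]
    exact M.sub_mem (hmM _ hb2a) hαa
  have h4 : h.eval (ψ b2) ∉ M := by
    intro hmem
    have h5 : h.eval (ψ b2) - h.eval αA ∈ M := M.mem_of_dvd (sub_dvd_eval_sub _ _ h) hβα
    have h6 : gA.derivative.eval αA - gA.derivative.eval (ψ a) ∈ M :=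
      M.mem_of_dvd (sub_dvd_eval_sub _ _ _) hαa
    have h7 : ψ (g.derivative.eval a) ∈ M := by
      have : ψ (g.derivative.eval a) = h.eval (ψ b2) - (h.eval (ψ b2) - h.eval αA) -
          (gA.derivative.eval αA - gA.derivative.eval (ψ a)) := by
        rw [hder, h3]
        ring
      rw [this]
      exact M.sub_mem (M.sub_mem hmem h5) h6
    exact hM.ne_top (M.eq_top_of_isUnit_mem h7 (hu.map ψ))
  have h8 : ((h.eval (ψ b2) : A) : F) ∉ locMax φ P := by
    intro hmem
    obtain ⟨n, u, hum, hun⟩ := SPLlM.pow_mem hUC P hmem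
    have h9 : (h.eval (ψ b2)) ^ n = ψ u := by
      apply Subtype.val_injective
      change ((h.eval (ψ b2) : A) : F) ^ n = φ u
      exact hun
    exact h4 (hM.isPrime.mem_of_pow_mem n (h9 ▸ hmM u hum))
  have h10 : (φ b2 - α) * ((h.eval (ψ b2) : A) : F) ∈ locMax φ P := by
    have h11 : (ψ b2 - αA) * h.eval (ψ b2) = ψ (g.eval b2) := by
      have : gA.eval (ψ b2) = ψ (g.eval b2) := by
        rw [hgA, eval_map, eval₂_at_apply]
      rw [← this, hh]
      simp
    have h12 := congrArg (Subtype.val) h11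
    have h13 : (φ b2 - α) * ((h.eval (ψ b2) : A) : F) = φ (g.eval b2) := h12
    rw [h13]
    exact ⟨g.eval b2, 1, hgb2, fun h => hPp.ne_top ((Ideal.eq_top_iff_one P).2 h), by simp⟩
  have h14 : φ b2 - α ∈ locMax φ P :=
    (prime_locMax P ((Lr F P).sub_mem (map_mem_Lr P b2) hαP) (hAP _) h10).resolve_right h8
  have h15 : α - φ b2 ∈ locMax φ P := by
    have := mul_mem_locMax P (x := (-1 : F)) ((Lr F P).neg_mem (Lr F P).one_mem) h14
    have h16 : (-1 : F) * (φ b2 - α) = α - φ b2 := by ring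
    rwa [h16] at this
  obtain ⟨n, u, hum, hun⟩ := SPLlM.pow_mem hUC P h15
  obtain ⟨c, hc, hcb⟩ := hNAK B F g b2 α n u hg (hPm hgb2) (NEWM.isUnit_deriv g hu hb2a) hα hum hun
  refine ⟨c, ?_, ?_⟩
  · have : c - a = (c - b2) + (b2 - a) := by ring
    rw [this]
    exact Ideal.add_mem _ hcb hb2a
  · apply inj B F
    rw [← aeval_map, hc, map_zero, eval_map, ← aeval_def]
    exact hα

end

end BDDlM

open SPLlM BDDlM in
theorem specBDDl (hNAK : SpecNAK.{u}) (hTAY : SpecTAY.{u}) (hBND : SpecBND.{u}) :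
    SpecBDDl.{u} := by
  classical
  intro B F _ _ _ _ _ _ N hN hUC hnonG _ _ hTH hBd g a hg hga hu hP
  set φ := algebraMap B F with hφ
  obtain ⟨hB1, hB2, hB3, hB4, hB5, hB6, hB7⟩ := hBND F
  set G : F[X] := g.map φ with hG
  have hGm : G.Monic := hg.map _
  have hG0 : G ≠ 0 := hGm.ne_zero
  -- boundedness of `B[α]`
  have hbd : ∀ α : F, aeval α g = 0 → Bdd {z : F | ∃ p : B[X], z = aeval α p} := by
    intro α hα
    have hK : Bdd (Set.range φ ∪ {α}) := hB2 _ _ hBd (hB3 _ (Set.finite_singleton α))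
    refine hB1 _ _ ?_ (hB6 _ g.natDegree hK)
    rintro z ⟨p, rfl⟩
    refine ⟨(p %ₘ g).map φ, ?_, ?_, α, Or.inr rfl, ?_⟩
    · refine natDegree_map_le.trans ?_
      exact natDegree_modByMonic_le p hg
    · intro i
      rw [coeff_map]
      exact Or.inl ⟨_, rfl⟩
    · rw [eval_map, ← aeval_def]
      have h1 := congrArg (aeval α) (modByMonic_add_div p g)
      rw [map_add, map_mul, hα, zero_mul, add_zero] at h1
      exact h1.symm
  have h1V : ({1}ᶜ : Set F) ∈ 𝓝 (0 : F) := isOpen_compl_singleton.mem_nhds (by simp)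
  have hev : ∀ᶠ w in 𝓝 (0 : F), ∀ α ∈ G.roots.toFinset, ∀ p : B[X], aeval α p * w ≠ 1 := by
    rw [Filter.eventually_all_finset]
    intro α hα
    rw [Multiset.mem_toFinset, mem_roots hG0, IsRoot.def, hG, eval_map, ← aeval_def] at hα
    obtain ⟨W, hW, hW2⟩ := hB7 _ (hbd α hα) _ h1V
    filter_upwards [hW] with w hw p
    exact hW2 _ ⟨p, rfl⟩ w hw
  -- neighbourhoods
  have hmul : Tendsto (fun q : F × F => q.1 * q.2) (𝓝 (0 : F) ×ˢ 𝓝 (-1 : F)) (𝓝 0) := by
    have h1 : Tendsto (fun q : F × F => q.1 * q.2) (𝓝 ((0 : F), (-1 : F))) (𝓝 ((0 : F) * (-1))) :=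
      (continuous_mul.tendsto ((0 : F), (-1 : F)))
    rw [zero_mul, nhds_prod_eq] at h1
    exact h1
  obtain ⟨O, hO, V', hV', hOV⟩ := Filter.mem_prod_iff.1 (hmul hev)
  obtain ⟨W, hW, hTW⟩ := hTAY F hTH g.natDegree V' hV'
  obtain ⟨c0, hc0, hc0W⟩ := hBd (W ∩ O) (inter_mem hW hO)
  obtain ⟨d, hd0, hd⟩ := common_denom (B := B) ({c0} : Finset F)
  obtain ⟨c, hc⟩ := hd c0 (Finset.mem_singleton_self c0)
  have hφd : φ d ≠ 0 := by
    intro h
    rw [map_eq_zero_iff _ (inj B F)] at h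
    exact hd0 h
  have hc00 : c ≠ 0 := by
    rintro rfl
    rw [map_zero] at hc
    exact mul_ne_zero hc0 hφd hc
  have hcW : ∀ y : B, φ (c * y) ∈ W ∩ O := by
    intro y
    have : φ (c * y) = c0 * φ (d * y) := by
      rw [map_mul, map_mul, ← mul_assoc, ← hc]
    rw [this]
    exact hc0W _ ⟨_, rfl⟩
  obtain ⟨b, hba, ⟨y, hy⟩, hub⟩ := cong hUC hnonG hu hP hc00
  obtain ⟨v, hv⟩ := hub
  set β : F := φ b with hβ
  have hGβ : G.eval β = φ (g.eval b) := aeval_map g b
  have hG'β : G.derivative.eval β = φ (g.derivative.eval b) := by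
    rw [hG, derivative_map]
    exact aeval_map _ b
  have hinv : (G.derivative.eval β)⁻¹ = φ ((v⁻¹ : Bˣ) : B) := by
    rw [hG'β, ← hv]
    refine inv_eq_of_mul_eq_one_right ?_
    rw [← map_mul, Units.mul_inv, map_one]
  have hne : G.derivative.eval β ≠ 0 := by
    intro h0
    rw [h0, inv_zero] at hinv
    have h1 : ((v⁻¹ : Bˣ) : B) = 0 := by
      apply inj B F
      rw [← hinv, map_zero]
    exact (v⁻¹ : Bˣ).ne_zero h1
  obtain ⟨z, hz, hroot⟩ := hTW G β (by rw [hG]; exact natDegree_map_le) hne (by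
    intro k hk _
    rw [hinv, hGβ, hG, hasseDeriv_map, hβ, aeval_map]
    obtain ⟨j, rfl⟩ : ∃ j, k = j + 2 := ⟨k - 2, by omega⟩
    have h1 : φ ((hasseDeriv (j + 2) g).eval b) * φ (g.eval b) ^ (j + 2 - 1) *
        φ ((v⁻¹ : Bˣ) : B) ^ (j + 2) =
        φ (c * (y * g.eval b ^ j * (hasseDeriv (j + 2) g).eval b * ((v⁻¹ : Bˣ) : B) ^ (j + 2))) := by
      rw [← map_pow, ← map_pow, ← map_mul, ← map_mul]
      congr 1
      have : j + 2 - 1 = j + 1 := rfl
      rw [this, pow_succ]
      nth_rewrite 2 [hy]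
      ring
    rw [h1]
    exact (hcW _).1)
  set w : F := G.eval β * (G.derivative.eval β)⁻¹ * z with hw
  have hwO : G.eval β * (G.derivative.eval β)⁻¹ ∈ O := by
    rw [hinv, hGβ, ← map_mul, hy, mul_assoc]
    exact (hcW _).2
  have hwV : ∀ α ∈ G.roots.toFinset, ∀ p : B[X], aeval α p * w ≠ 1 := by
    have h1 : (G.eval β * (G.derivative.eval β)⁻¹, z) ∈ O ×ˢ V' := ⟨hwO, hz⟩
    exact hOV h1
  set α : F := β + w with hα
  have hαG : G.eval α = 0 := hroot
  have hαg : aeval α g = 0 := by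
    rw [aeval_def, ← eval_map]
    exact hαG
  refine alg hNAK hUC hnonG hg hu hP hba hαg ?_
  intro p
  have h1 : α - φ b = w := by rw [hα, ← hβ]; ring
  rw [h1]
  refine hwV α ?_ p
  rw [Multiset.mem_toFinset, mem_roots hG0]
  exact hαG

end Pool.Agent.Lib.MP958bd4
end

section
set_option autoImplicit false
universe u
namespace Pool.Agent.Lib.MP958bd4

open Polynomial IsLocalRing

namespace STEPM

theorem isFrac_residue {C : Type u} [CommRing C] (n : Ideal C) [n.IsPrime] :
    IsFrac (algebraMap C n.ResidueField) := by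
  intro y
  obtain ⟨x, s, rfl⟩ := IsLocalization.exists_mk'_eq (nonZeroDivisors (C ⧸ n)) y
  obtain ⟨a, ha⟩ := Ideal.Quotient.mk_surjective x
  obtain ⟨t, ht⟩ := Ideal.Quotient.mk_surjective s.1
  refine ⟨a, t, ?_, ?_⟩
  · rw [← Ideal.algebraMap_quotient_residueField_mk, ht]
    intro h
    have h0 : s.1 = 0 := Ideal.injective_algebraMap_quotient_residueField n (by rw [h, map_zero])
    exact nonZeroDivisors.ne_zero s.2 h0
  · rw [← Ideal.algebraMap_quotient_residueField_mk, ← Ideal.algebraMap_quotient_residueField_mk,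
      ht, ha]
    exact IsLocalization.mk'_spec _ x s

/-- density of `C / n` in the residue field of `n` -/
theorem indep (hDENS : SpecDENS.{u}) {C : Type u} [CommRing C] [IsLocalRing C] (n : Ideal C)
    [n.IsPrime] [TopologicalSpace n.ResidueField] [TopField n.ResidueField]
    (hV : IsV n.ResidueField) (hb : ¬ Bdd (Set.range (algebraMap C n.ResidueField))) :
    IndepSet (Set.range (algebraMap C n.ResidueField)) := by
  have hr : Set.range (algebraMap C n.ResidueField) =
      Set.range (algebraMap (C ⧸ n) n.ResidueField) := by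
    ext y
    constructor
    · rintro ⟨c, rfl⟩
      exact ⟨Ideal.Quotient.mk n c, rfl⟩
    · rintro ⟨c, rfl⟩
      obtain ⟨c, rfl⟩ := Ideal.Quotient.mk_surjective c
      exact ⟨c, rfl⟩
  have : IsLocalRing (C ⧸ n) :=
    IsLocalRing.of_surjective' (Ideal.Quotient.mk n) Ideal.Quotient.mk_surjective
  rw [hr] at hb ⊢
  exact hDENS (C ⧸ n) n.ResidueField hV hb

end STEPM

theorem specSTEP (hZRN : SpecZRN.{u}) (hSAT2 : SpecSAT2.{u}) (hSPL : SpecSPL.{u})
    (hBDD : SpecBDD.{u}) (hCBD : SpecCBD.{u}) (hSCT : SpecSCT.{u}) (hDENS : SpecDENS.{u}) :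
    SpecSTEP.{u} := by
  intro hSC C _ _ _ N hN hUC hsat hnip F _ φ hφ n₀ hLS Q hQ hkQ hint
  have hkp : (RingHom.ker φ).IsPrime := RingHom.ker_isPrime φ
  have h1 := hLS Q hQ hkQ
  unfold LS at h1
  push Not at h1
  obtain ⟨g, hg, hgn, hgs, a, ha, hroot⟩ := h1
  obtain ⟨n, hn, hkn, hnQ, hfail, hmax⟩ := hZRN C N hN hUC g a (RingHom.ker φ) Q hkp hQ hkQ.le ha
    hroot
  have hnonG := hSAT2 C N hN hUC hsat g a Q n hg hQ hn hnQ.le ha hfail hmax
  -- `n` is not the kernel
  have hne : RingHom.ker φ < n := by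
    refine lt_of_le_of_ne hkn fun h => ?_
    subst h
    refine hfail (hSPL C F φ hφ N hN hUC Q hQ hkQ.le ?_ g a hg ha hmax ?_)
    · intro x hx
      obtain ⟨P, hP, hP1, hP2, hP3⟩ := hnonG x hx
      exact ⟨P, hP, hP1, hP2, hP3⟩
    · intro k _ hk hkg
      left
      exact (hgs.of_dvd (hg.map φ).ne_zero hkg).natDegree_eq_one_of_irreducible hk
  -- the residue field of `n`
  let K := n.ResidueField
  let ψ : C →+* K := algebraMap C K
  have hker : RingHom.ker ψ = n := Ideal.ker_algebraMap_residueField n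
  have hψ : IsFrac ψ := STEPM.isFrac_residue n
  have hchar : CharZero K := by
    refine charZero_of_inj_zero fun j hj => ?_
    by_contra hj0
    have h2 : ψ (j : C) = 0 := by rw [map_natCast]; exact hj
    have h3 : (j : C) ∈ n := by rw [← hker]; exact h2
    exact hint j hj0 (hnQ.le h3)
  have hnG : ∀ x, x ∉ RingHom.ker ψ → ∃ P : Ideal C, P.IsPrime ∧ RingHom.ker ψ < P ∧ P ≤ Q ∧
      x ∉ P := by
    rw [hker]
    exact hnonG
  have hmax' : ∀ P : Ideal C, P.IsPrime → RingHom.ker ψ < P → P ≤ Q → RootMod g a P Q := by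
    rw [hker]
    exact hmax
  -- an irreducible factor
  have hk : ∃ k : K[X], k.Monic ∧ Irreducible k ∧ k ∣ g.map ψ ∧ k.natDegree ≠ 1 := by
    by_contra hcon
    push Not at hcon
    have := hSPL C K ψ hψ N hN hUC Q hQ (by rw [hker]; exact hnQ.le) hnG g a hg ha hmax'
      (fun k hk1 hk2 hk3 => Or.inl (hcon k hk1 hk2 hk3))
    rw [hker] at this
    exact hfail this
  obtain ⟨k, hk1, hk2, hk3, hk4⟩ := hk
  have hkd : 2 ≤ k.natDegree := by
    have := hk2.natDegree_pos
    omega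
  have hkn0 : k.natDegree ≤ n₀ := by
    have h5 : k.natDegree ≤ (g.map ψ).natDegree :=
      Polynomial.natDegree_le_of_dvd hk3 (hg.map ψ).ne_zero
    rw [hg.natDegree_map] at h5
    exact h5.trans hgn
  have hksep : k.Separable := hk2.separable
  obtain ⟨S, hS, hSr⟩ := hnip K ψ hψ
  have hnsep : ¬ IsSepClosed K := by
    intro hsc
    have := (IsSepClosed.splits_of_separable k hksep).natDegree_eq_one_of_irreducible hk2
    exact hk4 this
  have : Infinite K := Infinite.of_injective (fun j : ℕ => (j : K)) Nat.cast_injective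
  obtain ⟨t, htF, htH, htV, _⟩ := hSCT hSC K S hS inferInstance hnsep
  refine ⟨n, k.natDegree, hne, hnQ, hkd, hkn0, hn, t, htF, htH, htV, ?_, k, hk1, hk2, hksep, rfl⟩
  letI := t
  haveI := htF
  refine STEPM.indep hDENS n htV fun hb => ?_
  have h6 : Bdd (locSet ψ Q) := hCBD C K ψ hψ N hN hUC Q hQ (by rw [hker]; exact hnQ) hb
  have h7 := hBDD C K ψ hψ N hN hUC Q hQ (by rw [hker]; exact hnQ.le) hnG htH h6 g a hg ha hmax'
  rw [hker] at h7
  exact hfail h7

end Pool.Agent.Lib.MP958bd4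
end

section
/-!
# MP_958bd4_lc: T1, chains of good primes
-/
set_option autoImplicit false

universe u

namespace Pool.Agent.Lib.MP958bd4

open Polynomial Topology Filter IsLocalRing

namespace T1M

variable {C : Type u} [CommRing C]

/-- the homogeneous form of the polynomial -/
def HF {R : Type u} [CommRing R] {D : ℕ} (a : Fin D → R) (ε t : R) : R :=
  ε ^ D + ∑ j : Fin D, a j * t ^ (D - (j : ℕ)) * ε ^ (j : ℕ)

theorem HF_scale {R : Type u} [CommRing R] {D : ℕ} (a : Fin D → R) (b t : R) :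
    HF a (b * t) t = t ^ D * (b ^ D + ∑ j : Fin D, a j * b ^ (j : ℕ)) := by
  unfold HF
  rw [mul_add, mul_pow, mul_comm (b ^ D), Finset.mul_sum]
  congr 1
  refine Finset.sum_congr rfl fun j _ => ?_
  have h : t ^ D = t ^ (D - (j : ℕ)) * t ^ (j : ℕ) := by
    rw [← pow_add, Nat.sub_add_cancel j.2.le]
  rw [h, mul_pow]
  ring

theorem HF_map {R R' : Type u} [CommRing R] [CommRing R'] (f : R →+* R') {D : ℕ} (a : Fin D → R)
    (ε t : R) : f (HF a ε t) = HF (fun j => f (a j)) (f ε) (f t) := by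
  unfold HF
  simp

/-- approximation with respect to one prime -/
def Box (P : Ideal C) [P.IsPrime] (D : ℕ) (O : Set (Fin D → P.ResidueField)) : Prop :=
  ∀ (a : Fin D → C) (c : C), c ∉ P →
    ∃ b : Fin D → C, (fun j => algebraMap C P.ResidueField (a j + c * b j)) ∈ O

theorem box_of_open (P : Ideal C) [P.IsPrime] [TopologicalSpace P.ResidueField] (D : ℕ)
    (hind : IndepSet (Set.range (algebraMap C P.ResidueField)))
    (O : Set (Fin D → P.ResidueField)) (hO : IsOpen O) (hne : O.Nonempty) : Box P D O := by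
  intro a c hc
  obtain ⟨o, ho⟩ := hne
  rw [isOpen_pi_iff] at hO
  obtain ⟨I, u, hu, hsub⟩ := hO o ho
  have hc' : algebraMap C P.ResidueField c ≠ 0 := by
    rwa [Ne, Ideal.algebraMap_residueField_eq_zero]
  have h : ∀ j : Fin D, ∃ b : C, j ∈ I → algebraMap C P.ResidueField (a j + c * b) ∈ u j := by
    intro j
    by_cases hj : j ∈ I
    · obtain ⟨_, ⟨b, rfl⟩, hb⟩ := hind (algebraMap C P.ResidueField (a j)) _ hc' (u j)
        (hu j hj).1 ⟨o j, (hu j hj).2⟩
      exact ⟨b, fun _ => by rwa [map_add, map_mul]⟩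
    · exact ⟨0, fun h => absurd h hj⟩
  choose b hb using h
  exact ⟨b, hsub fun j hj => hb j hj⟩

theorem approx {k D : ℕ} (p : Fin k → Ideal C) (hp : StrictMono p) [hpr : ∀ i, (p i).IsPrime]
    (O : ∀ i, Set (Fin D → (p i).ResidueField)) (hB : ∀ i, Box (p i) D (O i)) :
    ∃ a : Fin D → C, ∀ i, (fun j => algebraMap C (p i).ResidueField (a j)) ∈ O i := by
  have key : ∀ n : ℕ, ∃ a : Fin D → C, ∀ i : Fin k, k ≤ i.val + n →
      (fun j => algebraMap C (p i).ResidueField (a j)) ∈ O i := by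
    intro n
    induction n with
    | zero =>
      refine ⟨0, fun i hi => ?_⟩
      have := i.2
      omega
    | succ n ih =>
      obtain ⟨a, ha⟩ := ih
      by_cases hk : k ≤ n
      · exact ⟨a, fun i _ => ha i (by omega)⟩
      · push Not at hk
        obtain ⟨i0, hi0⟩ : ∃ i0 : Fin k, i0.val = k - n - 1 := ⟨⟨k - n - 1, by omega⟩, rfl⟩
        obtain ⟨c, hc, hcj⟩ : ∃ c : C, c ∉ p i0 ∧ ∀ j : Fin k, i0 < j → c ∈ p j := by
          by_cases hlast : i0.val + 1 < k
          · obtain ⟨i1, hi1⟩ : ∃ i1 : Fin k, i1.val = i0.val + 1 := ⟨⟨_, hlast⟩, rfl⟩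
            have hlt : p i0 < p i1 := hp (by rw [Fin.lt_def]; omega)
            obtain ⟨c, hc1, hc2⟩ := Set.exists_of_ssubset hlt
            refine ⟨c, hc2, fun j hj => ?_⟩
            have hle : i1 ≤ j := by rw [Fin.le_def]; rw [Fin.lt_def] at hj; omega
            exact hp.monotone hle hc1
          · refine ⟨1, (Ideal.ne_top_iff_one _).1 (hpr i0).ne_top, fun j hj => ?_⟩
            have := j.2
            rw [Fin.lt_def] at hj
            omega
        obtain ⟨b, hb⟩ := hB i0 a c hc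
        refine ⟨fun j => a j + c * b j, fun i hi => ?_⟩
        rcases lt_trichotomy i i0 with h | h | h
        · rw [Fin.lt_def] at h
          omega
        · subst h
          exact hb
        · have h1 := ha i (by rw [Fin.lt_def] at h; omega)
          have h2 : (fun j => algebraMap C (p i).ResidueField (a j + c * b j)) =
              fun j => algebraMap C (p i).ResidueField (a j) := by
            funext j
            rw [map_add, map_mul, (Ideal.algebraMap_residueField_eq_zero).2 (hcj i h), zero_mul,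
              add_zero]
          rw [h2]
          exact h1
  obtain ⟨a, ha⟩ := key k
  exact ⟨a, fun i => ha i (by omega)⟩

/-- no root modulo `P` -/
theorem no_root (P : Ideal C) [P.IsPrime] {D : ℕ} (a : Fin D → C)
    (hr : ∀ r : P.ResidueField,
      r ^ D + ∑ i : Fin D, algebraMap C P.ResidueField (a i) * r ^ (i : ℕ) ≠ 0)
    {w t : C} (hw : w ∈ P) (ht : t ∉ P) (ε : C) : ¬ w ∣ HF a ε t := by
  intro h
  have h1 : HF a ε t ∈ P := Ideal.mem_of_dvd P h hw
  have ht' : algebraMap C P.ResidueField t ≠ 0 := by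
    rwa [Ne, Ideal.algebraMap_residueField_eq_zero]
  have h2 : algebraMap C P.ResidueField (HF a ε t) = 0 :=
    (Ideal.algebraMap_residueField_eq_zero).2 h1
  rw [HF_map] at h2
  have h3 : algebraMap C P.ResidueField ε
      = (algebraMap C P.ResidueField ε / algebraMap C P.ResidueField t) *
        algebraMap C P.ResidueField t := by
    rw [div_mul_cancel₀ _ ht']
  rw [h3, HF_scale] at h2
  rcases mul_eq_zero.1 h2 with h4 | h4
  · exact pow_ne_zero D ht' h4
  · exact hr _ h4

/-- the polynomial -/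
noncomputable def pol {R : Type u} [CommRing R] {D : ℕ} (a : Fin D → R) : R[X] :=
  X ^ D + ∑ j : Fin D, Polynomial.C (a j) * X ^ (j : ℕ)

theorem eval_pol {R : Type u} [CommRing R] {D : ℕ} (a : Fin D → R) (b : R) :
    (pol a).eval b = b ^ D + ∑ j : Fin D, a j * b ^ (j : ℕ) := by
  unfold pol
  simp [eval_finsetSum]

theorem eval_deriv_pol {R : Type u} [CommRing R] {D : ℕ} (a : Fin D → R) (b : R) :
    (pol a).derivative.eval b =
      (D : R) * b ^ (D - 1) + ∑ j : Fin D, ((j : ℕ) : R) * a j * b ^ ((j : ℕ) - 1) := by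
  unfold pol
  rw [derivative_add, derivative_sum, derivative_X_pow, eval_add, eval_finsetSum]
  congr 1
  · simp
  · refine Finset.sum_congr rfl fun j _ => ?_
    rw [derivative_mul, derivative_C, zero_mul, zero_add, derivative_X_pow, eval_mul, eval_C,
      eval_mul, eval_C, eval_pow, eval_X]
    ring

/-- a simple root modulo `P` -/
theorem lift [IsDomain C] (hN : SpecNEW.{u}) (P : Ideal C) [P.IsPrime] {D : ℕ} (hD : 2 ≤ D)
    (a : Fin D → C) (r : P.ResidueField)
    (hr : r ^ D + ∑ i : Fin D, algebraMap C P.ResidueField (a i) * r ^ (i : ℕ) = 0)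
    (hr' : (D : P.ResidueField) * r ^ (D - 1) + ∑ i : Fin D, ((i : ℕ) : P.ResidueField) *
      algebraMap C P.ResidueField (a i) * r ^ ((i : ℕ) - 1) ≠ 0) :
    ∃ e ∈ P, ∀ (M : ℕ) (w : C), w ∣ e ^ M → ∃ t ∉ P, ∀ v : C, ∃ ε : C, w ∣ HF a ε (t * v) := by
  have inj : Function.Injective (algebraMap C (Localization.AtPrime P)) :=
    IsLocalization.injective _ P.primeCompl_le_nonZeroDivisors
  have hres : ∀ c : C, residue (Localization.AtPrime P) (algebraMap C (Localization.AtPrime P) c)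
      = algebraMap C P.ResidueField c := fun c => rfl
  have hfrac : ∀ β : Localization.AtPrime P, ∃ c s : C, s ∉ P ∧
      β * algebraMap C (Localization.AtPrime P) s = algebraMap C (Localization.AtPrime P) c := by
    intro β
    obtain ⟨c, s, rfl⟩ := IsLocalization.exists_mk'_eq P.primeCompl β
    exact ⟨c, s.1, s.2, IsLocalization.mk'_spec _ _ _⟩
  have hunit : ∀ s ∉ P, IsUnit (algebraMap C (Localization.AtPrime P) s) := fun s hs =>
    IsLocalization.map_units (Localization.AtPrime P) (⟨s, hs⟩ : P.primeCompl)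
  obtain ⟨b, hb⟩ := residue_surjective (R := Localization.AtPrime P) r
  let g : (Localization.AtPrime P)[X] := pol fun j => algebraMap C (Localization.AtPrime P) (a j)
  have hg1 : g.eval b ∈ maximalIdeal (Localization.AtPrime P) := by
    rw [← residue_eq_zero_iff, eval_pol]
    simp only [map_add, map_pow, map_sum, map_mul, hb, hres]
    exact hr
  have hg2 : IsUnit (g.derivative.eval b) := by
    rw [← residue_ne_zero_iff_isUnit, eval_deriv_pol]
    simp only [map_add, map_pow, map_sum, map_mul, map_natCast, hb, hres]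
    exact hr'
  obtain ⟨e, s', hs', he⟩ := hfrac (g.eval b)
  have heP : e ∈ P := by
    rw [← IsLocalization.AtPrime.to_map_mem_maximal_iff (Localization.AtPrime P) P, ← he]
    exact Ideal.mul_mem_right _ _ hg1
  refine ⟨e, heP, fun M w hw => ?_⟩
  obtain ⟨b', -, hb', -, -, -⟩ := hN (Localization.AtPrime P) g b hg1 hg2 M
  have hwB : algebraMap C (Localization.AtPrime P) w ∣ g.eval b' := by
    refine dvd_trans ?_ hb'
    have h1 : algebraMap C (Localization.AtPrime P) w ∣
        (g.eval b) ^ M * algebraMap C (Localization.AtPrime P) s' ^ M := by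
      rw [← mul_pow, he, ← map_pow]
      exact (algebraMap C (Localization.AtPrime P)).map_dvd hw
    exact (((hunit s' hs').pow M).dvd_mul_right).1 h1
  obtain ⟨β, hβ⟩ := hwB
  obtain ⟨c, s'', hs'', hc⟩ := hfrac β
  obtain ⟨x', y', hy', hx'⟩ := hfrac b'
  refine ⟨y' * s'', fun h => ?_, fun v => ⟨x' * s'' * v, ?_⟩⟩
  · rcases Ideal.IsPrime.mem_or_mem inferInstance h with h | h
    · exact hy' h
    · exact hs'' h
  · refine ⟨(y' * s'' * v) ^ (D - 1) * (y' * v * c), inj ?_⟩
    have h1 : algebraMap C (Localization.AtPrime P) (x' * s'' * v)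
        = b' * algebraMap C (Localization.AtPrime P) (y' * s'' * v) := by
      rw [map_mul, map_mul, map_mul, map_mul, ← hx']
      ring
    have h2 : (algebraMap C (Localization.AtPrime P) (y' * s'' * v)) ^ D
        = (algebraMap C (Localization.AtPrime P) (y' * s'' * v)) ^ (D - 1) *
          algebraMap C (Localization.AtPrime P) (y' * s'' * v) := by
      rw [← pow_succ]
      congr 1
      omega
    rw [HF_map, h1, HF_scale, ← eval_pol, hβ, h2]
    simp only [map_mul, map_pow]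
    rw [← hc]
    ring

theorem good (hR : SpecROPEN.{u}) (hS : SpecSOPEN.{u}) {D : ℕ} (hD : 2 ≤ D) {P : Ideal C}
    (hP : GoodPrime D P) : ∃ (_ : P.IsPrime) (Op Om : Set (Fin D → P.ResidueField)),
      Box P D Op ∧ Box P D Om ∧
      (∀ a ∈ Op, ∃ r : P.ResidueField, r ^ D + ∑ i : Fin D, a i * r ^ (i : ℕ) = 0 ∧
        (D : P.ResidueField) * r ^ (D - 1) +
          ∑ i : Fin D, ((i : ℕ) : P.ResidueField) * a i * r ^ ((i : ℕ) - 1) ≠ 0) ∧
      ∀ a ∈ Om, ∀ r : P.ResidueField, r ^ D + ∑ i : Fin D, a i * r ^ (i : ℕ) ≠ 0 := by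
  obtain ⟨hpr, t, htf, hth, hv, hind, f, hf1, hf2, hf3, hf4⟩ := hP
  subst hf4
  obtain ⟨Op, hOp, hOpn, h1⟩ := @hS P.ResidueField _ t htf hth f.natDegree hD
  obtain ⟨Om, hOm, hOmn, h2⟩ := @hR P.ResidueField _ t htf hth hv f hf1 hf2 hf3 hD
  exact ⟨hpr, Op, Om, @box_of_open C _ P hpr t _ hind Op hOp hOpn,
    @box_of_open C _ P hpr t _ hind Om hOm hOmn, h1, h2⟩

/-- an element with the largest radical -/
theorem exists_w {N : ℕ} (hU : UC N C) {σ : Type} (s : Finset σ) (hs : s.Nonempty) (e : σ → C) :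
    ∃ x ∈ s, ∀ y ∈ s, ∃ M : ℕ, e x ∣ e y ^ M := by
  classical
  induction hs using Finset.Nonempty.cons_induction with
  | singleton a =>
    refine ⟨a, Finset.mem_singleton_self a, fun y hy => ⟨1, ?_⟩⟩
    rw [Finset.mem_singleton.1 hy, pow_one]
  | cons a s ha hs ih =>
    obtain ⟨x, hx, h⟩ := ih
    rcases hU (e a) (e x) with h1 | h1
    · -- `e x ∣ e a ^ N`
      refine ⟨x, Finset.mem_cons_of_mem hx, fun y hy => ?_⟩
      rcases Finset.mem_cons.1 hy with rfl | hy
      · exact ⟨N, h1⟩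
      · exact h y hy
    · -- `e a ∣ e x ^ N`
      refine ⟨a, Finset.mem_cons_self a s, fun y hy => ?_⟩
      rcases Finset.mem_cons.1 hy with rfl | hy
      · exact ⟨1, by rw [pow_one]⟩
      · obtain ⟨M, hM⟩ := h y hy
        refine ⟨M * N, ?_⟩
        rw [pow_mul]
        exact h1.trans (pow_dvd_pow_of_dvd hM N)

end T1M

open T1M in
theorem specT1 (hR : SpecROPEN.{u}) (hS : SpecSOPEN.{u}) (hN : SpecNEW.{u}) : SpecT1.{u} := by
  classical
  intro C _ _ N D k hN0 hD hUC p hp hgood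
  have hg := fun i => good hR hS hD (hgood i)
  choose hpr Op Om hBp hBm hrp hrm using hg
  have ha : ∀ s : Set (Fin k), ∃ a : Fin D → C, ∀ i,
      (i ∈ s → (fun j => algebraMap C (p i).ResidueField (a j)) ∈ Op i) ∧
      (i ∉ s → (fun j => algebraMap C (p i).ResidueField (a j)) ∈ Om i) := by
    intro s
    obtain ⟨a, ha⟩ := approx p hp (fun i => if i ∈ s then Op i else Om i) (fun i => by
      by_cases hi : i ∈ s
      · rw [if_pos hi]; exact hBp i
      · rw [if_neg hi]; exact hBm i)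
    refine ⟨a, fun i => ⟨fun hi => ?_, fun hi => ?_⟩⟩
    · have := ha i
      rwa [if_pos hi] at this
    · have := ha i
      rwa [if_neg hi] at this
  choose a ha using ha
  -- the elements `e`
  have he : ∀ (i : Fin k) (s : Set (Fin k)), ∃ e ∈ p i, i ∈ s → ∀ (M : ℕ) (w : C), w ∣ e ^ M →
      ∃ t ∉ p i, ∀ v : C, ∃ ε : C, w ∣ HF (a s) ε (t * v) := by
    intro i s
    by_cases hi : i ∈ s
    · obtain ⟨r, hr1, hr2⟩ := hrp i _ ((ha s i).1 hi)
      obtain ⟨e, he1, he2⟩ := lift hN (p i) hD (a s) r hr1 hr2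
      exact ⟨e, he1, fun _ => he2⟩
    · exact ⟨0, (p i).zero_mem, fun h => absurd h hi⟩
  choose e hemem hek using he
  have hw : ∀ i : Fin k, ∃ w ∈ p i, ∃ t ∉ p i, ∀ s : Set (Fin k), i ∈ s →
      ∃ ε : C, w ∣ HF (a s) ε t := by
    intro i
    obtain ⟨s0, -, hs0⟩ := exists_w hUC (Finset.univ.filter fun s : Set (Fin k) => i ∈ s)
      ⟨{i}, by simp⟩ (e i)
    refine ⟨e i s0, hemem i s0, ?_⟩
    have h1 : ∀ s : Set (Fin k), ∃ t ∉ p i, i ∈ s → ∀ v : C, ∃ ε : C,
        e i s0 ∣ HF (a s) ε (t * v) := by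
      intro s
      by_cases hi : i ∈ s
      · obtain ⟨M, hM⟩ := hs0 s (by simpa using hi)
        obtain ⟨t, ht, h⟩ := hek i s hi M _ hM
        exact ⟨t, ht, fun _ => h⟩
      · exact ⟨1, (Ideal.ne_top_iff_one _).1 (hpr i).ne_top, fun h => absurd h hi⟩
    choose t ht htk using h1
    refine ⟨∏ s, t s, fun hm => ?_, fun s hi => ?_⟩
    · have := hpr i
      obtain ⟨s, -, hs⟩ := Ideal.IsPrime.prod_mem_iff.1 hm
      exact ht s hs
    · rw [← Finset.mul_prod_erase _ _ (Finset.mem_univ s)]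
      exact htk s hi _
  choose w hwm t htm hk using hw
  refine ⟨a, t, w, fun i s => ⟨fun h => ?_, fun h => hk i s h⟩⟩
  by_contra hi
  obtain ⟨ε, hε⟩ := h
  exact no_root (p i) (a s) (hrm i _ ((ha s i).2 hi)) (hwm i) (htm i) ε hε

end Pool.Agent.Lib.MP958bd4
end

section
set_option autoImplicit false
universe u
namespace Pool.Agent.Lib.MP958bd4

open Polynomial IsLocalRing Topology

namespace XPM

/-- definability of polynomial conditions -/
theorem def_poly (hD : SpecDPOLY.{u}) {R : Type u} [CommRing R] {S : DefSys R} (hS : S.IsRing)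
    {α : Type} [Finite α] {X : Set R} (hX : S.Def₁ X) (p : MvPolynomial α R) :
    S.Def {x : α → R | MvPolynomial.eval x p ∈ X} :=
  hD R S hS α (Fin 1) {z | z 0 ∈ X} (fun _ => p) hX

theorem def_zero (hD : SpecDPOLY.{u}) {R : Type u} [CommRing R] {S : DefSys R} (hS : S.IsRing)
    {α : Type} [Finite α] (p : MvPolynomial α R) :
    S.Def {x : α → R | MvPolynomial.eval x p = 0} :=
  hD R S hS α (Fin 1) {z | z 0 = 0} (fun _ => p) (S.sing 0)

/-- The relation of the characteristic `p` case. -/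
theorem def_rel (hD : SpecDPOLY.{u}) {F : Type u} [Field F] {S : DefSys F} (hS : S.IsRing)
    {E U : Set F} (hE : S.Def₁ E) (hU : S.Def₁ U) (p : ℕ) :
    S.Def {v : Fin 1 ⊕ Fin 1 → F | ∃ y : F, y ^ p - y = v (Sum.inl 0) * v (Sum.inr 0) ∧
      (y ∈ E ∧ ∀ z ∈ E, y * z ≠ 1) ∧ y ∈ U} := by
  refine S.ex₁ (p := fun v y => y ^ p - y = v (Sum.inl 0) * v (Sum.inr 0) ∧
      (y ∈ E ∧ ∀ z ∈ E, y * z ≠ 1) ∧ y ∈ U) ?_
  refine S.and ?_ (S.and (S.and (S.mem₁ hE _) ?_) (S.mem₁ hU _))
  · refine S.cast (def_zero hD hS (MvPolynomial.X (Sum.inr ()) ^ p - MvPolynomial.X (Sum.inr ()) -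
      MvPolynomial.X (Sum.inl (Sum.inl 0)) * MvPolynomial.X (Sum.inl (Sum.inr 0)))) ?_
    ext v
    simp [sub_eq_zero]
  · refine S.all₁ (p := fun v z => z ∈ E → v (Sum.inr ()) * z ≠ 1) ?_
    refine S.imp (S.mem₁ hE _) (S.not ?_)
    refine S.cast (def_zero hD hS (MvPolynomial.X (Sum.inl (Sum.inr ())) *
      MvPolynomial.X (Sum.inr ()) - 1)) ?_
    ext v
    simp [sub_eq_zero]

/-- an actual root from `RootMod g a ⊥ m` -/
theorem root_of_rootMod {C : Type u} [CommRing C] [IsLocalRing C] (g : C[X]) (a : C)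
    (h : RootMod g a ⊥ (maximalIdeal C)) : ∃ b : C, g.IsRoot b ∧ b - a ∈ maximalIdeal C := by
  obtain ⟨b, s, hs, hb, h0⟩ := h
  have hu : IsUnit s := by
    rwa [mem_maximalIdeal, mem_nonunits_iff, not_not] at hs
  obtain ⟨s, rfl⟩ := hu
  refine ⟨s⁻¹ * b, ?_, ?_⟩
  · have h1 : b = (s : C) * (s⁻¹ * b) := by rw [← mul_assoc, Units.mul_inv, one_mul]
    rw [Ideal.mem_bot, h1] at h0
    have h2 := Polynomial.scaleRoots_eval₂_mul (RingHom.id C) (((s⁻¹ : Cˣ) : C) * b) (s : C) (p := g)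
    simp only [RingHom.id_apply, Polynomial.eval₂_id] at h2
    rw [h2] at h0
    exact (s.isUnit.pow _).mul_right_eq_zero.1 h0
  · have h1 : ((s⁻¹ : Cˣ) : C) * b - a = ((s⁻¹ : Cˣ) : C) * (b - s * a) := by
      rw [mul_sub, ← mul_assoc, Units.inv_mul, one_mul]
    rw [h1]
    exact Ideal.mul_mem_left _ _ hb

end XPM

theorem specXP (hDP : SpecDPOLY.{u}) (hZRN : SpecZRN.{u}) (hSAT2 : SpecSAT2.{u})
    (hSPL : SpecSPL.{u}) (hBDD : SpecBDD.{u}) (hCBD : SpecCBD.{u}) (hSCT : SpecSCT.{u})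
    (hDENS : SpecDENS.{u}) (hIPP : SpecIPP.{u}) (hUNI : SpecUNI.{u}) (hCHN : SpecCHN.{u}) :
    SpecXP.{u} := by
  intro hSC C _ _ _ N hN hUC hsat hnip
  refine { is_henselian := ?_ }
  intro g hg a h1 h2
  by_contra hno
  let m := maximalIdeal C
  have hm : m.IsPrime := inferInstance
  have hsim : SimpleAt g a m := ⟨h1, fun h => (mem_nonunits_iff.1 ((mem_maximalIdeal _).1 h)) h2⟩
  have hnr : ¬ RootMod g a ⊥ m := fun h => hno (XPM.root_of_rootMod g a h)
  obtain ⟨n, hn, _, hnm, hfail, hmax⟩ := hZRN C N hN hUC g a ⊥ m Ideal.isPrime_bot hm bot_le hsim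
    hnr
  have hnonG := hSAT2 C N hN hUC hsat g a m n hg hm hn hnm.le hsim hfail hmax
  let F := n.ResidueField
  let φ : C →+* F := algebraMap C F
  have hker : RingHom.ker φ = n := Ideal.ker_algebraMap_residueField n
  have hφ : IsFrac φ := STEPM.isFrac_residue n
  have hnG : ∀ x, x ∉ RingHom.ker φ → ∃ P : Ideal C, P.IsPrime ∧ RingHom.ker φ < P ∧ P ≤ m ∧
      x ∉ P := by
    rw [hker]; exact hnonG
  have hmax' : ∀ P : Ideal C, P.IsPrime → RingHom.ker φ < P → P ≤ m → RootMod g a P m := by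
    rw [hker]; exact hmax
  have hfail' : ¬ RootMod g a (RingHom.ker φ) m := by rw [hker]; exact hfail
  have hkm : RingHom.ker φ < m := by rw [hker]; exact hnm
  obtain ⟨S, hS, hSr⟩ := hnip F φ hφ
  -- `F` is infinite
  have hnf : ¬ IsField (C ⧸ n) := by
    intro hf
    have := Ideal.Quotient.maximal_of_isField n hf
    exact hnm.ne (this.eq_of_le hm.ne_top hnm.le)
  have hinf : Infinite F := by
    by_contra hfin
    rw [not_infinite_iff_finite] at hfin
    have : Finite (C ⧸ n) := Finite.of_injective _ (Ideal.injective_algebraMap_quotient_residueField n)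
    exact hnf (Finite.isField_of_domain _)
  -- `F` is not separably closed
  have hnsep : ¬ IsSepClosed F := by
    intro hsc
    refine hfail' (hSPL C F φ hφ N hN hUC m hm hkm.le hnG g a hg hsim hmax' ?_)
    intro k _ hk _
    by_cases hks : k.Separable
    · exact Or.inl ((IsSepClosed.splits_of_separable k hks).natDegree_eq_one_of_irreducible hk)
    · right
      by_contra hd
      exact hks ((Polynomial.separable_iff_derivative_ne_zero hk).2 hd)
  obtain ⟨t, htF, htH, htV, U, hU, hU0, hU1⟩ := hSCT hSC F S hS hinf hnsep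
  letI := t
  haveI := htF
  have hnb : ¬ Bdd (Set.range φ) := fun hb => hfail' (hBDD C F φ hφ N hN hUC m hm hkm.le hnG htH
    (hCBD C F φ hφ N hN hUC m hm hkm hb) g a hg hsim hmax')
  have hind : IndepSet (Set.range φ) := STEPM.indep hDENS n htV hnb
  obtain ⟨p, hp⟩ := CharP.exists F
  rcases CharP.char_is_prime_or_zero F p with hpp | hp0
  · -- characteristic p
    haveI : Fact p.Prime := ⟨hpp⟩
    have : IsLocalRing (C ⧸ n) :=
      IsLocalRing.of_surjective' (Ideal.Quotient.mk n) Ideal.Quotient.mk_surjective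
    have hr : Set.range φ = Set.range (algebraMap (C ⧸ n) F) := by
      ext y
      constructor
      · rintro ⟨c, rfl⟩
        exact ⟨Ideal.Quotient.mk n c, rfl⟩
      · rintro ⟨c, rfl⟩
        obtain ⟨c, rfl⟩ := Ideal.Quotient.mk_surjective c
        exact ⟨c, rfl⟩
    have hrel := XPM.def_rel hDP hS hSr hU p
    refine S.false_of_shatters hrel fun k => ?_
    obtain ⟨b, x, hbx⟩ := hIPP p k (C ⧸ n) F hnf (by rw [← hr]; exact hind) U hU0 hU1
    refine ⟨fun i _ => b i, fun s _ => x s, fun i s => ?_⟩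
    rw [← hbx i s]
    show (∃ y : F, _ ∧ _ ∧ _) ↔ _
    refine exists_congr fun y => and_congr_right fun _ => and_congr_left fun _ => ?_
    constructor
    · rintro ⟨hy, hy'⟩
      rw [hr] at hy hy'
      obtain ⟨c, rfl⟩ := hy
      refine ⟨c, ?_, rfl⟩
      rw [mem_maximalIdeal, mem_nonunits_iff]
      intro hc
      obtain ⟨d, hd⟩ := isUnit_iff_exists_inv.1 hc
      exact hy' _ ⟨d, rfl⟩ (by rw [← map_mul, hd, map_one])
    · rintro ⟨c, hc, rfl⟩
      rw [hr]
      refine ⟨⟨c, rfl⟩, ?_⟩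
      rintro _ ⟨d, rfl⟩ hd
      rw [← map_mul] at hd
      have : c * d = 1 := by
        apply Ideal.injective_algebraMap_quotient_residueField n
        rw [map_one]; exact hd
      exact (mem_nonunits_iff.1 ((mem_maximalIdeal _).1 hc)) (IsUnit.of_mul_eq_one _ this)
  · -- characteristic 0
    subst hp0
    have hcz : CharZero F := CharP.charP_to_charZero F
    obtain ⟨n₀, hn₀⟩ := hUNI C F φ hφ hcz S hS hSr htH hind U hU hU0 hU1
    obtain ⟨Q, hQ, hkQ, hLS⟩ := hCHN hSC C N hN hUC hsat hnip F φ hφ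
      (fun x hx => by
        obtain ⟨P, h1, h2, _, h4⟩ := hnG x hx
        exact ⟨P, h1, h2, h4⟩) n₀
    exact hn₀ Q hQ hkQ hLS

end Pool.Agent.Lib.MP958bd4
end
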