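import Pool.Agent.Lib.MP_958bd4_lc.SpecM
import Pool.Agent.Lib.MP_958bd4_lc.SpecA
import Pool.Agent.Lib.MP_958bd4_lc.UNI
import Pool.Agent.Lib.MP_958bd4_lc.AMPOL
import Pool.Agent.Lib.MP_958bd4_lc.AMSIG
import Pool.Agent.Lib.MP_958bd4_lc.LEMA
import Pool.Agent.Lib.MP_958bd4_lc.WUC
import Pool.Agent.Lib.MP_958bd4_lc.VTOP
import Pool.Agent.Lib.MP_958bd4_lc.SAT2
import Pool.Agent.Lib.MP_958bd4_lc.XP

section
set_option autoImplicit false
universe u
namespace Pool.Agent.Lib.MP958bd4.ZL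

/-- a maximal prime inside two given primes -/
theorem exists_max {A : Type u} [CommRing A] (r0 p₁ p₂ : Ideal A) (h0 : r0.IsPrime)
    (h1 : r0 ≤ p₁) (h2 : r0 ≤ p₂) :
    ∃ r : Ideal A, r.IsPrime ∧ r0 ≤ r ∧ r ≤ p₁ ∧ r ≤ p₂ ∧
      ∀ P : Ideal A, P.IsPrime → r ≤ P → P ≤ p₁ → P ≤ p₂ → P = r := by
  let S : Set (Ideal A) := {P | P.IsPrime ∧ P ≤ p₁ ∧ P ≤ p₂}
  obtain ⟨m, hm1, hm2⟩ := zorn_le_nonempty₀ S (fun c hc hch y hy => by
    refine ⟨sSup c, ⟨?_, ?_, ?_⟩, fun z hz => le_sSup hz⟩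
    · have hmem : ∀ x, x ∈ sSup c ↔ ∃ P ∈ c, x ∈ P := by
        intro x
        exact Submodule.mem_sSup_of_directed ⟨y, hy⟩ hch.directedOn
      refine ⟨?_, ?_⟩
      · intro h
        have : (1 : A) ∈ sSup c := by rw [h]; trivial
        obtain ⟨P, hP, h1P⟩ := (hmem 1).1 this
        exact (hc hP).1.ne_top ((Ideal.eq_top_iff_one _).2 h1P)
      · intro a b hab
        obtain ⟨P, hP, habP⟩ := (hmem _).1 hab
        rcases (hc hP).1.mem_or_mem habP with h | h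
        · exact Or.inl ((hmem a).2 ⟨P, hP, h⟩)
        · exact Or.inr ((hmem b).2 ⟨P, hP, h⟩)
    · exact sSup_le fun z hz => (hc hz).2.1
    · exact sSup_le fun z hz => (hc hz).2.2) r0 ⟨h0, h1, h2⟩
  refine ⟨m, hm2.prop.1, hm1, hm2.prop.2.1, hm2.prop.2.2, fun P hP hmP hP1 hP2 => ?_⟩
  exact le_antisymm (hm2.le_of_ge ⟨hP, hP1, hP2⟩ hmP) hmP

theorem UC.mono {N M : ℕ} {C : Type u} [CommRing C] (h : UC N C) (hNM : N ≤ M) : UC M C := by
  intro a b
  rcases h a b with h | h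
  · exact Or.inl (h.trans (pow_dvd_pow a hNM))
  · exact Or.inr (h.trans (pow_dvd_pow b hNM))

end Pool.Agent.Lib.MP958bd4.ZL
end

section
set_option autoImplicit false
universe u
namespace Pool.Agent.Lib.MP958bd4

open IsLocalRing

namespace FINM

/-- the quotient pair -/
theorem pair_false (hN2 : SpecNOW2.{u}) (hPAIR : SpecPAIR.{u}) (hWUC : SpecWUC.{u})
    (hSC : ShelahConjecture.{u}) (A : Type u) [CommRing A] [IsDomain A] (hA : NIPRing A)
    (p₁ p₂ : Ideal A) (h1 : p₁.IsPrime) (h2 : p₂.IsPrime) (h12 : ¬ p₁ ≤ p₂) (h21 : ¬ p₂ ≤ p₁)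
    (h : ∀ P : Ideal A, P.IsPrime → P ≤ p₁ → P ≤ p₂ → P = ⊥) : False := by
  obtain ⟨N1, hN1, hu1⟩ := hWUC A p₁ (hN2 hSC A hA p₁ h1)
  obtain ⟨N2, hN2', hu2⟩ := hWUC A p₂ (hN2 hSC A hA p₂ h2)
  exact hPAIR hSC A hA p₁ p₂ h12 h21 h (max N1 N2) (lt_of_lt_of_le hN1 (le_max_left _ _))
    (ZL.UC.mono hu1 (le_max_left _ _)) (ZL.UC.mono hu2 (le_max_right _ _))

/-- transfer from `A / r` -/
theorem quot_pair {A : Type u} [CommRing A] (r p₁ p₂ : Ideal A) (hr : r.IsPrime)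
    (h1 : p₁.IsPrime) (h2 : p₂.IsPrime) (hr1 : r ≤ p₁) (hr2 : r ≤ p₂) (h12 : ¬ p₁ ≤ p₂)
    (h21 : ¬ p₂ ≤ p₁)
    (h : ∀ P : Ideal A, P.IsPrime → r ≤ P → P ≤ p₁ → P ≤ p₂ → P = r) :
    (p₁.map (Ideal.Quotient.mk r)).IsPrime ∧ (p₂.map (Ideal.Quotient.mk r)).IsPrime ∧
    ¬ p₁.map (Ideal.Quotient.mk r) ≤ p₂.map (Ideal.Quotient.mk r) ∧
    ¬ p₂.map (Ideal.Quotient.mk r) ≤ p₁.map (Ideal.Quotient.mk r) ∧
    ∀ P : Ideal (A ⧸ r), P.IsPrime → P ≤ p₁.map (Ideal.Quotient.mk r) →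
      P ≤ p₂.map (Ideal.Quotient.mk r) → P = ⊥ := by
  have hs : Function.Surjective (Ideal.Quotient.mk r) := Ideal.Quotient.mk_surjective
  have hk : ∀ p : Ideal A, r ≤ p → (p.map (Ideal.Quotient.mk r)).comap (Ideal.Quotient.mk r) = p := by
    intro p hp
    rw [Ideal.comap_map_of_surjective _ hs, ← RingHom.ker_eq_comap_bot, Ideal.mk_ker]
    exact sup_eq_left.2 hp
  have hpr : ∀ p : Ideal A, p.IsPrime → r ≤ p → (p.map (Ideal.Quotient.mk r)).IsPrime := by
    intro p hp hrp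
    exact Ideal.map_isPrime_of_surjective hs (by rwa [Ideal.mk_ker])
  have hle : ∀ p q : Ideal A, r ≤ p → r ≤ q →
      p.map (Ideal.Quotient.mk r) ≤ q.map (Ideal.Quotient.mk r) → p ≤ q := by
    intro p q hp hq hpq
    rw [← hk p hp, ← hk q hq]
    exact Ideal.comap_mono hpq
  refine ⟨hpr _ h1 hr1, hpr _ h2 hr2, fun hh => h12 (hle _ _ hr1 hr2 hh),
    fun hh => h21 (hle _ _ hr2 hr1 hh), fun P hP hP1 hP2 => ?_⟩
  have hrP : r ≤ P.comap (Ideal.Quotient.mk r) := by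
    intro x hx
    rw [Ideal.mem_comap, Ideal.Quotient.eq_zero_iff_mem.2 hx]
    exact P.zero_mem
  have := h (P.comap (Ideal.Quotient.mk r)) (hP.comap _) hrP
    (by rw [← hk p₁ hr1]; exact Ideal.comap_mono hP1)
    (by rw [← hk p₂ hr2]; exact Ideal.comap_mono hP2)
  rw [← Ideal.map_comap_of_surjective _ hs P, this, Ideal.map_quotient_self]

/-- a henselian local ring from its localization at the maximal ideal -/
theorem of_localization {R : Type u} [CommRing R] [IsLocalRing R]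
    (h : HenselianLocalRing (Localization.AtPrime (maximalIdeal R))) : HenselianLocalRing R := by
  let L := Localization.AtPrime (maximalIdeal R)
  let e : R ≃ₐ[R] L := IsLocalization.atUnits R (maximalIdeal R).primeCompl (by
    intro x hx
    have : x ∉ maximalIdeal R := hx
    rwa [mem_maximalIdeal, mem_nonunits_iff, not_not] at this)
  have hmem : ∀ x : R, e x ∈ maximalIdeal L ↔ x ∈ maximalIdeal R := by
    intro x
    rw [mem_maximalIdeal, mem_maximalIdeal, mem_nonunits_iff, mem_nonunits_iff, not_iff_not]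
    exact MulEquiv.isUnit_map e
  refine { is_henselian := ?_ }
  intro f hf a₀ h1 h2
  have he : ∀ (g : Polynomial R) (a : R), (g.map (e : R →+* L)).eval (e a) = e (g.eval a) := by
    intro g a
    have := Polynomial.eval_map_apply (f := (e : R →+* L)) (p := g) a
    exact this
  obtain ⟨b, hb, hb'⟩ := h.is_henselian (f.map (e : R →+* L)) (hf.map _) (e a₀)
    (by rw [he]; exact (hmem _).2 h1)
    (by rw [Polynomial.derivative_map, he]; exact (MulEquiv.isUnit_map e).2 h2)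
  refine ⟨e.symm b, ?_, ?_⟩
  · apply e.injective
    rw [← he, e.apply_symm_apply, map_zero]
    exact hb
  · rw [← hmem, map_sub, e.apply_symm_apply]
    exact hb'

end FINM

theorem specFIN (hNE : SpecNIPEQ.{u}) (hX : SpecX.{u}) (hN2 : SpecNOW2.{u}) (hPAIR : SpecPAIR.{u})
    (hWUC : SpecWUC.{u}) (hQ : SpecQNIP.{u}) : SpecFIN.{u} := by
  intro hSC R _ _ hR
  have hR' : NIPRing R := (hNE R).1 hR
  have hloc : IsLocalRing R := by
    refine IsLocalRing.of_unique_max_ideal ?_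
    obtain ⟨M, hM⟩ := Ideal.exists_maximal R
    refine ⟨M, hM, fun M' hM' => ?_⟩
    by_contra hne
    have h12 : ¬ M ≤ M' := fun h => hne (hM.eq_of_le hM'.ne_top h).symm
    have h21 : ¬ M' ≤ M := fun h => hne (hM'.eq_of_le hM.ne_top h)
    have hb : (⊥ : Ideal R).IsPrime := Ideal.isPrime_bot
    obtain ⟨r, hr, _, hr1, hr2, hmax⟩ := ZL.exists_max (⊥ : Ideal R) M M' hb bot_le bot_le
    obtain ⟨q1, q2, q3, q4, q5⟩ := FINM.quot_pair r M M' hr hM.isPrime hM'.isPrime hr1 hr2 h12 h21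
      hmax
    haveI := hr
    exact FINM.pair_false hN2 hPAIR hWUC hSC (R ⧸ r) (hQ R r hr hR') _ _ q1 q2 q3 q4 q5
  haveI := hloc
  obtain ⟨N, hN, hu⟩ := hWUC R (maximalIdeal R) (hN2 hSC R hR' _ inferInstance)
  exact FINM.of_localization (hX hSC R hR' (maximalIdeal R) N hN hu)

end Pool.Agent.Lib.MP958bd4
end

section
set_option autoImplicit false
universe u
namespace Pool.Agent.Lib.MP958bd4

open IsLocalRing

namespace NOW2M

/-- some NIP domain has rank exactly `l` at some prime -/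
def Ex (l : ℕ) : Prop := ∃ (A : Type u) (_ : CommRing A) (_ : IsDomain A) (q : Ideal A),
  NIPRing A ∧ q.IsPrime ∧ Wr l q ∧ ¬ Wr (l + 1) q

theorem wr_mono (hWM : SpecWM.{u}) {A : Type u} [CommRing A] (q : Ideal A) (hq : q.IsPrime)
    {k l : ℕ} (hkl : k ≤ l) (h : Wr l q) : Wr k q := by
  induction l, hkl using Nat.le_induction with
  | base => exact h
  | succ l _ ih => exact ih (hWM A q hq l h)

theorem exists_rank (hWM : SpecWM.{u}) (A : Type u) [CommRing A] [IsDomain A]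
    (hA : NIPRing A) (q : Ideal A) (hq : q.IsPrime) (h : Wr 2 q) (b : ℕ) (hb : ¬ Wr b q) :
    ∃ l, 2 ≤ l ∧ l < b ∧ Ex.{u} l := by
  classical
  have h2b : 2 ≤ b := by
    by_contra hlt
    exact hb (wr_mono hWM q hq (by omega) h)
  let P : ℕ → Prop := fun l => 2 ≤ l ∧ ¬ Wr l q
  have hP : ∃ l, P l := ⟨b, h2b, hb⟩
  have hl := Nat.find_spec hP
  have hmin : ∀ m, m < Nat.find hP → ¬ P m := fun m hm => Nat.find_min hP hm
  have hlb : Nat.find hP ≤ b := Nat.find_min' hP ⟨h2b, hb⟩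
  have hne : Nat.find hP ≠ 2 := by
    intro h2
    apply hl.2
    rw [h2]
    exact h
  have hgt : 3 ≤ Nat.find hP := by
    have := hl.1
    omega
  refine ⟨Nat.find hP - 1, by omega, by omega, A, inferInstance, inferInstance, q, hA, hq, ?_, ?_⟩
  · by_contra hw
    exact hmin (Nat.find hP - 1) (by omega) ⟨by omega, hw⟩
  · rw [show Nat.find hP - 1 + 1 = Nat.find hP by omega]
    exact hl.2

end NOW2M

theorem specNOW2 (hWB : SpecWB.{u}) (hWM : SpecWM.{u}) (hWUC : SpecWUC.{u}) (hWS : SpecWSAT.{u})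
    (hWR : SpecWRED.{u}) (hQ : SpecQNIP.{u}) (hPAIR : SpecPAIR.{u}) : SpecNOW2.{u} := by
  classical
  intro hSC A _ _ hA q hq hw
  -- a minimal rank
  have hex : ∃ l, 2 ≤ l ∧ NOW2M.Ex.{u} l := by
    obtain ⟨b, hb⟩ := hWB A hA
    obtain ⟨l, h2, _, h3⟩ := NOW2M.exists_rank hWM A hA q hq hw b (hb q hq)
    exact ⟨l, h2, h3⟩
  obtain ⟨h2, B, _, _, p, hB, hp, hpl, hpl'⟩ := Nat.find_spec hex
  have hmin : ∀ m, m < Nat.find hex → ¬ (2 ≤ m ∧ NOW2M.Ex.{u} m) := fun m hm => Nat.find_min hex hm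
  generalize hl : Nat.find hex = l at h2 hpl hpl' hmin
  obtain ⟨A', _, _, q', z₁, z₂, hA', hq', hz₁, hz₂, hz, htr⟩ :=
    hWS B hB p hp (NOW2M.wr_mono hWM p hp h2 hpl)
  obtain ⟨r, p₁, p₂, hr, hp1, hp2, hr1, hr2, h12, h21, hmax, hw1, hw2⟩ :=
    hWR A' q' z₁ z₂ hq' hz₁ hz₂ hz l h2 (fun h => hpl' (htr _ h))
  obtain ⟨q1, q2, q3, q4, q5⟩ := FINM.quot_pair r p₁ p₂ hr hp1 hp2 hr1 hr2 h12 h21 hmax
  have := hr
  have hQr : NIPRing (A' ⧸ r) := hQ A' r hr hA'
  have key : ∀ s : Ideal (A' ⧸ r), s.IsPrime → ¬ Wr l s → ¬ Wr 2 s := by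
    intro s hs hnl h2'
    obtain ⟨m, hm2, hml, hm⟩ := NOW2M.exists_rank hWM (A' ⧸ r) hQr s hs h2' l hnl
    exact hmin m hml ⟨hm2, hm⟩
  obtain ⟨N1, hN1, hu1⟩ := hWUC (A' ⧸ r) _ (key _ q1 hw1)
  obtain ⟨N2, hN2', hu2⟩ := hWUC (A' ⧸ r) _ (key _ q2 hw2)
  exact hPAIR hSC (A' ⧸ r) hQr _ _ q3 q4 q5 (max N1 N2) (lt_of_lt_of_le hN1 (le_max_left _ _))
    (ZL.UC.mono hu1 (le_max_left _ _)) (ZL.UC.mono hu2 (le_max_right _ _))

end Pool.Agent.Lib.MP958bd4
end

section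
set_option autoImplicit false
universe u
namespace Pool.Agent.Lib.MP958bd4

theorem specX (hXP : SpecXP.{u}) (hULT : SpecULT.{u}) : SpecX.{u} := by
  intro hSC A _ _ hA q _ N hN hu
  obtain ⟨C, _, _, _, hC, hsat, hnip, htr⟩ := hULT A hA q N hu
  exact htr (hXP hSC C N hN hC hsat hnip)

end Pool.Agent.Lib.MP958bd4
end

section
/-!
# MP_958bd4_lc: the main theorem, assembled from all modules
-/
set_option autoImplicit false

universe u

namespace Pool.Agent.Lib.MP958bd4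

namespace MainM

theorem all_of (hHD : SpecHD.{u}) (hLEMA : SpecLEMA.{u}) : SpecFIN.{u} := by
  have dpoly : SpecDPOLY.{u} := specDPOLY
  have she : SpecSHE.{u} := specSHE hHD
  have rsys : SpecRSYS.{u} := specRSYS she
  have ind : SpecIND.{u} := specIND
  have int : SpecINT.{u} := specINT dpoly
  have mti : SpecMTI.{u} := specMTI rsys ind dpoly
  have qnip : SpecQNIP.{u} := specQNIP rsys ind int dpoly
  have nloc : SpecNLOC.{u} := specNLOC mti
  have unip : SpecUNIP.{u} := specUNIP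
  have ult : SpecULT.{u} := specULT unip nloc
  have tay : SpecTAY.{u} := specTAY
  have pers : SpecPERS.{u} := specPERS tay
  have rcf : SpecRCF.{u} := specRCF specRCI
  have sct : SpecSCT.{u} := specSCT specNIPEQ int dpoly specRTOP specHTOP specVTOP rcf
  have spl : SpecSPL.{u} := specSPL (specSPLl specNAK)
  have bdd : SpecBDD.{u} := specBDD (specBDDl specNAK tay specBND)
  have sat2 : SpecSAT2.{u} := specSAT2 specNEW
  have uni : SpecUNI.{u} := specUNI hLEMA specLOC specSCALE dpoly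
  have t1 : SpecT1.{u} := specT1 (specROPEN tay) (specSOPEN pers) specNEW
  have t1n : SpecT1N.{u} := specT1N t1 dpoly
  have step : SpecSTEP.{u} := specSTEP specZRN sat2 spl bdd specCBD sct specDENS
  have chn : SpecCHN.{u} := specCHN step t1n
  have xp : SpecXP.{u} := specXP dpoly specZRN sat2 spl bdd specCBD sct specDENS specIPP uni chn
  have x : SpecX.{u} := specX xp ult
  have pair : SpecPAIR.{u} := specPAIR mti specIND2 specRTOP specHTOP specIPP hLEMA x dpoly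
  have now2 : SpecNOW2.{u} := specNOW2 specWB specWM specWUC (specWSAT unip) specWRED qnip pair
  exact specFIN specNIPEQ x now2 pair specWUC qnip

end MainM

/-- The Shelah conjecture implies the generalized henselianity conjecture. -/
theorem main : ShelahConjecture.{u} → GeneralizedHenselianityConjecture.{u} := by
  have sqr : SpecSQR.{u} := specSQR (specPERS specTAY)
  have lema : SpecLEMA.{u} := specLEMA sqr (specAMPTS sqr) (specAMCOE specAMEIG specAMDEG specAMNZ)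
    specAMPOL (specAMSIG (specPERS specTAY)) (specAMBR sqr) specAMBSD (specAMCT specRTOP)
  exact MainM.all_of (specHD (specHDL specHDS)) lema

end Pool.Agent.Lib.MP958bd4
end
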