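import Mathlib

/-!
# MP_958bd4_lc: the Shelah conjecture implies the generalized henselianity conjecture

The statement. `NIP` is defined exactly as in the problem: no formula has the independence property
in the complete theory.
-/

set_option autoImplicit false

universe u

namespace Pool.Agent.Lib.MP958bd4

open FirstOrder FirstOrder.Language

/-- The formula `φ(x; y)` has the independence property in the theory `T`: in some model `N` of `T`
there are tuples `a i` (`i : ℕ`) and `b s` (`s` a set of natural numbers) such that `φ (a i; b s)`
holds iff `i ∈ s`. -/
def HasIP {L : FirstOrder.Language.{0, 0}} (T : L.Theory) {n m : ℕ} (φ : L.Formula (Fin n ⊕ Fin m)) : Prop :=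
  ∃ (N : Type u) (_ : L.Structure N), N ⊨ T ∧ ∃ (a : ℕ → Fin n → N) (b : Set ℕ → Fin m → N),
    ∀ (i : ℕ) (s : Set ℕ), φ.Realize (Sum.elim (a i) (b s)) ↔ i ∈ s

/-- The structure `M` is NIP: no formula has the independence property in its complete theory. -/
def IsNIP (L : FirstOrder.Language.{0, 0}) (M : Type u) [L.Structure M] : Prop :=
  ∀ (n m : ℕ) (φ : L.Formula (Fin n ⊕ Fin m)), ¬ HasIP.{u} (L.completeTheory M) φ

/-- The commutative ring `R` is NIP as a structure in the language of rings. -/
def IsNIPRing (R : Type u) [CommRing R] : Prop :=
  letI := Ring.compatibleRingOfRing R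
  IsNIP FirstOrder.Language.ring R

/-- The subset `X` of the commutative ring `R` is definable with parameters in the language of
rings. -/
def IsDefinable (R : Type u) [CommRing R] (X : Set R) : Prop :=
  letI := Ring.compatibleRingOfRing R
  (Set.univ : Set R).Definable₁ FirstOrder.Language.ring X

/-- The Shelah conjecture: every NIP field is finite, separably closed, real closed, or admits a
definable henselian valuation (a nontrivial henselian valuation whose valuation ring is
definable with parameters in the language of rings). -/
def ShelahConjecture : Prop :=
  ∀ (K : Type u) [Field K], IsNIPRing K →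
    Finite K ∨ IsSepClosed K ∨ IsRealClosed K ∨
      ∃ O : ValuationSubring K, O ≠ ⊤ ∧ HenselianLocalRing O ∧ IsDefinable K (O : Set K)

/-- The generalized henselianity conjecture: every NIP integral domain is a henselian local
ring. -/
def GeneralizedHenselianityConjecture : Prop :=
  ∀ (R : Type u) [CommRing R] [IsDomain R], IsNIPRing R → HenselianLocalRing R

end Pool.Agent.Lib.MP958bd4
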