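import Pool.Agent.Lib.MP_958bd4_lc.CurveDefs

section
/-!
# Fermat curves have no nonconstant rational points
-/
namespace Pool.Agent.Lib.MP_958bd4_lc

open Polynomial

variable {K : Type*} [Field K]

theorem const_of_units {a b : K[X]} (ha : IsUnit a) (hb : IsUnit b) :
    ∃ c : K, algebraMap K[X] (RatFunc K) a / algebraMap K[X] (RatFunc K) b = RatFunc.C c := by
  obtain ⟨u, -, rfl⟩ := isUnit_iff.1 ha
  obtain ⟨v, -, rfl⟩ := isUnit_iff.1 hb
  exact ⟨u / v, by rw [RatFunc.algebraMap_C, RatFunc.algebraMap_C, map_div₀]⟩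

theorem const_of_pow_eq_one {n : ℕ} {b : RatFunc K} (h : b ^ n = 1) (hn : n ≠ 0) :
    ∃ c : K, b = RatFunc.C c := by
  have hd : b.denom ≠ 0 := RatFunc.denom_ne_zero b
  have hd' : algebraMap K[X] (RatFunc K) b.denom ≠ 0 := RatFunc.algebraMap_ne_zero hd
  have h1 : b.num ^ n = b.denom ^ n := by
    apply RatFunc.algebraMap_injective K
    rw [map_pow, map_pow]
    rw [← RatFunc.num_div_denom b, div_pow, div_eq_one_iff_eq (pow_ne_zero _ hd')] at h
    exact h
  have hc := RatFunc.isCoprime_num_denom b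
  have hu1 : IsUnit b.num := by
    have : b.num ∣ b.denom ^ n := h1 ▸ dvd_pow_self _ hn
    exact (hc.pow_right (n := n)).isUnit_of_dvd' dvd_rfl this
  have hu2 : IsUnit b.denom := by
    have : b.denom ∣ b.num ^ n := h1 ▸ dvd_pow_self _ hn
    exact (hc.pow_left (m := n)).isUnit_of_dvd' this dvd_rfl
  obtain ⟨c, hcc⟩ := const_of_units hu1 hu2
  exact ⟨c, by rw [← RatFunc.num_div_denom b]; exact hcc⟩

theorem const_of_fermat [CharZero K] {n : ℕ} (hn : 3 ≤ n) {a b : RatFunc K}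
    (h : a ^ n + b ^ n = 1) : (∃ c : K, a = RatFunc.C c) ∧ ∃ c : K, b = RatFunc.C c := by
  have hn0 : n ≠ 0 := by omega
  by_cases ha : a = 0
  · subst ha
    rw [zero_pow hn0, zero_add] at h
    exact ⟨⟨0, by simp⟩, const_of_pow_eq_one h hn0⟩
  by_cases hb : b = 0
  · subst hb
    rw [zero_pow hn0, add_zero] at h
    exact ⟨const_of_pow_eq_one h hn0, ⟨0, by simp⟩⟩
  have hda : algebraMap K[X] (RatFunc K) a.denom ≠ 0 :=
    RatFunc.algebraMap_ne_zero (RatFunc.denom_ne_zero a)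
  have hdb : algebraMap K[X] (RatFunc K) b.denom ≠ 0 :=
    RatFunc.algebraMap_ne_zero (RatFunc.denom_ne_zero b)
  have hna : a.num ≠ 0 := by rwa [Ne, RatFunc.num_eq_zero_iff]
  have hnb : b.num ≠ 0 := by rwa [Ne, RatFunc.num_eq_zero_iff]
  have heq : (a.num * b.denom) ^ n + (b.num * a.denom) ^ n = (a.denom * b.denom) ^ n := by
    apply RatFunc.algebraMap_injective K
    rw [map_add, map_pow, map_pow, map_pow, map_mul, map_mul, map_mul]
    have h2 := h
    rw [← RatFunc.num_div_denom a, ← RatFunc.num_div_denom b] at h2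
    rw [div_pow, div_pow, div_add_div _ _ (pow_ne_zero _ hda) (pow_ne_zero _ hdb),
      div_eq_one_iff_eq (mul_ne_zero (pow_ne_zero _ hda) (pow_ne_zero _ hdb))] at h2
    rw [mul_pow, mul_pow, mul_pow, ← h2]
    ring
  obtain ⟨d, a', b', c', ⟨e1, e2, e3⟩, u1, u2, u3⟩ :=
    fermatLastTheoremWith'_polynomial (k := K) hn (Nat.cast_ne_zero.2 hn0) _ _ _
      (mul_ne_zero hna (RatFunc.denom_ne_zero b)) (mul_ne_zero hnb (RatFunc.denom_ne_zero a))
      (mul_ne_zero (RatFunc.denom_ne_zero a) (RatFunc.denom_ne_zero b)) heq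
  have hd : d ≠ 0 := by
    rintro rfl
    rw [mul_zero] at e3
    exact mul_ne_zero (RatFunc.denom_ne_zero a) (RatFunc.denom_ne_zero b) e3
  have hd' : algebraMap K[X] (RatFunc K) d ≠ 0 := RatFunc.algebraMap_ne_zero hd
  obtain ⟨x, hx⟩ := const_of_units u1 u3
  obtain ⟨y, hy⟩ := const_of_units u2 u3
  refine ⟨⟨x, ?_⟩, ⟨y, ?_⟩⟩
  · rw [← hx, ← mul_div_mul_right _ _ hd', ← map_mul, ← map_mul, ← e1, ← e3, map_mul, map_mul,
      mul_div_mul_right _ _ hdb, RatFunc.num_div_denom]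
  · rw [← hy, ← mul_div_mul_right _ _ hd', ← map_mul, ← map_mul, ← e2, ← e3, map_mul, map_mul,
      mul_comm (algebraMap K[X] (RatFunc K) a.denom), mul_div_mul_right _ _ hda,
      RatFunc.num_div_denom]

theorem noRationalCurve_fermat [CharZero K] {n : ℕ} (hn : 3 ≤ n) :
    NoRationalCurve (fermat K n) := by
  intro f hf
  have h1 := hf _ (Finset.mem_singleton_self _)
  rw [map_sub, map_add, map_pow, map_pow, MvPolynomial.aeval_X, MvPolynomial.aeval_X,
    map_one, sub_eq_zero] at h1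
  obtain ⟨h2, h3⟩ := const_of_fermat hn h1
  intro i
  fin_cases i
  · exact h2
  · exact h3

theorem nontrivial_fermat {n : ℕ} (hn : 3 ≤ n) : (Points (fermat K n)).Nontrivial := by
  have hn0 : n ≠ 0 := by omega
  refine ⟨![1, 0], ?_, ![0, 1], ?_, ?_⟩
  · intro s hs
    rw [fermat, Finset.mem_singleton] at hs
    subst hs
    simp [hn0]
  · intro s hs
    rw [fermat, Finset.mem_singleton] at hs
    subst hs
    simp [hn0]
  · intro h
    have := congrFun h 0
    simp at this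

end Pool.Agent.Lib.MP_958bd4_lc
end

section
/-!
# The topology of a subring
-/
namespace Pool.Agent.Lib.MP_958bd4_lc

open Topology Filter

variable {K : Type*} [Field K]

/-- The properties of the ring that are used. -/
structure Good (R : Subring K) (m₀ : K) : Prop where
  frac : ∀ x : K, ∃ a ∈ R, ∃ b ∈ R, b ≠ 0 ∧ x = a / b
  mem : m₀ ∈ R
  ne : m₀ ≠ 0
  unit : ∀ r ∈ R, 1 + m₀ * r ≠ 0 ∧ (1 + m₀ * r)⁻¹ ∈ R

/-- The coset `x + a R`. -/
def coset (R : Subring K) (x a : K) : Set K := {y | ∃ r ∈ R, y = x + a * r}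

theorem mem_coset_self (R : Subring K) (x a : K) : x ∈ coset R x a := ⟨0, R.zero_mem, by simp⟩

theorem isOpen_coset {R : Subring K} (x a : K) (ha : a ≠ 0) :
    IsOpen[ringTopology R] (coset R x a) :=
  TopologicalSpace.GenerateOpen.basic _ ⟨x, a, ha, rfl⟩

namespace Good

variable {R : Subring K} {m₀ : K} (hR : Good R m₀)

include hR

theorem common {a b : K} (ha : a ≠ 0) (hb : b ≠ 0) :
    ∃ c : K, c ≠ 0 ∧ (∃ r ∈ R, c = a * r) ∧ ∃ r ∈ R, c = b * r := by
  obtain ⟨p, hp, q, hq, hq0, rfl⟩ := hR.frac a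
  obtain ⟨p', hp', q', hq', hq0', rfl⟩ := hR.frac b
  have hp0 : p ≠ 0 := by rintro rfl; simp at ha
  have hp0' : p' ≠ 0 := by rintro rfl; simp at hb
  refine ⟨p * p', mul_ne_zero hp0 hp0', ⟨q * p', mul_mem hq hp', by field_simp⟩,
    ⟨q' * p, mul_mem hq' hp, by field_simp⟩⟩

theorem common_list (l : List K) (hl : ∀ a ∈ l, a ≠ 0) :
    ∃ c : K, c ≠ 0 ∧ ∀ a ∈ l, ∃ r ∈ R, c = a * r := by
  induction l with
  | nil => exact ⟨1, one_ne_zero, by simp⟩
  | cons a l ih =>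
    obtain ⟨c, hc, h⟩ := ih fun b hb => hl b (List.mem_cons_of_mem _ hb)
    obtain ⟨d, hd, h1, h2⟩ := hR.common (hl a List.mem_cons_self) hc
    refine ⟨d, hd, fun b hb => ?_⟩
    rcases List.mem_cons.1 hb with rfl | hb
    · exact h1
    · obtain ⟨r, hr, e⟩ := h b hb
      obtain ⟨s, hs, e'⟩ := h2
      exact ⟨r * s, mul_mem hr hs, by rw [e', e]; ring⟩

theorem isBasis : @TopologicalSpace.IsTopologicalBasis K (ringTopology R)
    {U | ∃ x a : K, a ≠ 0 ∧ U = {y | ∃ r ∈ R, y = x + a * r}} := by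
  let _ := ringTopology R
  refine ⟨?_, ?_, rfl⟩
  · rintro _ ⟨x, a, ha, rfl⟩ _ ⟨y, b, hb, rfl⟩ z ⟨⟨r, hr, hz⟩, ⟨s, hs, hz'⟩⟩
    obtain ⟨c, hc, ⟨p, hp, h1⟩, ⟨q, hq, h2⟩⟩ := hR.common ha hb
    refine ⟨_, ⟨z, c, hc, rfl⟩, ⟨0, R.zero_mem, by simp⟩, ?_⟩
    rintro u ⟨t, ht, rfl⟩
    refine ⟨⟨r + p * t, add_mem hr (mul_mem hp ht), ?_⟩, ⟨s + q * t, add_mem hs (mul_mem hq ht), ?_⟩⟩
    · rw [h1]; nth_rewrite 1 [hz]; ring
    · rw [h2]; nth_rewrite 1 [hz']; ring
  · refine Set.eq_univ_of_forall fun x => ?_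
    exact ⟨_, ⟨x, 1, one_ne_zero, rfl⟩, ⟨0, R.zero_mem, by simp⟩⟩

theorem hasBasis (x : K) : (@nhds K (ringTopology R) x).HasBasis (fun a : K => a ≠ 0)
    (fun a => coset R x a) := by
  let _ := ringTopology R
  refine ⟨fun s => ?_⟩
  rw [hR.isBasis.mem_nhds_iff]
  constructor
  · rintro ⟨_, ⟨y, a, ha, rfl⟩, ⟨r, hr, hx⟩, hs⟩
    refine ⟨a, ha, ?_⟩
    rintro u ⟨t, ht, rfl⟩
    exact hs ⟨r + t, add_mem hr ht, by rw [hx]; ring⟩
  · rintro ⟨a, ha, hs⟩
    exact ⟨_, ⟨x, a, ha, rfl⟩, ⟨0, R.zero_mem, by simp⟩, hs⟩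

theorem coset_mem (x : K) {a : K} (ha : a ≠ 0) : coset R x a ∈ @nhds K (ringTopology R) x :=
  (hR.hasBasis x).mem_of_mem ha

theorem isTopologicalDivisionRing : @IsTopologicalDivisionRing K _ (ringTopology R) := by
  classical
  let _ := ringTopology R
  have hadd : ContinuousAdd K := by
    refine ⟨continuous_iff_continuousAt.2 ?_⟩
    rintro ⟨x, y⟩
    rw [ContinuousAt, nhds_prod_eq]
    refine (hR.hasBasis (x + y)).tendsto_right_iff.2 fun a ha => ?_
    refine Filter.mem_of_superset (prod_mem_prod (hR.coset_mem x ha) (hR.coset_mem y ha)) ?_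
    rintro ⟨u, v⟩ ⟨⟨r, hr, hu⟩, ⟨s, hs, hv⟩⟩
    exact ⟨r + s, add_mem hr hs, by simp only at hu hv ⊢; rw [hu, hv]; ring⟩
  have hneg : ContinuousNeg K := by
    refine ⟨continuous_iff_continuousAt.2 fun x => ?_⟩
    refine (hR.hasBasis (-x)).tendsto_right_iff.2 fun a ha => ?_
    refine Filter.mem_of_superset (hR.coset_mem x ha) ?_
    rintro u ⟨r, hr, hu⟩
    exact ⟨-r, neg_mem hr, by rw [hu]; ring⟩
  have hmul : ContinuousMul K := by
    refine ⟨continuous_iff_continuousAt.2 ?_⟩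
    rintro ⟨x, y⟩
    rw [ContinuousAt, nhds_prod_eq]
    refine (hR.hasBasis (x * y)).tendsto_right_iff.2 fun a ha => ?_
    obtain ⟨c, hc, hl⟩ := hR.common_list [1, a, if x = 0 then 1 else a / x,
      if y = 0 then 1 else a / y] (by
        intro b hb
        simp only [List.mem_cons, List.not_mem_nil, or_false] at hb
        rcases hb with rfl | rfl | rfl | rfl
        · exact one_ne_zero
        · exact ha
        · split_ifs with h
          · exact one_ne_zero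
          · exact div_ne_zero ha h
        · split_ifs with h
          · exact one_ne_zero
          · exact div_ne_zero ha h)
    obtain ⟨r1, hr1, e1⟩ := hl 1 (by simp)
    obtain ⟨r2, hr2, e2⟩ := hl a (by simp)
    have h3 : ∃ r ∈ R, c * x = a * r := by
      obtain ⟨r3, hr3, e3⟩ := hl (if x = 0 then 1 else a / x) (by simp)
      split_ifs at e3 with h
      · exact ⟨0, zero_mem _, by rw [h]; ring⟩
      · exact ⟨r3, hr3, by rw [e3]; field_simp⟩
    have h4 : ∃ r ∈ R, c * y = a * r := by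
      obtain ⟨r3, hr3, e3⟩ := hl (if y = 0 then 1 else a / y) (by simp)
      split_ifs at e3 with h
      · exact ⟨0, zero_mem _, by rw [h]; ring⟩
      · exact ⟨r3, hr3, by rw [e3]; field_simp⟩
    obtain ⟨r3, hr3, e3⟩ := h3
    obtain ⟨r4, hr4, e4⟩ := h4
    refine Filter.mem_of_superset (prod_mem_prod (hR.coset_mem x hc) (hR.coset_mem y hc)) ?_
    rintro ⟨u, v⟩ ⟨⟨r, hr, hu⟩, ⟨s, hs, hv⟩⟩
    refine ⟨r3 * s + r4 * r + r2 * r1 * r * s, ?_, ?_⟩
    · exact add_mem (add_mem (mul_mem hr3 hs) (mul_mem hr4 hr))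
        (mul_mem (mul_mem (mul_mem hr2 hr1) hr) hs)
    · simp only at hu hv ⊢
      rw [hu, hv]
      have e5 : c * c = a * (r2 * r1) := by
        nth_rewrite 2 [e1]
        rw [e2]
        ring
      calc (x + c * r) * (y + c * s) = x * y + (c * x) * s + (c * y) * r + (c * c) * (r * s) := by
            ring
        _ = _ := by rw [e3, e4, e5]; ring
  have hring : IsTopologicalRing K := { }
  refine { toIsTopologicalRing := hring, toContinuousInv₀ := ⟨fun x hx => ?_⟩ }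
  refine (hR.hasBasis x⁻¹).tendsto_right_iff.2 fun a ha => ?_
  obtain ⟨c, hc, ⟨r1, hr1, e1⟩, ⟨r2, hr2, e2⟩⟩ := hR.common (mul_ne_zero hx hR.ne)
    (mul_ne_zero (mul_ne_zero hx hx) ha)
  refine Filter.mem_of_superset (hR.coset_mem x hc) ?_
  rintro u ⟨r, hr, hu⟩
  obtain ⟨h0, hinv⟩ := hR.unit (r1 * r) (mul_mem hr1 hr)
  have hu' : u = x * (1 + m₀ * (r1 * r)) := by rw [hu, e1]; ring
  refine ⟨-(r2 * r * (1 + m₀ * (r1 * r))⁻¹), neg_mem (mul_mem (mul_mem hr2 hr) hinv), ?_⟩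
  rw [hu', mul_inv]
  have e3 : a * r2 = m₀ * r1 / x := by
    have : x * m₀ * r1 = x * x * a * r2 := e1.symm.trans e2
    field_simp
    have h := mul_left_cancel₀ hx (by linear_combination this : x * (m₀ * r1) = x * (x * a * r2))
    linear_combination -h
  have e4 : x⁻¹ + a * -(r2 * r * (1 + m₀ * (r1 * r))⁻¹) =
      x⁻¹ - (a * r2) * r * (1 + m₀ * (r1 * r))⁻¹ := by ring
  rw [e4, e3]
  have e5 : x⁻¹ - m₀ * r1 / x * r * (1 + m₀ * (r1 * r))⁻¹ =
      x⁻¹ * ((1 + m₀ * (r1 * r)) * (1 + m₀ * (r1 * r))⁻¹ -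
        m₀ * (r1 * r) * (1 + m₀ * (r1 * r))⁻¹) := by
    rw [mul_inv_cancel₀ h0]
    ring
  rw [e5]
  ring

theorem t2 : @T2Space K (ringTopology R) := by
  let _ := ringTopology R
  refine ⟨fun x y hxy => ?_⟩
  have ha : (x - y) * m₀ ≠ 0 := mul_ne_zero (sub_ne_zero.2 hxy) hR.ne
  refine ⟨coset R x ((x - y) * m₀), coset R y ((x - y) * m₀), isOpen_coset _ _ ha,
    isOpen_coset _ _ ha, mem_coset_self _ _ _, mem_coset_self _ _ _, ?_⟩
  rw [Set.disjoint_left]
  rintro u ⟨r, hr, hu⟩ ⟨s, hs, hu'⟩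
  have h1 : (x - y) * (1 + m₀ * (r - s)) = 0 := by
    have := hu.symm.trans hu'
    linear_combination this
  exact (hR.unit (r - s) (sub_mem hr hs)).1 ((mul_eq_zero.1 h1).resolve_left (sub_ne_zero.2 hxy))

theorem nondiscrete : ¬ @DiscreteTopology K (ringTopology R) := by
  intro h
  let _ := ringTopology R
  have h1 : ({0} : Set K) ∈ 𝓝 (0 : K) := (isOpen_discrete _).mem_nhds rfl
  obtain ⟨a, ha, hs⟩ := (hR.hasBasis 0).mem_iff.1 h1
  have h2 : a ∈ ({0} : Set K) := hs ⟨1, one_mem _, by ring⟩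
  exact ha h2

/-- The ring topology is independent of every V-topology for which the ring is unbounded. -/
theorem independent {t : TopologicalSpace K} (ht : IsVTopology t) {U₁ U₀ : Set K}
    (hU₀ : U₀ ∈ @nhds K t 0) (hsub : ∀ x ∈ U₀, ∀ y ∈ U₀, x - y ∈ U₁)
    (hunb : ∀ e : K, e ≠ 0 → ∃ r ∈ R, e * r ∉ U₁) : Independent t (ringTopology R) := by
  intro U V hU hV ⟨c, hc⟩ ⟨b, hb⟩
  let _ := t
  have := ht.field
  -- a basic neighbourhood in V
  have hVb : V ∈ @nhds K (ringTopology R) b := @IsOpen.mem_nhds K (ringTopology R) _ _ hV hb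
  obtain ⟨a, ha, hVs⟩ := (hR.hasBasis b).mem_iff.1 hVb
  -- we may assume that a is in R
  obtain ⟨a₁, ha₁, a₂, ha₂, ha₂0, rfl⟩ := hR.frac a
  have ha₁0 : a₁ ≠ 0 := by rintro rfl; simp at ha
  have hV1 : ∀ r ∈ R, b + a₁ * r ∈ V := fun r hr =>
    hVs ⟨a₂ * r, mul_mem ha₂ hr, by field_simp⟩
  obtain ⟨p, hp, q, hq, hq0, hpq⟩ := hR.frac (c - b)
  -- a neighbourhood of zero
  have hU' : {x : K | c + -(c - b) * x ∈ U} ∈ 𝓝 (0 : K) := by
    have hcont : Continuous fun x : K => c + -(c - b) * x := by fun_prop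
    exact hcont.continuousAt.preimage_mem_nhds (by simpa using hU.mem_nhds hc)
  obtain ⟨W, hW, hWV⟩ := ht.vprop _ (Filter.inter_mem hU' hU₀)
  -- choose a nonzero element of W
  obtain ⟨c', hc'W, hc'0⟩ : ∃ c' ∈ W, c' ≠ 0 := by
    by_contra hcon
    push Not at hcon
    apply ht.nondiscrete
    have h0 : ({0} : Set K) ∈ 𝓝 (0 : K) := Filter.mem_of_superset hW fun x hx => hcon x hx
    refine discreteTopology_iff_singleton_mem_nhds.2 fun x => ?_
    have hcont : Continuous fun y : K => y - x := by fun_prop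
    have h1 := hcont.continuousAt.preimage_mem_nhds (x := x) (t := {0}) (by simpa using h0)
    refine Filter.mem_of_superset h1 fun y hy => ?_
    exact sub_eq_zero.1 hy
  -- find r with (1 + m₀ a₁ q r)⁻¹ in the neighbourhood
  have hex : ∃ r ∈ R, (1 + m₀ * (a₁ * q * r))⁻¹ ∈ {x : K | c + -(c - b) * x ∈ U} := by
    by_contra hcon
    push Not at hcon
    have hall : ∀ r ∈ R, c' * (1 + m₀ * (a₁ * q * r)) ∈ U₀ := by
      intro r hr
      have h1 := (hR.unit (a₁ * q * r) (mul_mem (mul_mem ha₁ hq) hr)).1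
      have h2 : c' * (1 + m₀ * (a₁ * q * r)) * (1 + m₀ * (a₁ * q * r))⁻¹ ∈ W := by
        rwa [mul_assoc, mul_inv_cancel₀ h1, mul_one]
      rcases hWV _ _ h2 with h3 | h3
      · exact h3.2
      · exact absurd h3.1 (hcon r hr)
    obtain ⟨r, hr, hru⟩ := hunb (c' * m₀ * a₁ * q)
      (mul_ne_zero (mul_ne_zero (mul_ne_zero hc'0 hR.ne) ha₁0) hq0)
    apply hru
    have := hsub _ (hall r hr) _ (hall 0 (zero_mem _))
    convert this using 1
    ring
  obtain ⟨r, hr, hrU⟩ := hex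
  obtain ⟨h0, hinv⟩ := hR.unit (a₁ * q * r) (mul_mem (mul_mem ha₁ hq) hr)
  have key : c + -(c - b) * (1 + m₀ * (a₁ * q * r))⁻¹ =
      b + a₁ * (p * m₀ * r * (1 + m₀ * (a₁ * q * r))⁻¹) := by
    have h1 : (c - b) * ((1 + m₀ * (a₁ * q * r)) * (1 + m₀ * (a₁ * q * r))⁻¹ -
        (1 + m₀ * (a₁ * q * r))⁻¹) =
        a₁ * (p * m₀ * r * (1 + m₀ * (a₁ * q * r))⁻¹) := by
      rw [hpq]
      field_simp
      ring
    rw [mul_inv_cancel₀ h0] at h1
    linear_combination h1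
  refine ⟨_, hrU, ?_⟩
  rw [key]
  exact hV1 _ (mul_mem (mul_mem (mul_mem hp hR.mem) hr) hinv)

end Good

/-- If the points of a variety are isolated in the ring topology, the induced topology on
the variety is discrete. -/
theorem discreteTopology_points {R : Subring K} {m : ℕ}
    {S : Finset (MvPolynomial (Fin m) K)}
    (h : ∀ P ∈ Points S, ∃ a : K, a ≠ 0 ∧ ∀ Q ∈ Points S,
      (∀ i, ∃ r ∈ R, Q i = P i + a * r) → Q = P) :
    @DiscreteTopology (Points S) (pointsTopology (ringTopology R) S) := by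
  let _ := ringTopology R
  refine discreteTopology_iff_isOpen_singleton.2 fun P => ?_
  obtain ⟨a, ha, h1⟩ := h P.1 P.2
  rw [isOpen_induced_iff]
  refine ⟨Set.pi Set.univ fun i => coset R (P.1 i) a,
    isOpen_set_pi Set.finite_univ fun i _ => isOpen_coset _ _ ha, ?_⟩
  ext Q
  simp only [Set.mem_preimage, Set.mem_pi, Set.mem_univ, true_implies, Set.mem_singleton_iff]
  constructor
  · intro hQ
    exact Subtype.ext (h1 Q.1 Q.2 hQ)
  · rintro rfl i
    exact mem_coset_self _ _ _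

theorem not_independent_of_discrete {m : ℕ} {t t' : TopologicalSpace K}
    (ht : @T2Space K t) {S : Finset (MvPolynomial (Fin m) K)}
    (h : @DiscreteTopology (Points S) (pointsTopology t' S)) (hS : (Points S).Nontrivial) :
    ¬ Independent (pointsTopology t S) (pointsTopology t' S) := by
  intro hI
  obtain ⟨P, hP, Q, hQ, hPQ⟩ := hS
  have h1 : IsOpen[pointsTopology t' S] {(⟨P, hP⟩ : Points S)} := h.1 ▸ trivial
  have h2 : IsOpen[pointsTopology t S] {(⟨P, hP⟩ : Points S)}ᶜ := by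
    let _ := t
    rw [isOpen_induced_iff]
    refine ⟨{P}ᶜ, isOpen_compl_singleton, ?_⟩
    ext z
    simp [Subtype.ext_iff]
  obtain ⟨z, hz, hz'⟩ := hI _ _ h2 h1 ⟨⟨Q, hQ⟩, fun e => hPQ (congrArg Subtype.val e).symm⟩
    ⟨_, rfl⟩
  exact hz hz'

end Pool.Agent.Lib.MP_958bd4_lc
end
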