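import Mathlib

/-!
# A local ring with a given fraction field, built along a tower of subfields
-/

namespace Pool.Agent.Lib.MP_958bd4_lc

open Polynomial

variable {K : Type*} [Field K]

/-- The ring of all `p(w)/q(w)` with `q(0) = 1` and `p(0) ∈ R`. -/
def stepRing (M : Subfield K) (R : Subring K) (w : K) : Subring K where
  carrier := {z | ∃ p q : M[X], q.coeff 0 = 1 ∧ ((p.coeff 0 : M) : K) ∈ R ∧
    z * aeval w q = aeval w p}
  mul_mem' := by
    rintro a b ⟨p, q, hq, hp, h⟩ ⟨p', q', hq', hp', h'⟩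
    refine ⟨p * p', q * q', by simp [mul_coeff_zero, hq, hq'], ?_, ?_⟩
    · rw [mul_coeff_zero]; push_cast; exact R.mul_mem hp hp'
    · rw [map_mul, map_mul, ← h, ← h']; ring
  one_mem' := ⟨1, 1, by simp, by simp, by simp⟩
  add_mem' := by
    rintro a b ⟨p, q, hq, hp, h⟩ ⟨p', q', hq', hp', h'⟩
    refine ⟨p * q' + p' * q, q * q', by simp [mul_coeff_zero, hq, hq'], ?_, ?_⟩
    · rw [coeff_add, mul_coeff_zero, mul_coeff_zero, hq, hq', mul_one, mul_one]
      push_cast; exact R.add_mem hp hp'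
    · rw [map_mul, map_add, map_mul, map_mul, ← h, ← h']; ring
  zero_mem' := ⟨0, 1, by simp, by simp, by simp⟩
  neg_mem' := by
    rintro a ⟨p, q, hq, hp, h⟩
    refine ⟨-p, q, hq, ?_, ?_⟩
    · rw [coeff_neg]; push_cast; exact R.neg_mem hp
    · rw [map_neg, ← h]; ring

theorem mem_stepRing {M : Subfield K} {R : Subring K} {w z : K} :
    z ∈ stepRing M R w ↔ ∃ p q : M[X], q.coeff 0 = 1 ∧ ((p.coeff 0 : M) : K) ∈ R ∧
      z * aeval w q = aeval w p := Iff.rfl

theorem aeval_inj {M : Subfield K} {w : K} (hw : Transcendental M w) {p q : M[X]}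
    (h : aeval w p = aeval w q) : p = q :=
  (transcendental_iff_injective.1 hw) h

theorem aeval_ne_zero {M : Subfield K} {w : K} (hw : Transcendental M w) {q : M[X]}
    (hq : q ≠ 0) : aeval w q ≠ 0 := fun h =>
  hq (aeval_inj hw (h.trans (map_zero _).symm))

theorem le_stepRing {M : Subfield K} {R : Subring K} {w : K} (hRM : ∀ x ∈ R, x ∈ M) :
    R ≤ stepRing M R w := by
  intro x hx
  refine ⟨C ⟨x, hRM x hx⟩, 1, by simp, by simpa using hx, ?_⟩
  rw [map_one, mul_one, aeval_C]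
  rfl

theorem stepRing_inter {M : Subfield K} {R : Subring K} {w : K} (hw : Transcendental M w)
    {x : K} (hx : x ∈ stepRing M R w) (hxM : x ∈ M) : x ∈ R := by
  obtain ⟨p, q, hq, hp, h⟩ := hx
  have h1 : C (⟨x, hxM⟩ : M) * q = p := by
    apply aeval_inj hw
    rw [map_mul, ← h, aeval_C]
    rfl
  have h2 : p.coeff 0 = ⟨x, hxM⟩ := by
    rw [← h1, mul_coeff_zero, hq, mul_one, coeff_C_zero]
  rw [h2] at hp
  exact hp

theorem mul_mem_stepRing {M : Subfield K} {R : Subring K} {w : K} {x : K} (hx : x ∈ M) :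
    x * w ∈ stepRing M R w := by
  refine ⟨C ⟨x, hx⟩ * X, 1, by simp, by simp, ?_⟩
  rw [map_one, mul_one, map_mul, aeval_C, aeval_X]
  rfl

theorem div_not_mem_stepRing {M : Subfield K} {R : Subring K} {w : K}
    (hw : Transcendental M w) {x : K} (hx : x ∈ M) (hx0 : x ≠ 0) :
    x / w ∉ stepRing M R w := by
  rintro ⟨p, q, hq, hp, h⟩
  have hw0 : w ≠ 0 := by
    rintro rfl
    exact hw (isAlgebraic_zero)
  have h1 : C (⟨x, hx⟩ : M) * q = X * p := by
    apply aeval_inj hw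
    rw [map_mul, map_mul, ← h, aeval_C, aeval_X]
    change x * _ = _
    field_simp
  have h2 := congrArg (fun r => Polynomial.coeff r 0) h1
  simp only [mul_coeff_zero, hq, coeff_C_zero, coeff_X_zero, zero_mul, mul_one] at h2
  exact hx0 (congrArg Subtype.val h2)

theorem stepRing_inv {M : Subfield K} {R : Subring K} {w : K} (hw : Transcendental M w)
    {z : K} {p q : M[X]} (hq : q.coeff 0 = 1)
    (hz : z * aeval w q = aeval w p) (hp0 : p.coeff 0 ≠ 0)
    (hinv : (((p.coeff 0 : M) : K))⁻¹ ∈ R) : z⁻¹ ∈ stepRing M R w := by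
  refine ⟨C (p.coeff 0)⁻¹ * q, C (p.coeff 0)⁻¹ * p, ?_, ?_, ?_⟩
  · rw [mul_coeff_zero, coeff_C_zero, inv_mul_cancel₀ hp0]
  · rw [mul_coeff_zero, coeff_C_zero, hq, mul_one]
    push_cast
    exact hinv
  · have hp : p ≠ 0 := by rintro rfl; simp at hp0
    have hz0 : z ≠ 0 := by
      rintro rfl
      rw [zero_mul] at hz
      exact aeval_ne_zero hw hp hz.symm
    rw [map_mul, map_mul, ← hz]
    field_simp

/-- A tower of subfields with transcendental elements. -/
structure Tower (K : Type*) [Field K] where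
  F : ℕ → Subfield K
  w : ℕ → K
  mono : ∀ n, F n ≤ F (n + 1)
  cover : ∀ x : K, ∃ n, x ∈ F n
  mem : ∀ n, w n ∈ F (n + 1)
  tr : ∀ n, Transcendental (F n) (w n)

namespace Tower

variable (T : Tower K)

theorem monotone : Monotone T.F := monotone_nat_of_le_succ T.mono

/-- The rings of the tower. -/
def R : ℕ → Subring K
  | 0 => (T.F 0).toSubring
  | n + 1 => stepRing (T.F n) (R n) (T.w n)

theorem R_le_F (n : ℕ) : ∀ x ∈ T.R n, x ∈ T.F n := by
  induction n with
  | zero => exact fun x hx => hx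
  | succ n ih =>
    rintro x ⟨p, q, hq, hp, h⟩
    have hq0 : q ≠ 0 := by rintro rfl; simp at hq
    have h0 := aeval_ne_zero (T.tr n) hq0
    have key : ∀ r : (T.F n)[X], aeval (T.w n) r ∈ T.F (n + 1) := by
      intro r
      rw [aeval_eq_sum_range]
      refine Subfield.sum_mem _ fun i _ => ?_
      rw [Algebra.smul_def]
      exact mul_mem (T.mono n (r.coeff i).2) (pow_mem (T.mem n) i)
    rw [(eq_div_iff h0).2 h]
    exact div_mem (key p) (key q)

theorem R_mono : Monotone T.R := monotone_nat_of_le_succ fun n =>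
  le_stepRing (T.R_le_F n)

theorem R_inter_succ (n : ℕ) {x : K} (hx : x ∈ T.R (n + 1)) (hxF : x ∈ T.F n) : x ∈ T.R n :=
  stepRing_inter (T.tr n) hx hxF

theorem R_inter {n m : ℕ} (hnm : n ≤ m) {x : K} (hx : x ∈ T.R m) (hxF : x ∈ T.F n) :
    x ∈ T.R n := by
  induction hnm with
  | refl => exact hx
  | step h ih => exact ih (T.R_inter_succ _ hx (T.monotone h hxF))

/-- The union ring. -/
def ring : Subring K where
  carrier := {x | ∃ n, x ∈ T.R n}
  mul_mem' := by
    rintro a b ⟨n, hn⟩ ⟨m, hm⟩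
    exact ⟨max n m, mul_mem (T.R_mono (le_max_left _ _) hn) (T.R_mono (le_max_right _ _) hm)⟩
  one_mem' := ⟨0, one_mem _⟩
  add_mem' := by
    rintro a b ⟨n, hn⟩ ⟨m, hm⟩
    exact ⟨max n m, add_mem (T.R_mono (le_max_left _ _) hn) (T.R_mono (le_max_right _ _) hm)⟩
  zero_mem' := ⟨0, zero_mem _⟩
  neg_mem' := by
    rintro a ⟨n, hn⟩
    exact ⟨n, neg_mem hn⟩

theorem mem_ring {x : K} : x ∈ T.ring ↔ ∃ n, x ∈ T.R n := Iff.rfl

theorem ring_inter {n : ℕ} {x : K} (hx : x ∈ T.ring) (hxF : x ∈ T.F n) : x ∈ T.R n := by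
  obtain ⟨m, hm⟩ := hx
  rcases le_total n m with h | h
  · exact T.R_inter h hm hxF
  · exact T.R_mono h hm

theorem mul_w_mem {n : ℕ} {x : K} (hx : x ∈ T.F n) : x * T.w n ∈ T.ring :=
  ⟨n + 1, mul_mem_stepRing hx⟩

theorem w_mem (n : ℕ) : T.w n ∈ T.ring := by
  have := T.mul_w_mem (n := n) (x := 1) (one_mem _)
  rwa [one_mul] at this

theorem w_ne_zero (n : ℕ) : T.w n ≠ 0 := by
  intro h
  have := T.tr n
  rw [h] at this
  exact this isAlgebraic_zero

theorem div_w_not_mem {n : ℕ} {x : K} (hx : x ∈ T.F n) (hx0 : x ≠ 0) :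
    x / T.w n ∉ T.ring := by
  intro h
  have h1 : x / T.w n ∈ T.F (n + 1) := div_mem (T.mono n hx) (T.mem n)
  exact div_not_mem_stepRing (T.tr n) hx hx0 (T.ring_inter h h1)

/-- In the rings of the tower, `x` or `1 - x` is invertible. -/
theorem R_local (n : ℕ) : ∀ x ∈ T.R n, (x ≠ 0 ∧ x⁻¹ ∈ T.R n) ∨
    (1 - x ≠ 0 ∧ (1 - x)⁻¹ ∈ T.R n) := by
  induction n with
  | zero =>
    intro x hx
    have hx' : x ∈ T.F 0 := hx
    by_cases h : x = 0
    · right
      subst h
      simp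
    · left
      exact ⟨h, (T.F 0).inv_mem hx'⟩
  | succ n ih =>
    rintro x ⟨p, q, hq, hp, h⟩
    have hq0 : q ≠ 0 := by rintro rfl; simp at hq
    rcases ih _ hp with ⟨h1, h2⟩ | ⟨h1, h2⟩
    · left
      have hp0 : p.coeff 0 ≠ 0 := fun e => h1 (by rw [e]; rfl)
      have hp' : p ≠ 0 := by rintro rfl; simp at hp0
      refine ⟨?_, stepRing_inv (T.tr n) hq h hp0 h2⟩
      rintro rfl
      rw [zero_mul] at h
      exact aeval_ne_zero (T.tr n) hp' h.symm
    · right
      have hc : (q - p).coeff 0 = 1 - p.coeff 0 := by rw [coeff_sub, hq]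
      have hp0 : (q - p).coeff 0 ≠ 0 := by
        rw [hc]
        intro e
        exact h1 (by simpa using congrArg Subtype.val e)
      have hp' : q - p ≠ 0 := by
        intro e
        rw [e] at hp0
        simp at hp0
      have h3 : (1 - x) * aeval (T.w n) q = aeval (T.w n) (q - p) := by
        rw [map_sub, ← h]; ring
      refine ⟨?_, stepRing_inv (T.tr n) hq h3 hp0 ?_⟩
      · intro e
        rw [e, zero_mul] at h3
        exact aeval_ne_zero (T.tr n) hp' h3.symm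
      · rw [hc]
        push_cast
        exact h2

theorem ring_local {x : K} (hx : x ∈ T.ring) : (x ≠ 0 ∧ x⁻¹ ∈ T.ring) ∨
    (1 - x ≠ 0 ∧ (1 - x)⁻¹ ∈ T.ring) := by
  obtain ⟨n, hn⟩ := hx
  rcases T.R_local n x hn with ⟨h1, h2⟩ | ⟨h1, h2⟩
  · exact Or.inl ⟨h1, n, h2⟩
  · exact Or.inr ⟨h1, n, h2⟩

theorem isLocalRing : IsLocalRing T.ring := by
  refine IsLocalRing.of_isUnit_or_isUnit_one_sub_self fun x => ?_
  have key : ∀ y : T.ring, (y : K) ≠ 0 → (y : K)⁻¹ ∈ T.ring → IsUnit y := by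
    intro y h0 h1
    refine IsUnit.of_mul_eq_one ⟨_, h1⟩ ?_
    ext
    simp [h0]
  rcases T.ring_local x.2 with ⟨h1, h2⟩ | ⟨h1, h2⟩
  · exact Or.inl (key x h1 h2)
  · exact Or.inr (key (1 - x) h1 h2)

theorem exists_div (x : K) : ∃ a ∈ T.ring, ∃ b ∈ T.ring, b ≠ 0 ∧ x = a / b := by
  obtain ⟨n, hn⟩ := T.cover x
  refine ⟨x * T.w n, T.mul_w_mem hn, T.w n, T.w_mem n, T.w_ne_zero n, ?_⟩
  rw [mul_div_cancel_right₀ _ (T.w_ne_zero n)]

/-- `1 + w r` is invertible in the ring. -/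
theorem inv_one_add {r : K} (hr : r ∈ T.ring) :
    1 + T.w 0 * r ≠ 0 ∧ (1 + T.w 0 * r)⁻¹ ∈ T.ring := by
  have hwr : -(T.w 0 * r) ∈ T.ring := neg_mem (mul_mem (T.w_mem 0) hr)
  rcases T.ring_local hwr with ⟨h1, h2⟩ | ⟨h1, h2⟩
  · exfalso
    have h3 : r ≠ 0 := by rintro rfl; simp at h1
    have h4 : (1 : K) / T.w 0 ∈ T.ring := by
      have := mul_mem (neg_mem h2) hr
      have e : -(-(T.w 0 * r))⁻¹ * r = 1 / T.w 0 := by
        have := T.w_ne_zero 0
        field_simp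
      rwa [e] at this
    exact T.div_w_not_mem (one_mem _) one_ne_zero h4
  · rw [sub_neg_eq_add] at h1 h2
    exact ⟨h1, h2⟩

end Tower

end Pool.Agent.Lib.MP_958bd4_lc
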